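import Pool.Agent.Lib.MP_24597f_pr.Green

-- part Pool.Agent.Lib.MP_24597f_pr.Volt
section

/-!
Voltages to infinity and expected occupation times.
-/

open MeasureTheory Filter Topology Finset
open scoped ENNReal

namespace Pool.Agent.Lib.MP_24597f_pr

variable {d : ℕ} [NeZero d]

/-- Voltage at `x` of the unit current from `o` to infinity. -/
noncomputable def vI (q : Law d) (E : Set (Sym2 (V d))) (o x : V d) : ℝ≥0∞ :=
  ⨆ J : ℕ, ENNReal.ofReal (vlt q E J o x)

/-- Conductance as an extended nonnegative real. -/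
noncomputable def cE (q : Law d) (x : V d) (e : Dir d) : ℝ≥0∞ := ENNReal.ofReal (cond q x e)

lemma cE_ne_top (q : Law d) (x : V d) (e : Dir d) : cE q x e ≠ ⊤ := ENNReal.ofReal_ne_top

lemma cE_ne_zero (q : Law d) (x : V d) (e : Dir d) : cE q x e ≠ 0 :=
  (ENNReal.ofReal_pos.2 (cond_pos q x e)).ne'

lemma cE_opp {q : Law d} (hq : Rev q) (x : V d) (e : Dir d) :
    cE q (x + vec e) (opp e) = cE q x e := by rw [cE, cond_opp hq, cE]

/-- Total number of visits to `s`. -/
noncomputable def vis (E : Set (Sym2 (V d))) (o s : V d) (u : ℕ → Ins d) : ℝ≥0∞ :=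
  ∑' m, if walk E o u m = s then 1 else 0

lemma visW_mono (E : Set (Sym2 (V d))) (w : ℕ → ℝ≥0∞) (s x : V d) (u : ℕ → Ins d) {J J' : ℤ}
    (h : J ≤ J') : visW E J w s x u ≤ visW E J' w s x u := by
  refine ENNReal.tsum_le_tsum fun m => ?_
  split_ifs with h1 h2
  · exact le_rfl
  · exact absurd ⟨h1.1, fun k hk => (h1.2 k hk).trans_le h⟩ h2
  · exact zero_le
  · exact le_rfl

lemma vis_eq_iSup (E : Set (Sym2 (V d))) (o s : V d) (u : ℕ → Ins d) :
    vis E o s u = ⨆ J : ℕ, visW E J (fun _ => 1) s o u := by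
  refine le_antisymm ?_ (iSup_le fun J => ENNReal.tsum_le_tsum fun m => ?_)
  · unfold vis
    rw [ENNReal.tsum_eq_iSup_nat]
    refine iSup_le fun N => ?_
    obtain ⟨b, hb⟩ := ((range N).image fun k => lv (walk E o u k)).bddAbove
    refine le_iSup_of_le (b.toNat + 1) (le_trans (le_of_eq ?_) (ENNReal.sum_le_tsum (range N)))
    refine Finset.sum_congr rfl fun m hm => ?_
    have : alive E o u ((b.toNat + 1 : ℕ) : ℤ) m := fun k hk => by
      have := hb (mem_coe.2 (mem_image_of_mem (fun k => lv (walk E o u k))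
        (mem_range.2 (hk.trans_lt (mem_range.1 hm)))))
      omega
    simp only [this, and_true]
  · split_ifs with h1 h2
    · exact le_rfl
    · exact absurd h1.1 h2
    · exact zero_le
    · exact le_rfl

section

variable {q : Law d} (hq : Rev q) {E : Set (Sym2 (V d))} (h : Nice E) {o : V d}
  (ho : (allowed E o).Nonempty)
include hq h ho

lemma Nice.vlt_mono {x : V d} (hx : (allowed E x).Nonempty) :
    Monotone fun J : ℕ => ENNReal.ofReal (vlt q E J o x) := by
  intro J J' hJ
  have h1 : gW q E J (fun _ => 1) x o ≤ gW q E J' (fun _ => 1) x o :=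
    lintegral_mono fun u => visW_mono E _ x o u (by exact_mod_cast hJ)
  rw [h.gW_eq hq _ ho hx, h.gW_eq hq _ ho hx] at h1
  exact (ENNReal.mul_le_mul_iff_right (ENNReal.ofReal_pos.2 (pw_pos q hx)).ne'
    ENNReal.ofReal_ne_top).1 h1

lemma Nice.tendsto_vlt {x : V d} (hx : (allowed E x).Nonempty) :
    Tendsto (fun J : ℕ => ENNReal.ofReal (vlt q E J o x)) atTop (𝓝 (vI q E o x)) :=
  tendsto_atTop_iSup (h.vlt_mono hq ho hx)

lemma Nice.lintegral_vis {x : V d} (hx : (allowed E x).Nonempty) :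
    ∫⁻ u, vis E o x u ∂iid (drv q) = ENNReal.ofReal (pw q E x) * vI q E o x := by
  simp_rw [vis_eq_iSup]
  rw [lintegral_iSup (fun J => measurable_visW _ _ _ _ _)
    (fun J J' hJ u => visW_mono E _ x o u (by exact_mod_cast hJ)), vI, ENNReal.mul_iSup]
  exact iSup_congr fun J => h.gW_eq hq J ho hx

omit hq h ho in
lemma ofReal_vlt_le (J : ℕ) (x : V d) : ENNReal.ofReal (vlt q E J o x) ≤ vI q E o x :=
  le_iSup (fun J : ℕ => ENNReal.ofReal (vlt q E J o x)) J

lemma Nice.vlt_edge {J : ℤ} {x : V d} {e : Dir d} (he : e ∈ allowed E x) (hJ : lv x < J)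
    (hJ' : lv (x + vec e) < J) :
    cond q x e * |vlt q E J o x - vlt q E J o (x + vec e)| ≤ 1 := by
  obtain ⟨j, b⟩ := e
  cases b
  · have := (h.isVolt hq (J := J) ho).edge_le (a := (x + vec (j, false), j))
      (h.mem_DE.2 ⟨opp_mem_allowed.2 he, hJ'⟩)
    simp only [net] at this
    have e1 : cond q (x + vec (j, false)) (j, true) = cond q x (j, false) := cond_opp hq x (j, false)
    have e2 : x + vec (j, false) + vec (j, true) = x := by simp [false_eq_opp]
    rwa [e1, e2, abs_sub_comm] at this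
  · exact (h.isVolt hq (J := J) ho).edge_le (a := (x, j)) (h.mem_DE.2 ⟨he, hJ⟩)

lemma Nice.vI_edge {x : V d} {e : Dir d} (he : e ∈ allowed E x) :
    cE q x e * vI q E o x ≤ cE q x e * vI q E o (x + vec e) + 1 := by
  refine le_of_tendsto (ENNReal.Tendsto.const_mul (h.tendsto_vlt hq ho ⟨e, he⟩)
    (Or.inr (cE_ne_top q x e))) ?_
  filter_upwards [eventually_ge_atTop ((lv x).toNat + 2)] with J hJ
  have := lv_vec_le e
  have h1 := h.vlt_edge hq ho (J := J) he (by omega) (by rw [lv_add]; omega)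
  have hc := cond_pos q x e
  have h2 : cond q x e * vlt q E J o x ≤ cond q x e * vlt q E J o (x + vec e) + 1 := by
    have := le_abs_self (vlt q E J o x - vlt q E J o (x + vec e))
    nlinarith
  calc cE q x e * ENNReal.ofReal (vlt q E J o x) = ENNReal.ofReal (cond q x e * vlt q E J o x) :=
        (ENNReal.ofReal_mul hc.le).symm
    _ ≤ ENNReal.ofReal (cond q x e * vlt q E J o (x + vec e) + 1) := ENNReal.ofReal_le_ofReal h2
    _ ≤ ENNReal.ofReal (cond q x e * vlt q E J o (x + vec e)) + ENNReal.ofReal 1 :=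
        ENNReal.ofReal_add_le
    _ ≤ _ := by
        rw [ENNReal.ofReal_mul hc.le, ENNReal.ofReal_one]
        gcongr
        · exact le_rfl
        · exact ofReal_vlt_le J _

lemma Nice.vI_edge' {x : V d} {e : Dir d} (he : e ∈ allowed E x) :
    cE q x e * vI q E o (x + vec e) ≤ cE q x e * vI q E o x + 1 := by
  have := h.vI_edge hq ho (opp_mem_allowed.2 he)
  rwa [cE_opp hq, vec_opp, add_neg_cancel_right] at this

lemma Nice.vI_le_cut (h0 : ℤ) (z : V d)
    (hcut : ∀ w, lv w = h0 - 1 → up ∈ allowed E w → w + vec up = z) {x : V d}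
    (hx : (allowed E x).Nonempty) (hx0 : h0 ≤ lv x) {R : ℝ≥0∞}
    (hR : ∀ F : Finset (V d × Fin d), (∀ a ∈ F, (a.2, true) ∈ allowed E a.1 ∧ h0 ≤ lv a.1) →
      ∑ a ∈ F, (cE q a.1 (a.2, true))⁻¹ ≤ R) : vI q E o x ≤ R := by
  refine iSup_le fun J => ?_
  have h1 := (h.isVolt hq (J := J) ho).le_res (x := x)
    (Finset.sum_nonneg fun a _ => (inv_pos.2 ((net q).pos a)).le)
    (fun f hf => h.res_cut q J h0 z hcut hx hx0 f hf)
  refine (ENNReal.ofReal_le_ofReal h1).trans ?_
  rw [ENNReal.ofReal_sum_of_nonneg fun a _ => (inv_pos.2 ((net q).pos a)).le]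
  refine le_trans (le_of_eq (Finset.sum_congr rfl fun a _ => ?_)) (hR _ fun a ha => ?_)
  · rw [ENNReal.ofReal_inv_of_pos ((net q).pos a)]; rfl
  · exact ⟨(h.mem_DE.1 (mem_filter.1 ha).1).1, (mem_filter.1 ha).2⟩

lemma Nice.vI_compare {E' : Set (Sym2 (V d))} (h' : Nice E') (hE : E' ⊆ E)
    (ho' : (allowed E' o).Nonempty) (B : V d → Prop) (hBo : B o) (J0 : ℤ)
    (hB : ∀ z, B z → lv z < J0) {x y : V d} (hx : (allowed E x).Nonempty)
    (hy : (allowed E y).Nonempty)
    (hbd : ∀ w e, e ∈ allowed E w → B w → ¬ B (w + vec e) → w = x ∨ w = y) :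
    min (vI q E o x) (vI q E o y) ≤ max (vI q E' o x) (vI q E' o y) := by
  refine le_of_tendsto ((h.tendsto_vlt hq ho hx).min (h.tendsto_vlt hq ho hy)) ?_
  filter_upwards [eventually_ge_atTop J0.toNat] with J hJ
  have hD : DE E' J ⊆ DE E J := fun a ha =>
    h.mem_DE.2 ⟨allowed_mono hE _ (h'.mem_DE.1 ha).1, (h'.mem_DE.1 ha).2⟩
  have := Net.IsVolt.compare hD (h.isVolt hq (J := J) ho) (h'.isVolt hq (J := J) ho') B hBo
    (fun z hz hb => by have := hB z hb; omega) x y
    (fun a ha h1 h2 => hbd _ _ (h.mem_DE.1 ha).1 h1 h2)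
    (fun a ha h1 h2 => hbd _ _ (opp_mem_allowed.2 (h.mem_DE.1 ha).1) h2 (by simpa [net] using h1))
  have h2 := ENNReal.ofReal_le_ofReal this
  rw [ENNReal.ofReal_mono.map_min, ENNReal.ofReal_mono.map_max] at h2
  exact h2.trans (max_le_max (ofReal_vlt_le J x) (ofReal_vlt_le J y))

/-- Comparison for a pair joined by an edge that survives in the smaller graph. -/
lemma Nice.vI_compare_edge {E' : Set (Sym2 (V d))} (h' : Nice E') (hE : E' ⊆ E)
    (ho' : (allowed E' o).Nonempty) (B : V d → Prop) (hBo : B o) (J0 : ℤ)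
    (hB : ∀ z, B z → lv z < J0) {x : V d} {e0 : Dir d} (he0 : e0 ∈ allowed E' x)
    (hbd : ∀ w e, e ∈ allowed E w → B w → ¬ B (w + vec e) → w = x ∨ w = x + vec e0) :
    cE q x e0 * (vI q E o x + vI q E o (x + vec e0)) ≤
      cE q x e0 * (vI q E' o x + vI q E' o (x + vec e0)) + 2 := by
  have he := allowed_mono hE _ he0
  have h1 := h.vI_compare hq ho h' hE ho' B hBo J0 hB ⟨_, he⟩ ⟨_, opp_mem_allowed.2 he⟩ hbd
  have h2 := h.vI_edge hq ho he
  have h3 := h.vI_edge' hq ho he
  have h4 := h'.vI_edge hq ho' he0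
  have h5 := h'.vI_edge' hq ho' he0
  set c := cE q x e0
  set a := vI q E o x
  set b := vI q E o (x + vec e0)
  set a' := vI q E' o x
  set b' := vI q E' o (x + vec e0)
  have h6 : c * (a + b) ≤ c * min a b + c * min a b + 1 := by
    rcases le_total a b with hab | hab
    · rw [min_eq_left hab, mul_add, add_assoc]; gcongr
    · rw [min_eq_right hab, mul_add, add_comm (c * a), add_assoc]; gcongr
  have h7 : c * max a' b' + c * max a' b' ≤ c * (a' + b') + 1 := by
    rcases le_total a' b' with hab | hab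
    · rw [max_eq_right hab, mul_add, add_comm (c * a'), add_assoc]; gcongr
    · rw [max_eq_left hab, mul_add, add_assoc]; gcongr
  calc c * (a + b) ≤ c * min a b + c * min a b + 1 := h6
    _ ≤ c * max a' b' + c * max a' b' + 1 := by gcongr
    _ ≤ c * (a' + b') + 1 + 1 := by gcongr
    _ = _ := by rw [add_assoc, one_add_one_eq_two]

/-- The total current through a level gap is one. -/
lemma Nice.vI_flux (k : ℤ) (hk : lv o ≤ k) (C : Finset (V d))
    (hC : ∀ w, w ∈ C ↔ lv w = k ∧ up ∈ allowed E w) :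
    ∑ w ∈ C, cE q w up * vI q E o w = 1 + ∑ w ∈ C, cE q w up * vI q E o (w + vec up) := by
  have t1 : Tendsto (fun J : ℕ => ∑ w ∈ C, cE q w up * ENNReal.ofReal (vlt q E J o w)) atTop
      (𝓝 (∑ w ∈ C, cE q w up * vI q E o w)) :=
    tendsto_finsetSum _ fun w hw => ENNReal.Tendsto.const_mul
      (h.tendsto_vlt hq ho ⟨_, ((hC w).1 hw).2⟩) (Or.inr (cE_ne_top q _ _))
  have t2 : Tendsto (fun J : ℕ => 1 + ∑ w ∈ C, cE q w up *
      ENNReal.ofReal (vlt q E J o (w + vec up))) atTop
      (𝓝 (1 + ∑ w ∈ C, cE q w up * vI q E o (w + vec up))) :=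
    tendsto_const_nhds.add (tendsto_finsetSum _ fun w hw => ENNReal.Tendsto.const_mul
      (h.tendsto_vlt hq ho ⟨_, opp_mem_allowed.2 ((hC w).1 hw).2⟩) (Or.inr (cE_ne_top q _ _)))
  refine tendsto_nhds_unique_of_eventuallyEq t1 t2 ?_
  filter_upwards [eventually_ge_atTop (k.toNat + 1)] with J hJ
  have hv := h.isVolt hq (J := J) ho
  have h1 := hv.green (fun z => if lv z ≤ k then 1 else 0) fun z hz => if_neg (by omega)
  simp only [hk, if_true] at h1
  have h2 : (net q).En (DE E J) (vlt q E J o) (fun z => if lv z ≤ k then 1 else 0) =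
      ∑ w ∈ C, cond q w up * (vlt q E J o w - vlt q E J o (w + vec up)) := by
    have hinj : Set.InjOn (fun w : V d => (w, (0 : Fin d))) C := fun _ _ _ _ hh =>
      (Prod.mk.inj hh).1
    rw [← Finset.sum_image (f := fun a : V d × Fin d =>
      cond q a.1 up * (vlt q E J o a.1 - vlt q E J o (a.1 + vec up))) hinj]
    symm
    refine Finset.sum_subset_zero_on_sdiff ?_ ?_ ?_
    · intro a ha
      obtain ⟨w, hw, rfl⟩ := mem_image.1 ha
      have := (hC w).1 hw
      exact h.mem_DE.2 ⟨this.2, by simp only; omega⟩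
    · rintro ⟨w, j⟩ ha
      obtain ⟨ha1, ha2⟩ := mem_sdiff.1 ha
      have hj : ¬ (lv w = k ∧ j = 0) := by
        rintro ⟨h3, rfl⟩
        exact ha2 (mem_image.2 ⟨w, (hC w).2 ⟨h3, (h.mem_DE.1 ha1).1⟩, rfl⟩)
      have : (lv (w + vec (j, true)) ≤ k) ↔ lv w ≤ k := by
        rw [lv_add]
        rcases lv_vec_cases ((j, true) : Dir d) with ⟨h3, h4⟩ | ⟨h3, -⟩ | ⟨-, h4⟩
        · have : j = 0 := congrArg Prod.fst h3
          omega
        · simp [dn] at h3
        · omega
      change _ * (_ * ((if lv w ≤ k then 1 else 0) -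
        (if lv (w + vec (j, true)) ≤ k then 1 else 0))) = (0 : ℝ)
      by_cases hw : lv w ≤ k
      · rw [if_pos hw, if_pos (this.2 hw), sub_self, mul_zero, mul_zero]
      · rw [if_neg hw, if_neg (fun hh => hw (this.1 hh)), sub_self, mul_zero, mul_zero]
    · intro a ha
      obtain ⟨w, hw, rfl⟩ := mem_image.1 ha
      have := ((hC w).1 hw).1
      have e1 : vec ((0 : Fin d), true) = vec up := rfl
      simp only [net, e1, lv_add, lv_up, this, le_refl, if_true]
      rw [if_neg (by omega)]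
      simp [up]
  rw [h2] at h1
  have h3 : ∑ w ∈ C, cond q w up * vlt q E J o w =
      1 + ∑ w ∈ C, cond q w up * vlt q E J o (w + vec up) := by
    rw [← h1, ← Finset.sum_add_distrib]
    exact Finset.sum_congr rfl fun w _ => by ring
  have h4 := congrArg ENNReal.ofReal h3
  rw [ENNReal.ofReal_add zero_le_one
      (Finset.sum_nonneg fun w _ => mul_nonneg (cond_pos q _ _).le (hv.nonneg _)),
    ENNReal.ofReal_sum_of_nonneg fun w _ => mul_nonneg (cond_pos q _ _).le (hv.nonneg _),
    ENNReal.ofReal_sum_of_nonneg fun w _ => mul_nonneg (cond_pos q _ _).le (hv.nonneg _)] at h4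
  simpa only [ENNReal.ofReal_mul (cond_pos q _ _).le, ENNReal.ofReal_one, cE] using h4

/-- Expected total reward collected along the walk. -/
lemma Nice.lintegral_reward (ψ : V d → Dir d → ℝ≥0∞) :
    ∫⁻ u, ∑' m, ψ (walk E o u m) (stp E o u m) ∂iid (drv q) =
      ∑' x, ∑ e ∈ allowed E x, cE q x e * vI q E o x * ψ x e := by
  have hψ : Measurable (fun p : V d × Dir d => ψ p.1 p.2) := Measurable.of_discrete
  set Φ : V d → ℝ≥0∞ := fun x => ∑ e ∈ allowed E x, tp q E x e * ψ x e with hΦ
  have hΦm : Measurable Φ := Measurable.of_discrete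
  rw [lintegral_tsum (f := fun m u => ψ (walk E o u m) (stp E o u m)) fun m =>
    (hψ.comp (f := fun u => (walk E o u m, stp E o u m)) (by fun_prop)).aemeasurable]
  have e1 : ∀ m, ∫⁻ u, ψ (walk E o u m) (stp E o u m) ∂iid (drv q) =
      ∫⁻ u, Φ (walk E o u m) ∂iid (drv q) := fun m => by
    have := lintegral_stp q ho m (F := fun _ => 1) (fun _ _ _ => rfl) measurable_const ψ
    simpa only [one_mul] using this
  simp_rw [e1]
  rw [← lintegral_tsum (f := fun m u => Φ (walk E o u m)) fun m =>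
    (hΦm.comp (f := fun u => walk E o u m) (by fun_prop)).aemeasurable]
  have e2 : ∀ u, ∑' m, Φ (walk E o u m) = ∑' x, Φ x * vis E o x u := fun u => by
    simp_rw [vis, ← ENNReal.tsum_mul_left]
    rw [ENNReal.tsum_comm]
    refine tsum_congr fun m => ?_
    rw [tsum_eq_single (walk E o u m) fun x hx => by simp [Ne.symm hx]]
    simp
  have hvis : ∀ x, Measurable (vis E o x) := fun x =>
    Measurable.tsum fun m => Measurable.ite (measurableSet_eq_fun (by fun_prop) measurable_const)
      measurable_const measurable_const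
  simp_rw [e2]
  rw [lintegral_tsum fun x => ((hvis x).const_mul _).aemeasurable]
  refine tsum_congr fun x => ?_
  rw [lintegral_const_mul _ (hvis x)]
  rcases (allowed E x).eq_empty_or_nonempty with hx | hx
  · simp [hΦ, hx]
  · rw [h.lintegral_vis hq ho hx, hΦ, Finset.sum_mul]
    refine Finset.sum_congr rfl fun e _ => ?_
    have : tp q E x e * ENNReal.ofReal (pw q E x) = cE q x e := by
      rw [tp_eq, ← ENNReal.ofReal_mul (div_pos (cond_pos q x e) (pw_pos q hx)).le,
        div_mul_cancel₀ _ (pw_pos q hx).ne', cE]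
    rw [← this]; ring

end

/-- Number of times at which the path is below level `K`. -/
noncomputable def occ (K : ℤ) (x : ℕ → V d) : ℝ≥0∞ := ∑' m, if lv (x m) < K then 1 else 0

@[fun_prop] lemma measurable_occ (K : ℤ) : Measurable (occ K : (ℕ → V d) → ℝ≥0∞) :=
  Measurable.tsum fun m => Measurable.ite (measurableSet_lt (by fun_prop) measurable_const)
    measurable_const measurable_const

lemma Nice.lintegral_occ {q : Law d} (hq : Rev q) {E : Set (Sym2 (V d))} (h : Nice E) {o : V d}
    (ho : (allowed E o).Nonempty) (K : ℤ) :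
    ∫⁻ u, occ K (walk E o u) ∂iid (drv q) = ∑ a ∈ DE E K, cE q a.1 (a.2, true) *
      (vI q E o a.1 + if lv (a.1 + vec (a.2, true)) < K then vI q E o (a.1 + vec (a.2, true))
        else 0) := by
  have := h.lintegral_reward hq ho (fun x _ => if lv x < K then 1 else 0)
  unfold occ
  rw [this, tsum_eq_sum (s := SE E K), h.dart_sum K _ fun x e hx => by simp [not_lt.2 hx]]
  · refine Finset.sum_congr rfl fun a ha => ?_
    rw [if_pos (h.mem_DE.1 ha).2, false_eq_opp, cE_opp hq, mul_add]
    split_ifs <;> simp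
  · intro x hx
    rcases (allowed E x).eq_empty_or_nonempty with h1 | h1
    · simp [h1]
    · have : ¬ lv x < K := fun h2 => hx (h.mem_SE h1 h2)
      simp [this]

lemma Nice.ae_hit {q : Law d} (hq : Rev q) {E : Set (Sym2 (V d))} (h : Nice E) {o : V d}
    (ho : (allowed E o).Nonempty) : ∀ᵐ u ∂iid (drv q), ∀ J : ℤ, ∃ n, J ≤ lv (walk E o u n) := by
  rw [ae_all_iff]
  intro J
  have hfin : ∫⁻ u, ∑ x ∈ SE E J, visW E J (fun _ => 1) x o u ∂iid (drv q) ≠ ⊤ := by
    rw [lintegral_finsetSum _ fun x _ => measurable_visW _ _ _ _ _]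
    exact ENNReal.sum_ne_top.2 fun x hx => h.gW_ne_top hq J (h.SE_nonempty hx) ho
  filter_upwards [ae_lt_top (Finset.measurable_sum _ fun x _ => measurable_visW _ _ _ _ _) hfin]
    with u hu
  by_contra hc
  push Not at hc
  refine hu.ne (top_le_iff.1 ?_)
  unfold visW
  rw [← Summable.tsum_finsetSum fun _ _ => ENNReal.summable]
  calc (⊤ : ℝ≥0∞) = ∑' _ : ℕ, 1 := by simp
    _ ≤ _ := ENNReal.tsum_le_tsum fun m => by
      have hal : alive E o u J m := fun k _ => hc k
      refine le_trans ?_ (Finset.single_le_sum (fun _ _ => zero_le)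
        (h.mem_SE (allowed_walk_nonempty ho u m) (hc m)))
      simp [hal]

omit [NeZero d] in
lemma tsum_sq_le_two (a : ℕ → ℝ≥0∞) : (∑' m, a m) ^ 2 ≤ 2 * ∑' m, a m * ∑' k, a (m + k) := by
  have h1 : ∀ m, ∑' m', (if m ≤ m' then a m' else 0) = ∑' k, a (m + k) := fun m => by
    rw [← (add_right_injective m).tsum_eq (f := fun m' => if m ≤ m' then a m' else 0)]
    · simp
    · intro m' hm'
      have : m ≤ m' := by by_contra hc; simp [hc] at hm'
      exact ⟨m' - m, by simp only; omega⟩
  have h2 : ∑' m, ∑' m', a m * (if m ≤ m' then a m' else 0) = ∑' m, a m * ∑' k, a (m + k) :=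
    tsum_congr fun m => by rw [ENNReal.tsum_mul_left, h1]
  calc (∑' m, a m) ^ 2 = ∑' m, ∑' m', a m * a m' := by
        rw [sq, ← ENNReal.tsum_mul_right]
        exact tsum_congr fun i => by rw [ENNReal.tsum_mul_left]
    _ ≤ ∑' m, ∑' m', (a m * (if m ≤ m' then a m' else 0) + a m' * (if m' ≤ m then a m else 0)) := by
        refine ENNReal.tsum_le_tsum fun m => ENNReal.tsum_le_tsum fun m' => ?_
        rcases le_total m m' with h | h
        · rw [if_pos h]; exact le_self_add
        · rw [if_pos h, mul_comm (a m')]; exact le_add_self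
    _ = _ := by
        simp_rw [ENNReal.tsum_add]
        rw [h2, ENNReal.tsum_comm, h2, two_mul]

lemma lintegral_occ_sq (q : Law d) {E : Set (Sym2 (V d))} {o : V d}
    (ho : (allowed E o).Nonempty) (K : ℤ) {W : ℝ≥0∞}
    (hW : ∀ x, (allowed E x).Nonempty → ∫⁻ u, occ K (walk E x u) ∂iid (drv q) ≤ W) :
    ∫⁻ u, occ K (walk E o u) ^ 2 ∂iid (drv q) ≤ 2 * W ^ 2 := by
  have hm : ∀ m, Measurable fun u => if lv (walk E o u m) < K then (1 : ℝ≥0∞) else 0 := fun m =>
    Measurable.ite (measurableSet_lt (by fun_prop) measurable_const) measurable_const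
      measurable_const
  calc ∫⁻ u, occ K (walk E o u) ^ 2 ∂iid (drv q)
      ≤ ∫⁻ u, 2 * ∑' m, (if lv (walk E o u m) < K then 1 else 0) *
          occ K (walk E (walk E o u m) (sh m u)) ∂iid (drv q) := by
        refine lintegral_mono fun u => (tsum_sq_le_two _).trans (le_of_eq ?_)
        simp only [walk_add, occ]
    _ = 2 * ∑' m, ∫⁻ u, (if lv (walk E o u m) < K then 1 else 0) *
          occ K (walk E (walk E o u m) (sh m u)) ∂iid (drv q) := by
        rw [lintegral_const_mul' _ _ (by norm_num), lintegral_tsum fun m => ?_]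
        exact ((hm m).mul (by fun_prop)).aemeasurable
    _ ≤ 2 * ∑' m, ∫⁻ u, (if lv (walk E o u m) < K then 1 else 0) * W ∂iid (drv q) := by
        refine mul_le_mul' le_rfl (ENNReal.tsum_le_tsum fun m => ?_)
        rw [lintegral_restart q E o m (F := fun u => if lv (walk E o u m) < K then 1 else 0)
          (Φ := fun x u => occ K (walk E x u))
          (fun u u' huu => by simp only [dep_walk E o le_rfl u u' huu]) (hm m)
          (fun x => by fun_prop)]
        exact lintegral_mono fun u => mul_le_mul' le_rfl (hW _ (allowed_walk_nonempty ho u m))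
    _ = 2 * ((∫⁻ u, occ K (walk E o u) ∂iid (drv q)) * W) := by
        simp_rw [lintegral_mul_const _ (hm _)]
        rw [ENNReal.tsum_mul_right, ← lintegral_tsum fun m => (hm m).aemeasurable]
        rfl
    _ ≤ 2 * W ^ 2 := by rw [sq]; gcongr; exact hW o ho

end Pool.Agent.Lib.MP_24597f_pr
end

-- part Pool.Agent.Lib.MP_24597f_pr.Path
section

/-!
Deterministic facts about nearest-neighbour paths, their traces, cut times and blocks.
-/

open MeasureTheory Filter Topology Finset
open scoped ENNReal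

namespace Pool.Agent.Lib.MP_24597f_pr

variable {d : ℕ} [NeZero d]

/-- `x` is a nearest-neighbour path with steps `s`. -/
def Steps (x : ℕ → V d) (s : ℕ → Dir d) : Prop := ∀ m, x (m + 1) = x m + vec (s m)

omit [NeZero d] in
lemma steps_walk (E : Set (Sym2 (V d))) (a : V d) (u : ℕ → Ins d) :
    Steps (walk E a u) (stp E a u) := fun _ => rfl

/-- The path crosses from level `k - 1` to level `k` exactly once, at time `n`. -/
def Cut (x : ℕ → V d) (k : ℤ) (n : ℕ) : Prop :=
  (∀ m < n, lv (x m) < k) ∧ ∀ m, n ≤ m → k ≤ lv (x m)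

lemma Cut.unique {x : ℕ → V d} {k : ℤ} {n n' : ℕ} (h : Cut x k n) (h' : Cut x k n') : n = n' := by
  rcases lt_trichotomy n n' with h1 | h1 | h1
  · have := h'.1 n h1; have := h.2 n le_rfl; omega
  · exact h1
  · have := h.1 n' h1; have := h'.2 n' le_rfl; omega

lemma Steps.lv_succ {x : ℕ → V d} {s : ℕ → Dir d} (hs : Steps x s) (m : ℕ) :
    lv (x (m + 1)) = lv (x m) + lv (vec (s m)) := by rw [hs m, lv_add]

lemma Steps.ivt_down {x : ℕ → V d} {s : ℕ → Dir d} (hs : Steps x s) {a b : ℕ} {h : ℤ}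
    (hab : a ≤ b) (ha : h ≤ lv (x a)) (hb : lv (x b) < h) :
    ∃ m, a ≤ m ∧ m < b ∧ lv (x m) = h ∧ s m = dn := by
  induction b, hab using Nat.le_induction with
  | base => omega
  | succ b hab ih =>
    by_cases h1 : lv (x b) < h
    · obtain ⟨m, h2, h3, h4⟩ := ih h1
      exact ⟨m, h2, by omega, h4⟩
    · have := hs.lv_succ b
      rcases lv_vec_cases (s b) with h2 | h2 | h2
      · omega
      · exact ⟨b, hab, by omega, by omega, h2.1⟩
      · omega

lemma Steps.first_hit {x : ℕ → V d} {s : ℕ → Dir d} (hs : Steps x s) {k : ℤ} (h0 : lv (x 0) ≤ k)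
    (h : ∃ n, k ≤ lv (x n)) : ∃ n, lv (x n) = k ∧ ∀ m < n, lv (x m) < k := by
  classical
  refine ⟨Nat.find h, ?_, fun m hm => not_le.1 (Nat.find_min h hm)⟩
  have h1 := Nat.find_spec h
  rcases h2 : Nat.find h with _ | n
  · rw [h2] at h1; omega
  · rw [h2] at h1
    have h3 := Nat.find_min h (m := n) (by omega)
    have := hs.lv_succ n
    have := lv_vec_le (s n)
    omega

lemma Steps.le_time {x : ℕ → V d} {s : ℕ → Dir d} (hs : Steps x s) (n : ℕ) :
    lv (x n) ≤ lv (x 0) + n := by
  induction n with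
  | zero => simp
  | succ n ih => have := hs.lv_succ n; have := lv_vec_le (s n); push_cast; omega

lemma Steps.cut_lv {x : ℕ → V d} {s : ℕ → Dir d} (hs : Steps x s) {k : ℤ} {n : ℕ}
    (h : Cut x k (n + 1)) : lv (x (n + 1)) = k ∧ s n = up := by
  have h1 := h.1 n (by omega)
  have h2 := h.2 (n + 1) le_rfl
  have := hs.lv_succ n
  rcases lv_vec_cases (s n) with h3 | h3 | h3
  · exact ⟨by omega, h3.1⟩
  · omega
  · omega

omit [NeZero d] in
lemma mem_allowed_trace {x : ℕ → V d} {a : V d} {e : Dir d} : e ∈ allowed (trace x) a ↔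
    ∃ n, (x n = a ∧ x (n + 1) = a + vec e) ∨ (x n = a + vec e ∧ x (n + 1) = a) := by
  simp only [mem_allowed, trace, Set.mem_ofPred_eq, Sym2.eq_iff]
  refine exists_congr fun n => ?_
  constructor <;> rintro (⟨h1, h2⟩ | ⟨h1, h2⟩)
  exacts [Or.inl ⟨h1.symm, h2.symm⟩, Or.inr ⟨h2.symm, h1.symm⟩, Or.inl ⟨h1.symm, h2.symm⟩,
    Or.inr ⟨h2.symm, h1.symm⟩]

omit [NeZero d] in
lemma Steps.mem_allowed {x : ℕ → V d} {s : ℕ → Dir d} (hs : Steps x s) (n : ℕ) :
    s n ∈ allowed (trace x) (x n) := mem_allowed_trace.2 ⟨n, Or.inl ⟨rfl, hs n⟩⟩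

omit [NeZero d] in
lemma exists_time_of_allowed {x : ℕ → V d} {a : V d} {e : Dir d} (h : e ∈ allowed (trace x) a) :
    ∃ n, x n = a := by
  obtain ⟨n, h | h⟩ := mem_allowed_trace.1 h
  · exact ⟨n, h.1⟩
  · exact ⟨n + 1, h.2⟩

lemma Cut.cross {x : ℕ → V d} {k : ℤ} {n : ℕ} (h : Cut x k n) {w : V d} (hw : lv w = k - 1)
    (hup : up ∈ allowed (trace x) w) : w + vec up = x n := by
  obtain ⟨m, ⟨h1, h2⟩ | ⟨h1, h2⟩⟩ := mem_allowed_trace.1 hup
  · have h3 : m < n := by
      by_contra hc
      have := h.2 m (by omega); rw [h1] at this; omega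
    have h4 : n ≤ m + 1 := by
      by_contra hc
      have := h.1 (m + 1) (by omega); rw [h2, lv_add, lv_up] at this; omega
    rw [← h2]; congr 1; omega
  · have h3 : n ≤ m := by
      by_contra hc
      have := h.1 m (by omega); rw [h1, lv_add, lv_up] at this; omega
    have := h.2 (m + 1) (by omega)
    rw [h2] at this; omega

/-- The optional extra edge below the origin. -/
def bk (β : Bool) : Set (Sym2 (V d)) := {z | β = true ∧ z = s(0, vec dn)}

/-- The trace with the optional extra edge. -/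
def envB (β : Bool) (x : ℕ → V d) : Set (Sym2 (V d)) := trace x ∪ bk β

@[simp] lemma envB_false (x : ℕ → V d) : envB false x = trace x := by simp [envB, bk]

@[fun_prop] lemma measurable_envB (β : Bool) :
    Measurable (envB β : (ℕ → V d) → Set (Sym2 (V d))) := by
  refine measurable_set_iff.2 fun z => ?_
  exact (measurable_set_iff.1 measurable_trace z).or measurable_const

lemma mem_allowed_envB {β : Bool} {x : ℕ → V d} {a : V d} {e : Dir d} :
    e ∈ allowed (envB β x) a ↔ e ∈ allowed (trace x) a ∨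
      (β = true ∧ ((a = 0 ∧ e = dn) ∨ (a = vec dn ∧ e = up))) := by
  simp only [mem_allowed, envB, Set.mem_union, bk, Set.mem_ofPred_eq, Sym2.eq_iff]
  refine or_congr Iff.rfl (and_congr Iff.rfl (or_congr ?_ ?_))
  · constructor
    · rintro ⟨rfl, h⟩
      exact ⟨rfl, vec_injective (by simpa using h)⟩
    · rintro ⟨rfl, rfl⟩; simp
  · constructor
    · rintro ⟨rfl, h⟩
      refine ⟨rfl, vec_injective ?_⟩
      rw [vec_dn] at h
      linear_combination h
    · rintro ⟨rfl, rfl⟩; simp [vec_dn]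

lemma Steps.allowed_envB_nonempty {x : ℕ → V d} {s : ℕ → Dir d} (hs : Steps x s) (β : Bool)
    (n : ℕ) : (allowed (envB β x) (x n)).Nonempty :=
  ⟨s n, mem_allowed_envB.2 (Or.inl (hs.mem_allowed n))⟩

lemma below_mono {E E' : Set (Sym2 (V d))} (h : E' ⊆ E) (J : ℤ) : below E' J ⊆ below E J :=
  fun _ ha => ⟨allowed_mono h _ ha.1, ha.2⟩

lemma finite_below_envB {x : ℕ → V d} (β : Bool) (hx : ∀ J : ℤ, {n | lv (x n) < J}.Finite)
    (J : ℤ) : (below (envB β x) J).Finite := by
  have h1 : (insert (vec dn) (x '' {n | lv (x n) < J})).Finite := ((hx J).image x).insert _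
  refine (h1.prod (Set.finite_univ (α := Fin d))).subset ?_
  rintro ⟨a, j⟩ ⟨ha, hJ⟩
  refine ⟨?_, Set.mem_univ _⟩
  rcases mem_allowed_envB.1 ha with h | ⟨-, ⟨-, h⟩ | ⟨h, -⟩⟩
  · obtain ⟨n, hn⟩ := exists_time_of_allowed h
    exact Or.inr ⟨n, by simpa [hn] using hJ, hn⟩
  · simp [dn] at h
  · exact Or.inl h

lemma nice_envB {x : ℕ → V d} {s : ℕ → Dir d} (hs : Steps x s) (h0 : x 0 = 0) (β : Bool)
    (hub : ∀ J : ℤ, ∃ n, J ≤ lv (x n)) (hfin : ∀ J, (below (envB β x) J).Finite) :
    Nice (envB β x) where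
  fin := hfin
  conn J a ha := by
    have key : ∀ n, ∃ M, J ≤ lv (x (n + M)) := fun n => by
      obtain ⟨b, hb⟩ := ((range n).image fun k => lv (x k)).bddAbove
      obtain ⟨m, hm⟩ := hub (max J (b + 1))
      have : n ≤ m := by
        by_contra hc
        have := hb (mem_coe.2 (mem_image_of_mem (fun k => lv (x k)) (mem_range.2 (not_le.1 hc))))
        omega
      exact ⟨m - n, by rw [Nat.add_sub_cancel' this]; omega⟩
    have key2 : ∀ n, ∃ (y : ℕ → V d) (M : ℕ), y 0 = x n ∧
        (∀ m < M, ∃ e ∈ allowed (envB β x) (y m), y (m + 1) = y m + vec e) ∧ J ≤ lv (y M) :=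
      fun n => by
        obtain ⟨M, hM⟩ := key n
        exact ⟨fun m => x (n + m), M, rfl, fun m _ =>
          ⟨s (n + m), mem_allowed_envB.2 (Or.inl (hs.mem_allowed _)), hs _⟩, hM⟩
    obtain ⟨e, he⟩ := ha
    rcases mem_allowed_envB.1 he with h | ⟨hβ, ⟨h, -⟩ | ⟨h, -⟩⟩
    · obtain ⟨n, rfl⟩ := exists_time_of_allowed h
      exact key2 n
    · rw [h, ← h0]; exact key2 0
    · obtain ⟨M, hM⟩ := hub J
      refine ⟨fun m => Nat.casesOn m (vec dn) x, M + 1, h.symm, fun m _ => ?_, hM⟩
      rcases m with _ | m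
      · exact ⟨up, mem_allowed_envB.2 (Or.inr ⟨hβ, Or.inr ⟨rfl, rfl⟩⟩), by simp [h0, vec_dn]⟩
      · exact ⟨s m, mem_allowed_envB.2 (Or.inl (hs.mem_allowed _)), hs _⟩

lemma envB_walk_subset {β : Bool} {x : ℕ → V d} {s : ℕ → Dir d} (hs : Steps x s) (h0 : x 0 = 0)
    (u : ℕ → Ins d) : envB β (walk (envB β x) 0 u) ⊆ envB β x :=
  Set.union_subset (trace_walk_subset (h0 ▸ hs.allowed_envB_nonempty β 0) u)
    Set.subset_union_right

lemma Nice.ae_nice {q : Law d} (hq : Rev q) {β : Bool} {x : ℕ → V d} {s : ℕ → Dir d}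
    (hs : Steps x s) (h0 : x 0 = 0) (h : Nice (envB β x)) :
    ∀ᵐ u ∂iid (drv q), Nice (envB β (walk (envB β x) 0 u)) ∧
      ∀ J : ℤ, ∃ n, J ≤ lv (walk (envB β x) 0 u n) := by
  filter_upwards [h.ae_hit hq (h0 ▸ hs.allowed_envB_nonempty β 0)] with u hu
  exact ⟨nice_envB (steps_walk _ _ _) rfl β hu
    fun J => (h.fin J).subset (below_mono (envB_walk_subset hs h0 u) J), hu⟩

omit [NeZero d] in
lemma posEdge_inj {a b : V d × Fin d}
    (h : s(a.1, a.1 + vec (a.2, true)) = s(b.1, b.1 + vec (b.2, true))) : a = b := by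
  obtain ⟨x, j⟩ := a
  obtain ⟨y, k⟩ := b
  rcases Sym2.eq_iff.1 h with ⟨h1, h2⟩ | ⟨h1, h2⟩
  · simp only at h1 h2
    subst h1
    have := vec_injective (add_left_cancel h2)
    simp only [Prod.mk.injEq, and_true] at this
    rw [this]
  · simp only at h1 h2
    have h3 : vec ((j, true) : Dir d) = vec (opp (k, true)) := by
      rw [vec_opp]; linear_combination h2 - h1
    have := vec_injective h3
    simp [opp] at this

omit [NeZero d] in
/-- Summing over edges of a trace is dominated by summing over times. -/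
lemma sum_le_tsum_time (x : ℕ → V d) (F : Finset (V d × Fin d)) (φ : V d × Fin d → ℝ≥0∞)
    (ψ : ℕ → ℝ≥0∞) (h : ∀ a ∈ F, ∃ m, s(a.1, a.1 + vec (a.2, true)) = s(x m, x (m + 1)) ∧
      φ a ≤ ψ m) : ∑ a ∈ F, φ a ≤ ∑' m, ψ m := by
  classical
  choose! t ht using h
  have hinj : Set.InjOn t F := fun a ha b hb hab =>
    posEdge_inj (by rw [(ht a ha).1, (ht b hb).1, hab])
  calc ∑ a ∈ F, φ a ≤ ∑ a ∈ F, ψ (t a) := Finset.sum_le_sum fun a ha => (ht a ha).2
    _ = ∑ m ∈ F.image t, ψ m := (Finset.sum_image hinj).symm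
    _ ≤ _ := ENNReal.sum_le_tsum _

omit [NeZero d] in
lemma edge_cases {x : ℕ → V d} {s : ℕ → Dir d} (hs : Steps x s) {a : V d × Fin d} {m : ℕ}
    (h : s(a.1, a.1 + vec (a.2, true)) = s(x m, x (m + 1))) :
    (a.1 = x m ∧ s m = (a.2, true)) ∨ (a.1 = x (m + 1) ∧ s m = (a.2, false)) := by
  rcases Sym2.eq_iff.1 h with ⟨h1, h2⟩ | ⟨h1, h2⟩
  · refine Or.inl ⟨h1, vec_injective ?_⟩
    rw [hs m, ← h1] at h2
    exact (add_left_cancel h2).symm
  · refine Or.inr ⟨h1, vec_injective ?_⟩
    rw [false_eq_opp, vec_opp]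
    linear_combination h2 - h1 - hs m

lemma edge_cE {q : Law d} (hq : Rev q) {x : ℕ → V d} {s : ℕ → Dir d} (hs : Steps x s)
    {a : V d × Fin d} {m : ℕ} (h : s(a.1, a.1 + vec (a.2, true)) = s(x m, x (m + 1))) :
    cE q a.1 (a.2, true) = cE q (x m) (s m) := by
  rcases edge_cases hs h with ⟨h1, h2⟩ | ⟨h1, h2⟩
  · rw [h1, h2]
  · rw [← cE_opp hq (x m) (s m), ← hs m, ← h1, h2]; rfl

end Pool.Agent.Lib.MP_24597f_pr
end

-- part Pool.Agent.Lib.MP_24597f_pr.Block
section

/-!
Blocks between cut times of the first walk, good edges, and the square pattern.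
-/

open MeasureTheory Filter Topology Finset
open scoped ENNReal

namespace Pool.Agent.Lib.MP_24597f_pr

variable {d : ℕ} [NeZero d]

/-- The path with given steps started at the origin. -/
def pth (s : ℕ → Dir d) (n : ℕ) : V d := ∑ m ∈ range n, vec (s m)

/-- Level of the path with given steps. -/
def ht (s : ℕ → Dir d) (n : ℕ) : ℤ := lv (pth s n)

omit [NeZero d] in
@[simp] lemma pth_zero (s : ℕ → Dir d) : pth s 0 = 0 := by simp [pth]

omit [NeZero d] in
lemma steps_pth (s : ℕ → Dir d) : Steps (pth s) s := fun _ => Finset.sum_range_succ _ _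

omit [NeZero d] in
lemma pth_add (s : ℕ → Dir d) (n m : ℕ) : pth s (n + m) = pth s n + pth (sh n s) m := by
  simp [pth, Finset.sum_range_add]

@[simp] lemma ht_zero (s : ℕ → Dir d) : ht s 0 = 0 := by simp [ht]

lemma ht_succ (s : ℕ → Dir d) (n : ℕ) : ht s (n + 1) = ht s n + lv (vec (s n)) :=
  (steps_pth s).lv_succ n

lemma ht_add (s : ℕ → Dir d) (n m : ℕ) : ht s (n + m) = ht s n + ht (sh n s) m := by
  simp [ht, pth_add]

omit [NeZero d] in
@[fun_prop] lemma measurable_pth_apply (n : ℕ) : Measurable fun s : ℕ → Dir d => pth s n := by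
  unfold pth; fun_prop

omit [NeZero d] in
@[fun_prop] lemma measurable_pth : Measurable (pth : (ℕ → Dir d) → ℕ → V d) :=
  measurable_pi_iff.2 measurable_pth_apply

@[fun_prop] lemma measurable_ht (n : ℕ) : Measurable fun s : ℕ → Dir d => ht s n := by
  unfold ht; fun_prop

omit [NeZero d] in
lemma dep_pth {m n : ℕ} (h : m ≤ n) : Dep n (fun s : ℕ → Dir d => pth s m) := fun _ _ hh =>
  Finset.sum_congr rfl fun k hk => by rw [hh k (by have := mem_range.1 hk; omega)]

lemma dep_ht {m n : ℕ} (h : m ≤ n) : Dep n (fun s : ℕ → Dir d => ht s m) := fun s s' hh =>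
  congrArg lv (dep_pth h s s' hh)

/-- A function of the type (up, down, sideways) of a direction. -/
def cls {M : Type} (a b c : M) (e : Dir d) : M := if e = up then a else if e = dn then b else c

@[simp] lemma cls_up {M : Type} (a b c : M) : cls a b c (up : Dir d) = a := by simp [cls]
@[simp] lemma cls_dn {M : Type} (a b c : M) : cls a b c (dn : Dir d) = b := by
  simp [cls, up_ne_dn.symm]
lemma cls_hz {M : Type} (a b c : M) {e : Dir d} (h : e.1 ≠ 0) : cls a b c e = c := by
  have h1 : e ≠ up := fun hh => h (by rw [hh]; rfl)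
  have h2 : e ≠ dn := fun hh => h (by rw [hh]; rfl)
  simp [cls, h1, h2]

/-- Number of up steps. -/
def nU (s : ℕ → Dir d) (T : ℕ) : ℕ := ∑ m ∈ range T, cls 1 0 0 (s m)
/-- Number of down steps. -/
def nD (s : ℕ → Dir d) (T : ℕ) : ℕ := ∑ m ∈ range T, cls 0 1 0 (s m)
/-- Number of sideways steps. -/
def nH (s : ℕ → Dir d) (T : ℕ) : ℕ := ∑ m ∈ range T, cls 0 0 1 (s m)

lemma prod_cls {M : Type} [CommMonoid M] (a b c : M) (s : ℕ → Dir d) (T : ℕ) :
    ∏ m ∈ range T, cls a b c (s m) = a ^ nU s T * b ^ nD s T * c ^ nH s T := by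
  induction T with
  | zero => simp [nU, nD, nH]
  | succ T ih =>
    rw [prod_range_succ, ih]
    simp only [nU, nD, nH, sum_range_succ, pow_add]
    rcases dir_cases (s T) with h | h | h
    · simp only [h, cls_up]; simp [mul_comm, mul_left_comm]
    · simp only [h, cls_dn]; simp [mul_assoc, mul_comm, mul_left_comm]
    · simp only [cls_hz _ _ _ h]; simp [mul_assoc]

lemma count_sum (s : ℕ → Dir d) (T : ℕ) : nU s T + nD s T + nH s T = T := by
  induction T with
  | zero => simp [nU, nD, nH]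
  | succ T ih =>
    simp only [nU, nD, nH, sum_range_succ] at ih ⊢
    rcases dir_cases (s T) with h | h | h
    · simp only [h, cls_up]; omega
    · simp only [h, cls_dn]; omega
    · simp only [cls_hz _ _ _ h]; omega

lemma ht_eq (s : ℕ → Dir d) (T : ℕ) : ht s T = nU s T - nD s T := by
  induction T with
  | zero => simp [nU, nD]
  | succ T ih =>
    rw [ht_succ, ih]
    simp only [nU, nD, sum_range_succ]
    rcases lv_vec_cases (s T) with h | h | h
    · simp only [h.1, cls_up, lv_up]; push_cast; ring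
    · simp only [h.1, cls_dn, lv_dn]; push_cast; ring
    · simp only [cls_hz _ _ _ h.1, h.2]; push_cast; ring

lemma nU_mono (s : ℕ → Dir d) {T T' : ℕ} (h : T ≤ T') : nU s T ≤ nU s T' :=
  Finset.sum_le_sum_of_subset (range_mono h)

lemma nD_mono (s : ℕ → Dir d) {T T' : ℕ} (h : T ≤ T') : nD s T ≤ nD s T' :=
  Finset.sum_le_sum_of_subset (range_mono h)

lemma nD_eq_card (s : ℕ → Dir d) (T : ℕ) : nD s T = ((range T).filter fun m => s m = dn).card := by
  rw [Finset.card_filter, nD]
  refine Finset.sum_congr rfl fun m _ => ?_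
  rcases dir_cases (s m) with h | h | h
  · simp [h, up_ne_dn]
  · simp [h]
  · rw [cls_hz _ _ _ h, if_neg fun hh => h (by rw [hh]; rfl)]

lemma nH_eq_card (s : ℕ → Dir d) (T : ℕ) :
    nH s T = ((range T).filter fun m => (s m).1 ≠ 0).card := by
  rw [Finset.card_filter, nH]
  refine Finset.sum_congr rfl fun m _ => ?_
  rcases dir_cases (s m) with h | h | h
  · rw [h, cls_up, if_neg (by simp [up])]
  · rw [h, cls_dn, if_neg (by simp [dn])]
  · rw [cls_hz _ _ _ h, if_pos h]

/-- A cut time. -/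
def IsCut (s : ℕ → Dir d) (n : ℕ) : Prop := 1 ≤ n ∧ Cut (pth s) (ht s n) n

/-- The time interval `[α, α + T)` lies between two consecutive cut times. -/
structure Blk (s : ℕ → Dir d) (α T : ℕ) : Prop where
  left : α = 0 ∨ IsCut s α
  right : IsCut s (α + T)
  pos : 1 ≤ T
  mid : ∀ m, α < m → m < α + T → ¬ IsCut s m

lemma exists_blk {s : ℕ → Dir d} (h : ∀ N, ∃ β, N < β ∧ IsCut s β) (n : ℕ) :
    ∃ α T, α ≤ n ∧ n < α + T ∧ Blk s α T := by
  classical
  let α := Nat.findGreatest (fun m => m = 0 ∨ IsCut s m) n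
  have hα : α ≤ n := Nat.findGreatest_le n
  have hα2 : α = 0 ∨ IsCut s α :=
    Nat.findGreatest_spec (P := fun m => m = 0 ∨ IsCut s m) (Nat.zero_le n) (Or.inl rfl)
  have hβ := Nat.find_spec (h n)
  refine ⟨α, Nat.find (h n) - α, hα, by omega, hα2, ?_, by omega, fun m h1 h2 hc => ?_⟩
  · rw [Nat.add_sub_cancel' (by omega)]; exact hβ.2
  · by_cases hm : m ≤ n
    · exact Nat.findGreatest_is_greatest h1 hm (Or.inr hc)
    · exact Nat.find_min (h n) (m := m) (by omega) ⟨by omega, hc⟩

lemma Blk.before {s : ℕ → Dir d} {α T : ℕ} (h : Blk s α T) {m : ℕ} (hm : m < α) :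
    ht s m < ht s α := by
  rcases h.left with h0 | h0
  · omega
  · exact h0.2.1 m hm

lemma Blk.count {s : ℕ → Dir d} {α T : ℕ} (h : Blk s α T) :
    nU (sh α s) T ≤ 2 * nD (sh α s) T + 1 := by
  classical
  set s' := sh α s with hs'
  have key : ∀ k ∈ Finset.Ioo (0 : ℤ) (ht s' T), ∃ m ∈ (range T).filter fun m => s' m = dn,
      ht s' m = k := by
    intro k hk
    obtain ⟨hk1, hk2⟩ := mem_Ioo.1 hk
    obtain ⟨σ, h1, h2⟩ := (steps_pth s').first_hit (k := k) (by simp; omega) ⟨T, hk2.le⟩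
    have hσ0 : σ ≠ 0 := by rintro rfl; simp at h1; omega
    have hσT : σ < T := by
      rcases lt_trichotomy σ T with h3 | h3 | h3
      · exact h3
      · rw [h3] at h1; change ht s' T = k at h1; omega
      · have := h2 T h3; change ht s' T < k at this; omega
    have hnc := h.mid (α + σ) (by omega) (by omega)
    have hσl : ht s (α + σ) = ht s α + k := by rw [ht_add, ← h1]; rfl
    have : ∃ m, α + σ ≤ m ∧ ht s m < ht s α + k := by
      by_contra hc
      push Not at hc
      refine hnc ⟨by omega, fun m hm => ?_, fun m hm => by rw [hσl]; exact hc m hm⟩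
      rw [hσl]
      by_cases hmα : m < α
      · have := h.before hmα; change ht s m < _; omega
      · have := h2 (m - α) (by omega)
        have e := ht_add s α (m - α)
        rw [Nat.add_sub_cancel' (by omega), ← hs'] at e
        change ht s' (m - α) < k at this
        change ht s m < _
        omega
    obtain ⟨m, hm1, hm2⟩ := this
    have hmT : m < α + T := by
      by_contra hc
      have := h.right.2.2 m (by omega)
      rw [ht_add, ← hs'] at this
      change _ ≤ ht s m at this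
      omega
    have e := ht_add s α (m - α)
    rw [Nat.add_sub_cancel' (by omega), ← hs'] at e
    obtain ⟨m', h3, h4, h5, h6⟩ := (steps_pth s').ivt_down (a := σ) (b := m - α) (h := k)
      (by omega) h1.ge (by change ht s' (m - α) < k; omega)
    exact ⟨m', mem_filter.2 ⟨mem_range.2 (by omega), h6⟩, h5⟩
  have h1 : (Finset.Ioo (0 : ℤ) (ht s' T)).card ≤ nD s' T := by
    rw [nD_eq_card]
    exact (Finset.card_le_card fun k hk => mem_image.2 (key k hk)).trans Finset.card_image_le
  rw [Int.card_Ioo] at h1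
  have := ht_eq s' T
  omega

/-- After step `n` the path never returns to a vertex visited before. -/
def GoodI (s : ℕ → Dir d) (n : ℕ) : Prop := ∀ m ≤ n, ∀ m', n < m' → pth s m ≠ pth s m'

/-- The end points of step `n` are the only vertices of the path on their level. -/
def GoodII (s : ℕ → Dir d) (n : ℕ) : Prop :=
  0 ≤ ht s n ∧ ∀ m, ht s m = ht s n → pth s m = pth s n ∨ pth s m = pth s (n + 1)

/-- The horizontal part of a vertex. -/
def hz (x : V d) : V d := x - lv x • vec up

lemma hz_add_vert (x : V d) {e : Dir d} (h : ¬ e.1 ≠ 0) : hz (x + vec e) = hz x := by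
  rcases dir_cases e with rfl | rfl | h'
  · simp only [hz, lv_add, lv_up, add_smul, one_smul]; abel
  · simp only [hz, lv_add, vec_dn, lv_neg, lv_up, add_smul, neg_smul, one_smul]; abel
  · exact absurd h' h

lemma hz_add_hz (x : V d) {e : Dir d} (h : e.1 ≠ 0) : hz (x + vec e) = hz x + vec e := by
  simp only [hz, lv_add, lv_hz h, add_zero]; abel

lemma eq_of_hz {x y : V d} (h1 : lv x = lv y) (h2 : hz x = hz y) : x = y := by
  simp only [hz, h1] at h2
  exact sub_left_injective h2

lemma hz_const (s : ℕ → Dir d) {i j : ℕ} (hij : i ≤ j) (h : ∀ m, i ≤ m → m < j → ¬ (s m).1 ≠ 0) :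
    hz (pth s j) = hz (pth s i) := by
  induction j, hij using Nat.le_induction with
  | base => rfl
  | succ j hij ih =>
    rw [steps_pth s j, hz_add_vert _ (h j hij (by omega)), ih fun m h1 h2 => h m h1 (by omega)]

lemma Blk.good {s : ℕ → Dir d} {α T n : ℕ} (h : Blk s α T) (hα : α ≠ 0) (h1 : α ≤ n)
    (h2 : n < α + T) (hn : (s n).1 ≠ 0) (hH : nH (sh α s) T ≤ 2) : GoodI s n ∨ GoodII s n := by
  classical
  have hcut := h.left.resolve_left hα
  obtain ⟨n', hn'⟩ : ∃ n', ∀ m, α ≤ m → m < α + T → (s m).1 ≠ 0 → m = n ∨ m = n' := by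
    by_contra hc
    push Not at hc
    obtain ⟨a, ha1, ha2, ha3, ha4, -⟩ := hc n
    obtain ⟨b, hb1, hb2, hb3, hb4, hb5⟩ := hc a
    rw [nH_eq_card] at hH
    have : ({n - α, a - α, b - α} : Finset ℕ) ⊆ (range T).filter fun m => (sh α s m).1 ≠ 0 := by
      intro m hm
      simp only [mem_insert, mem_singleton] at hm
      rcases hm with rfl | rfl | rfl <;> refine mem_filter.2 ⟨mem_range.2 (by omega), ?_⟩ <;>
        rw [sh_apply, Nat.add_sub_cancel' (by omega)] <;> assumption
    have h3 := (Finset.card_le_card this).trans hH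
    rw [Finset.card_eq_three.2 ⟨n - α, a - α, b - α, by omega, by omega, by omega, rfl⟩] at h3
    omega
  have hP : hz (pth s (n + 1)) ≠ hz (pth s n) := by
    rw [steps_pth s n, hz_add_hz _ hn]
    simpa using vec_ne_zero (s n)
  have hc : ∀ i j, α ≤ i → i ≤ j → j ≤ α + T → (n < i ∨ j ≤ n) → (n' < i ∨ j ≤ n') →
      hz (pth s j) = hz (pth s i) := fun i j hi hij hj h3 h4 =>
    hz_const s hij fun m h5 h6 h7 => by
      rcases hn' m (by omega) (by omega) h7 with rfl | rfl <;> omega
  have claim : (∀ m, α ≤ m → m < α + T → hz (pth s m) = hz (pth s n) ∨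
      hz (pth s m) = hz (pth s (n + 1))) ∨
      (∀ m m', α ≤ m → m ≤ n → n < m' → m' < α + T → hz (pth s m) ≠ hz (pth s m')) := by
    rcases le_or_gt n n' with hnn | hnn
    · have hl : ∀ m, α ≤ m → m ≤ n → hz (pth s m) = hz (pth s n) := fun m h3 h4 =>
        (hc m n h3 h4 (by omega) (by omega) (by omega)).symm
      have hm : ∀ m, n < m → m < α + T → (m ≤ n' ∨ n = n') → hz (pth s m) = hz (pth s (n + 1)) :=
        fun m h3 h4 h5 => hc (n + 1) m (by omega) h3 (by omega) (by omega) (by omega)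
      have hr : ∀ m, n' < m → m < α + T → hz (pth s m) = hz (pth s (n' + 1)) :=
        fun m h3 h4 => hc (n' + 1) m (by omega) h3 (by omega) (by omega) (by omega)
      by_cases hQ : hz (pth s (n' + 1)) = hz (pth s n)
      · left
        intro m h3 h4
        by_cases h5 : m ≤ n
        · exact Or.inl (hl m h3 h5)
        by_cases h6 : m ≤ n'
        · exact Or.inr (hm m (by omega) h4 (Or.inl h6))
        · exact Or.inl ((hr m (by omega) h4).trans hQ)
      · right
        intro m m' h3 h4 h5 h6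
        rw [hl m h3 h4]
        by_cases h7 : m' ≤ n'
        · rw [hm m' h5 h6 (Or.inl h7)]; exact hP.symm
        · rw [hr m' (by omega) h6]; exact Ne.symm hQ
    · have hl : ∀ m, α ≤ m → m ≤ n' → hz (pth s m) = hz (pth s n') := fun m h3 h4 =>
        (hc m n' h3 h4 (by omega) (by omega) (by omega)).symm
      have hm : ∀ m, α ≤ m → n' < m → m ≤ n → hz (pth s m) = hz (pth s n) :=
        fun m h3 h4 h5 => (hc m n h3 h5 (by omega) (by omega) (by omega)).symm
      have hr : ∀ m, n < m → m < α + T → hz (pth s m) = hz (pth s (n + 1)) :=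
        fun m h3 h4 => hc (n + 1) m (by omega) h3 (by omega) (by omega) (by omega)
      by_cases hQ : hz (pth s n') = hz (pth s (n + 1))
      · left
        intro m h3 h4
        by_cases h5 : m ≤ n'
        · exact Or.inr ((hl m h3 h5).trans hQ)
        by_cases h6 : m ≤ n
        · exact Or.inl (hm m h3 (by omega) h6)
        · exact Or.inr (hr m (by omega) h4)
      · right
        intro m m' h3 h4 h5 h6
        rw [hr m' h5 h6]
        by_cases h7 : m ≤ n'
        · rw [hl m h3 h7]; exact hQ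
        · rw [hm m h3 (by omega) h4]; exact hP.symm
  have ha : ∀ m, α ≤ m → ht s α ≤ ht s m := hcut.2.2
  have hb : ∀ m, m < α → ht s m < ht s α := hcut.2.1
  have ha' : ∀ m, α + T ≤ m → ht s (α + T) ≤ ht s m := h.right.2.2
  have hb' : ∀ m, m < α + T → ht s m < ht s (α + T) := h.right.2.1
  rcases claim with hcl | hcl
  · right
    refine ⟨?_, fun m hm => ?_⟩
    · have := hb 0 (by omega); have := ha n h1; simp at *; omega
    · have h3 : α ≤ m := by
        by_contra hh; have := hb m (by omega); have := ha n h1; omega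
      have h4 : m < α + T := by
        by_contra hh; have := ha' m (by omega); have := hb' n h2; omega
      refine (hcl m h3 h4).imp (eq_of_hz hm) (eq_of_hz ?_)
      change ht s m = ht s (n + 1)
      rw [ht_succ, lv_hz hn, add_zero, hm]
  · left
    intro m hm m' hm' heq
    have hl : ht s m = ht s m' := congrArg lv heq
    have h3 : α ≤ m := by
      by_contra hh; have := hb m (by omega); have := ha m' (by omega); omega
    have h4 : m' < α + T := by
      by_contra hh; have := ha' m' (by omega); have := hb' m (by omega); omega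
    exact hcl m m' h3 hm hm' h4 (by rw [heq])

/-- The path stays at nonnegative levels. -/
def Pos0 (s : ℕ → Dir d) : Prop := ∀ m, 0 ≤ ht s m

/-- Time `n` is the first visit to its level from below. -/
def Rec (s : ℕ → Dir d) (n : ℕ) : Prop := ∀ m < n, ht s m < ht s n

/-- The steps right, up, left, down, up, up. -/
def Word (j : Fin d) (s : ℕ → Dir d) : Prop :=
  s 0 = (j, true) ∧ s 1 = up ∧ s 2 = (j, false) ∧ s 3 = dn ∧ s 4 = up ∧ s 5 = up

/-- The square pattern at time `n`. -/
structure Pat (j : Fin d) (s : ℕ → Dir d) (n : ℕ) : Prop where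
  hj : j ≠ 0
  first : Rec s n
  lvl : 0 ≤ ht s n
  word : Word j (sh n s)
  esc : Pos0 (sh (n + 6) s)

namespace Pat

variable {j : Fin d} {s : ℕ → Dir d} {n : ℕ} (h : Pat j s n)
include h

lemma s0 : s n = (j, true) := h.word.1
lemma p1 : pth s (n + 1) = pth s n + vec (j, true) := by rw [steps_pth s n, h.s0]
lemma p2 : pth s (n + 2) = pth s n + vec (j, true) + vec up := by
  rw [steps_pth s (n + 1), h.p1, show s (n + 1) = up from h.word.2.1]
lemma p3 : pth s (n + 3) = pth s n + vec up := by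
  rw [steps_pth s (n + 2), h.p2, show s (n + 2) = (j, false) from h.word.2.2.1, false_eq_opp,
    vec_opp]; abel
lemma p4 : pth s (n + 4) = pth s n := by
  rw [steps_pth s (n + 3), h.p3, show s (n + 3) = dn from h.word.2.2.2.1, vec_dn]; abel
lemma p5 : pth s (n + 5) = pth s n + vec up := by
  rw [steps_pth s (n + 4), h.p4, show s (n + 4) = up from h.word.2.2.2.2.1]
lemma p6 : pth s (n + 6) = pth s n + vec up + vec up := by
  rw [steps_pth s (n + 5), h.p5, show s (n + 5) = up from h.word.2.2.2.2.2]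

lemma lvj : lv (vec ((j, true) : Dir d)) = 0 := lv_hz h.hj

lemma h6 : ht s (n + 6) = ht s n + 2 := by simp only [ht, h.p6, lv_add, lv_up]; omega

lemma after {m : ℕ} (hm : n + 6 ≤ m) : ht s n + 2 ≤ ht s m := by
  have := h.esc (m - (n + 6))
  have e := ht_add s (n + 6) (m - (n + 6))
  rw [Nat.add_sub_cancel' hm, h.h6] at e
  omega

lemma cases (m : ℕ) : ht s m < ht s n ∨ ht s n + 2 ≤ ht s m ∨
    (ht s m = ht s n ∧ (pth s m = pth s n ∨ pth s m = pth s n + vec (j, true))) ∨
    (ht s m = ht s n + 1 ∧ (pth s m = pth s n + vec up ∨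
      pth s m = pth s n + vec up + vec (j, true))) := by
  by_cases h1 : m < n
  · exact Or.inl (h.first m h1)
  by_cases h2 : n + 6 ≤ m
  · exact Or.inr (Or.inl (h.after h2))
  right; right
  obtain rfl | rfl | rfl | rfl | rfl | rfl :
    m = n ∨ m = n + 1 ∨ m = n + 2 ∨ m = n + 3 ∨ m = n + 4 ∨ m = n + 5 := by omega
  · simp
  · left; simp [ht, h.p1, h.lvj]
  · right; simp only [ht, h.p2, lv_add, h.lvj, lv_up, add_zero, true_and]; right; abel
  · right; simp [ht, h.p3]
  · left; simp [ht, h.p4]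
  · right; simp [ht, h.p5]

lemma isCut : IsCut s (n + 6) := by
  refine ⟨by omega, fun m hm => ?_, fun m hm => by rw [h.h6]; exact h.after hm⟩
  rw [h.h6]
  by_cases h1 : m < n
  · have := h.first m h1; change ht s m < _; omega
  obtain rfl | rfl | rfl | rfl | rfl | rfl :
    m = n ∨ m = n + 1 ∨ m = n + 2 ∨ m = n + 3 ∨ m = n + 4 ∨ m = n + 5 := by omega
  all_goals simp [ht, h.p1, h.p2, h.p3, h.p4, h.p5, h.lvj]

lemma goodII : GoodII s n := by
  refine ⟨h.lvl, fun m hm => ?_⟩
  rw [h.p1]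
  rcases h.cases m with h1 | h1 | h1 | h1
  · omega
  · omega
  · exact h1.2
  · omega

lemma goodII_top : GoodII s (n + 2) := by
  have e : ht s (n + 2) = ht s n + 1 := by simp [ht, h.p2, h.lvj]
  refine ⟨by have := h.lvl; omega, fun m hm => ?_⟩
  rw [h.p2, h.p3]
  rcases h.cases m with h1 | h1 | h1 | h1
  · omega
  · omega
  · omega
  · rcases h1.2 with h2 | h2
    · exact Or.inr h2
    · left; rw [h2]; abel

end Pat

end Pool.Agent.Lib.MP_24597f_pr
end
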