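import Mathlib

/-!
Definitions for iterated biased random walks on traces in `ℤ^d`.
-/

open MeasureTheory Filter Topology

namespace Pool.Agent.Lib.MP_24597f_pr

/-- Vertices of the lattice `ℤ^d`. -/
abbrev V (d : ℕ) : Type := Fin d → ℤ

/-- The `2d` unit vectors: `(j, true)` stands for `+e_j` and `(j, false)` for `-e_j`. -/
abbrev Dir (d : ℕ) : Type := Fin d × Bool

variable {d : ℕ}

/-- The unit vector of `ℤ^d` named by a direction. -/
def vec (e : Dir d) : V d := Pi.single e.1 (if e.2 then 1 else -1)

/-- The undirected nearest-neighbour edges of `ℤ^d`. -/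
def latticeEdges (d : ℕ) : Set (Sym2 (V d)) := {z | ∃ (x : V d) (e : Dir d), z = s(x, x + vec e)}

/-- The undirected edge set of the trace of a path. -/
def trace (x : ℕ → V d) : Set (Sym2 (V d)) := {z | ∃ n : ℕ, z = s(x n, x (n + 1))}

open Classical in
/-- The directions `e` for which `{x, x + e}` is an edge of the graph with edge set `E`. -/
noncomputable def allowed (E : Set (Sym2 (V d))) (x : V d) : Finset (Dir d) :=
  Finset.univ.filter fun e => s(x, x + vec e) ∈ E

open Classical in
/-- Probability that a `p`-walk on the graph with edge set `E` moves from `x` to `x + e`. -/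
noncomputable def transProb (p : Dir d → ℝ) (E : Set (Sym2 (V d))) (x : V d) (e : Dir d) : ℝ :=
  if e ∈ allowed E x then p e / ∑ e' ∈ allowed E x, p e' else 0

/-- The edge set of the random graph on which the `i`-th walk runs: the whole lattice for `i = 0`,
the trace of walk number `i` for walk number `i + 1`. -/
def env {Ω : Type} (X : ℕ → ℕ → Ω → V d) : ℕ → Ω → Set (Sym2 (V d))
  | 0, _ => latticeEdges d
  | i + 1, ω => trace fun n => X i n ω

/-- The sigma-algebra generated by the whole walks number `j < i` and by walk number `i` up to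
time `n`. -/
def past {Ω : Type} (X : ℕ → ℕ → Ω → V d) (i n : ℕ) : MeasurableSpace Ω :=
  (⨆ j < i, ⨆ m : ℕ, MeasurableSpace.comap (X j m) ⊤) ⊔
    ⨆ m ≤ n, MeasurableSpace.comap (X i m) ⊤

/-- `X i n` is the position at time `n` of walk number `i`. Every walk starts at `0`, and given
all the earlier walks and its own past, walk number `i` moves as a `p i`-walk on `env X i`. -/
structure IsIteratedWalk {Ω : Type} [MeasurableSpace Ω] (P : Measure Ω) (p : ℕ → Dir d → ℝ)
    (X : ℕ → ℕ → Ω → V d) : Prop where
  meas : ∀ i n, Measurable (X i n)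
  start : ∀ i ω, X i 0 ω = 0
  markov : ∀ (i n : ℕ) (e : Dir d) (A : Set Ω), MeasurableSet[past X i n] A →
    P.real (A ∩ {ω | X i (n + 1) ω = X i n ω + vec e}) =
      ∫ ω in A, transProb (p i) (env X i ω) (X i n ω) e ∂P

/-- The drift vector `δ_j = p(e_j) - p(-e_j)`. -/
def drift (p : Dir d → ℝ) (j : Fin d) : ℝ := p (j, true) - p (j, false)

/-- The vector with coordinates `log (p(e_j) / p(-e_j))`. -/
noncomputable def logBias (p : Dir d → ℝ) (j : Fin d) : ℝ := Real.log (p (j, true) / p (j, false))

/-- `logBias p` divided by its Euclidean norm. -/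
noncomputable def biasDir (p : Dir d → ℝ) (j : Fin d) : ℝ :=
  logBias p j / Real.sqrt (∑ k, logBias p k ^ 2)

/-- Almost surely `Y n / n` converges to the vector `v`. -/
def HasSpeed {Ω : Type} [MeasurableSpace Ω] (P : Measure Ω) (Y : ℕ → Ω → V d) (v : Fin d → ℝ) :
    Prop :=
  ∀ᵐ ω ∂P, Tendsto (fun n : ℕ => fun j : Fin d => (Y n ω j : ℝ) / n) atTop (𝓝 v)

end Pool.Agent.Lib.MP_24597f_pr
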