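import Mathlib

-- part Pool.Agent.Lib.MP_24597f_pr.Elec
section

/-!
Finite electrical networks: energy, voltages and comparison inequalities.
-/

open Finset

namespace Pool.Agent.Lib.MP_24597f_pr

/-- A family of oriented edges with positive conductances. -/
structure Net (α β : Type) where
  c : α → ℝ
  src : α → β
  tgt : α → β
  pos : ∀ a, 0 < c a

variable {α β : Type} (N : Net α β)

/-- The energy form. -/
def Net.En (D : Finset α) (f g : β → ℝ) : ℝ :=
  ∑ a ∈ D, N.c a * ((f (N.src a) - f (N.tgt a)) * (g (N.src a) - g (N.tgt a)))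

/-- Voltage of the unit current from `o` to the grounded set `A`. -/
structure Net.IsVolt (D : Finset α) (A : β → Prop) (o : β) (v : β → ℝ) : Prop where
  nonneg : ∀ x, 0 ≤ v x
  zero : ∀ x, A x → v x = 0
  green : ∀ g : β → ℝ, (∀ x, A x → g x = 0) → N.En D v g = g o

namespace Net

lemma En_comm (D : Finset α) (f g : β → ℝ) : N.En D f g = N.En D g f :=
  Finset.sum_congr rfl fun _ _ => by ring

lemma En_nonneg (D : Finset α) (f : β → ℝ) : 0 ≤ N.En D f f :=
  Finset.sum_nonneg fun a _ => mul_nonneg (N.pos a).le (mul_self_nonneg _)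

lemma En_mono {D D' : Finset α} (h : D' ⊆ D) (f : β → ℝ) : N.En D' f f ≤ N.En D f f :=
  Finset.sum_le_sum_of_subset_of_nonneg h fun a _ _ =>
    mul_nonneg (N.pos a).le (mul_self_nonneg _)

lemma En_sq_le (D : Finset α) (f g : β → ℝ) : N.En D f g ^ 2 ≤ N.En D f f * N.En D g g := by
  unfold En
  refine Finset.sum_sq_le_sum_mul_sum_of_sq_le_mul D
    (fun a _ => mul_nonneg (N.pos a).le (mul_self_nonneg _))
    (fun a _ => mul_nonneg (N.pos a).le (mul_self_nonneg _)) fun a _ => le_of_eq (by ring)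

lemma min_sq_le (a b t : ℝ) : (min a t - min b t) * (min a t - min b t) ≤
    (a - b) * (min a t - min b t) := by
  rcases le_total a t with h1 | h1 <;> rcases le_total b t with h2 | h2 <;>
    simp only [min_eq_left, min_eq_right, h1, h2] <;> nlinarith

variable {N}

lemma IsVolt.En_min_le {D : Finset α} {A : β → Prop} {o : β} {v : β → ℝ} (hv : N.IsVolt D A o v)
    {t : ℝ} (ht : 0 ≤ t) : N.En D (fun x => min (v x) t) (fun x => min (v x) t) ≤ t := by
  calc N.En D (fun x => min (v x) t) (fun x => min (v x) t)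
      ≤ N.En D v (fun x => min (v x) t) :=
        Finset.sum_le_sum fun a _ => mul_le_mul_of_nonneg_left (min_sq_le _ _ _) (N.pos a).le
    _ = min (v o) t := hv.green _ fun x hx => by simp [hv.zero x hx, ht]
    _ ≤ t := min_le_right _ _

/-- A voltage is at most the effective resistance. -/
lemma IsVolt.le_res {D : Finset α} {A : β → Prop} {o : β} {v : β → ℝ} (hv : N.IsVolt D A o v)
    {x : β} {R : ℝ} (hR0 : 0 ≤ R)
    (hR : ∀ f : β → ℝ, (∀ z, A z → f z = 0) → f x ^ 2 ≤ R * N.En D f f) : v x ≤ R := by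
  have h1 := hR (fun z => min (v z) (v x)) fun z hz => by simp [hv.zero z hz, hv.nonneg x]
  have h2 := hv.En_min_le (hv.nonneg x)
  simp only [min_self] at h1
  have h3 : v x ^ 2 ≤ R * v x := h1.trans (mul_le_mul_of_nonneg_left h2 hR0)
  rcases (hv.nonneg x).eq_or_lt with h | h
  · rw [← h]; exact hR0
  · nlinarith

lemma clamp_aux (a b s t : ℝ) (hst : s ≤ t) :
    0 ≤ (a - b) * ((min a t - min a s) - (min b t - min b s)) := by
  rcases le_total a t with h1 | h1 <;> rcases le_total b t with h2 | h2 <;>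
    rcases le_total a s with h3 | h3 <;> rcases le_total b s with h4 | h4 <;>
    simp only [min_eq_left, min_eq_right, h1, h2, h3, h4] <;> nlinarith [mul_self_nonneg (a - b)]

/-- The current through an edge is at most one. -/
lemma IsVolt.edge_le {D : Finset α} {A : β → Prop} {o : β} {v : β → ℝ} (hv : N.IsVolt D A o v)
    {a : α} (ha : a ∈ D) : N.c a * |v (N.src a) - v (N.tgt a)| ≤ 1 := by
  set s := min (v (N.src a)) (v (N.tgt a)) with hs
  set t := max (v (N.src a)) (v (N.tgt a)) with ht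
  have hst : s ≤ t := min_le_max
  have hs0 : 0 ≤ s := le_min (hv.nonneg _) (hv.nonneg _)
  have habs : |v (N.src a) - v (N.tgt a)| = t - s := by
    rw [hs, ht, max_sub_min_eq_abs', abs_sub_comm]
  have h1 := hv.green (fun x => min (v x) t - min (v x) s) fun x hx => by
    simp [hv.zero x hx, hs0, hs0.trans hst]
  have h2 : min (v o) t - min (v o) s ≤ t - s := by
    rcases le_total (v o) t with h1 | h1 <;> rcases le_total (v o) s with h3 | h3 <;>
      simp only [min_eq_left, min_eq_right, h1, h3] <;> linarith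
  have h3 : N.c a * ((t - s) * (t - s)) ≤ N.En D v (fun x => min (v x) t - min (v x) s) := by
    refine le_trans (le_of_eq ?_) (Finset.single_le_sum (f := fun a => N.c a *
      ((v (N.src a) - v (N.tgt a)) * ((min (v (N.src a)) t - min (v (N.src a)) s) -
        (min (v (N.tgt a)) t - min (v (N.tgt a)) s))))
      (fun a _ => mul_nonneg (N.pos a).le (clamp_aux _ _ _ _ hst)) ha)
    congr 1
    rcases le_total (v (N.src a)) (v (N.tgt a)) with h | h
    · simp only [hs, ht, min_eq_left h, max_eq_right h, min_self, min_eq_right h]; ring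
    · simp only [hs, ht, min_eq_right h, max_eq_left h, min_self, min_eq_left h]; ring
  rw [habs]
  rcases hst.eq_or_lt with h | h
  · rw [h]; simp
  · have : 0 < t - s := by linarith
    have h4 : N.c a * (t - s) * (t - s) ≤ 1 * (t - s) := by nlinarith
    exact le_of_mul_le_mul_right h4 this

lemma posPart_aux (a b s : ℝ) :
    (max (a - s) 0 - max (b - s) 0) * (max (a - s) 0 - max (b - s) 0) ≤
      (a - b) * (max (a - s) 0 - max (b - s) 0) := by
  rcases le_total (a - s) 0 with h1 | h1 <;> rcases le_total (b - s) 0 with h2 | h2 <;>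
    simp only [max_eq_left, max_eq_right, h1, h2] <;> nlinarith

/-- Rayleigh-type comparison across a separating pair of vertices. -/
lemma IsVolt.compare {D D' : Finset α} (hD : D' ⊆ D) {A : β → Prop} {o : β} {v v' : β → ℝ}
    (hv : N.IsVolt D A o v) (hv' : N.IsVolt D' A o v') (B : β → Prop) (ho : B o)
    (hAB : ∀ z, A z → ¬ B z) (x y : β)
    (h1 : ∀ a ∈ D, B (N.src a) → ¬ B (N.tgt a) → N.src a = x ∨ N.src a = y)
    (h2 : ∀ a ∈ D, ¬ B (N.src a) → B (N.tgt a) → N.tgt a = x ∨ N.tgt a = y) :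
    min (v x) (v y) ≤ max (v' x) (v' y) := by
  classical
  set s := min (v x) (v y) with hs
  set s' := max (v' x) (v' y) with hs'
  have hs0 : 0 ≤ s := le_min (hv.nonneg _) (hv.nonneg _)
  have hs0' : 0 ≤ s' := le_max_of_le_left (hv'.nonneg _)
  have hbd : ∀ z, z = x ∨ z = y → min (v z) s = s := by
    rintro z (rfl | rfl)
    · exact min_eq_right (min_le_left _ _)
    · exact min_eq_right (min_le_right _ _)
  have hbd' : ∀ z, z = x ∨ z = y → max (v' z - s') 0 = 0 := by
    rintro z (rfl | rfl)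
    · exact max_eq_right (by have := le_max_left (v' z) (v' y); linarith)
    · exact max_eq_right (by have := le_max_right (v' x) (v' z); linarith)
  let f : β → ℝ := fun z => if B z then s else min (v z) s
  have hf : N.En D f f ≤ s := by
    refine le_trans (Finset.sum_le_sum fun a ha => ?_) (hv.En_min_le hs0)
    refine mul_le_mul_of_nonneg_left ?_ (N.pos a).le
    by_cases hb1 : B (N.src a) <;> by_cases hb2 : B (N.tgt a)
    · simp only [f, hb1, hb2, if_true, sub_self, mul_zero]; exact mul_self_nonneg _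
    · simp only [f, hb1, hb2, if_true, if_false, hbd _ (h1 a ha hb1 hb2), le_refl]
    · simp only [f, hb1, hb2, if_true, if_false, hbd _ (h2 a ha hb1 hb2), le_refl]
    · simp only [f, hb1, hb2, if_false, le_refl]
  let g : β → ℝ := fun z => if B z then 0 else max (v' z - s') 0
  have hg0 : N.En D' v' g = 0 := by
    rw [hv'.green g fun z hz => by simp [g, hAB z hz, hv'.zero z hz, hs0']]
    simp [g, ho]
  let Dout := D'.filter fun a => ¬ (B (N.src a) ∧ B (N.tgt a))
  have hgout : ∀ a ∈ Dout, g (N.src a) = max (v' (N.src a) - s') 0 ∧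
      g (N.tgt a) = max (v' (N.tgt a) - s') 0 := by
    intro a ha
    obtain ⟨ha, hb⟩ := mem_filter.1 ha
    by_cases hb1 : B (N.src a) <;> by_cases hb2 : B (N.tgt a)
    · exact absurd ⟨hb1, hb2⟩ hb
    · simp [g, hb1, hb2, hbd' _ (h1 a (hD ha) hb1 hb2)]
    · simp [g, hb1, hb2, hbd' _ (h2 a (hD ha) hb1 hb2)]
    · simp [g, hb1, hb2]
  have hterm : ∀ a ∈ D', N.c a * ((g (N.src a) - g (N.tgt a)) * (g (N.src a) - g (N.tgt a))) ≤
      N.c a * ((v' (N.src a) - v' (N.tgt a)) * (g (N.src a) - g (N.tgt a))) := by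
    intro a ha
    refine mul_le_mul_of_nonneg_left ?_ (N.pos a).le
    by_cases hb : B (N.src a) ∧ B (N.tgt a)
    · simp [g, hb.1, hb.2]
    · obtain ⟨e1, e2⟩ := hgout a (mem_filter.2 ⟨ha, hb⟩)
      rw [e1, e2]; exact posPart_aux _ _ _
  have hgg : N.En D' g g = 0 :=
    le_antisymm (hg0 ▸ Finset.sum_le_sum hterm) (N.En_nonneg _ _)
  have hdg : ∀ a ∈ D', g (N.src a) = g (N.tgt a) := by
    intro a ha
    have := (Finset.sum_eq_zero_iff_of_nonneg fun a _ =>
      mul_nonneg (N.pos a).le (mul_self_nonneg _)).1 hgg a ha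
    have h := (mul_eq_zero.1 this).resolve_left (N.pos a).ne'
    have := mul_self_eq_zero.1 h
    linarith
  have hout : N.En Dout v' v' ≤ s' := by
    have hsub : Dout ⊆ D' := filter_subset _ _
    refine le_trans (le_of_eq ?_)
      ((N.En_mono hsub _).trans (hv'.En_min_le hs0'))
    refine Finset.sum_congr rfl fun a ha => ?_
    obtain ⟨e1, e2⟩ := hgout a ha
    have e3 := hdg a (mem_filter.1 ha).1
    rw [e1, e2] at e3
    have key : ∀ r : ℝ, min r s' = r - max (r - s') 0 := by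
      intro r
      rcases le_total r s' with h | h
      · rw [min_eq_left h, max_eq_right (by linarith)]; ring
      · rw [min_eq_right h, max_eq_left (by linarith)]; ring
    simp only [key]
    rw [e3]; ring
  have hsf : N.En Dout v' f = s := by
    have := hv'.green f fun z hz => by simp [f, hAB z hz, hv.zero z hz, hs0]
    simp only [f, ho, if_true] at this
    rw [← this]
    refine Finset.sum_filter_of_ne fun a _ hne hb => hne ?_
    simp [f, hb.1, hb.2]
  have hcs := N.En_sq_le Dout v' f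
  have hff : N.En Dout f f ≤ s := (N.En_mono ((filter_subset _ _).trans hD) f).trans hf
  have : s ^ 2 ≤ s' * s := by
    rw [hsf] at hcs
    exact hcs.trans (mul_le_mul hout hff (N.En_nonneg _ _) hs0')
  rcases hs0.eq_or_lt with h | h
  · rw [← h]; exact hs0'
  · nlinarith

/-- Resistance bound along a path. -/
lemma path_sq_le {D F : Finset α} (hF : F ⊆ D) (f φ : β → ℝ) (y : ℕ → β) (M : ℕ)
    (h : ∀ m < M, φ (y m) = φ (y (m + 1)) ∨ ∃ a ∈ F,
      (f (N.src a) = φ (y m) ∧ f (N.tgt a) = φ (y (m + 1))) ∨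
      (f (N.tgt a) = φ (y m) ∧ f (N.src a) = φ (y (m + 1)))) :
    (φ (y 0) - φ (y M)) ^ 2 ≤ (∑ a ∈ F, (N.c a)⁻¹) * N.En D f f := by
  have h1 : |φ (y 0) - φ (y M)| ≤ ∑ a ∈ F, |f (N.src a) - f (N.tgt a)| := by
    have hsub : Set.uIoc (φ (y 0)) (φ (y M)) ⊆
        ⋃ a ∈ F, Set.uIoc (f (N.src a)) (f (N.tgt a)) := by
      have : ∀ m ≤ M, Set.uIoc (φ (y 0)) (φ (y m)) ⊆
          ⋃ a ∈ F, Set.uIoc (f (N.src a)) (f (N.tgt a)) := by
        intro m hm
        induction m with
        | zero => simp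
        | succ m ih =>
          have hu : Set.uIoc (φ (y 0)) (φ (y (m + 1))) ⊆
              Set.uIoc (φ (y 0)) (φ (y m)) ∪ Set.uIoc (φ (y m)) (φ (y (m + 1))) := by
            intro t
            simp only [Set.mem_union, Set.mem_uIoc]
            rcases lt_or_ge (φ (y m)) t with h | h <;> grind
          refine hu.trans (Set.union_subset (ih (by omega)) ?_)
          rcases h m (by omega) with h0 | ⟨a, ha, h0 | h0⟩
          · rw [h0]; simp
          · rw [← h0.1, ← h0.2]
            exact Set.subset_biUnion_of_mem (u := fun a => Set.uIoc (f (N.src a)) (f (N.tgt a))) ha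
          · rw [← h0.1, ← h0.2, Set.uIoc_comm]
            exact Set.subset_biUnion_of_mem (u := fun a => Set.uIoc (f (N.src a)) (f (N.tgt a))) ha
      exact this M le_rfl
    have h2 := (MeasureTheory.measure_mono (μ := MeasureTheory.volume) hsub).trans
      (MeasureTheory.measure_biUnion_finset_le F _)
    simp only [Real.volume_uIoc] at h2
    rw [← ENNReal.ofReal_sum_of_nonneg (fun _ _ => abs_nonneg _),
      ENNReal.ofReal_le_ofReal_iff (Finset.sum_nonneg fun _ _ => abs_nonneg _)] at h2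
    rw [abs_sub_comm]
    exact h2.trans (le_of_eq (Finset.sum_congr rfl fun a _ => abs_sub_comm _ _))
  have h2 : (∑ a ∈ F, |f (N.src a) - f (N.tgt a)|) ^ 2 ≤ (∑ a ∈ F, (N.c a)⁻¹) * N.En F f f := by
    unfold En
    refine Finset.sum_sq_le_sum_mul_sum_of_sq_le_mul F (fun a _ => (inv_pos.2 (N.pos a)).le)
      (fun a _ => mul_nonneg (N.pos a).le (mul_self_nonneg _)) fun a _ => le_of_eq ?_
    rw [sq_abs, ← mul_assoc, inv_mul_cancel₀ (N.pos a).ne']; ring
  calc (φ (y 0) - φ (y M)) ^ 2 = |φ (y 0) - φ (y M)| ^ 2 := (sq_abs _).symm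
    _ ≤ (∑ a ∈ F, |f (N.src a) - f (N.tgt a)|) ^ 2 := by gcongr
    _ ≤ (∑ a ∈ F, (N.c a)⁻¹) * N.En F f f := h2
    _ ≤ _ := mul_le_mul_of_nonneg_left (N.En_mono hF f)
        (Finset.sum_nonneg fun a _ => (inv_pos.2 (N.pos a)).le)

end Net

end Pool.Agent.Lib.MP_24597f_pr
end

-- part Pool.Agent.Lib.MP_24597f_pr.Slln
section

/-!
Laws of large numbers along the iterates of a renewal map.
-/

open MeasureTheory ProbabilityTheory Filter Topology Finset
open scoped ENNReal

namespace Pool.Agent.Lib.MP_24597f_pr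

variable {Ω C : Type} [MeasurableSpace Ω] [MeasurableSpace C]

lemma indepFun_comp_mp {β γ : Type} [MeasurableSpace β] [MeasurableSpace γ] {μ : Measure Ω}
    {T : Ω → Ω} (hT : MeasurePreserving T μ μ) {f : Ω → β} {g : Ω → γ} (hf : Measurable f)
    (hg : Measurable g) (h : IndepFun f g μ) : IndepFun (f ∘ T) (g ∘ T) μ := by
  rw [indepFun_iff_measure_inter_preimage_eq_mul] at h ⊢
  intro s t hs ht
  rw [Set.preimage_comp, Set.preimage_comp, ← Set.preimage_inter,
    hT.measure_preimage ((hf hs).inter (hg ht)).nullMeasurableSet,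
    hT.measure_preimage (hf hs).nullMeasurableSet, hT.measure_preimage (hg ht).nullMeasurableSet,
    h s t hs ht]

lemma slln_iter {μ : Measure Ω} {T : Ω → Ω} (hT : MeasurePreserving T μ μ) {ζ : Ω → C}
    (hζ : Measurable ζ) (h : IndepFun ζ T μ) {g : C → ℝ} (hg : Measurable g)
    (hi : Integrable (fun ω => g (ζ ω)) μ) :
    ∀ᵐ ω ∂μ, Tendsto (fun n : ℕ => (∑ l ∈ range n, g (ζ (T^[l] ω))) / n) atTop
      (𝓝 (∫ ω, g (ζ ω) ∂μ)) := by
  have hm : ∀ l, Measurable fun ω => g (ζ (T^[l] ω)) := fun l =>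
    hg.comp (hζ.comp (hT.measurable.iterate l))
  have key : ∀ i k, IndepFun (fun ω => g (ζ (T^[i] ω))) (fun ω => g (ζ (T^[i + (k + 1)] ω))) μ := by
    intro i k
    have h1 := indepFun_comp_mp (hT.iterate i) (hg.comp hζ) ((hm k).comp hT.measurable)
      (h.comp hg (hm k))
    have e : (fun ω => g (ζ (T^[i + (k + 1)] ω))) = ((fun ω => g (ζ (T^[k] ω))) ∘ T) ∘ T^[i] := by
      funext ω
      simp only [Function.comp]
      rw [add_comm i, Function.iterate_add_apply, Function.iterate_succ_apply]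
    rw [e]
    exact h1
  refine strong_law_ae_real (fun l ω => g (ζ (T^[l] ω))) hi (fun i j hij => ?_) fun i => ?_
  · rcases lt_or_gt_of_ne hij with h1 | h1
    · obtain ⟨k, rfl⟩ := Nat.exists_eq_add_of_lt h1
      exact key i k
    · obtain ⟨k, rfl⟩ := Nat.exists_eq_add_of_lt h1
      exact (key j k).symm
  · exact ⟨(hm i).aemeasurable, (hm 0).aemeasurable, by
      change μ.map ((g ∘ ζ) ∘ T^[i]) = μ.map (g ∘ ζ)
      rw [← Measure.map_map (hg.comp hζ) (hT.measurable.iterate i), (hT.iterate i).map_eq]⟩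

lemma slln_inv {μ : Measure Ω} [IsProbabilityMeasure μ] {T : Ω → Ω} (hT : MeasurePreserving T μ μ)
    {ζ : Ω → C} (hζ : Measurable ζ) (h : IndepFun ζ T μ) {g : C → ℕ} (hg : Measurable g)
    (h1 : ∀ᵐ ω ∂μ, 1 ≤ g (ζ ω)) : ∃ c : ℝ,
      ∀ᵐ ω ∂μ, Tendsto (fun n : ℕ => (n : ℝ) / ∑ l ∈ range n, (g (ζ (T^[l] ω)) : ℝ)) atTop (𝓝 c) := by
  have hgm : Measurable fun c => (g c : ℝ) := Measurable.of_discrete.comp hg
  by_cases hi : Integrable (fun ω => (g (ζ ω) : ℝ)) μ
  · refine ⟨(∫ ω, (g (ζ ω) : ℝ) ∂μ)⁻¹, ?_⟩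
    have h2 : (1 : ℝ) ≤ ∫ ω, (g (ζ ω) : ℝ) ∂μ := by
      calc (1 : ℝ) = ∫ _, 1 ∂μ := by simp
        _ ≤ _ := integral_mono_ae (integrable_const _) hi (by
          filter_upwards [h1] with ω hω using by exact_mod_cast hω)
    filter_upwards [slln_iter hT hζ h hgm hi] with ω hω
    simpa only [inv_div] using hω.inv₀ (by linarith)
  · refine ⟨0, ?_⟩
    have hM : ∀ M : ℕ, Measurable fun c => ((min (g c) M : ℕ) : ℝ) := fun M =>
      (Measurable.of_discrete (f := fun x : ℕ => ((min x M : ℕ) : ℝ))).comp hg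
    have hiM : ∀ M : ℕ, Integrable (fun ω => ((min (g (ζ ω)) M : ℕ) : ℝ)) μ := fun M =>
      Integrable.of_bound ((hM M).comp hζ).aestronglyMeasurable M (ae_of_all _ fun ω => by
        rw [Real.norm_of_nonneg (by positivity)]; exact_mod_cast min_le_right _ _)
    have hub : ∀ b : ℝ, ∃ M : ℕ, b < ∫ ω, ((min (g (ζ ω)) M : ℕ) : ℝ) ∂μ := by
      intro b
      by_contra hc
      push Not at hc
      refine hi ⟨(hgm.comp hζ).aestronglyMeasurable, ?_⟩
      have e : ∀ ω, ‖(g (ζ ω) : ℝ)‖ₑ = ⨆ M : ℕ, ENNReal.ofReal ((min (g (ζ ω)) M : ℕ) : ℝ) := by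
        intro ω
        rw [Real.enorm_of_nonneg (by positivity)]
        refine le_antisymm (le_iSup_of_le (g (ζ ω)) (by simp)) (iSup_le fun M => ?_)
        exact ENNReal.ofReal_le_ofReal (by exact_mod_cast min_le_left _ _)
      simp only [HasFiniteIntegral, e]
      rw [lintegral_iSup (f := fun M ω => ENNReal.ofReal ((min (g (ζ ω)) M : ℕ) : ℝ))
        (fun M => ((hM M).comp hζ).ennreal_ofReal) fun M M' hMM ω =>
        ENNReal.ofReal_le_ofReal (by exact_mod_cast min_le_min_left _ hMM)]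
      refine lt_of_le_of_lt (iSup_le fun M => ?_) (ENNReal.ofReal_lt_top (r := b))
      rw [← ofReal_integral_eq_lintegral_ofReal (hiM M) (ae_of_all _ fun ω => by positivity)]
      exact ENNReal.ofReal_le_ofReal (hc M)
    filter_upwards [ae_all_iff.2 fun M => slln_iter hT hζ h (hM M) (hiM M)] with ω hω
    have h2 : Tendsto (fun n : ℕ => (∑ l ∈ range n, (g (ζ (T^[l] ω)) : ℝ)) / n) atTop atTop := by
      refine tendsto_atTop.2 fun b => ?_
      obtain ⟨M, hM⟩ := hub b
      filter_upwards [(hω M).eventually (lt_mem_nhds hM)] with n hn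
      refine hn.le.trans (div_le_div_of_nonneg_right (Finset.sum_le_sum fun l _ => ?_)
        (Nat.cast_nonneg n))
      exact_mod_cast min_le_left _ _
    simpa only [Function.comp_def, inv_div] using tendsto_inv_atTop_zero.comp h2

lemma tendsto_of_cuts {a : ℕ → ℝ} {K N : ℕ → ℕ} {h c : ℝ} (hN0 : N 0 = 0) (hN : ∀ j, j ≤ N j)
    (h1 : ∀ j n, N (j + 1) ≤ n → K (j + 1) ≤ a n) (h2 : ∀ j n, n < N (j + 1) → a n ≤ K (j + 1))
    (hK : Tendsto (fun j : ℕ => (K j : ℝ) / j) atTop (𝓝 h))
    (hc : Tendsto (fun j : ℕ => (j : ℝ) / N j) atTop (𝓝 c)) :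
    Tendsto (fun n : ℕ => a n / n) atTop (𝓝 (h * c)) := by
  classical
  let J : ℕ → ℕ := fun n => Nat.findGreatest (fun j => N j ≤ n) n
  have hJ1 : ∀ n, N (J n) ≤ n := fun n =>
    Nat.findGreatest_spec (P := fun j => N j ≤ n) (Nat.zero_le n) (by omega)
  have hJ2 : ∀ n, n < N (J n + 1) := fun n => by
    by_cases h3 : J n + 1 ≤ n
    · exact not_le.1 (Nat.findGreatest_is_greatest (P := fun j => N j ≤ n) (Nat.lt_succ_self (J n)) h3)
    · have := hN (J n + 1); omega
  have hJ : Tendsto J atTop atTop := tendsto_atTop.2 fun b =>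
    (eventually_ge_atTop (N b)).mono fun n hn => Nat.le_findGreatest ((hN b).trans hn) hn
  have r1 : Tendsto (fun j : ℕ => (j : ℝ) / (j + 1)) atTop (𝓝 1) := tendsto_natCast_div_add_atTop 1
  have l1 : Tendsto (fun j : ℕ => (K j : ℝ) / N (j + 1)) atTop (𝓝 (h * c)) := by
    have := (hK.mul ((tendsto_add_atTop_iff_nat 1).2 hc)).mul r1
    rw [mul_one] at this
    refine this.congr' ?_
    filter_upwards [eventually_gt_atTop 0] with j hj
    have : (j : ℝ) ≠ 0 := by positivity
    push_cast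
    field_simp
  have l2 : Tendsto (fun j : ℕ => (K (j + 1) : ℝ) / N j) atTop (𝓝 (h * c)) := by
    have := (((tendsto_add_atTop_iff_nat 1).2 hK).mul hc).mul (r1.inv₀ one_ne_zero)
    rw [inv_one, mul_one] at this
    refine this.congr' ?_
    filter_upwards [eventually_gt_atTop 0] with j hj
    have : (j : ℝ) ≠ 0 := by positivity
    push_cast
    field_simp
  refine tendsto_of_tendsto_of_tendsto_of_le_of_le' (l1.comp hJ) (l2.comp hJ) ?_ ?_
  · filter_upwards [hJ.eventually_gt_atTop 0] with n hn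
    obtain ⟨j, hj⟩ := Nat.exists_eq_succ_of_ne_zero hn.ne'
    have h3 := hJ1 n
    have h4 := hN (J n)
    have h5 : (K (J n) : ℝ) ≤ a n := by rw [hj] at h3 ⊢; exact h1 j n h3
    exact div_le_div₀ ((Nat.cast_nonneg _).trans h5) h5 (by exact_mod_cast (by omega))
      (by exact_mod_cast (hJ2 n).le)
  · filter_upwards [hJ.eventually_gt_atTop 0] with n hn
    have h3 := hJ1 n
    have h4 := hN (J n)
    exact div_le_div₀ (Nat.cast_nonneg _) (h2 _ n (hJ2 n)) (by exact_mod_cast (by omega))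
      (by exact_mod_cast h3)

lemma tendsto_of_shift {a b : ℕ → ℝ} {n0 : ℕ} {c v : ℝ} (h : ∀ m, a (n0 + m) = b m + c)
    (hb : Tendsto (fun m : ℕ => b m / m) atTop (𝓝 v)) :
    Tendsto (fun n : ℕ => a n / n) atTop (𝓝 v) := by
  rw [← tendsto_add_atTop_iff_nat n0]
  have := (hb.mul (tendsto_natCast_div_add_atTop (n0 : ℝ))).add
    ((tendsto_add_atTop_iff_nat n0).2 (tendsto_const_div_atTop_nhds_zero_nat c))
  rw [mul_one, add_zero] at this
  refine this.congr' ?_
  filter_upwards [eventually_gt_atTop 0] with m hm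
  have : (m : ℝ) ≠ 0 := by positivity
  rw [add_comm m n0, h]
  push_cast
  field_simp
  ring

lemma tendsto_side {a l : ℕ → ℝ} {b : ℕ → ℝ} {δ : ℝ} (hδ : 0 < δ)
    (ha : Tendsto (fun m : ℕ => a m / m) atTop (𝓝 0))
    (hl : Tendsto (fun m : ℕ => l m / m) atTop (𝓝 δ))
    (hb : ∀ n : ℕ, ∃ m, b n = a m ∧ l m ≤ n) :
    Tendsto (fun n : ℕ => b n / n) atTop (𝓝 0) := by
  rw [Metric.tendsto_atTop] at ha ⊢
  intro ε hε
  obtain ⟨m1, h1⟩ := ha (ε * (δ / 2)) (by positivity)
  obtain ⟨m0, h0⟩ := eventually_atTop.1 (((hl.eventually (lt_mem_nhds (half_lt_self hδ))).and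
    (eventually_ge_atTop m1)).and (eventually_gt_atTop 0))
  have h2 := tendsto_const_div_atTop_nhds_zero_nat (∑ m ∈ range m0, |a m|)
  obtain ⟨n0, h3⟩ := eventually_atTop.1 ((h2.eventually (gt_mem_nhds hε)).and (eventually_gt_atTop 0))
  refine ⟨n0, fun n hn => ?_⟩
  obtain ⟨m, h4, h5⟩ := hb n
  obtain ⟨h6, h7⟩ := h3 n hn
  have hn0 : (0 : ℝ) < n := by exact_mod_cast h7
  rw [Real.dist_eq, sub_zero, abs_div, abs_of_pos hn0, h4]
  by_cases hm : m < m0
  · refine lt_of_le_of_lt (div_le_div_of_nonneg_right ?_ hn0.le) h6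
    exact Finset.single_le_sum (f := fun m => |a m|) (fun _ _ => abs_nonneg _) (mem_range.2 hm)
  · obtain ⟨⟨h8, h9⟩, h10⟩ := h0 m (not_lt.1 hm)
    have hm0 : (0 : ℝ) < m := by exact_mod_cast h10
    have h11 := h1 m h9
    rw [Real.dist_eq, sub_zero, abs_div, abs_of_pos hm0, div_lt_iff₀ hm0] at h11
    rw [lt_div_iff₀ hm0] at h8
    rw [div_lt_iff₀ hn0]
    nlinarith

end Pool.Agent.Lib.MP_24597f_pr
end
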