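import Pool.Agent.Lib.MP_24597f_pr.Layer
import Pool.Agent.Lib.MP_24597f_pr.Slln

-- part Pool.Agent.Lib.MP_24597f_pr.Regen
section

/-!
Simultaneous regeneration levels of the first three walks.
-/

open MeasureTheory Filter Topology Finset
open scoped ENNReal

namespace Pool.Agent.Lib.MP_24597f_pr

lemma mp_shuffle {A B : Type} [MeasurableSpace A] [MeasurableSpace B] {μ : Measure A}
    {ν : Measure B} [IsProbabilityMeasure μ] [IsProbabilityMeasure ν] {f : A × A → A}
    {g : B × B → B} (hf : MeasurePreserving f (μ.prod μ) μ) (hg : MeasurePreserving g (ν.prod ν) ν) :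
    MeasurePreserving (fun z : (A × B) × (A × B) => (f (z.1.1, z.2.1), g (z.1.2, z.2.2)))
      ((μ.prod ν).prod (μ.prod ν)) (μ.prod ν) := by
  have h1 := measurePreserving_prodAssoc μ ν (μ.prod ν)
  have h2 := (MeasurePreserving.id μ).prod ((measurePreserving_prodAssoc ν μ ν).symm _)
  have h3 := (MeasurePreserving.id μ).prod
    ((Measure.measurePreserving_swap (μ := ν) (ν := μ)).prod (MeasurePreserving.id ν))
  have h4 := (MeasurePreserving.id μ).prod (measurePreserving_prodAssoc μ ν ν)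
  have h5 := (measurePreserving_prodAssoc μ μ (ν.prod ν)).symm _
  exact (hf.prod hg).comp (h5.comp (h4.comp (h3.comp (h2.comp h1))))

variable {d : ℕ} [NeZero d]

/-- The driving sequences of the first three walks. -/
abbrev Om (d : ℕ) : Type := (ℕ → Dir d) × (ℕ → Ins d) × (ℕ → Ins d)

/-- Triples of times. -/
abbrev T3 : Type := ℕ × ℕ × ℕ

/-- The law of the driving sequences. -/
noncomputable abbrev PP (p q : Law d) : Measure (Om d) :=
  (iid (μ0 p)).prod ((iid (drv q)).prod (iid (drv q)))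

/-- The walk on the first trace. -/
noncomputable def Y1 (β : Bool) (ω : Om d) : ℕ → V d := walk (envB β (pth ω.1)) 0 ω.2.1

/-- The walk on the second trace. -/
noncomputable def Y2 (β : Bool) (ω : Om d) : ℕ → V d := walk (envB β (Y1 β ω)) 0 ω.2.2

@[fun_prop] lemma measurable_Y1 (β : Bool) : Measurable (Y1 β : Om d → ℕ → V d) := by
  unfold Y1; fun_prop

@[fun_prop] lemma measurable_Y2 (β : Bool) : Measurable (Y2 β : Om d → ℕ → V d) := by
  unfold Y2; fun_prop

/-- Shift of the three sequences. -/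
def th (n : T3) (ω : Om d) : Om d := (sh n.1 ω.1, sh n.2.1 ω.2.1, sh n.2.2 ω.2.2)

/-- Gluing of the three sequences. -/
def gl (n : T3) (ω ω' : Om d) : Om d :=
  (glue n.1 ω.1 ω'.1, glue n.2.1 ω.2.1 ω'.2.1, glue n.2.2 ω.2.2 ω'.2.2)

omit [NeZero d] in
@[fun_prop] lemma measurable_th (n : T3) : Measurable (th n : Om d → Om d) := by
  unfold th; fun_prop

omit [NeZero d] in
@[fun_prop] lemma Measurable.gl' {β : Type*} [MeasurableSpace β] (n : T3) {f g : β → Om d}
    (hf : Measurable f) (hg : Measurable g) : Measurable fun b => gl n (f b) (g b) := by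
  unfold gl; fun_prop

omit [NeZero d] in
@[simp] lemma th_gl (n : T3) (ω ω' : Om d) : th n (gl n ω ω') = ω' := by simp [th, gl]

lemma glue_glue {α : Type} (n : ℕ) (a b c : ℕ → α) : glue n (glue n a b) c = glue n a c := by
  funext m; by_cases h : m < n <;> simp [glue, h]

omit [NeZero d] in
@[simp] lemma gl_gl (n : T3) (ω ω' ω'' : Om d) : gl n (gl n ω ω') ω'' = gl n ω ω'' := by
  simp [gl, glue_glue]

omit [NeZero d] in
lemma mp_gl (p q : Law d) (n : T3) :
    MeasurePreserving (fun z : Om d × Om d => gl n z.1 z.2) ((PP p q).prod (PP p q)) (PP p q) :=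
  mp_shuffle (measurePreserving_glue _ n.1)
    (mp_shuffle (measurePreserving_glue _ n.2.1) (measurePreserving_glue _ n.2.2))

/-- All three walks cross level `k` exactly once, at the times `n`. -/
def Reg (β : Bool) (k : ℤ) (n : T3) (ω : Om d) : Prop :=
  Cut (pth ω.1) k n.1 ∧ Cut (Y1 β ω) k n.2.1 ∧ Cut (Y2 β ω) k n.2.2

/-- All three walks stay at nonnegative levels although the edge below the origin is present. -/
def Pos (ω : Om d) : Prop := Reg true 0 (0, 0, 0) ω

lemma measurableSet_cut (k : ℤ) (n : ℕ) : MeasurableSet {x : ℕ → V d | Cut x k n} := by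
  simp only [Cut, Set.ofPred_and, Set.ofPred_forall]
  exact (MeasurableSet.iInter fun m => MeasurableSet.iInter fun _ =>
    measurableSet_lt (by fun_prop) measurable_const).inter
    (MeasurableSet.iInter fun m => MeasurableSet.iInter fun _ =>
      measurableSet_le measurable_const (by fun_prop))

lemma measurableSet_reg (β : Bool) (k : ℤ) (n : T3) : MeasurableSet {ω : Om d | Reg β k n ω} :=
  ((by fun_prop : Measurable fun ω : Om d => pth ω.1) (measurableSet_cut k n.1)).inter
    ((measurable_Y1 β (measurableSet_cut k n.2.1)).inter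
      (measurable_Y2 β (measurableSet_cut k n.2.2)))

lemma measurableSet_pos : MeasurableSet {ω : Om d | Pos ω} := measurableSet_reg _ _ _

lemma cut_zero {x : ℕ → V d} : Cut x 0 0 ↔ ∀ m, 0 ≤ lv (x m) := by simp [Cut]

lemma Reg.unique {β : Bool} {k : ℤ} {n n' : T3} {ω : Om d} (h : Reg β k n ω) (h' : Reg β k n' ω) :
    n = n' :=
  Prod.ext (h.1.unique h'.1) (Prod.ext (h.2.1.unique h'.2.1) (h.2.2.unique h'.2.2))

lemma Reg.spl {β : Bool} {k : ℤ} {n : T3} {ω : Om d} (h : Reg β k n ω) (hk : 1 ≤ k) :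
    Spl k (pth ω.1 n.1) (pth ω.1) n.1 (pth (th n ω).1) ∧
      Spl k (pth ω.1 n.1) (Y1 β ω) n.2.1 (Y1 true (th n ω)) ∧
      Spl k (pth ω.1 n.1) (Y2 β ω) n.2.2 (Y2 true (th n ω)) := by
  have h0 := spl_pth hk h.1
  have h1 := h0.walk_of_cut β h.2.1
  exact ⟨h0, h1, h1.walk_of_cut β h.2.2⟩

lemma Reg.pos {β : Bool} {k : ℤ} {n : T3} {ω : Om d} (h : Reg β k n ω) (hk : 1 ≤ k) :
    Pos (th n ω) :=
  ⟨cut_zero.2 (h.spl hk).1.nonneg, cut_zero.2 (h.spl hk).2.1.nonneg,
    cut_zero.2 (h.spl hk).2.2.nonneg⟩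

lemma Reg.glue {β : Bool} {k : ℤ} {n : T3} {ω ω' : Om d} (h : Reg β k n ω) (hk : 1 ≤ k)
    (h' : Pos ω') : Reg β k n (gl n ω ω') ∧ (∀ m ≤ n.1, pth (gl n ω ω').1 m = pth ω.1 m) ∧
      (∀ m ≤ n.2.1, Y1 β (gl n ω ω') m = Y1 β ω m) ∧
      ∀ m ≤ n.2.2, Y2 β (gl n ω ω') m = Y2 β ω m := by
  obtain ⟨a0, b0⟩ := spl_pth_glue hk h.1.hit (cut_zero.1 h'.1)
  obtain ⟨a1, b1⟩ := a0.walk_glue h.1 b0 β h.2.1.hit (cut_zero.1 h'.2.1)
  obtain ⟨a2, b2⟩ := a1.walk_glue h.2.1 b1 β h.2.2.hit (cut_zero.1 h'.2.2)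
  exact ⟨⟨a0.cut, a1.cut, a2.cut⟩, b0, b1, b2⟩

/-- The reference continuation: all three walks go straight up. -/
def star (d : ℕ) [NeZero d] : Om d := (fun _ => up, fun _ _ => up, fun _ _ => up)

lemma pos_star : Pos (star d) := by
  have h1 : Y1 true (star d) = ray d := walk_ray
  have h2 : Y2 true (star d) = ray d := by rw [Y2, h1]; exact walk_ray
  have h3 : Cut (ray d) 0 0 := cut_zero.2 fun m => by rw [lv_ray]; omega
  exact ⟨h3, h1 ▸ h3, h2 ▸ h3⟩

/-- The part of the regeneration event that depends on the past only. -/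
def Pre (β : Bool) (k : ℤ) (n : T3) (ω : Om d) : Prop := Reg β k n (gl n ω (star d))

lemma reg_gl_iff {β : Bool} {k : ℤ} (hk : 1 ≤ k) {n : T3} {ω ω' : Om d} :
    Reg β k n (gl n ω ω') ↔ Pre β k n ω ∧ Pos ω' := by
  constructor
  · intro h
    refine ⟨?_, by simpa using h.pos hk⟩
    simpa [Pre] using (h.glue hk pos_star).1
  · rintro ⟨h1, h2⟩
    simpa using (Reg.glue h1 hk h2).1

lemma Pre.transfer {β : Bool} {k j : ℤ} (hk : 1 ≤ k) {n n' : T3} {ω ω' : Om d}
    (h : Pre β k n ω) (h' : Pos ω') (hj : j ≤ k) :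
    Reg β j n' (gl n ω ω') ↔ Reg β j n' (gl n ω (star d)) := by
  obtain ⟨a, b0, b1, b2⟩ := Reg.glue h hk h'
  rw [gl_gl] at a b0 b1 b2
  exact ⟨fun c => ⟨a.1.transfer h.1 (fun m hm => (b0 m hm).symm) hj c.1,
      a.2.1.transfer h.2.1 (fun m hm => (b1 m hm).symm) hj c.2.1,
      a.2.2.transfer h.2.2 (fun m hm => (b2 m hm).symm) hj c.2.2⟩,
    fun c => ⟨h.1.transfer a.1 b0 hj c.1, h.2.1.transfer a.2.1 b1 hj c.2.1,
      h.2.2.transfer a.2.2 b2 hj c.2.2⟩⟩

lemma Reg.sub {β : Bool} {k j : ℤ} {n n' : T3} {ω : Om d} (h : Reg β k n ω) (hk : 1 ≤ k)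
    (h' : Reg β (k + j) n' ω) :
    Reg true j (n'.1 - n.1, n'.2.1 - n.2.1, n'.2.2 - n.2.2) (th n ω) :=
  ⟨(h.spl hk).1.cut_sub h'.1, (h.spl hk).2.1.cut_sub h'.2.1, (h.spl hk).2.2.cut_sub h'.2.2⟩

lemma measure_reg (p q : Law d) {β : Bool} {k : ℤ} (hk : 1 ≤ k) (n : T3) {Φ B : Set (Om d)}
    (hΦ : MeasurableSet Φ) (hB : MeasurableSet B)
    (h : ∀ ω ω', Pre β k n ω → Pos ω' → (gl n ω ω' ∈ Φ ↔ gl n ω (star d) ∈ Φ)) :
    PP p q ({ω | Reg β k n ω} ∩ Φ ∩ th n ⁻¹' B) =
      PP p q {ω | Pre β k n ω ∧ gl n ω (star d) ∈ Φ} * PP p q ({ω | Pos ω} ∩ B) := by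
  rw [← (mp_gl p q n).measure_preimage
    (((measurableSet_reg β k n).inter hΦ).inter (measurable_th n hB)).nullMeasurableSet,
    ← Measure.prod_prod]
  congr 1
  ext ⟨ω, ω'⟩
  simp only [Set.mem_preimage, Set.mem_inter_iff, Set.mem_ofPred_eq, reg_gl_iff hk, th_gl,
    Set.mem_prod]
  constructor
  · rintro ⟨⟨⟨h1, h2⟩, h3⟩, h4⟩
    exact ⟨⟨h1, (h _ _ h1 h2).1 h3⟩, h2, h4⟩
  · rintro ⟨⟨h1, h3⟩, h2, h4⟩
    exact ⟨⟨⟨h1, h2⟩, (h _ _ h1 h2).2 h3⟩, h4⟩

lemma measurableSet_pre (β : Bool) (k : ℤ) (n : T3) : MeasurableSet {ω : Om d | Pre β k n ω} :=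
  (by fun_prop : Measurable fun ω : Om d => gl n ω (star d)) (measurableSet_reg β k n)

lemma ae_pre {p q : Law d} (hp : H0 p) (hq : Rev q) (β : Bool) {k : ℤ} (hk : 1 ≤ k) :
    ∀ᵐ ω ∂PP p q, ∃ n, Pre β k n ω := by
  have hm : MeasurableSet {ω : Om d | ∃ n, Pre β k n ω} := by
    simp only [Set.ofPred_exists]
    exact MeasurableSet.iUnion (measurableSet_pre β k)
  rw [Measure.ae_prod_iff_ae_ae hm]
  filter_upwards [hp.ae_Zf] with s hs
  obtain ⟨n0, h0⟩ := exists_hit
    (unbounded_of_fin (fin_of_Yf (ne_top_of_le_ne_top hs (Yf_le_Zf 1 s))) k)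
  have a0 := (spl_pth_glue (s' := fun _ => up) hk h0 fun m => by
    rw [← ray, lv_ray]; omega).1
  refine (Measure.ae_prod_iff_ae_ae (measurable_prodMk_left hm)).2 ?_
  filter_upwards [a0.ae_next hq β] with u ⟨n1, a1⟩
  filter_upwards [a1.ae_next hq β] with w ⟨n2, a2⟩
  exact ⟨(n0, n1, n2), a0.cut, a1.cut, a2.cut⟩

lemma prob_neg {q : Law d} {r : ℝ} (h : Hq q r) {s : ℕ → Dir d} (hs : Pos0 s)
    {E : Set (Sym2 (V d))} (hN : Nice E) (ho : (allowed E 0).Nonempty)
    (hsub : E ⊆ envB true (pth s)) :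
    iid (drv q) {u | ¬ Cut (walk E 0 u) 0 0} ≤ 16⁻¹ * Yf s := by
  classical
  let ψ : V d → Dir d → ℝ≥0∞ := fun z e => if lv z = 0 ∧ e = dn then 1 else 0
  have h1 := h.vI_le_Y hN ho hsub (α := 0) (h0 := 0) (cut_zero.2 hs) (fun _ => ⟨rfl, rfl⟩) ho le_rfl
  rw [pth_zero, sh_zero] at h1
  calc _ ≤ ∫⁻ u, ∑' m, ψ (walk E 0 u m) (stp E 0 u m) ∂iid (drv q) := by
        rw [← lintegral_indicator_one]
        · refine lintegral_mono fun u => ?_
          by_cases hu : u ∈ {u | ¬ Cut (walk E 0 u) 0 0}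
          · rw [Set.indicator_of_mem hu]
            obtain ⟨m, hm⟩ := not_forall.1 (cut_zero.not.1 hu)
            obtain ⟨m', -, -, h2⟩ := (steps_walk E 0 u).ivt_down (Nat.zero_le m) le_rfl
              (not_le.1 hm)
            refine le_trans ?_ (ENNReal.le_tsum m')
            exact (if_pos h2).ge
          · rw [Set.indicator_of_notMem hu]; exact zero_le
        · exact ((by fun_prop : Measurable fun u => walk E 0 u) (measurableSet_cut 0 0)).compl
    _ = ∑' z, ∑ e ∈ allowed E z, cE q z e * vI q E 0 z * ψ z e := hN.lintegral_reward h.rev ho ψ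
    _ ≤ ∑' z : V d, if z = 0 then 16⁻¹ * Yf s else 0 := by
        refine ENNReal.tsum_le_tsum fun z => ?_
        by_cases hz : lv z = 0 ∧ dn ∈ allowed E z
        · have h2 : z = 0 := by
            rcases mem_allowed_envB.1 (allowed_mono hsub _ hz.2) with h3 | ⟨-, ⟨h3, -⟩ | ⟨-, h3⟩⟩
            · obtain ⟨m, hm⟩ := exists_time_of_allowed (opp_mem_allowed.2 h3)
              have := hs m
              rw [ht, hm, lv_add, lv_dn] at this
              omega
            · exact h3
            · exact absurd h3.symm up_ne_dn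
          subst h2
          rw [Finset.sum_eq_single dn (fun e _ he => by simp [ψ, he]) fun h2 => absurd hz.2 h2,
            h.cE_cls 0 0 dn]
          simp only [ψ, lv_zero, and_self, if_true, mul_one, sub_self, p16_zero, one_mul, cls_dn]
          rw [mul_comm _ 16⁻¹, mul_assoc]
          gcongr
        · refine (Finset.sum_eq_zero fun e he => ?_).trans_le zero_le
          simp only [ψ]
          rw [if_neg, mul_zero]
          rintro ⟨h2, rfl⟩
          exact hz ⟨h2, he⟩
    _ = _ := tsum_ite_eq _ _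

lemma pos_ne_zero {p q : Law d} {r : ℝ} (hp : H0 p) (h : Hq q r) : PP p q {ω | Pos ω} ≠ 0 := by
  have h1 : PP p q {ω | Pos ω}ᶜ ≤ ∫⁻ s, 3 * (16⁻¹ * Yf s) ∂iid (μ0 p) := by
    rw [Measure.prod_apply measurableSet_pos.compl]
    refine lintegral_mono_ae ?_
    filter_upwards [hp.ae_Zf] with s hs
    by_cases h0 : Pos0 s
    swap
    · refine prob_le_one.trans (le_trans ?_ (le_mul_of_one_le_left' (by norm_num)))
      calc (1 : ℝ≥0∞) = 16⁻¹ * 16 := (ENNReal.inv_mul_cancel (by norm_num) (by norm_num)).symm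
        _ ≤ _ := mul_le_mul' le_rfl (le_Yf_of_not_pos h0)
    have hN := nice_pth (fin_of_Yf (ne_top_of_le_ne_top hs (Yf_le_Zf 1 s))) true
    have ho : (allowed (envB true (pth s)) 0).Nonempty := by
      simpa using (steps_pth s).allowed_envB_nonempty true 0
    set S := {u | ¬ Cut (walk (envB true (pth s)) 0 u) 0 0} with hS
    have hSm : MeasurableSet S := ((by fun_prop : Measurable fun u => walk (envB true (pth s)) 0 u)
      (measurableSet_cut 0 0)).compl
    rw [Measure.prod_apply (measurable_prodMk_left measurableSet_pos.compl)]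
    calc _ ≤ ∫⁻ u, S.indicator 1 u + 16⁻¹ * Yf s ∂iid (drv q) := by
          refine lintegral_mono_ae ?_
          filter_upwards [Nice.ae_nice h.rev (steps_pth s) (pth_zero s) hN] with u hu
          by_cases h2 : u ∈ S
          · rw [Set.indicator_of_mem h2]; exact prob_le_one.trans le_self_add
          · refine le_add_left (le_trans (measure_mono fun w hw => ?_)
              (prob_neg h h0 hu.1 ((steps_walk _ _ u).allowed_envB_nonempty true 0)
                (envB_walk_subset (steps_pth s) (pth_zero s) u)))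
            exact fun h3 => hw ⟨cut_zero.2 h0, not_not.1 h2, h3⟩
      _ ≤ 16⁻¹ * Yf s + 16⁻¹ * Yf s := by
          rw [lintegral_add_right _ measurable_const, lintegral_indicator_one hSm]
          simp only [lintegral_const, measure_univ, mul_one]
          gcongr
          exact prob_neg h h0 hN ho subset_rfl
      _ ≤ _ := by rw [← two_mul]; gcongr; norm_num
  rw [lintegral_const_mul _ (measurable_Yf.const_mul _), lintegral_const_mul _ measurable_Yf] at h1
  have h2 : PP p q {ω | Pos ω}ᶜ < 1 := by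
    refine (h1.trans (mul_le_mul' le_rfl (mul_le_mul' le_rfl hp.Yf_le))).trans_lt ?_
    rw [← ENNReal.toReal_lt_toReal (by finiteness) (by finiteness)]
    simp
    norm_num
  intro h3
  rw [prob_compl_eq_one_sub measurableSet_pos, h3] at h2
  simp at h2

lemma le_measure_reg {p q : Law d} (hp : H0 p) (hq : Rev q) (β : Bool) {k : ℕ} (hk : 1 ≤ k)
    {A B : Set (Om d)} (hA : MeasurableSet A) (hB : MeasurableSet B)
    (h : ∀ (n : T3) ω ω', k ≤ n.1 → k ≤ n.2.1 → k ≤ n.2.2 → (gl n ω ω' ∈ A ↔ ω ∈ A)) :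
    PP p q A * PP p q ({ω | Pos ω} ∩ B) ≤ PP p q (A ∩ {ω | ∃ n, Reg β k n ω ∧ th n ω ∈ B}) := by
  have hk' : (1 : ℤ) ≤ k := by exact_mod_cast hk
  have h1 : ∀ {n : T3} {ω : Om d}, Pre β k n ω → ∀ ω', (gl n ω ω' ∈ A ↔ ω ∈ A) := by
    intro n ω hn ω'
    obtain ⟨a0, a1, a2⟩ := Reg.spl hn hk'
    exact h n ω ω' (by exact_mod_cast a0.le) (by exact_mod_cast a1.le) (by exact_mod_cast a2.le)
  have e : A ∩ {ω | ∃ n, Reg β k n ω ∧ th n ω ∈ B} =
      ⋃ n, {ω | Reg β k n ω} ∩ A ∩ th n ⁻¹' B := by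
    ext ω; simp only [Set.mem_inter_iff, Set.mem_ofPred_eq, Set.mem_iUnion, Set.mem_preimage]
    tauto
  rw [e, measure_iUnion (fun n n' hn => Set.disjoint_left.2 fun ω h1 h2 => hn (h1.1.1.unique h2.1.1))
    fun n => ((measurableSet_reg β k n).inter hA).inter (measurable_th n hB)]
  simp_rw [fun n => measure_reg p q hk' n hA hB
    (fun ω ω' h2 _ => (h1 h2 ω').trans (h1 h2 _).symm)]
  rw [ENNReal.tsum_mul_right]
  refine mul_le_mul' (le_trans (measure_mono_ae ?_) (measure_iUnion_le _)) le_rfl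
  filter_upwards [ae_pre hp hq β hk'] with ω ⟨n, hn⟩ hω
  exact Set.mem_iUnion.2 ⟨n, hn, (h1 hn _).2 hω⟩

/-- Events determined by finitely many instructions. -/
def Fin3 (d : ℕ) : Set (Set (Om d)) := {A | MeasurableSet A ∧ ∃ m : ℕ,
  ∀ (n : T3) ω ω', m ≤ n.1 → m ≤ n.2.1 → m ≤ n.2.2 → (gl n ω ω' ∈ A ↔ ω ∈ A)}

omit [NeZero d] in
lemma isSetRing_fin3 : IsSetRing (Fin3 d) where
  empty_mem := ⟨MeasurableSet.empty, 0, fun _ _ _ _ _ _ => Iff.rfl⟩
  union_mem := by
    rintro S T ⟨h1, m, h2⟩ ⟨h3, m', h4⟩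
    exact ⟨h1.union h3, max m m', fun n ω ω' a b c =>
      or_congr (h2 n ω ω' (by omega) (by omega) (by omega)) (h4 n ω ω' (by omega) (by omega) (by omega))⟩
  sdiff_mem := by
    rintro S T ⟨h1, m, h2⟩ ⟨h3, m', h4⟩
    exact ⟨h1.diff h3, max m m', fun n ω ω' a b c =>
      and_congr (h2 n ω ω' (by omega) (by omega) (by omega))
        (not_congr (h4 n ω ω' (by omega) (by omega) (by omega)))⟩

omit [NeZero d] in
lemma generateFrom_fin3 :
    (inferInstance : MeasurableSpace (Om d)) = MeasurableSpace.generateFrom (Fin3 d) := by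
  refine le_antisymm ?_ (MeasurableSpace.generateFrom_le fun A hA => hA.1)
  have key : @Measurable (Om d) (Om d) (MeasurableSpace.generateFrom (Fin3 d)) _
      fun ω => (ω.1, ω.2.1, ω.2.2) := by
    refine Measurable.prodMk ?_ (Measurable.prodMk ?_ ?_) <;>
      refine @measurable_pi_lambda _ _ _ (MeasurableSpace.generateFrom (Fin3 d)) _ _ fun m => ?_ <;>
      refine fun S hS => MeasurableSpace.measurableSet_generateFrom ⟨?_, m + 1, ?_⟩
    · exact (by fun_prop : Measurable fun ω : Om d => ω.1 m) hS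
    · intro n ω ω' a _ _
      simp only [Set.mem_preimage, gl, glue_lt _ _ (show m < n.1 by omega)]
    · exact (by fun_prop : Measurable fun ω : Om d => ω.2.1 m) hS
    · intro n ω ω' _ a _
      simp only [Set.mem_preimage, gl, glue_lt _ _ (show m < n.2.1 by omega)]
    · exact (by fun_prop : Measurable fun ω : Om d => ω.2.2 m) hS
    · intro n ω ω' _ _ a
      simp only [Set.mem_preimage, gl, glue_lt _ _ (show m < n.2.2 by omega)]
  exact fun S hS => key hS

lemma ae_reg {p q : Law d} {r : ℝ} (hp : H0 p) (h : Hq q r) (β : Bool) :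
    ∀ᵐ ω ∂PP p q, ∃ (k : ℕ) (n : T3), 1 ≤ k ∧ Reg β k n ω := by
  set B := {ω : Om d | ¬ ∃ (k : ℕ) (n : T3), 1 ≤ k ∧ Reg β k n ω} with hB
  have hBm : MeasurableSet B := by
    refine MeasurableSet.compl (s := {ω : Om d | ∃ (k : ℕ) (n : T3), 1 ≤ k ∧ Reg β k n ω}) ?_
    simp only [Set.ofPred_exists]
    exact MeasurableSet.iUnion fun k => MeasurableSet.iUnion fun n =>
      (MeasurableSet.const _).inter (measurableSet_reg β k n)
  have key : PP p q B * PP p q {ω | Pos ω} ≤ 0 := by
    refine ENNReal.le_of_forall_pos_le_add fun ε hε _ => ?_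
    obtain ⟨A, ⟨hA, m, hm⟩, h1⟩ := exists_measure_symmDiff_lt_of_generateFrom_isSetRing
      (μ := PP p q) isSetRing_fin3 ⟨{Set.univ}, Set.countable_singleton _,
        Set.singleton_subset_iff.2 ⟨MeasurableSet.univ, 0, fun _ _ _ _ _ _ => Iff.rfl⟩, by simp⟩
      generateFrom_fin3 hBm (ε := ε / 2) (by simpa using hε.ne')
    have h2 := le_measure_reg hp h.rev β (k := m + 1) (by omega) hA MeasurableSet.univ
      fun n ω ω' a b c => hm n ω ω' (by omega) (by omega) (by omega)
    rw [Set.inter_univ] at h2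
    have h3 : PP p q A * PP p q {ω | Pos ω} ≤ ε / 2 := by
      refine h2.trans (le_trans (measure_mono ?_) h1.le)
      rintro ω ⟨h3, n, h4, -⟩
      exact Or.inl ⟨h3, fun h5 => h5 ⟨m + 1, n, by omega, h4⟩⟩
    have h4 : PP p q B ≤ PP p q A + ε / 2 := by
      refine le_trans (measure_mono fun ω hω => ?_)
        ((measure_union_le A (symmDiff A B)).trans (add_le_add le_rfl h1.le))
      by_cases h5 : ω ∈ A
      · exact Or.inl h5
      · exact Or.inr (Or.inr ⟨hω, h5⟩)
    calc PP p q B * PP p q {ω | Pos ω} ≤ (PP p q A + ε / 2) * PP p q {ω | Pos ω} := by gcongr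
      _ ≤ ε / 2 + ε / 2 * 1 := by rw [add_mul]; gcongr; exact prob_le_one
      _ = _ := by simp
  exact (mul_eq_zero.1 (nonpos_iff_eq_zero.1 key)).resolve_right (pos_ne_zero hp h)

end Pool.Agent.Lib.MP_24597f_pr
end

-- part Pool.Agent.Lib.MP_24597f_pr.Renew
section

/-!
The renewal structure and the law of large numbers for the two walks on traces.
-/

open MeasureTheory ProbabilityTheory Filter Topology Finset
open scoped ENNReal

namespace Pool.Agent.Lib.MP_24597f_pr

variable {d : ℕ} [NeZero d]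

/-- The first regeneration level and its times. -/
def First (β : Bool) (c : ℕ × T3) (ω : Om d) : Prop :=
  1 ≤ c.1 ∧ Reg β c.1 c.2 ω ∧ ∀ j : ℕ, 1 ≤ j → j < c.1 → ∀ n, ¬ Reg β j n ω

lemma First.le {β : Bool} {c : ℕ × T3} {ω : Om d} (h : First β c ω) {j : ℕ} (hj : 1 ≤ j) {n : T3}
    (h' : Reg β j n ω) : c.1 ≤ j := not_lt.1 fun hc => h.2.2 j hj hc n h'

lemma First.unique {β : Bool} {c c' : ℕ × T3} {ω : Om d} (h : First β c ω) (h' : First β c' ω) :
    c = c' := by
  have e := le_antisymm (h.le h'.1 h'.2.1) (h'.le h.1 h.2.1)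
  refine Prod.ext e (h.2.1.unique ?_)
  rw [e]; exact h'.2.1

lemma exists_first {β : Bool} {ω : Om d} (h : ∃ (k : ℕ) (n : T3), 1 ≤ k ∧ Reg β k n ω) :
    ∃ c, First β c ω := by
  classical
  obtain ⟨n, h1, h2⟩ := Nat.find_spec h
  exact ⟨(Nat.find h, n), h1, h2, fun j hj hj' n' h3 => Nat.find_min h hj' ⟨n', hj, h3⟩⟩

lemma measurableSet_noreg (β : Bool) (k : ℕ) :
    MeasurableSet {ω : Om d | ∀ j : ℕ, 1 ≤ j → j < k → ∀ n, ¬ Reg β j n ω} := by
  simp only [Set.ofPred_forall]
  exact MeasurableSet.iInter fun j => MeasurableSet.iInter fun _ => MeasurableSet.iInter fun _ =>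
    MeasurableSet.iInter fun n => (measurableSet_reg β j n).compl

lemma measurableSet_first (β : Bool) (c : ℕ × T3) : MeasurableSet {ω : Om d | First β c ω} :=
  (MeasurableSet.const _).inter ((measurableSet_reg β _ _).inter (measurableSet_noreg β c.1))

open Classical in
/-- The data of the first regeneration. -/
noncomputable def zt (β : Bool) (ω : Om d) : ℕ × T3 :=
  if h : ∃ c, First β c ω then h.choose else (0, 0, 0, 0)

lemma First.zt_spec {β : Bool} {c : ℕ × T3} {ω : Om d} (h : First β c ω) : First β (zt β ω) ω := by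
  rw [zt, dif_pos ⟨c, h⟩]; exact Exists.choose_spec (⟨c, h⟩ : ∃ c, First β c ω)

lemma measurable_zt (β : Bool) : Measurable (zt β : Om d → ℕ × T3) := by
  refine measurable_to_countable' fun c => ?_
  have : zt β ⁻¹' {c} = {ω : Om d | First β c ω} ∪
      ((⋃ c', {ω : Om d | First β c' ω})ᶜ ∩ {_ω | c = (0, 0, 0, 0)}) := by
    ext ω
    simp only [Set.mem_preimage, Set.mem_singleton_iff, Set.mem_union, Set.mem_ofPred_eq,
      Set.mem_inter_iff, Set.mem_compl_iff, Set.mem_iUnion]
    by_cases h : ∃ c', First β c' ω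
    · obtain ⟨c', h'⟩ := h
      exact ⟨fun e => Or.inl (e ▸ h'.zt_spec), fun e => e.elim (h'.zt_spec.unique ·)
        fun e => absurd ⟨c', h'⟩ e.1⟩
    · rw [zt, dif_neg h]
      exact ⟨fun e => Or.inr ⟨h, e.symm⟩, fun e => e.elim (fun e => absurd ⟨c, e⟩ h) (·.2.symm)⟩
  rw [this]
  exact (measurableSet_first β c).union
    ((MeasurableSet.iUnion (measurableSet_first β)).compl.inter (MeasurableSet.const _))

/-- Shift to the first regeneration. -/
noncomputable def Th (β : Bool) (ω : Om d) : Om d := th (zt β ω).2 ω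

lemma measurable_Th (β : Bool) : Measurable (Th β : Om d → Om d) :=
  (measurable_from_prod_countable_right (f := fun z : (ℕ × T3) × Om d => th z.1.2 z.2)
    fun c => measurable_th c.2).comp ((measurable_zt β).prodMk measurable_id)

/-- The conditioning event. -/
def Cd (d : ℕ) [NeZero d] (β : Bool) : Set (Om d) := {ω | β = true → Pos ω}

lemma measurableSet_Cd (β : Bool) : MeasurableSet (Cd d β) := by
  cases β
  · simp [Cd]
  · simpa [Cd] using measurableSet_pos

lemma Cd_true : Cd d true = {ω | Pos ω} := by simp [Cd]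

lemma Cd_false : Cd d false = Set.univ := by simp [Cd]

section

variable {p q : Law d} {r : ℝ} (hp : H0 p) (h : Hq q r)
include hp h

lemma isProb_cond (β : Bool) : IsProbabilityMeasure (PP p q)[|Cd d β] := by
  refine cond_isProbabilityMeasure ?_
  cases β
  · simp [Cd_false]
  · rw [Cd_true]; exact pos_ne_zero hp h

lemma ae_first (β : Bool) : ∀ᵐ ω ∂(PP p q)[|Cd d β], First β (zt β ω) ω := by
  refine cond_absolutelyContinuous.ae_le ?_
  filter_upwards [ae_reg hp h β] with ω hω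
  exact (exists_first hω).choose_spec.zt_spec

lemma measure_first (β : Bool) (c : ℕ × T3) {B : Set (Om d)} (hB : MeasurableSet B) :
    (PP p q)[|Cd d β] (zt β ⁻¹' {c} ∩ Th β ⁻¹' B) =
      (PP p q)[|Cd d β] (zt β ⁻¹' {c}) * (PP p q)[|Cd d true] B := by
  have e : ∀ B : Set (Om d), (PP p q)[|Cd d β] (zt β ⁻¹' {c} ∩ Th β ⁻¹' B) =
      (PP p q)[|Cd d β] ({ω | First β c ω} ∩ th c.2 ⁻¹' B) := fun B => by
    refine measure_congr ?_
    filter_upwards [ae_first hp h β] with ω hω
    refine propext ⟨?_, ?_⟩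
    · rintro ⟨rfl, h2⟩
      exact ⟨hω, h2⟩
    · rintro ⟨h1, h2⟩
      obtain rfl := hω.unique h1
      exact ⟨rfl, h2⟩
  have e1 := e Set.univ
  simp only [Set.preimage_univ, Set.inter_univ] at e1
  rw [e, e1]
  by_cases hc : 1 ≤ c.1
  swap
  · have : {ω : Om d | First β c ω} = ∅ := Set.eq_empty_of_forall_notMem fun ω hω => hc hω.1
    simp [this]
  have hc' : (1 : ℤ) ≤ c.1 := by exact_mod_cast hc
  have key : ∀ B : Set (Om d), MeasurableSet B →
      PP p q (Cd d β ∩ ({ω | First β c ω} ∩ th c.2 ⁻¹' B)) =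
        PP p q {ω | Pre β c.1 c.2 ω ∧ gl c.2 ω (star d) ∈
          Cd d β ∩ {ω | ∀ j : ℕ, 1 ≤ j → j < c.1 → ∀ n, ¬ Reg β j n ω}} *
          PP p q ({ω | Pos ω} ∩ B) := fun B hB => by
    rw [← measure_reg p q hc' c.2 ((measurableSet_Cd β).inter (measurableSet_noreg β c.1)) hB]
    · congr 1
      ext ω
      simp only [First, Set.mem_inter_iff, Set.mem_ofPred_eq, hc, true_and]
      tauto
    · intro ω ω' h1 h2
      refine and_congr (forall_congr' ?_) (forall₃_congr fun j _ hj => forall_congr' fun n =>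
        not_congr (h1.transfer hc' h2 (by exact_mod_cast hj.le)))
      rintro rfl
      exact h1.transfer hc' h2 (by omega)
  have k1 := key Set.univ MeasurableSet.univ
  simp only [Set.preimage_univ, Set.inter_univ] at k1
  rw [cond_apply (measurableSet_Cd β), cond_apply (measurableSet_Cd β),
    cond_apply (measurableSet_Cd true), key B hB, k1, Cd_true]
  have h0 := ENNReal.mul_inv_cancel (pos_ne_zero hp h) (measure_ne_top (PP p q) {ω | Pos ω})
  calc _ = (PP p q (Cd d β))⁻¹ * _ * (PP p q {ω | Pos ω} * (PP p q {ω | Pos ω})⁻¹) *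
        PP p q ({ω | Pos ω} ∩ B) := by rw [h0, mul_one, mul_assoc]
    _ = _ := by ring

lemma measure_zt_Th (β : Bool) (S : Set (ℕ × T3)) {B : Set (Om d)} (hB : MeasurableSet B) :
    (PP p q)[|Cd d β] (zt β ⁻¹' S ∩ Th β ⁻¹' B) =
      (PP p q)[|Cd d β] (zt β ⁻¹' S) * (PP p q)[|Cd d true] B := by
  have hS := fun c (_ : c ∈ S) => measurable_zt (d := d) β (measurableSet_singleton c)
  rw [← Measure.restrict_apply (measurable_zt β MeasurableSet.of_discrete),
    ← tsum_measure_preimage_singleton S.to_countable hS,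
    ← tsum_measure_preimage_singleton S.to_countable hS, ← ENNReal.tsum_mul_right]
  refine tsum_congr fun c => ?_
  rw [Measure.restrict_apply (hS c c.2), measure_first hp h β c hB]

lemma mp_Th (β : Bool) : MeasurePreserving (Th β) (PP p q)[|Cd d β] (PP p q)[|Cd d true] := by
  have := isProb_cond hp h β
  refine ⟨measurable_Th β, Measure.ext fun B hB => ?_⟩
  have h1 := measure_zt_Th hp h β Set.univ hB
  simp only [Set.preimage_univ, Set.univ_inter, measure_univ, one_mul] at h1
  rw [Measure.map_apply (measurable_Th β) hB, h1]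

lemma indep_zt_Th : IndepFun (zt true) (Th true) (PP p q)[|Cd d true] := by
  rw [indepFun_iff_measure_inter_preimage_eq_mul]
  intro S B _ hB
  rw [measure_zt_Th hp h true S hB, (mp_Th hp h true).measure_preimage hB.nullMeasurableSet]

lemma integrable_H : Integrable (fun ω => ((zt true ω).1 : ℝ)) (PP p q)[|Cd d true] := by
  have hz : Measurable fun ω : Om d => (zt true ω).1 := (measurable_zt true).fst
  have hB : ∀ i : ℕ, MeasurableSet {ω : Om d | i < (zt true ω).1} := fun i =>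
    measurableSet_lt measurable_const hz
  have h1 : ∀ K : ℕ, ∑ i ∈ range K, PP p q ({ω | Pos ω} ∩ {ω | i < (zt true ω).1}) ≤ 1 := by
    intro K
    let D : ℕ → Set (Om d) := fun i => {ω | ∃ n, Reg false (K - i : ℕ) n ω ∧
      th n ω ∈ {ω : Om d | i < (zt true ω).1}}
    have hD : ∀ i, MeasurableSet (D i) := fun i => by
      simp only [D, Set.ofPred_exists]
      exact MeasurableSet.iUnion fun n => (measurableSet_reg _ _ n).inter (measurable_th n (hB i))
    have hdis : ∀ i ∈ range K, ∀ i' < i, Disjoint (D i) (D i') := fun i hi i' hii =>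
      Set.disjoint_left.2 fun ω ⟨n, h2, h3⟩ ⟨n', h4, _⟩ => by
        have hi := mem_range.1 hi
        have h5 := h2.sub (j := (i - i' : ℕ)) (n' := n') (by omega) (by convert h4 using 1; omega)
        have h6 := (exists_first ⟨i - i', _, by omega, h5⟩).choose_spec.zt_spec.le (by omega) h5
        simp only [Set.mem_ofPred_eq] at h3
        omega
    calc _ ≤ ∑ i ∈ range K, PP p q (D i) := by
          refine Finset.sum_le_sum fun i hi => ?_
          have := le_measure_reg hp h.rev false (k := K - i) (by have := mem_range.1 hi; omega)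
            MeasurableSet.univ (hB i) fun _ _ _ _ _ _ => Iff.rfl
          simpa only [measure_univ, one_mul, Set.univ_inter] using this
      _ = PP p q (⋃ i ∈ range K, D i) := by
          refine (measure_biUnion_finset (fun i hi i' hi' hii => ?_) fun i _ => hD i).symm
          rcases lt_or_gt_of_ne hii with h2 | h2
          · exact (hdis i' hi' i h2).symm
          · exact hdis i hi i' h2
      _ ≤ 1 := prob_le_one
  refine ⟨(Measurable.of_discrete.comp hz).aestronglyMeasurable, ?_⟩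
  have e : ∀ ω : Om d, ‖((zt true ω).1 : ℝ)‖ₑ =
      ∑' i : ℕ, {ω : Om d | i < (zt true ω).1}.indicator 1 ω := fun ω => by
    rw [tsum_eq_sum (s := range (zt true ω).1) fun i hi =>
      Set.indicator_of_notMem (by simpa using hi) _,
      Finset.sum_congr rfl fun i hi => Set.indicator_of_mem (by simpa using hi) _]
    simp
  simp only [HasFiniteIntegral, e]
  rw [lintegral_tsum fun i => (measurable_one.indicator (hB i)).aemeasurable]
  simp only [lintegral_indicator_one (hB _), Cd_true, cond_apply measurableSet_pos]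
  rw [ENNReal.tsum_mul_left]
  refine ENNReal.mul_lt_top (ENNReal.inv_lt_top.2 (pos_iff_ne_zero.2 (pos_ne_zero hp h))) ?_
  rw [ENNReal.tsum_eq_iSup_nat]
  exact (iSup_le h1).trans_lt ENNReal.one_lt_top

end

lemma cut_chain (j : ℕ) : ∀ {x : ℕ → ℕ → V d} {H T : ℕ → ℕ} {z : ℕ → V d},
    (∀ l, Spl (H l) (z l) (x l) (T l) (x (l + 1))) →
    Cut (x 0) ((∑ l ∈ range (j + 1), H l : ℕ) : ℤ) (∑ l ∈ range (j + 1), T l) := by
  induction j with
  | zero => intro x H T z h; simpa using (h 0).cut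
  | succ j ih =>
    intro x H T z h
    have := (h 0).cut_add (Int.natCast_nonneg _) (ih (x := fun l => x (l + 1)) fun l => h (l + 1))
    rw [Finset.sum_range_succ' H, Finset.sum_range_succ' T, add_comm _ (H 0), add_comm _ (T 0)]
    exact_mod_cast this

lemma exists_speed {p q : Law d} {r : ℝ} (hp : H0 p) (h : Hq q r) {Y : Bool → Om d → ℕ → V d}
    (t : T3 → ℕ)
    (hs : ∀ β (k : ℕ) n ω, 1 ≤ k → Reg β k n ω →
      Spl k (pth ω.1 n.1) (Y β ω) (t n) (Y true (th n ω))) :
    ∃ v : ℝ, ∀ᵐ ω ∂PP p q, Tendsto (fun n : ℕ => (lv (Y false ω n) : ℝ) / n) atTop (𝓝 v) := by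
  have := isProb_cond hp h true
  have hT := mp_Th hp h true
  have hf := ae_first hp h true
  have hsp : ∀ {β : Bool} {ω : Om d}, First β (zt β ω) ω →
      Spl (zt β ω).1 (pth ω.1 (zt β ω).2.1) (Y β ω) (t (zt β ω).2) (Y true (Th β ω)) :=
    fun hω => hs _ _ _ _ hω.1 hω.2.1
  have hle : ∀ {ω : Om d}, First true (zt true ω) ω → 1 ≤ t (zt true ω).2 := fun hω => by
    have := (hsp hω).le; have := hω.1; omega
  obtain ⟨c, hc⟩ := slln_inv hT (measurable_zt true) (indep_zt_Th hp h) (g := fun c => t c.2)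
    Measurable.of_discrete (hf.mono fun ω hω => hle hω)
  have hH := slln_iter hT (measurable_zt true) (indep_zt_Th hp h) (g := fun c => (c.1 : ℝ))
    Measurable.of_discrete (integrable_H hp h)
  refine ⟨(∫ ω, ((zt true ω).1 : ℝ) ∂(PP p q)[|Cd d true]) * c, ?_⟩
  have key : ∀ᵐ ω ∂(PP p q)[|Cd d true], Tendsto (fun n : ℕ => (lv (Y true ω n) : ℝ) / n) atTop
      (𝓝 ((∫ ω, ((zt true ω).1 : ℝ) ∂(PP p q)[|Cd d true]) * c)) := by
    filter_upwards [hc, hH, ae_all_iff.2 fun l => (hT.iterate l).quasiMeasurePreserving.ae hf]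
      with ω h1 h2 h3
    have h4 := fun j => cut_chain j (x := fun l => Y true ((Th true)^[l] ω))
      (H := fun l => (zt true ((Th true)^[l] ω)).1) (T := fun l => t (zt true ((Th true)^[l] ω)).2)
      fun l => by rw [Function.iterate_succ_apply']; exact hsp (h3 l)
    refine tendsto_of_cuts (K := fun j => ∑ l ∈ range j, (zt true ((Th true)^[l] ω)).1)
      (N := fun j => ∑ l ∈ range j, t (zt true ((Th true)^[l] ω)).2) rfl (fun j => ?_)
      (fun j n hn => ?_) (fun j n hn => ?_) (by simpa only [Nat.cast_sum] using h2)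
      (by simpa only [Nat.cast_sum] using h1)
    · calc j = ∑ _l ∈ range j, 1 := by simp
        _ ≤ _ := Finset.sum_le_sum fun l _ => hle (h3 l)
    · exact_mod_cast (h4 j).2 n hn
    · exact_mod_cast ((h4 j).1 n hn).le
  have h1 := (mp_Th hp h false).quasiMeasurePreserving.ae key
  have h2 := ae_first hp h false
  rw [Cd_false, cond_univ] at h1 h2
  filter_upwards [h1, h2] with ω h3 h4
  refine tendsto_of_shift (n0 := t (zt false ω).2) (c := lv (pth ω.1 (zt false ω).2.1))
    (fun m => ?_) h3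
  rw [(hsp h4).add, lv_add]
  push_cast
  rfl

omit [NeZero d] in
lemma slln_pth (p : Law d) (j : Fin d) : ∀ᵐ s ∂iid (μ0 p),
    Tendsto (fun m : ℕ => (pth s m j : ℝ) / m) atTop (𝓝 (drift p.p j)) := by
  have hind : IndepFun (fun s : ℕ → Dir d => s 0) (sh 1) (iid (μ0 p)) := by
    rw [indepFun_iff_measure_inter_preimage_eq_mul]
    intro S B hS hB
    have hS' : MeasurableSet ((fun s : ℕ → Dir d => s 0) ⁻¹' S) := measurable_pi_apply 0 hS
    have h1 := lintegral_mul_sh (μ0 p) (n := 1)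
      (f := ((fun s : ℕ → Dir d => s 0) ⁻¹' S).indicator 1) (F := B.indicator 1)
      (fun s s' hs => by
        classical
        simp only [Set.indicator_apply, Set.mem_preimage, hs 0 one_pos, Pi.one_apply])
      (measurable_one.indicator hS') (measurable_one.indicator hB)
    rw [lintegral_indicator_one hS', lintegral_indicator_one hB] at h1
    rw [(measurePreserving_sh (μ0 p) 1).measure_preimage hB.nullMeasurableSet, ← h1,
      ← lintegral_indicator_one (hS'.inter (measurable_sh 1 hB))]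
    refine lintegral_congr fun s => ?_
    rw [Set.inter_indicator_one]
    rfl
  have hg : Measurable fun e : Dir d => (vec e j : ℝ) := Measurable.of_discrete
  have hi : Integrable (fun e : Dir d => (vec e j : ℝ)) (μ0 p) := Integrable.of_finite
  have hev := measurePreserving_eval_infinitePi (fun _ : ℕ => μ0 p) 0
  have h1 := slln_iter (measurePreserving_sh (μ0 p) 1) (measurable_pi_apply 0) hind hg
    (hev.integrable_comp_of_integrable hi)
  have h2 : ∫ s, (vec (s 0) j : ℝ) ∂iid (μ0 p) = drift p.p j := by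
    have h3 := integral_map (μ := iid (μ0 p)) hev.measurable.aemeasurable hg.aestronglyMeasurable
    rw [hev.map_eq] at h3
    refine h3.symm.trans ?_
    rw [integral_fintype hi]
    have h4 : ∀ e, (μ0 p).real {e} = p.p e := fun e => by
      rw [measureReal_def, ← lintegral_indicator_one (measurableSet_singleton e), lintegral_μ0]
      simp [Set.indicator_apply, (p.pos e).le]
    simp [h4, Fintype.sum_prod_type, vec_apply, drift, eq_comm (a := j),
      sub_eq_add_neg]
  have h5 : ∀ (l : ℕ) (s : ℕ → Dir d), (sh 1)^[l] s = sh l s := fun l s => by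
    induction l with
    | zero => simp
    | succ l ih => rw [Function.iterate_succ_apply', ih, sh_sh]
  rw [h2] at h1
  filter_upwards [h1] with s hs
  simpa [h5, pth, Finset.sum_apply] using hs

end Pool.Agent.Lib.MP_24597f_pr
end

-- part Pool.Agent.Lib.MP_24597f_pr.Final
section

/-!
The second walk on a trace can be slower than the first one.
-/

open MeasureTheory ProbabilityTheory Filter Topology Finset
open scoped ENNReal

namespace Pool.Agent.Lib.MP_24597f_pr

variable {d : ℕ} [NeZero d]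

lemma map_Y1 (p q : Law d) : (PP p q).map (Y1 false) = nxt q (ν0 p) := by
  refine Measure.ext_of_lintegral _ fun F hF => ?_
  rw [lintegral_nxt1 p q hF, lintegral_map hF (measurable_Y1 false),
    lintegral_prod _ (hF.fun_comp (measurable_Y1 false)).aemeasurable]
  refine lintegral_congr fun s => ?_
  rw [lintegral_prod _ (Measurable.aemeasurable (by fun_prop))]
  simp [Y1]

lemma map_Y2 (p q : Law d) : (PP p q).map (Y2 false) = nxt q (nxt q (ν0 p)) := by
  refine Measure.ext_of_lintegral _ fun F hF => ?_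
  rw [lintegral_nxt2 p q hF, lintegral_map hF (measurable_Y2 false),
    lintegral_prod _ (hF.fun_comp (measurable_Y2 false)).aemeasurable]
  refine lintegral_congr fun s => ?_
  rw [lintegral_prod _ (Measurable.aemeasurable (by fun_prop))]
  simp [Y1, Y2]

lemma measurableSet_lv (v : ℝ) :
    MeasurableSet {y : ℕ → V d | Tendsto (fun n : ℕ => (lv (y n) : ℝ) / n) atTop (𝓝 v)} :=
  measurableSet_tendsto _ fun n => ((Measurable.of_discrete (f := fun x : V d => (lv x : ℝ))).comp
    (measurable_pi_apply n)).div_const _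

lemma full_speed {p q : Law d} (hδ : 0 < drift p.p 0) (hz : ∀ j, j ≠ 0 → drift p.p j = 0)
    {Y : Om d → ℕ → V d} (hY : ∀ ω n, ∃ m, Y ω n = pth ω.1 m) (hl : ∀ ω n, lv (Y ω n) ≤ n) {v : ℝ}
    (h : ∀ᵐ ω ∂PP p q, Tendsto (fun n : ℕ => (lv (Y ω n) : ℝ) / n) atTop (𝓝 v)) :
    ∀ᵐ ω ∂PP p q, Tendsto (fun n : ℕ => fun j : Fin d => (Y ω n j : ℝ) / n) atTop
      (𝓝 ((v / drift p.p 0) • drift p.p)) := by
  filter_upwards [h, Measure.quasiMeasurePreserving_fst.ae (ae_all_iff.2 (slln_pth p))]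
    with ω h1 h2
  refine tendsto_pi_nhds.2 fun j => ?_
  by_cases hj : j = 0
  · subst hj
    simpa [hδ.ne', lv] using h1
  · have h3 := h2 j
    rw [hz j hj] at h3
    simp only [Pi.smul_apply, hz j hj, smul_zero]
    refine tendsto_side hδ h3 (h2 0) fun n => ?_
    obtain ⟨m, hm⟩ := hY ω n
    refine ⟨m, by rw [hm], ?_⟩
    have := hl ω n
    rw [hm] at this
    exact_mod_cast this

theorem not_monotone {j : Fin d} (hj : j ≠ 0) : ∃ p₀ p₁ : Dir d → ℝ,
    (∀ e, 0 < p₀ e) ∧ (∑ e, p₀ e = 1) ∧ (∀ e, 0 < p₁ e) ∧ (∑ e, p₁ e = 1) ∧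
    (∀ i, 0 ≤ drift p₀ i) ∧ 0 < drift p₀ 0 ∧ 0 < ∑ i, drift p₀ i * biasDir p₁ i ∧
    (∃ (Ω : Type) (_ : MeasurableSpace Ω) (P : Measure Ω) (X : ℕ → ℕ → Ω → V d),
      IsProbabilityMeasure P ∧ IsIteratedWalk P (fun i => if i = 0 then p₀ else p₁) X) ∧
    ∃ κ₁ κ₂ : ℝ, 0 < κ₂ ∧ κ₂ < κ₁ ∧
      ∀ (Ω : Type) [MeasurableSpace Ω] (P : Measure Ω) [IsProbabilityMeasure P]
        (X : ℕ → ℕ → Ω → V d), IsIteratedWalk P (fun i => if i = 0 then p₀ else p₁) X →
        HasSpeed P (X 1) (κ₁ • drift p₀) ∧ HasSpeed P (X 2) (κ₂ • drift p₀) := by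
  obtain ⟨p, q, r, ρ, hp, hq, hρ, hud, C0, hC0, hgap⟩ := exists_gap hj
  have hδ : 0 < drift p.p 0 := sub_pos.2 hud
  have hz : ∀ i, i ≠ 0 → drift p.p i = 0 := fun i hi => by
    rw [drift, hρ (i, true) hi, hρ (i, false) hi, sub_self]
  obtain ⟨v₁, h₁⟩ := exists_speed hp hq (Y := Y1) (fun n => n.2.1)
    fun β k n ω hk h => (h.spl (by exact_mod_cast hk)).2.1
  obtain ⟨v₂, h₂⟩ := exists_speed hp hq (Y := Y2) (fun n => n.2.2)
    fun β k n ω hk h => (h.spl (by exact_mod_cast hk)).2.2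
  have hv := speeds_of_gap hp hq hC0 hgap (v₁ := v₁) (v₂ := v₂)
    (by rwa [← map_Y1, ae_map_iff (measurable_Y1 false).aemeasurable (measurableSet_lv v₁)])
    (by rwa [← map_Y2, ae_map_iff (measurable_Y2 false).aemeasurable (measurableSet_lv v₂)])
  have r1 : ∀ (ω : Om d) n, ∃ m, Y1 false ω n = pth ω.1 m := fun ω n => by
    obtain ⟨e, he⟩ := allowed_walk_nonempty (ne_pth ω.1) ω.2.1 n
    obtain ⟨m, hm⟩ := exists_time_of_allowed he
    exact ⟨m, by rw [hm, Y1, envB_false]⟩
  have r2 : ∀ (ω : Om d) n, ∃ m, Y2 false ω n = pth ω.1 m := fun ω n => by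
    obtain ⟨e, he⟩ := allowed_walk_nonempty (ne_walk (envB false (pth ω.1)) ω.2.1) ω.2.2 n
    obtain ⟨m, hm⟩ := exists_time_of_allowed he
    obtain ⟨m', hm'⟩ := r1 ω m
    exact ⟨m', by rw [← hm', Y2, envB_false]; exact hm.symm⟩
  have f₁ := full_speed hδ hz r1 (fun ω n => by
    simpa [Y1] using (steps_walk (envB false (pth ω.1)) 0 ω.2.1).le_time n) h₁
  have f₂ := full_speed hδ hz r2 (fun ω n => by
    simpa [Y2] using (steps_walk (envB false (Y1 false ω)) 0 ω.2.2).le_time n) h₂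
  refine ⟨p.p, q.p, p.pos, p.sum, q.pos, q.sum, fun i => ?_, hδ, ?_, ?_, v₁ / drift p.p 0,
    v₂ / drift p.p 0, div_pos hv.1 hδ, div_lt_div_of_pos_right hv.2 hδ, fun Ω _ P _ X hX => ?_⟩
  · by_cases hi : i = 0
    · rw [hi]; exact hδ.le
    · rw [hz i hi]
  · rw [Finset.sum_eq_single 0 (fun i _ hi => by rw [hz i hi, zero_mul]) (by simp)]
    have h1 : 0 < logBias q.p 0 := by
      refine Real.log_pos ((one_lt_div (q.pos dn)).2 ?_)
      have := hq.rev.ud
      have := q.pos dn
      change q.p dn < q.p up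
      linarith
    exact mul_pos hδ (div_pos h1 (Real.sqrt_pos.2 (lt_of_lt_of_le (pow_pos h1 2)
      (Finset.single_le_sum (f := fun k => logBias q.p k ^ 2) (fun _ _ => sq_nonneg _)
        (mem_univ 0)))))
  · refine ⟨_, _, Measure.infinitePi fun i => iid (drv (if i = 0 then p else q)),
      fun i n ω => itw ω i n, inferInstance, ?_⟩
    convert exists_model (fun i => if i = 0 then p else q) using 2 with i
    split_ifs <;> rfl
  · obtain ⟨l1, l2⟩ := hX.laws (p := p) (q := q) rfl rfl rfl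
    rw [hasSpeed_iff (hX.meas 1), hasSpeed_iff (hX.meas 2), l1, l2, ← map_Y2, ← map_Y1,
      ae_map_iff (measurable_Y1 false).aemeasurable (measurableSet_speed _),
      ae_map_iff (measurable_Y2 false).aemeasurable (measurableSet_speed _)]
    exact ⟨f₁, f₂⟩

end Pool.Agent.Lib.MP_24597f_pr
end
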