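import Mathlib
import Pool.Agent.Lib.MP_24597f_pr.Defs
import Pool.Agent.Lib.MP_24597f_pr.Slln

-- part Pool.Agent.Lib.MP_24597f_pr.Seq
section

/-!
Shifting and gluing of i.i.d. sequences, and geometric functionals.
-/

open MeasureTheory Filter Topology Finset
open scoped ENNReal

namespace Pool.Agent.Lib.MP_24597f_pr

variable {α : Type} [MeasurableSpace α]

/-- Shift of a sequence by `n`. -/
def sh (n : ℕ) (u : ℕ → α) : ℕ → α := fun m => u (n + m)

/-- The first `n` entries of `u` followed by `u'`. -/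
def glue (n : ℕ) (u u' : ℕ → α) : ℕ → α := fun m => if m < n then u m else u' (m - n)

/-- The law of an i.i.d. sequence. -/
noncomputable abbrev iid (ν : Measure α) : Measure (ℕ → α) := Measure.infinitePi fun _ : ℕ => ν

omit [MeasurableSpace α] in
@[simp] lemma sh_apply (n m : ℕ) (u : ℕ → α) : sh n u m = u (n + m) := rfl

omit [MeasurableSpace α] in
@[simp] lemma sh_glue (n : ℕ) (u u' : ℕ → α) : sh n (glue n u u') = u' := by
  funext m; simp [sh, glue]

omit [MeasurableSpace α] in
lemma glue_lt {n m : ℕ} (u u' : ℕ → α) (h : m < n) : glue n u u' m = u m := by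
  simp [glue, h]

omit [MeasurableSpace α] in
lemma glue_add (n m : ℕ) (u u' : ℕ → α) : glue n u u' (n + m) = u' m := by
  simp [glue]

omit [MeasurableSpace α] in
lemma glue_self (n : ℕ) (u u' : ℕ → α) : glue n u u' n = u' 0 := by
  simp [glue]

omit [MeasurableSpace α] in
lemma glue_sh (n : ℕ) (u : ℕ → α) : glue n u (sh n u) = u := by
  funext m
  by_cases h : m < n
  · simp [glue, h]
  · simp only [glue, h, if_false, sh]; congr 1; omega

omit [MeasurableSpace α] in
lemma sh_sh (n k : ℕ) (u : ℕ → α) : sh k (sh n u) = sh (n + k) u := by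
  funext m; simp [sh, add_assoc]

omit [MeasurableSpace α] in
@[simp] lemma sh_zero (u : ℕ → α) : sh 0 u = u := by
  funext m; simp [sh]

@[fun_prop] lemma measurable_sh (n : ℕ) : Measurable (sh n : (ℕ → α) → ℕ → α) := by
  unfold sh; fun_prop

lemma measurable_glue (n : ℕ) :
    Measurable (fun p : (ℕ → α) × (ℕ → α) => glue n p.1 p.2) := by
  refine measurable_pi_iff.2 fun m => ?_
  by_cases h : m < n
  · simp only [glue, h, if_true]; fun_prop
  · simp only [glue, h, if_false]; fun_prop

@[fun_prop] lemma Measurable.glue' {β : Type*} [MeasurableSpace β] (n : ℕ) {f g : β → ℕ → α}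
    (hf : Measurable f) (hg : Measurable g) : Measurable fun b => glue n (f b) (g b) :=
  (measurable_glue n).comp (hf.prodMk hg)

variable (ν : Measure α) [IsProbabilityMeasure ν]

lemma measurePreserving_glue (n : ℕ) :
    MeasurePreserving (fun p : (ℕ → α) × (ℕ → α) => glue n p.1 p.2)
      ((iid ν).prod (iid ν)) (iid ν) := by
  refine ⟨measurable_glue n, ?_⟩
  refine Measure.eq_infinitePi _ fun s t ht => ?_
  rw [Measure.map_apply (measurable_glue n) (MeasurableSet.pi s.countable_toSet fun i _ => ht i)]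
  have key : (fun p : (ℕ → α) × (ℕ → α) => glue n p.1 p.2) ⁻¹' (Set.pi (s : Set ℕ) t) =
      (Set.pi ((s.filter (· < n) : Finset ℕ) : Set ℕ) t) ×ˢ
        (Set.pi (((s.filter (fun i => ¬ i < n)).image (· - n) : Finset ℕ) : Set ℕ)
          (fun i => t (n + i))) := by
    ext ⟨u, u'⟩
    simp only [Set.mem_preimage, Set.mem_pi, mem_coe, Set.mem_prod, mem_filter, mem_image]
    constructor
    · intro h
      refine ⟨fun i hi => ?_, ?_⟩
      · have := h i hi.1
        rwa [glue_lt _ _ hi.2] at this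
      · rintro i ⟨j, ⟨hj, hjn⟩, rfl⟩
        have := h j hj
        simp only [glue, hjn, if_false] at this
        rwa [show n + (j - n) = j by omega]
    · rintro ⟨h1, h2⟩ i hi
      by_cases hin : i < n
      · rw [glue_lt _ _ hin]; exact h1 i ⟨hi, hin⟩
      · have := h2 (i - n) ⟨i, ⟨hi, hin⟩, rfl⟩
        simp only [glue, hin, if_false]
        rwa [show n + (i - n) = i by omega] at this
  rw [key, Measure.prod_prod, Measure.infinitePi_pi _ (fun i _ => ht i),
    Measure.infinitePi_pi _ (fun i _ => ht (n + i)), Finset.prod_image,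
    ← Finset.prod_filter_mul_prod_filter_not s (· < n)]
  · congr 1
    refine Finset.prod_congr rfl fun i hi => ?_
    rw [show n + (i - n) = i by have := (mem_filter.1 hi).2; omega]
  · intro i hi j hj hij
    have h1 := (mem_filter.1 hi).2
    have h2 := (mem_filter.1 hj).2
    simp only at hij
    omega

lemma lintegral_glue (n : ℕ) {H : (ℕ → α) → ℝ≥0∞} (hH : Measurable H) :
    ∫⁻ u, H u ∂iid ν = ∫⁻ u, ∫⁻ u', H (glue n u u') ∂iid ν ∂iid ν := by
  rw [← (measurePreserving_glue ν n).lintegral_comp hH, lintegral_prod]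
  exact (hH.comp (measurable_glue n)).aemeasurable

lemma measurePreserving_sh (n : ℕ) : MeasurePreserving (sh n : (ℕ → α) → ℕ → α) (iid ν) (iid ν) :=
  ⟨measurable_sh n, Measure.map_infinitePi_infinitePi_of_inj (P := fun _ : ℕ => ν)
    (f := fun m => n + m) (add_right_injective n)⟩

lemma lintegral_sh (n : ℕ) {F : (ℕ → α) → ℝ≥0∞} (hF : Measurable F) :
    ∫⁻ u, F (sh n u) ∂iid ν = ∫⁻ u, F u ∂iid ν :=
  (measurePreserving_sh ν n).lintegral_comp hF

lemma lintegral_eval (n : ℕ) {f : α → ℝ≥0∞} (hf : Measurable f) :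
    ∫⁻ u, f (u n) ∂iid ν = ∫⁻ a, f a ∂ν :=
  (measurePreserving_eval_infinitePi (fun _ : ℕ => ν) n).lintegral_comp hf

/-- A function of a sequence which depends only on its first `n` entries. -/
def Dep {β : Type*} (n : ℕ) (f : (ℕ → α) → β) : Prop :=
  ∀ u u' : ℕ → α, (∀ m < n, u m = u' m) → f u = f u'

omit [MeasurableSpace α] in
lemma Dep.glue {β : Type*} {n : ℕ} {f : (ℕ → α) → β} (h : Dep n f) (u u' : ℕ → α) :
    f (glue n u u') = f u := h _ _ fun _ hm => glue_lt _ _ hm

lemma lintegral_mul_sh {n : ℕ} {f F : (ℕ → α) → ℝ≥0∞} (hd : Dep n f) (hf : Measurable f)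
    (hF : Measurable F) :
    ∫⁻ u, f u * F (sh n u) ∂iid ν = (∫⁻ u, f u ∂iid ν) * ∫⁻ u, F u ∂iid ν := by
  rw [lintegral_glue ν n (H := fun u => f u * F (sh n u)) (hf.mul (hF.comp (measurable_sh n)))]
  simp only [hd.glue, sh_glue]
  rw [← lintegral_mul_const _ hf]
  refine lintegral_congr fun u => ?_
  rw [lintegral_const_mul _ hF]

lemma lintegral_prod_range {w : α → ℝ≥0∞} (hw : Measurable w) (T : ℕ) :
    ∫⁻ u, ∏ m ∈ range T, w (u m) ∂iid ν = (∫⁻ a, w a ∂ν) ^ T := by
  induction T with
  | zero => simp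
  | succ T ih =>
    have hd : Dep T (fun u : ℕ → α => ∏ m ∈ range T, w (u m)) := fun u u' h =>
      Finset.prod_congr rfl fun m hm => by rw [h m (mem_range.1 hm)]
    have := lintegral_mul_sh ν (F := fun u => w (u 0)) hd (by fun_prop) (by fun_prop)
    simp only [sh_apply, add_zero] at this
    simp only [prod_range_succ]
    rw [this, ih, lintegral_eval ν 0 hw, pow_succ]

/-- The geometric functional `∑_T (∏_{m<T} w (u m)) F (shift^T u)`. -/
noncomputable def geo (w : α → ℝ≥0∞) (F : (ℕ → α) → ℝ≥0∞) (u : ℕ → α) : ℝ≥0∞ :=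
  ∑' T, (∏ m ∈ range T, w (u m)) * F (sh T u)

lemma measurable_geo {w : α → ℝ≥0∞} {F : (ℕ → α) → ℝ≥0∞} (hw : Measurable w) (hF : Measurable F) :
    Measurable (geo w F) := by
  unfold geo
  refine Measurable.tsum fun T => Measurable.mul (by fun_prop) (hF.comp (measurable_sh T))

lemma lintegral_geo {w : α → ℝ≥0∞} {F : (ℕ → α) → ℝ≥0∞} (hw : Measurable w) (hF : Measurable F) :
    ∫⁻ u, geo w F u ∂iid ν = (∑' T, (∫⁻ a, w a ∂ν) ^ T) * ∫⁻ u, F u ∂iid ν := by
  unfold geo
  rw [lintegral_tsum, ← ENNReal.tsum_mul_right]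
  · refine tsum_congr fun T => ?_
    have hd : Dep T (fun u : ℕ → α => ∏ m ∈ range T, w (u m)) := fun u u' h =>
      Finset.prod_congr rfl fun m hm => by rw [h m (mem_range.1 hm)]
    rw [lintegral_mul_sh ν hd (by fun_prop) hF, lintegral_prod_range ν hw]
  · intro T
    exact (Measurable.mul (by fun_prop) (hF.comp (measurable_sh T))).aemeasurable

lemma tsum_pow_le_two {s : ℝ≥0∞} (hs : s ≤ 2⁻¹) : ∑' T : ℕ, s ^ T ≤ 2 := by
  calc ∑' T : ℕ, s ^ T ≤ ∑' T : ℕ, (2⁻¹ : ℝ≥0∞) ^ T := ENNReal.tsum_le_tsum fun T => by gcongr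
    _ = 2 := by rw [ENNReal.tsum_geometric, ENNReal.one_sub_inv_two, inv_inv]

lemma lintegral_geo_le {w : α → ℝ≥0∞} {F : (ℕ → α) → ℝ≥0∞} (hw : Measurable w)
    (hF : Measurable F) (hs : ∫⁻ a, w a ∂ν ≤ 2⁻¹) :
    ∫⁻ u, geo w F u ∂iid ν ≤ 2 * ∫⁻ u, F u ∂iid ν := by
  rw [lintegral_geo ν hw hF]
  gcongr
  exact tsum_pow_le_two hs

/-- Weighted Cauchy-Schwarz inequality for series. -/
lemma tsum_sq_le (a c : ℕ → ℝ≥0∞) (hc0 : ∀ i, c i ≠ 0) (hc : ∀ i, c i ≠ ⊤) :
    (∑' i, a i) ^ 2 ≤ (∑' i, (c i)⁻¹) * ∑' i, c i * a i ^ 2 := by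
  have amgm : ∀ x y : ℝ≥0∞, 2 * (x * y) ≤ x ^ 2 + y ^ 2 := by
    intro x y
    rcases eq_or_ne x ⊤ with rfl | hx
    · simp
    rcases eq_or_ne y ⊤ with rfl | hy
    · simp
    lift x to NNReal using hx
    lift y to NNReal using hy
    norm_cast
    have : (2 * ((x : ℝ) * y)) ≤ (x : ℝ) ^ 2 + (y : ℝ) ^ 2 := by nlinarith [sq_nonneg ((x : ℝ) - y)]
    exact_mod_cast this
  have h2 : 2 * (∑' i, a i) ^ 2 ≤ 2 * ((∑' i, (c i)⁻¹) * ∑' i, c i * a i ^ 2) := by
    have e1 : (∑' i, a i) ^ 2 = ∑' i, ∑' j, a i * a j := by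
      rw [sq, ← ENNReal.tsum_mul_right]
      exact tsum_congr fun i => by rw [ENNReal.tsum_mul_left]
    have e2 : (∑' i, (c i)⁻¹) * ∑' i, c i * a i ^ 2 = ∑' i, ∑' j, (c i)⁻¹ * (c j * a j ^ 2) := by
      rw [← ENNReal.tsum_mul_right]
      exact tsum_congr fun i => by rw [ENNReal.tsum_mul_left]
    have e3 : (∑' i, (c i)⁻¹) * ∑' i, c i * a i ^ 2 = ∑' i, ∑' j, (c j)⁻¹ * (c i * a i ^ 2) := by
      rw [e2, ENNReal.tsum_comm]
    rw [two_mul ((∑' i, (c i)⁻¹) * ∑' i, c i * a i ^ 2)]
    nth_rewrite 1 [e3]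
    rw [e2, e1, ← ENNReal.tsum_add, ← ENNReal.tsum_mul_left]
    refine ENNReal.tsum_le_tsum fun i => ?_
    rw [← ENNReal.tsum_add, ← ENNReal.tsum_mul_left]
    refine ENNReal.tsum_le_tsum fun j => ?_
    have hi := ENNReal.inv_mul_cancel (hc0 i) (hc i)
    have hj := ENNReal.inv_mul_cancel (hc0 j) (hc j)
    have h := amgm (c i * a i) (c j * a j)
    calc 2 * (a i * a j) = ((c i)⁻¹ * c i) * ((c j)⁻¹ * c j) * (2 * (a i * a j)) := by
          rw [hi, hj]; simp
      _ = ((c i)⁻¹ * (c j)⁻¹) * (2 * ((c i * a i) * (c j * a j))) := by ring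
      _ ≤ ((c i)⁻¹ * (c j)⁻¹) * ((c i * a i) ^ 2 + (c j * a j) ^ 2) := by gcongr
      _ = ((c i)⁻¹ * c i) * ((c j)⁻¹ * (c i * a i ^ 2)) +
            ((c j)⁻¹ * c j) * ((c i)⁻¹ * (c j * a j ^ 2)) := by ring
      _ = _ := by rw [hi, hj]; simp
  exact (ENNReal.mul_le_mul_iff_right (by norm_num) (by norm_num)).1 h2

omit [MeasurableSpace α] in
lemma geo_sq_le (w : α → ℝ≥0∞) (F : (ℕ → α) → ℝ≥0∞) (u : ℕ → α) :
    geo w F u ^ 2 ≤ 2 * geo (fun a => 2 * w a ^ 2) (fun u => F u ^ 2) u := by
  unfold geo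
  refine (tsum_sq_le _ (fun T => 2 ^ T) (fun _ => by simp) (fun _ => by simp)).trans ?_
  refine mul_le_mul' ?_ (ENNReal.tsum_le_tsum fun T => le_of_eq ?_)
  · simp_rw [ENNReal.inv_pow]
    exact tsum_pow_le_two le_rfl
  · rw [Finset.prod_mul_distrib, Finset.prod_const, card_range, Finset.prod_pow, mul_pow, mul_assoc]

/-- Resampling one coordinate preserves an infinite product measure. -/
lemma measurePreserving_update {ι : Type} [DecidableEq ι] {β : Type} [MeasurableSpace β]
    (μ : ι → Measure β) [∀ i, IsProbabilityMeasure (μ i)] (i : ι) :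
    MeasurePreserving (fun p : (ι → β) × β => Function.update p.1 i p.2)
      ((Measure.infinitePi μ).prod (μ i)) (Measure.infinitePi μ) := by
  have hm : Measurable (fun p : (ι → β) × β => Function.update p.1 i p.2) := by fun_prop
  refine ⟨hm, ?_⟩
  refine Measure.eq_infinitePi _ fun s t ht => ?_
  rw [Measure.map_apply hm (MeasurableSet.pi s.countable_toSet fun i _ => ht i)]
  by_cases hi : i ∈ s
  · have key : (fun p : (ι → β) × β => Function.update p.1 i p.2) ⁻¹' (Set.pi (s : Set ι) t) =
        (Set.pi ((s.erase i : Finset ι) : Set ι) t) ×ˢ (t i) := by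
      ext ⟨u, b⟩
      simp only [Set.mem_preimage, Set.mem_pi, mem_coe, Set.mem_prod, mem_erase]
      constructor
      · intro h
        refine ⟨fun j hj => ?_, ?_⟩
        · have := h j hj.2
          rwa [Function.update_of_ne hj.1] at this
        · simpa using h i hi
      · rintro ⟨h1, h2⟩ j hj
        by_cases hji : j = i
        · subst hji; simpa using h2
        · rw [Function.update_of_ne hji]; exact h1 j ⟨hji, hj⟩
    rw [key, Measure.prod_prod, Measure.infinitePi_pi _ (fun i _ => ht i),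
      Finset.prod_erase_mul _ _ hi]
  · have key : (fun p : (ι → β) × β => Function.update p.1 i p.2) ⁻¹' (Set.pi (s : Set ι) t) =
        (Set.pi (s : Set ι) t) ×ˢ Set.univ := by
      ext ⟨u, b⟩
      simp only [Set.mem_preimage, Set.mem_pi, mem_coe, Set.mem_prod, Set.mem_univ, and_true]
      refine forall₂_congr fun j hj => ?_
      rw [Function.update_of_ne (by rintro rfl; exact hi hj)]
    rw [key, Measure.prod_prod, Measure.infinitePi_pi _ (fun i _ => ht i)]
    simp

end Pool.Agent.Lib.MP_24597f_pr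
end

-- part Pool.Agent.Lib.MP_24597f_pr.Walk
section

/-!
Construction of a `p`-walk on a graph from an i.i.d. sequence of instructions.
-/

open MeasureTheory Filter Topology Finset
open scoped ENNReal

namespace Pool.Agent.Lib.MP_24597f_pr

variable {d : ℕ}

/-- The opposite direction. -/
def opp (e : Dir d) : Dir d := (e.1, !e.2)

@[simp] lemma opp_opp (e : Dir d) : opp (opp e) = e := by simp [opp]

@[simp] lemma vec_opp (e : Dir d) : vec (opp e) = -vec e := by
  obtain ⟨j, b⟩ := e
  cases b <;> simp [vec, opp, Pi.single_neg]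

lemma vec_apply (e : Dir d) (j : Fin d) :
    vec e j = if j = e.1 then (if e.2 then 1 else -1) else 0 := by
  simp [vec, Pi.single_apply]

lemma vec_injective : Function.Injective (vec : Dir d → V d) := by
  rintro ⟨j, b⟩ ⟨j', b'⟩ h
  have h1 := congrFun h j
  simp only [vec_apply, if_true] at h1
  by_cases hj : j = j'
  · subst hj
    cases b <;> cases b' <;> simp_all
  · cases b <;> simp [hj] at h1

lemma vec_ne_zero (e : Dir d) : vec e ≠ 0 := by
  intro h
  have := congrFun h e.1
  obtain ⟨j, b⟩ := e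
  cases b <;> simp [vec_apply] at this

lemma mem_allowed {E : Set (Sym2 (V d))} {x : V d} {e : Dir d} :
    e ∈ allowed E x ↔ s(x, x + vec e) ∈ E := by
  simp [allowed]

lemma opp_mem_allowed {E : Set (Sym2 (V d))} {x : V d} {e : Dir d} :
    opp e ∈ allowed E (x + vec e) ↔ e ∈ allowed E x := by
  simp [mem_allowed, Sym2.eq_swap]

lemma allowed_mono {E E' : Set (Sym2 (V d))} (h : E' ⊆ E) (x : V d) :
    allowed E' x ⊆ allowed E x := fun _ he => mem_allowed.2 (h (mem_allowed.1 he))

lemma allowed_lattice (x : V d) : allowed (latticeEdges d) x = univ := by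
  ext e
  simp only [mem_allowed, mem_univ, iff_true]
  exact ⟨x, e, rfl⟩

/-- A positive probability vector on the directions. -/
structure Law (d : ℕ) where
  p : Dir d → ℝ
  pos : ∀ e, 0 < p e
  sum : ∑ e, p e = 1

/-- One instruction: a direction for each possible set of allowed directions. -/
abbrev Ins (d : ℕ) : Type := Finset (Dir d) → Dir d

/-- A direction in `S` read from `e`. -/
noncomputable def pick' (S : Finset (Dir d)) (e : Dir d) : Dir d :=
  if e ∈ S then e else if h : S.Nonempty then h.choose else e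

/-- The direction chosen by an instruction when `S` is the set of allowed directions. -/
noncomputable def pick (S : Finset (Dir d)) (ξ : Ins d) : Dir d := pick' S (ξ S)

lemma pick_mem {S : Finset (Dir d)} (hS : S.Nonempty) (ξ : Ins d) : pick S ξ ∈ S := by
  unfold pick pick'
  split_ifs with h
  · exact h
  · exact hS.choose_spec

/-- Weights of the direction attached to `S`. -/
noncomputable def wS (q : Law d) (S : Finset (Dir d)) (e : Dir d) : ℝ :=
  if S.Nonempty then (if e ∈ S then q.p e / ∑ e' ∈ S, q.p e' else 0) else q.p e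

lemma Law.sum_pos (q : Law d) {S : Finset (Dir d)} (hS : S.Nonempty) : 0 < ∑ e' ∈ S, q.p e' :=
  Finset.sum_pos (fun e _ => q.pos e) hS

lemma wS_nonneg (q : Law d) (S : Finset (Dir d)) (e : Dir d) : 0 ≤ wS q S e := by
  unfold wS
  split_ifs with h1 h2
  · exact div_nonneg (q.pos e).le (q.sum_pos h1).le
  · exact le_rfl
  · exact (q.pos e).le

lemma sum_wS (q : Law d) (S : Finset (Dir d)) : ∑ e, wS q S e = 1 := by
  unfold wS
  split_ifs with h1
  · rw [Finset.sum_ite_mem, univ_inter, ← Finset.sum_div, div_self (q.sum_pos h1).ne']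
  · exact q.sum

/-- Law of the direction attached to `S`. -/
noncomputable def lawS (q : Law d) (S : Finset (Dir d)) : Measure (Dir d) :=
  ∑ e, ENNReal.ofReal (wS q S e) • Measure.dirac e

lemma lintegral_lawS (q : Law d) (S : Finset (Dir d)) (f : Dir d → ℝ≥0∞) :
    ∫⁻ e, f e ∂lawS q S = ∑ e, ENNReal.ofReal (wS q S e) * f e := by
  simp [lawS, lintegral_finsetSum_measure]

instance (q : Law d) (S : Finset (Dir d)) : IsProbabilityMeasure (lawS q S) := by
  constructor
  have := lintegral_lawS q S (fun _ => 1)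
  simp only [lintegral_const, one_mul, mul_one] at this
  rw [this, ← ENNReal.ofReal_sum_of_nonneg (fun e _ => wS_nonneg q S e), sum_wS]
  simp

/-- Law of one instruction. -/
noncomputable def drv (q : Law d) : Measure (Ins d) := Measure.pi (lawS q)

instance (q : Law d) : IsProbabilityMeasure (drv q) := by
  unfold drv; infer_instance

lemma lintegral_pick (q : Law d) {S : Finset (Dir d)} (hS : S.Nonempty) (f : Dir d → ℝ≥0∞) :
    ∫⁻ ξ, f (pick S ξ) ∂drv q = ∑ e ∈ S, ENNReal.ofReal (q.p e / ∑ e' ∈ S, q.p e') * f e := by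
  have h := (measurePreserving_eval (lawS q) S).lintegral_comp
    (f := fun e => f (pick' S e)) Measurable.of_discrete
  have h2 : ∫⁻ ξ, f (pick S ξ) ∂drv q = ∫⁻ e, f (pick' S e) ∂lawS q S := h
  rw [h2, lintegral_lawS, ← Finset.sum_subset (subset_univ S)]
  · refine Finset.sum_congr rfl fun e he => ?_
    simp [wS, hS, he, pick']
  · intro e _ he
    simp [wS, hS, he]

/-- The walk on the graph with edge set `E` started at `a` and driven by `u`. -/
noncomputable def walk (E : Set (Sym2 (V d))) (a : V d) (u : ℕ → Ins d) : ℕ → V d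
  | 0 => a
  | n + 1 => walk E a u n + vec (pick (allowed E (walk E a u n)) (u n))

/-- The direction of step number `n`. -/
noncomputable def stp (E : Set (Sym2 (V d))) (a : V d) (u : ℕ → Ins d) (n : ℕ) : Dir d :=
  pick (allowed E (walk E a u n)) (u n)

@[simp] lemma walk_zero (E : Set (Sym2 (V d))) (a : V d) (u : ℕ → Ins d) : walk E a u 0 = a := rfl

lemma walk_succ (E : Set (Sym2 (V d))) (a : V d) (u : ℕ → Ins d) (n : ℕ) :
    walk E a u (n + 1) = walk E a u n + vec (stp E a u n) := rfl

lemma allowed_walk_nonempty {E : Set (Sym2 (V d))} {a : V d} (ha : (allowed E a).Nonempty)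
    (u : ℕ → Ins d) (n : ℕ) : (allowed E (walk E a u n)).Nonempty := by
  induction n with
  | zero => exact ha
  | succ n ih => exact ⟨_, opp_mem_allowed.2 (pick_mem ih (u n))⟩

lemma stp_mem {E : Set (Sym2 (V d))} {a : V d} (ha : (allowed E a).Nonempty)
    (u : ℕ → Ins d) (n : ℕ) : stp E a u n ∈ allowed E (walk E a u n) :=
  pick_mem (allowed_walk_nonempty ha u n) _

lemma trace_walk_subset {E : Set (Sym2 (V d))} {a : V d} (ha : (allowed E a).Nonempty)
    (u : ℕ → Ins d) : trace (walk E a u) ⊆ E := by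
  rintro z ⟨n, rfl⟩
  exact mem_allowed.1 (stp_mem ha u n)

/-- Two walks agree as long as their environments and instructions agree. -/
lemma walk_congr {E E' : Set (Sym2 (V d))} {a : V d} {u u' : ℕ → Ins d} {N : ℕ}
    (hE : ∀ m < N, allowed E' (walk E a u m) = allowed E (walk E a u m))
    (hu : ∀ m < N, u' m = u m) : ∀ m ≤ N, walk E' a u' m = walk E a u m := by
  intro m hm
  induction m with
  | zero => rfl
  | succ m ih =>
    have h := ih (by omega)
    simp only [walk]
    rw [h, hE m (by omega), hu m (by omega)]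

lemma walk_add (E : Set (Sym2 (V d))) (a : V d) (u : ℕ → Ins d) (n m : ℕ) :
    walk E a u (n + m) = walk E (walk E a u n) (sh n u) m := by
  induction m with
  | zero => rfl
  | succ m ih =>
    rw [← add_assoc]
    simp only [walk]
    rw [ih, sh_apply]

lemma stp_add (E : Set (Sym2 (V d))) (a : V d) (u : ℕ → Ins d) (n m : ℕ) :
    stp E a u (n + m) = stp E (walk E a u n) (sh n u) m := by
  simp only [stp, walk_add, sh_apply]

lemma walk_translate {E E' : Set (Sym2 (V d))} {a z : V d} {u : ℕ → Ins d}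
    (hE : ∀ m, allowed E' (walk E a u m + z) = allowed E (walk E a u m)) (m : ℕ) :
    walk E' (a + z) u m = walk E a u m + z := by
  induction m with
  | zero => rfl
  | succ m ih =>
    simp only [walk]
    rw [ih, hE m]
    abel

lemma dep_walk (E : Set (Sym2 (V d))) (a : V d) {m n : ℕ} (h : m ≤ n) :
    Dep n (fun u => walk E a u m) := fun u u' huu =>
  (walk_congr (N := n) (fun _ _ => rfl) (fun k hk => (huu k hk).symm) m h).symm

lemma walk_glue (E : Set (Sym2 (V d))) (a : V d) {m n : ℕ} (h : m ≤ n) (u u' : ℕ → Ins d) :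
    walk E a (glue n u u') m = walk E a u m := (dep_walk E a h).glue u u'

lemma measurable_allowed :
    Measurable (fun p : Set (Sym2 (V d)) × V d => allowed p.1 p.2) := by
  refine measurable_from_prod_countable_left fun x => ?_
  refine measurable_to_countable' fun S => ?_
  have : (fun E : Set (Sym2 (V d)) => allowed E x) ⁻¹' {S} =
      ⋂ e : Dir d, {E | s(x, x + vec e) ∈ E ↔ e ∈ S} := by
    ext E
    simp only [Set.mem_preimage, Set.mem_singleton_iff, Set.mem_iInter, Set.mem_setOf_eq,
      Finset.ext_iff, mem_allowed]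
  rw [this]
  refine MeasurableSet.iInter fun e => ?_
  by_cases he : e ∈ S
  · simp only [he, iff_true]
    exact measurableSet_mem _
  · simp only [he, iff_false]
    exact measurableSet_notMem _

@[fun_prop] lemma Measurable.allowed' {β : Type*} [MeasurableSpace β] {E : β → Set (Sym2 (V d))}
    {x : β → V d} (hE : Measurable E) (hx : Measurable x) :
    Measurable fun b => allowed (E b) (x b) := measurable_allowed.comp (hE.prodMk hx)

@[fun_prop] lemma Measurable.pick' {β : Type*} [MeasurableSpace β] {S : β → Finset (Dir d)}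
    {ξ : β → Ins d} (hS : Measurable S) (hξ : Measurable ξ) :
    Measurable fun b => pick (S b) (ξ b) :=
  (Measurable.of_discrete (f := fun p : Finset (Dir d) × Ins d => pick p.1 p.2)).comp
    (hS.prodMk hξ)

@[fun_prop] lemma measurable_vec : Measurable (vec : Dir d → V d) := Measurable.of_discrete

@[fun_prop] lemma Measurable.walk' {β : Type*} [MeasurableSpace β] {E : β → Set (Sym2 (V d))}
    {a : β → V d} {u : β → ℕ → Ins d} (hE : Measurable E) (ha : Measurable a) (hu : Measurable u)
    (n : ℕ) : Measurable fun b => walk (E b) (a b) (u b) n := by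
  induction n with
  | zero => exact ha
  | succ n ih =>
    simp only [walk]
    fun_prop

@[fun_prop] lemma Measurable.walk'' {β : Type*} [MeasurableSpace β] {E : β → Set (Sym2 (V d))}
    {a : β → V d} {u : β → ℕ → Ins d} (hE : Measurable E) (ha : Measurable a) (hu : Measurable u) :
    Measurable fun b => walk (E b) (a b) (u b) :=
  measurable_pi_iff.2 fun n => Measurable.walk' hE ha hu n

@[fun_prop] lemma Measurable.stp' {β : Type*} [MeasurableSpace β] {E : β → Set (Sym2 (V d))}
    {a : β → V d} {u : β → ℕ → Ins d} (hE : Measurable E) (ha : Measurable a) (hu : Measurable u)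
    (n : ℕ) : Measurable fun b => stp (E b) (a b) (u b) n := by
  unfold stp
  fun_prop

@[fun_prop] lemma measurable_trace : Measurable (trace : (ℕ → V d) → Set (Sym2 (V d))) := by
  refine measurable_set_iff.2 fun z => ?_
  refine measurableSet_setOf.1 ?_
  have : {x : ℕ → V d | z ∈ trace x} = ⋃ n, {x | z = s(x n, x (n + 1))} := by
    ext x; simp [trace]
  rw [this]
  refine MeasurableSet.iUnion fun n => ?_
  have hm : Measurable (fun x : ℕ → V d => (x n, x (n + 1))) := by fun_prop
  exact hm (MeasurableSet.of_discrete (s := {p : V d × V d | z = s(p.1, p.2)}))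

/-- Transition probability as an extended nonnegative real. -/
noncomputable def tp (q : Law d) (E : Set (Sym2 (V d))) (x : V d) (e : Dir d) : ℝ≥0∞ :=
  ENNReal.ofReal (q.p e / ∑ e' ∈ allowed E x, q.p e')

/-- The Markov property in forward form. -/
lemma lintegral_stp (q : Law d) {E : Set (Sym2 (V d))} {a : V d} (ha : (allowed E a).Nonempty)
    (n : ℕ) {F : (ℕ → Ins d) → ℝ≥0∞} (hd : Dep n F) (hF : Measurable F)
    (ψ : V d → Dir d → ℝ≥0∞) :
    ∫⁻ u, F u * ψ (walk E a u n) (stp E a u n) ∂iid (drv q) =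
      ∫⁻ u, F u * ∑ e ∈ allowed E (walk E a u n), tp q E (walk E a u n) e * ψ (walk E a u n) e
        ∂iid (drv q) := by
  have hψ : Measurable (fun p : V d × Dir d => ψ p.1 p.2) := Measurable.of_discrete
  have hm : Measurable (fun u => F u * ψ (walk E a u n) (stp E a u n)) :=
    hF.mul (hψ.comp (f := fun u => (walk E a u n, stp E a u n)) (by fun_prop))
  rw [lintegral_glue _ n hm]
  refine lintegral_congr fun u => ?_
  simp only [hd.glue, stp, walk_glue E a le_rfl, glue_self]
  rw [lintegral_const_mul, lintegral_eval (drv q) 0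
    (f := fun ξ => ψ (walk E a u n) (pick (allowed E (walk E a u n)) ξ)) Measurable.of_discrete,
    lintegral_pick q (allowed_walk_nonempty ha u n)]
  · rfl
  · exact (Measurable.of_discrete
      (f := fun ξ => ψ (walk E a u n) (pick (allowed E (walk E a u n)) ξ))).comp
      (measurable_pi_apply 0)

/-- The Markov property: restarting the walk at time `n`. -/
lemma lintegral_restart (q : Law d) (E : Set (Sym2 (V d))) (a : V d) (n : ℕ)
    {F : (ℕ → Ins d) → ℝ≥0∞} (hd : Dep n F) (hF : Measurable F)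
    {Φ : V d → (ℕ → Ins d) → ℝ≥0∞} (hΦ : ∀ x, Measurable (Φ x)) :
    ∫⁻ u, F u * Φ (walk E a u n) (sh n u) ∂iid (drv q) =
      ∫⁻ u, F u * ∫⁻ u', Φ (walk E a u n) u' ∂iid (drv q) ∂iid (drv q) := by
  have hΦ' : Measurable (fun p : V d × (ℕ → Ins d) => Φ p.1 p.2) :=
    measurable_from_prod_countable_right hΦ
  have hm : Measurable (fun u => F u * Φ (walk E a u n) (sh n u)) :=
    hF.mul (hΦ'.comp (f := fun u => (walk E a u n, sh n u)) (by fun_prop))
  rw [lintegral_glue _ n hm]
  refine lintegral_congr fun u => ?_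
  simp only [hd.glue, walk_glue E a le_rfl, sh_glue]
  rw [lintegral_const_mul _ (hΦ _)]

/-- First-step analysis. -/
lemma lintegral_first (q : Law d) {E : Set (Sym2 (V d))} {a : V d} (ha : (allowed E a).Nonempty)
    {Φ : V d → (ℕ → Ins d) → ℝ≥0∞} (hΦ : ∀ x, Measurable (Φ x)) :
    ∫⁻ u, Φ (walk E a u 1) (sh 1 u) ∂iid (drv q) =
      ∑ e ∈ allowed E a, tp q E a e * ∫⁻ u', Φ (a + vec e) u' ∂iid (drv q) := by
  have h1 := lintegral_restart q E a 1 (F := fun _ => 1) (fun _ _ _ => rfl) measurable_const hΦ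
  have h2 := lintegral_stp q ha 0 (F := fun _ => 1) (fun _ _ _ => rfl) measurable_const
    (fun x e => ∫⁻ u', Φ (x + vec e) u' ∂iid (drv q))
  simp only [one_mul, walk_zero, lintegral_const, measure_univ, mul_one] at h1 h2
  rw [h1, ← h2]
  rfl

end Pool.Agent.Lib.MP_24597f_pr
end

-- part Pool.Agent.Lib.MP_24597f_pr.Green
section

/-!
Green functions of the reversible walk on a fixed graph, as voltages.
-/

open MeasureTheory Filter Topology Finset
open scoped ENNReal

namespace Pool.Agent.Lib.MP_24597f_pr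

variable {d : ℕ} [NeZero d]

/-- The level (first coordinate) of a vertex. -/
def lv (x : V d) : ℤ := x 0

/-- The direction `+e_1`. -/
def up : Dir d := (0, true)

/-- The direction `-e_1`. -/
def dn : Dir d := (0, false)

@[simp] lemma lv_add (x y : V d) : lv (x + y) = lv x + lv y := rfl
@[simp] lemma lv_neg (x : V d) : lv (-x) = -lv x := rfl
@[simp] lemma lv_sub (x y : V d) : lv (x - y) = lv x - lv y := rfl
@[simp] lemma lv_zero : lv (0 : V d) = 0 := rfl
@[simp] lemma lv_up : lv (vec (up : Dir d)) = 1 := by simp [lv, up, vec_apply]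
@[simp] lemma lv_dn : lv (vec (dn : Dir d)) = -1 := by simp [lv, dn, vec_apply]
@[simp] lemma opp_up : opp (up : Dir d) = dn := rfl
@[simp] lemma opp_dn : opp (dn : Dir d) = up := rfl
lemma up_ne_dn : (up : Dir d) ≠ dn := by simp [up, dn]
lemma vec_dn : vec (dn : Dir d) = -vec up := by rw [← opp_up, vec_opp]

@[fun_prop] lemma measurable_lv : Measurable (lv : V d → ℤ) := Measurable.of_discrete

lemma lv_hz {e : Dir d} (h : e.1 ≠ 0) : lv (vec e) = 0 := by simp [lv, vec_apply, h.symm]

lemma dir_cases (e : Dir d) : e = up ∨ e = dn ∨ e.1 ≠ 0 := by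
  obtain ⟨j, b⟩ := e
  by_cases h : j = 0
  · subst h; cases b <;> simp [up, dn]
  · simp [h]

lemma lv_vec_cases (e : Dir d) :
    (e = up ∧ lv (vec e) = 1) ∨ (e = dn ∧ lv (vec e) = -1) ∨ (e.1 ≠ 0 ∧ lv (vec e) = 0) := by
  rcases dir_cases e with h | h | h
  · exact Or.inl ⟨h, by simp [h]⟩
  · exact Or.inr (Or.inl ⟨h, by simp [h]⟩)
  · exact Or.inr (Or.inr ⟨h, lv_hz h⟩)

lemma lv_vec_le (e : Dir d) : lv (vec e) ≤ 1 := by
  rcases lv_vec_cases e with h | h | h <;> omega

lemma le_lv_vec (e : Dir d) : -1 ≤ lv (vec e) := by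
  rcases lv_vec_cases e with h | h | h <;> omega

lemma lv_true_nonneg (j : Fin d) : 0 ≤ lv (vec (j, true)) := by
  rcases lv_vec_cases ((j, true) : Dir d) with h | h | h
  · omega
  · simp [dn] at h
  · omega

/-- Reversibility with respect to the weight `16 ^ level`. -/
structure Rev (q : Law d) : Prop where
  ud : q.p up = 16 * q.p dn
  sym : ∀ j, j ≠ 0 → q.p (j, true) = q.p (j, false)

/-- Conductance of the edge from `x` in direction `e`. -/
noncomputable def cond (q : Law d) (x : V d) (e : Dir d) : ℝ := (16 : ℝ) ^ lv x * q.p e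

lemma cond_pos (q : Law d) (x : V d) (e : Dir d) : 0 < cond q x e :=
  mul_pos (zpow_pos (by norm_num) _) (q.pos e)

lemma cond_opp {q : Law d} (hq : Rev q) (x : V d) (e : Dir d) :
    cond q (x + vec e) (opp e) = cond q x e := by
  unfold cond
  rcases dir_cases e with rfl | rfl | h
  · rw [lv_add, lv_up, opp_up, hq.ud, zpow_add₀ (by norm_num)]; ring
  · rw [lv_add, lv_dn, opp_dn, hq.ud, zpow_add₀ (by norm_num)]; ring
  · rw [lv_add, lv_hz h, add_zero]
    obtain ⟨j, b⟩ := e
    have := hq.sym j h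
    cases b <;> simp [opp, this]

/-- The reversible measure. -/
noncomputable def pw (q : Law d) (E : Set (Sym2 (V d))) (x : V d) : ℝ :=
  ∑ e ∈ allowed E x, cond q x e

lemma pw_nonneg (q : Law d) (E : Set (Sym2 (V d))) (x : V d) : 0 ≤ pw q E x :=
  Finset.sum_nonneg fun e _ => (cond_pos q x e).le

lemma pw_pos (q : Law d) {E : Set (Sym2 (V d))} {x : V d} (h : (allowed E x).Nonempty) :
    0 < pw q E x := Finset.sum_pos (fun e _ => cond_pos q x e) h

lemma tp_eq (q : Law d) (E : Set (Sym2 (V d))) (x : V d) (e : Dir d) :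
    tp q E x e = ENNReal.ofReal (cond q x e / pw q E x) := by
  unfold tp pw cond
  rw [← Finset.mul_sum, mul_div_mul_left _ _ (zpow_pos (by norm_num) _).ne']

/-- The network on the lattice. -/
noncomputable def net (q : Law d) : Net (V d × Fin d) (V d) where
  c a := cond q a.1 (a.2, true)
  src a := a.1
  tgt a := a.1 + vec (a.2, true)
  pos _ := cond_pos q _ _

/-- Positively oriented edges of `E` starting below level `J`. -/
def below (E : Set (Sym2 (V d))) (J : ℤ) : Set (V d × Fin d) :=
  {a | (a.2, true) ∈ allowed E a.1 ∧ lv a.1 < J}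

/-- Graphs that are finite below each level and in which every vertex is joined to high levels. -/
structure Nice (E : Set (Sym2 (V d))) : Prop where
  fin : ∀ J, (below E J).Finite
  conn : ∀ (J : ℤ) (x : V d), (allowed E x).Nonempty → ∃ (y : ℕ → V d) (M : ℕ), y 0 = x ∧
    (∀ m < M, ∃ e ∈ allowed E (y m), y (m + 1) = y m + vec e) ∧ J ≤ lv (y M)

open Classical in
/-- The edges below `J` as a finite set. -/
noncomputable def DE (E : Set (Sym2 (V d))) (J : ℤ) : Finset (V d × Fin d) :=
  if h : (below E J).Finite then h.toFinset else ∅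

lemma Nice.mem_DE {E : Set (Sym2 (V d))} (h : Nice E) {J : ℤ} {a : V d × Fin d} :
    a ∈ DE E J ↔ (a.2, true) ∈ allowed E a.1 ∧ lv a.1 < J := by
  rw [DE, dif_pos (h.fin J), Set.Finite.mem_toFinset]; rfl

/-- End points of the edges below `J`. -/
noncomputable def SE (E : Set (Sym2 (V d))) (J : ℤ) : Finset (V d) :=
  (DE E J).image (fun a => a.1) ∪ (DE E J).image (fun a => a.1 + vec (a.2, true))

omit [NeZero d] in
lemma false_eq_opp (j : Fin d) : ((j, false) : Dir d) = opp (j, true) := rfl

lemma Nice.mem_SE {E : Set (Sym2 (V d))} (h : Nice E) {J : ℤ} {x : V d}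
    (hx : (allowed E x).Nonempty) (hJ : lv x < J) : x ∈ SE E J := by
  obtain ⟨⟨j, b⟩, he⟩ := hx
  cases b
  · refine mem_union_right _ (mem_image.2 ⟨(x + vec (j, false), j), h.mem_DE.2 ⟨?_, ?_⟩, ?_⟩)
    · exact opp_mem_allowed.2 he
    · have := lv_true_nonneg (d := d) j
      simp only [false_eq_opp, vec_opp, lv_add, lv_neg]; omega
    · simp [false_eq_opp]
  · exact mem_union_left _ (mem_image.2 ⟨(x, j), h.mem_DE.2 ⟨he, hJ⟩, rfl⟩)

lemma Nice.SE_nonempty {E : Set (Sym2 (V d))} (h : Nice E) {J : ℤ} {x : V d}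
    (hx : x ∈ SE E J) : (allowed E x).Nonempty := by
  rcases mem_union.1 hx with hx | hx
  · obtain ⟨a, ha, rfl⟩ := mem_image.1 hx
    exact ⟨_, (h.mem_DE.1 ha).1⟩
  · obtain ⟨a, ha, rfl⟩ := mem_image.1 hx
    exact ⟨_, opp_mem_allowed.2 (h.mem_DE.1 ha).1⟩

/-- Sums over directed edges as sums over positively oriented edges. -/
lemma Nice.dart_sum {E : Set (Sym2 (V d))} (h : Nice E) (J : ℤ) {M : Type} [AddCommMonoid M]
    (ψ : V d → Dir d → M) (hψ : ∀ x e, J ≤ lv x → ψ x e = 0) :
    ∑ x ∈ SE E J, ∑ e ∈ allowed E x, ψ x e =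
      ∑ a ∈ DE E J, (ψ a.1 (a.2, true) + ψ (a.1 + vec (a.2, true)) (a.2, false)) := by
  classical
  have e1 : ∀ x, ∑ e ∈ allowed E x, ψ x e = ∑ j : Fin d,
      ((if (j, true) ∈ allowed E x then ψ x (j, true) else 0) +
        (if (j, false) ∈ allowed E x then ψ x (j, false) else 0)) := by
    intro x
    rw [← Finset.univ_inter (allowed E x), ← Finset.sum_ite_mem, Fintype.sum_prod_type]
    simp
  simp_rw [e1]
  rw [← Finset.sum_product' (f := fun x j =>
      ((if (j, true) ∈ allowed E x then ψ x (j, true) else 0) +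
        (if (j, false) ∈ allowed E x then ψ x (j, false) else 0))),
    Finset.sum_add_distrib, Finset.sum_add_distrib]
  congr 1
  · symm
    refine Finset.sum_subset_zero_on_sdiff ?_ ?_ ?_
    · intro a ha
      exact mem_product.2 ⟨mem_union_left _ (mem_image_of_mem _ ha), mem_univ _⟩
    · intro a ha
      have h2 := (mem_sdiff.1 ha).2
      rw [h.mem_DE] at h2
      split_ifs with h3
      · exact hψ _ _ (by by_contra hc; exact h2 ⟨h3, by omega⟩)
      · rfl
    · intro a ha
      rw [if_pos (h.mem_DE.1 ha).1]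
  · symm
    have hinj : Set.InjOn (fun a : V d × Fin d => (a.1 + vec (a.2, true), a.2)) (DE E J) := by
      rintro ⟨x, j⟩ _ ⟨x', j'⟩ _ hh
      simp only [Prod.mk.injEq] at hh
      obtain ⟨h1, rfl⟩ := hh
      simpa using h1
    rw [← Finset.sum_image (f := fun b : V d × Fin d => ψ b.1 (b.2, false)) hinj]
    refine Finset.sum_subset_zero_on_sdiff ?_ ?_ ?_
    · intro b hb
      obtain ⟨a, ha, rfl⟩ := mem_image.1 hb
      exact mem_product.2 ⟨mem_union_right _ (mem_image_of_mem _ ha), mem_univ _⟩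
    · rintro ⟨x, j⟩ hb
      have h2 := (mem_sdiff.1 hb).2
      split_ifs with h3
      · refine hψ _ _ ?_
        by_contra hc
        refine h2 (mem_image.2 ⟨(x + vec (j, false), j), h.mem_DE.2 ⟨opp_mem_allowed.2 h3, ?_⟩, ?_⟩)
        · have := lv_true_nonneg (d := d) j
          simp only [false_eq_opp, vec_opp, lv_add, lv_neg] at hc ⊢; omega
        · simp [false_eq_opp]
      · rfl
    · intro b hb
      obtain ⟨a, ha, rfl⟩ := mem_image.1 hb
      exact (if_pos (opp_mem_allowed.2 (h.mem_DE.1 ha).1)).symm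

lemma Nice.green {q : Law d} (hq : Rev q) {E : Set (Sym2 (V d))} (h : Nice E) (J : ℤ)
    (f g : V d → ℝ) (hg : ∀ x, J ≤ lv x → g x = 0) :
    (net q).En (DE E J) f g =
      ∑ x ∈ SE E J, g x * ∑ e ∈ allowed E x, cond q x e * (f x - f (x + vec e)) := by
  simp_rw [Finset.mul_sum]
  rw [h.dart_sum J (fun x e => g x * (cond q x e * (f x - f (x + vec e))))
    (fun x e hx => by simp [hg x hx])]
  refine Finset.sum_congr rfl fun a _ => ?_
  simp only [net, false_eq_opp, cond_opp hq, vec_opp, add_neg_cancel_right]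
  ring

/-- Resistance bound from a cut at level `h0`. -/
lemma Nice.res_cut (q : Law d) {E : Set (Sym2 (V d))} (h : Nice E) (J h0 : ℤ) (z : V d)
    (hcut : ∀ w, lv w = h0 - 1 → up ∈ allowed E w → w + vec up = z) {x : V d}
    (hx : (allowed E x).Nonempty) (hx0 : h0 ≤ lv x) (f : V d → ℝ) (hf : ∀ w, J ≤ lv w → f w = 0) :
    f x ^ 2 ≤ (∑ a ∈ (DE E J).filter (fun a => h0 ≤ lv a.1), ((net q).c a)⁻¹) *
      (net q).En (DE E J) f f := by
  obtain ⟨y, M, hy0, hstep, hM⟩ := h.conn (max J h0) x hx
  let φ : V d → ℝ := fun w => if h0 ≤ lv w then f w else f z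
  have key := Net.path_sq_le (N := net q) (filter_subset (fun a => h0 ≤ lv a.1) (DE E J)) f φ y M ?_
  · have e1 : φ (y 0) = f x := by simp [φ, hy0, hx0]
    have e2 : φ (y M) = 0 := by
      simp only [φ, if_pos (le_of_max_le_right hM)]
      exact hf _ (le_of_max_le_left hM)
    rwa [e1, e2, sub_zero] at key
  intro m hm
  obtain ⟨e, he, hm1⟩ := hstep m hm
  have hl : lv (y (m + 1)) = lv (y m) + lv (vec e) := by rw [hm1, lv_add]
  by_cases h1 : h0 ≤ lv (y m) <;> by_cases h2 : h0 ≤ lv (y (m + 1))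
  · obtain ⟨j, b⟩ := e
    cases b
    · by_cases hJ : lv (y (m + 1)) < J
      · refine Or.inr ⟨(y (m + 1), j), mem_filter.2 ⟨h.mem_DE.2 ⟨?_, hJ⟩, h2⟩, Or.inr ⟨?_, ?_⟩⟩
        · rw [hm1]; exact opp_mem_allowed.2 he
        · simp only [net, φ, if_pos h1]; rw [hm1]; simp [false_eq_opp]
        · simp [net, φ, h2]
      · left
        have := lv_true_nonneg (d := d) j
        simp only [false_eq_opp, vec_opp, lv_neg] at hl
        simp only [φ, if_pos h1, if_pos h2]
        rw [hf _ (by omega), hf _ (by omega)]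
    · by_cases hJ : lv (y m) < J
      · refine Or.inr ⟨(y m, j), mem_filter.2 ⟨h.mem_DE.2 ⟨he, hJ⟩, h1⟩, Or.inl ⟨?_, ?_⟩⟩
        · simp [net, φ, h1]
        · simp only [net, φ, if_pos h2]; rw [hm1]
      · left
        have := lv_true_nonneg (d := d) j
        simp only [φ, if_pos h1, if_pos h2]
        rw [hf _ (by omega), hf _ (by omega)]
  · left
    rcases lv_vec_cases e with ⟨-, h3⟩ | ⟨rfl, h3⟩ | ⟨-, h3⟩
    · omega
    · have := hcut (y (m + 1)) (by omega) (by rw [hm1]; exact opp_mem_allowed.2 he)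
      simp only [φ, if_pos h1, if_neg h2]
      rw [← this, hm1, vec_dn]; simp
    · omega
  · left
    rcases lv_vec_cases e with ⟨rfl, h3⟩ | ⟨-, h3⟩ | ⟨-, h3⟩
    · have := hcut (y m) (by omega) he
      simp only [φ, if_neg h1, if_pos h2]
      rw [← this, hm1]
    · omega
    · omega
  · left
    simp only [φ, if_neg h1, if_neg h2]

lemma Nice.res_all (q : Law d) {E : Set (Sym2 (V d))} (h : Nice E) (J : ℤ) {x : V d}
    (hx : (allowed E x).Nonempty) (f : V d → ℝ) (hf : ∀ w, J ≤ lv w → f w = 0) :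
    f x ^ 2 ≤ (∑ a ∈ DE E J, ((net q).c a)⁻¹) * (net q).En (DE E J) f f := by
  obtain ⟨h0, hh0⟩ : ∃ h0 : ℤ, ∀ a ∈ DE E (lv x), h0 ≤ lv a.1 := by
    obtain ⟨b, hb⟩ := ((DE E (lv x)).image fun a => lv a.1).bddBelow
    exact ⟨b, fun a ha => hb (mem_coe.2 (mem_image_of_mem _ ha))⟩
  have := h.res_cut q J (min h0 (lv x)) 0 (fun w hw hup => ?_) hx (min_le_right _ _) f hf
  · refine this.trans (mul_le_mul_of_nonneg_right ?_ ((net q).En_nonneg _ _))
    exact Finset.sum_le_sum_of_subset_of_nonneg (filter_subset _ _)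
      fun a _ _ => (inv_pos.2 ((net q).pos a)).le
  · have := hh0 (w, 0) (h.mem_DE.2 ⟨hup, by simp only; omega⟩)
    simp only at this
    omega

/-- The walk has stayed below level `J` up to time `m`. -/
def alive (E : Set (Sym2 (V d))) (x : V d) (u : ℕ → Ins d) (J : ℤ) (m : ℕ) : Prop :=
  ∀ k ≤ m, lv (walk E x u k) < J

lemma measurableSet_alive (E : Set (Sym2 (V d))) (x : V d) (J : ℤ) (m : ℕ) :
    MeasurableSet {u | alive E x u J m} := by
  unfold alive
  simp only [Set.ofPred_forall]
  refine MeasurableSet.iInter fun k => MeasurableSet.iInter fun _ => ?_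
  exact measurableSet_lt (by fun_prop) measurable_const

lemma alive_succ (E : Set (Sym2 (V d))) (x : V d) (u : ℕ → Ins d) (J : ℤ) (m : ℕ) :
    alive E x u J (m + 1) ↔ lv x < J ∧ alive E (walk E x u 1) (sh 1 u) J m := by
  constructor
  · intro h
    refine ⟨h 0 (by omega), fun k hk => ?_⟩
    rw [← walk_add]; exact h _ (by omega)
  · rintro ⟨h0, h⟩ k hk
    rcases k with _ | k
    · exact h0
    · rw [add_comm, walk_add]; exact h k (by omega)

open Classical in
/-- Weighted number of visits to `s` before reaching level `J`. -/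
noncomputable def visW (E : Set (Sym2 (V d))) (J : ℤ) (w : ℕ → ℝ≥0∞) (s x : V d)
    (u : ℕ → Ins d) : ℝ≥0∞ :=
  ∑' m, if walk E x u m = s ∧ alive E x u J m then w m else 0

lemma measurable_visW (E : Set (Sym2 (V d))) (J : ℤ) (w : ℕ → ℝ≥0∞) (s x : V d) :
    Measurable (visW E J w s x) := by
  unfold visW
  refine Measurable.tsum fun m => Measurable.ite ?_ measurable_const measurable_const
  exact (measurableSet_eq_fun (by fun_prop) measurable_const).inter (measurableSet_alive E x J m)

/-- Weighted Green function of the walk killed at level `J`. -/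
noncomputable def gW (q : Law d) (E : Set (Sym2 (V d))) (J : ℤ) (w : ℕ → ℝ≥0∞) (s x : V d) :
    ℝ≥0∞ := ∫⁻ u, visW E J w s x u ∂iid (drv q)

lemma gW_zero (q : Law d) (E : Set (Sym2 (V d))) {J : ℤ} (w : ℕ → ℝ≥0∞) (s : V d) {x : V d}
    (hx : J ≤ lv x) : gW q E J w s x = 0 := by
  have : ∀ u, visW E J w s x u = 0 := fun u => by
    unfold visW
    rw [ENNReal.tsum_eq_zero]
    intro m
    rw [if_neg]
    rintro ⟨-, h⟩
    have := h 0 (by omega)
    simp only [walk_zero] at this
    omega
  simp [gW, this]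

open Classical in
lemma gW_step (q : Law d) {E : Set (Sym2 (V d))} {J : ℤ} (w : ℕ → ℝ≥0∞) (s : V d) {x : V d}
    (hx : (allowed E x).Nonempty) (hJ : lv x < J) :
    gW q E J w s x = (if x = s then w 0 else 0) +
      ∑ e ∈ allowed E x, tp q E x e * gW q E J (fun m => w (m + 1)) s (x + vec e) := by
  have : ∀ u, visW E J w s x u = (if x = s then w 0 else 0) +
      visW E J (fun m => w (m + 1)) s (walk E x u 1) (sh 1 u) := fun u => by
    unfold visW
    rw [tsum_eq_zero_add' ENNReal.summable]
    congr 1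
    · have : alive E x u J 0 := fun k hk => by rw [Nat.le_zero.1 hk]; exact hJ
      simp [this]
    · refine tsum_congr fun m => ?_
      rw [alive_succ, show walk E x u (m + 1) = walk E (walk E x u 1) (sh 1 u) m by
        rw [add_comm m 1, walk_add]]
      simp [hJ]
  unfold gW
  simp_rw [this]
  rw [lintegral_add_left measurable_const, lintegral_first q hx
    (Φ := fun y u => visW E J (fun m => w (m + 1)) s y u) (fun y => measurable_visW _ _ _ _ _)]
  simp

lemma gW_mono (q : Law d) (E : Set (Sym2 (V d))) (J : ℤ) {w w' : ℕ → ℝ≥0∞} (h : ∀ m, w m ≤ w' m)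
    (s x : V d) : gW q E J w s x ≤ gW q E J w' s x := by
  refine lintegral_mono fun u => ENNReal.tsum_le_tsum fun m => ?_
  split_ifs
  · exact h m
  · exact le_rfl

/-- Indicator of times before `N`. -/
noncomputable def wN (N : ℕ) (m : ℕ) : ℝ≥0∞ := if m < N then 1 else 0

lemma gW_wN_le (q : Law d) (E : Set (Sym2 (V d))) (J : ℤ) (N : ℕ) (s x : V d) :
    gW q E J (wN N) s x ≤ N := by
  have : ∀ u, visW E J (wN N) s x u ≤ N := fun u => by
    calc visW E J (wN N) s x u ≤ ∑' m, wN N m := ENNReal.tsum_le_tsum fun m => by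
          split_ifs <;> simp
      _ = ∑ m ∈ range N, wN N m := tsum_eq_sum fun m hm => by simp [wN, mem_range.not.1 hm]
      _ ≤ ∑ _m ∈ range N, (1 : ℝ≥0∞) := Finset.sum_le_sum fun m _ => by
          unfold wN; split_ifs <;> simp
      _ = N := by simp
  calc gW q E J (wN N) s x ≤ ∫⁻ _, (N : ℝ≥0∞) ∂iid (drv q) := lintegral_mono this
    _ = N := by simp

lemma gW_one_eq_iSup (q : Law d) (E : Set (Sym2 (V d))) (J : ℤ) (s x : V d) :
    gW q E J (fun _ => 1) s x = ⨆ N, gW q E J (wN N) s x := by
  unfold gW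
  rw [← lintegral_iSup (fun N => measurable_visW _ _ _ _ _)]
  · refine lintegral_congr fun u => le_antisymm ?_ (iSup_le fun N => ENNReal.tsum_le_tsum fun m => ?_)
    · unfold visW
      rw [ENNReal.tsum_eq_iSup_nat]
      refine iSup_mono fun N => le_trans (le_of_eq ?_) (ENNReal.sum_le_tsum (range N))
      refine Finset.sum_congr rfl fun m hm => ?_
      simp [wN, mem_range.1 hm]
    · unfold wN; split_ifs <;> simp
  · intro N N' h u
    refine ENNReal.tsum_le_tsum fun m => ?_
    unfold wN
    split_ifs <;> first | omega | simp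

/-- Real form of the first-step equation. -/
lemma gW_step_real (q : Law d) {E : Set (Sym2 (V d))} {J : ℤ} (w : ℕ → ℝ≥0∞) (hw : w 0 = 1)
    {s x : V d} (hs : (allowed E s).Nonempty) (hx : (allowed E x).Nonempty) (hJ : lv x < J)
    (hfin : ∀ e ∈ allowed E x, gW q E J (fun m => w (m + 1)) s (x + vec e) ≠ ⊤) :
    pw q E x * ((gW q E J w s x).toReal / pw q E s) = (if x = s then 1 else 0) +
      ∑ e ∈ allowed E x, cond q x e *
        ((gW q E J (fun m => w (m + 1)) s (x + vec e)).toReal / pw q E s) := by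
  have hpx := pw_pos q hx
  have hps := pw_pos q hs
  rw [gW_step q w s hx hJ, ENNReal.toReal_add (by split_ifs <;> simp [hw])
    (ENNReal.sum_ne_top.2 fun e he => ENNReal.mul_ne_top (by simp [tp]) (hfin e he)),
    ENNReal.toReal_sum (fun e he => ENNReal.mul_ne_top (by simp [tp]) (hfin e he)),
    add_div, mul_add, Finset.sum_div, Finset.mul_sum]
  congr 1
  · split_ifs with h
    · subst h; simp [hw, hpx.ne']
    · simp
  · refine Finset.sum_congr rfl fun e _ => ?_
    rw [ENNReal.toReal_mul, tp_eq, ENNReal.toReal_ofReal (div_pos (cond_pos q x e) hpx).le]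
    field_simp

lemma Nice.gW_ne_top {q : Law d} (hq : Rev q) {E : Set (Sym2 (V d))} (h : Nice E) (J : ℤ)
    {s x : V d} (hs : (allowed E s).Nonempty) (hx : (allowed E x).Nonempty) :
    gW q E J (fun _ => 1) s x ≠ ⊤ := by
  set R := ∑ a ∈ DE E J, ((net q).c a)⁻¹ with hR
  have hR0 : 0 ≤ R := Finset.sum_nonneg fun a _ => (inv_pos.2 ((net q).pos a)).le
  have hfin : ∀ N y, gW q E J (wN N) s y ≠ ⊤ := fun N y =>
    ne_top_of_le_ne_top (by simp) (gW_wN_le q E J N s y)
  have hps := pw_pos q hs
  have key : ∀ N, (gW q E J (wN N) s x).toReal / pw q E s ≤ R := by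
    intro N
    set f : V d → ℝ := fun y => (gW q E J (wN N) s y).toReal / pw q E s with hf
    have hf0 : ∀ y, 0 ≤ f y := fun y => div_nonneg ENNReal.toReal_nonneg hps.le
    have hfz : ∀ y, J ≤ lv y → f y = 0 := fun y hy => by simp [hf, gW_zero q E _ s hy]
    have hE : (net q).En (DE E J) f f ≤ f s := by
      rw [h.green hq J f f hfz]
      calc ∑ y ∈ SE E J, f y * ∑ e ∈ allowed E y, cond q y e * (f y - f (y + vec e))
          ≤ ∑ y ∈ SE E J, f y * (if y = s then 1 else 0) := by
            refine Finset.sum_le_sum fun y hy => ?_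
            by_cases hyJ : lv y < J
            · refine mul_le_mul_of_nonneg_left ?_ (hf0 y)
              have h1 := gW_step_real q (wN (N + 1)) (by simp [wN]) hs (h.SE_nonempty hy) hyJ
                (fun e _ => by
                  have : (fun m => wN (N + 1) (m + 1)) = wN N := by funext m; simp [wN]
                  rw [this]; exact hfin _ _)
              have e2 : (fun m => wN (N + 1) (m + 1)) = wN N := by funext m; simp [wN]
              rw [e2] at h1
              have h2 : f y ≤ (gW q E J (wN (N + 1)) s y).toReal / pw q E s := by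
                refine div_le_div_of_nonneg_right (ENNReal.toReal_mono (hfin _ _)
                  (gW_mono q E J (fun m => ?_) s y)) hps.le
                unfold wN
                split_ifs <;> first | omega | simp
              have h3 := mul_le_mul_of_nonneg_left h2 (pw_nonneg q E y)
              simp_rw [mul_sub]
              rw [Finset.sum_sub_distrib, ← Finset.sum_mul]
              change pw q E y * f y - ∑ e ∈ allowed E y, cond q y e * f (y + vec e) ≤ _
              change _ = _ + ∑ e ∈ allowed E y, cond q y e * f (y + vec e) at h1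
              linarith
            · rw [hfz y (by omega)]; simp
        _ ≤ f s := by
            simp only [mul_ite, mul_one, mul_zero, Finset.sum_ite_eq']
            split_ifs
            · exact le_rfl
            · exact hf0 s
    have h1 := h.res_all q J hs f hfz
    have h2 := h.res_all q J hx f hfz
    have hsR : f s ≤ R := by
      have : f s ^ 2 ≤ R * f s := h1.trans (mul_le_mul_of_nonneg_left hE hR0)
      rcases (hf0 s).eq_or_lt with h0 | h0
      · rw [← h0]; exact hR0
      · nlinarith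
    have : f x ^ 2 ≤ R ^ 2 := h2.trans (by rw [sq]; exact mul_le_mul_of_nonneg_left (hE.trans hsR) hR0)
    exact abs_le_of_sq_le_sq' this hR0 |>.2
  rw [gW_one_eq_iSup]
  refine ne_top_of_le_ne_top (b := ENNReal.ofReal (R * pw q E s)) (by simp) (iSup_le fun N => ?_)
  rw [← ENNReal.ofReal_toReal (hfin N x)]
  exact ENNReal.ofReal_le_ofReal ((div_le_iff₀ hps).1 (key N))

/-- The voltage at `x` for the unit current from `o` to level `J`. -/
noncomputable def vlt (q : Law d) (E : Set (Sym2 (V d))) (J : ℤ) (o x : V d) : ℝ :=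
  (gW q E J (fun _ => 1) o x).toReal / pw q E o

lemma Nice.isVolt {q : Law d} (hq : Rev q) {E : Set (Sym2 (V d))} (h : Nice E) {J : ℤ}
    {o : V d} (ho : (allowed E o).Nonempty) :
    (net q).IsVolt (DE E J) (fun x => J ≤ lv x) o (vlt q E J o) where
  nonneg _ := div_nonneg ENNReal.toReal_nonneg (pw_nonneg q E o)
  zero x hx := by simp [vlt, gW_zero q E _ o hx]
  green g hg := by
    rw [h.green hq J _ g hg]
    have : ∀ y ∈ SE E J, g y * ∑ e ∈ allowed E y,
        cond q y e * (vlt q E J o y - vlt q E J o (y + vec e)) = g y * (if y = o then 1 else 0) := by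
      intro y hy
      by_cases hyJ : lv y < J
      · congr 1
        have h1 := gW_step_real q (fun _ => 1) rfl ho (h.SE_nonempty hy) hyJ
          (fun e he => h.gW_ne_top hq J ho ⟨_, opp_mem_allowed.2 he⟩)
        simp_rw [mul_sub]
        rw [Finset.sum_sub_distrib, ← Finset.sum_mul]
        change pw q E y * vlt q E J o y - ∑ e ∈ allowed E y, cond q y e * vlt q E J o (y + vec e) = _
        change pw q E y * vlt q E J o y =
          _ + ∑ e ∈ allowed E y, cond q y e * vlt q E J o (y + vec e) at h1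
        linarith
      · rw [hg y (by omega)]; simp
    rw [Finset.sum_congr rfl this]
    simp only [mul_ite, mul_one, mul_zero, Finset.sum_ite_eq']
    split_ifs with h1
    · rfl
    · by_contra hc
      exact h1 (h.mem_SE ho (by by_contra h2; exact hc (hg o (by omega)).symm))

lemma Nice.gW_eq {q : Law d} (hq : Rev q) {E : Set (Sym2 (V d))} (h : Nice E) (J : ℤ)
    {o x : V d} (ho : (allowed E o).Nonempty) (hx : (allowed E x).Nonempty) :
    gW q E J (fun _ => 1) x o = ENNReal.ofReal (pw q E x) * ENNReal.ofReal (vlt q E J o x) := by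
  have h1 := (h.isVolt hq (J := J) ho).green _ (h.isVolt hq (J := J) hx).zero
  have h2 := (h.isVolt hq (J := J) hx).green _ (h.isVolt hq (J := J) ho).zero
  rw [Net.En_comm, h2] at h1
  rw [h1, ← ENNReal.ofReal_mul (pw_nonneg q E x), vlt, mul_div_cancel₀ _ (pw_pos q hx).ne',
    ENNReal.ofReal_toReal (h.gW_ne_top hq J hx ho)]

end Pool.Agent.Lib.MP_24597f_pr
end
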