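import Pool.Agent.Lib.MP_24597f_pr.Green

/-!
Existence of the iterated walks and identification of their laws.
-/

open MeasureTheory Filter Topology Finset
open scoped ENNReal

namespace Pool.Agent.Lib.MP_24597f_pr

variable {d : ℕ}

lemma path_ext {T : Type} [Countable T] [MeasurableSpace T] [MeasurableSingletonClass T]
    {μ ν : Measure (ℕ → T)} [IsFiniteMeasure μ]
    (h : ∀ (n : ℕ) (x : ℕ → T), μ {y | ∀ m ≤ n, y m = x m} = ν {y | ∀ m ≤ n, y m = x m})
    [Nonempty T] : μ = ν := by
  classical
  have h1 : ∀ n : ℕ, μ.map (Finset.restrict (π := fun _ => T) (Iic n)) =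
      ν.map (Finset.restrict (π := fun _ => T) (Iic n)) := by
    intro n
    refine Measure.ext_of_singleton fun z => ?_
    rw [Measure.map_apply (Finset.measurable_restrict _) (measurableSet_singleton z),
      Measure.map_apply (Finset.measurable_restrict _) (measurableSet_singleton z)]
    have : Finset.restrict (π := fun _ => T) (Iic n) ⁻¹' {z} = {y : ℕ → T | ∀ m ≤ n, y m =
        (fun m => if hm : m ≤ n then z ⟨m, mem_Iic.2 hm⟩ else Classical.arbitrary T) m} := by
      ext y
      simp only [Set.mem_preimage, Set.mem_singleton_iff, Set.mem_ofPred_eq, funext_iff,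
        Finset.restrict, Subtype.forall, mem_Iic]
      exact forall₂_congr fun m hm => by rw [dif_pos hm]
    rw [this, h]
  refine IsProjectiveLimit.unique (P := fun I : Finset ℕ => μ.map I.restrict) (fun I => rfl)
    fun I => ?_
  have hI : I ⊆ Iic (I.sup id) := fun i hi => mem_Iic.2 (Finset.le_sup (f := id) hi)
  simp only
  rw [← Finset.restrict₂_comp_restrict hI,
    ← Measure.map_map (Finset.measurable_restrict₂ hI) (Finset.measurable_restrict _),
    ← Measure.map_map (Finset.measurable_restrict₂ hI) (Finset.measurable_restrict _), h1]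

lemma transProb_nonneg (q : Law d) (E : Set (Sym2 (V d))) (x : V d) (e : Dir d) :
    0 ≤ transProb q.p E x e := by
  unfold transProb
  split_ifs with h
  · exact div_nonneg (q.pos e).le (q.sum_pos ⟨e, h⟩).le
  · exact le_rfl

lemma sum_transProb (q : Law d) {E : Set (Sym2 (V d))} {x : V d} (h : (allowed E x).Nonempty) :
    ∑ e, transProb q.p E x e = 1 := by
  unfold transProb
  rw [Finset.sum_ite_mem, univ_inter, ← Finset.sum_div, div_self (q.sum_pos h).ne']

lemma transProb_le_one (q : Law d) (E : Set (Sym2 (V d))) (x : V d) (e : Dir d) :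
    transProb q.p E x e ≤ 1 := by
  by_cases h : e ∈ allowed E x
  · rw [← sum_transProb q ⟨e, h⟩]
    exact Finset.single_le_sum (fun e' _ => transProb_nonneg q E x e') (mem_univ e)
  · simp [transProb, h]

@[fun_prop] lemma Measurable.transProb' {β : Type*} [MeasurableSpace β] (p : Dir d → ℝ)
    {E : β → Set (Sym2 (V d))} {x : β → V d} (hE : Measurable E) (hx : Measurable x) (e : Dir d) :
    Measurable fun b => transProb p (E b) (x b) e :=
  (Measurable.of_discrete (f := fun S : Finset (Dir d) =>
    if e ∈ S then p e / ∑ e' ∈ S, p e' else 0)).comp (Measurable.allowed' hE hx)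

lemma lintegral_step (q : Law d) {E : Set (Sym2 (V d))} {a : V d} (ha : (allowed E a).Nonempty)
    (n : ℕ) {F : (ℕ → Ins d) → ℝ≥0∞} (hd : Dep n F) (hF : Measurable F) (e : Dir d) :
    ∫⁻ u, F u * (if walk E a u (n + 1) = walk E a u n + vec e then 1 else 0) ∂iid (drv q) =
      ∫⁻ u, F u * ENNReal.ofReal (transProb q.p E (walk E a u n) e) ∂iid (drv q) := by
  have := lintegral_stp q ha n hd hF (fun _ e' => if e' = e then 1 else 0)
  simp only [mul_ite, mul_one, mul_zero, Finset.sum_ite_eq'] at this
  simp only [walk_succ, add_right_inj, vec_injective.eq_iff, mul_ite, mul_one, mul_zero]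
  rw [this]
  refine lintegral_congr fun u => ?_
  unfold transProb tp
  split_ifs <;> simp

/-- Paths that agree with `x` up to time `n`. -/
def cyl (x : ℕ → V d) (n : ℕ) : Set (ℕ → V d) := {y | ∀ m ≤ n, y m = x m}

lemma measurableSet_cyl (x : ℕ → V d) (n : ℕ) : MeasurableSet (cyl x n) := by
  simp only [cyl, Set.ofPred_forall]
  exact MeasurableSet.iInter fun m => MeasurableSet.iInter fun _ =>
    measurableSet_eq_fun (by fun_prop) measurable_const

lemma mem_cyl_succ {x y : ℕ → V d} {n : ℕ} :
    y ∈ cyl x (n + 1) ↔ y ∈ cyl x n ∧ y (n + 1) = x (n + 1) := by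
  constructor
  · exact fun h => ⟨fun m hm => h m (by omega), h _ le_rfl⟩
  · rintro ⟨h1, h2⟩ m hm
    rcases Nat.lt_or_eq_of_le hm with h | rfl
    · exact h1 m (by omega)
    · exact h2

lemma walk_cyl_step (q : Law d) {E : Set (Sym2 (V d))} (ha : (allowed E 0).Nonempty) (x : ℕ → V d)
    (n : ℕ) (e : Dir d) :
    iid (drv q) {u | walk E 0 u ∈ cyl x n ∧ walk E 0 u (n + 1) = walk E 0 u n + vec e} =
      iid (drv q) {u | walk E 0 u ∈ cyl x n} * ENNReal.ofReal (transProb q.p E (x n) e) := by
  have hm : MeasurableSet {u | walk E 0 u ∈ cyl x n} :=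
    (by fun_prop : Measurable fun u => walk E 0 u) (measurableSet_cyl x n)
  have h1 := lintegral_step q ha n (F := Set.indicator {u | walk E 0 u ∈ cyl x n} 1)
    (fun u u' huu => by
      have : u ∈ {u | walk E 0 u ∈ cyl x n} ↔ u' ∈ {u | walk E 0 u ∈ cyl x n} :=
        forall₂_congr fun m hm => by
          rw [show walk E 0 u m = walk E 0 u' m from dep_walk E 0 hm u u' huu]
      classical
      simp only [Set.indicator_apply, Pi.one_apply]
      exact if_congr this rfl rfl) (measurable_one.indicator hm) e
  have hm2 : MeasurableSet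
      {u | walk E 0 u ∈ cyl x n ∧ walk E 0 u (n + 1) = walk E 0 u n + vec e} :=
    hm.inter (measurableSet_eq_fun (by fun_prop) (by fun_prop))
  rw [← lintegral_indicator_one hm, ← lintegral_mul_const _ (measurable_one.indicator hm),
    ← lintegral_indicator_one hm2]
  refine Eq.trans (lintegral_congr fun u => ?_) (h1.trans (lintegral_congr fun u => ?_))
  · by_cases h2 : walk E 0 u ∈ cyl x n <;>
      by_cases h3 : walk E 0 u (n + 1) = walk E 0 u n + vec e <;> simp [h2, h3]
  · by_cases h2 : walk E 0 u ∈ cyl x n
    · rw [h2 n le_rfl]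
    · simp [h2]

lemma law_ext {Ω β : Type} [MeasurableSpace Ω] [MeasurableSpace β] (P : Measure Ω)
    [IsProbabilityMeasure P] (q : Law d) {W : Ω → β} (hW : Measurable W) {Y : ℕ → Ω → V d}
    (hY : ∀ n, Measurable (Y n)) (h0 : ∀ ω, Y 0 ω = 0) {E : β → Set (Sym2 (V d))}
    (hE : Measurable E) (hne : ∀ᵐ b ∂P.map W, (allowed (E b) 0).Nonempty)
    (hM : ∀ (n : ℕ) (e : Dir d) (B : Set β) (x : ℕ → V d), MeasurableSet B →
      P.real ((W ⁻¹' B ∩ {ω | (fun m => Y m ω) ∈ cyl x n}) ∩ {ω | Y (n + 1) ω = Y n ω + vec e}) =
        ∫ ω in W ⁻¹' B ∩ {ω | (fun m => Y m ω) ∈ cyl x n}, transProb q.p (E (W ω)) (Y n ω) e ∂P) :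
    P.map (fun ω n => Y n ω) =
      ((P.map W).prod (iid (drv q))).map fun z => walk (E z.1) 0 z.2 := by
  have hYm : Measurable fun ω n => Y n ω := measurable_pi_iff.2 hY
  have hC : ∀ x n, MeasurableSet {ω | (fun m => Y m ω) ∈ cyl x n} := fun x n =>
    hYm (measurableSet_cyl x n)
  let π : (ℕ → V d) → ℕ → β → ℝ≥0∞ := fun x n b => iid (drv q) {u | walk (E b) 0 u ∈ cyl x n}
  have hS : ∀ x n, MeasurableSet {z : β × (ℕ → Ins d) | walk (E z.1) 0 z.2 ∈ cyl x n} :=
    fun x n => (by fun_prop : Measurable fun z : β × (ℕ → Ins d) => walk (E z.1) 0 z.2)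
      (measurableSet_cyl x n)
  have hπ : ∀ x n, Measurable (π x n) := fun x n => measurable_measure_prodMk_left (hS x n)
  have key : ∀ n x (B : Set β), MeasurableSet B →
      P (W ⁻¹' B ∩ {ω | (fun m => Y m ω) ∈ cyl x n}) = ∫⁻ b in B, π x n b ∂P.map W := by
    intro n
    induction n with
    | zero =>
      intro x B hB
      by_cases hx : x 0 = 0
      · simp [π, cyl, h0, hx, Measure.map_apply hW hB]
      · simp [π, cyl, h0, Ne.symm hx]
    | succ n ih =>
      intro x B hB
      have step : ∀ (e : Dir d) (B : Set β), MeasurableSet B →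
          P ((W ⁻¹' B ∩ {ω | (fun m => Y m ω) ∈ cyl x n}) ∩ {ω | Y (n + 1) ω = Y n ω + vec e}) =
            ∫⁻ b in B, π x n b * ENNReal.ofReal (transProb q.p (E b) (x n) e) ∂P.map W := by
        intro e B hB
        have hA := (hW hB).inter (hC x n)
        have ht : Measurable fun b => ENNReal.ofReal (transProb q.p (E b) (x n) e) := by fun_prop
        have e1 : (P.restrict {ω | (fun m => Y m ω) ∈ cyl x n}).map W =
            (P.map W).withDensity (π x n) := by
          ext B' hB'
          rw [Measure.map_apply hW hB', Measure.restrict_apply (hW hB'), ih x B' hB',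
            withDensity_apply _ hB']
        rw [← ofReal_measureReal (measure_ne_top _ _), hM n e B x hB,
          ofReal_integral_eq_lintegral_ofReal
            (Integrable.of_bound (Measurable.aestronglyMeasurable (by fun_prop)) 1 (ae_of_all _ fun ω => by
              rw [Real.norm_of_nonneg (transProb_nonneg q _ _ _)]; exact transProb_le_one q _ _ _))
            (ae_of_all _ fun ω => transProb_nonneg q _ _ _),
          setLIntegral_congr_fun hA (g := fun ω => ENNReal.ofReal (transProb q.p (E (W ω)) (x n) e))
            (fun ω hω => by have := hω.2 n le_rfl; simp only at this ⊢; rw [this]),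
          ← Measure.restrict_restrict (hW hB), ← setLIntegral_map hB ht hW, e1,
          setLIntegral_withDensity_eq_setLIntegral_mul _ (hπ x n) ht hB]
        rfl
      by_cases hx : ∃ e, x (n + 1) = x n + vec e
      · obtain ⟨e, he⟩ := hx
        have e1 : W ⁻¹' B ∩ {ω | (fun m => Y m ω) ∈ cyl x (n + 1)} =
            (W ⁻¹' B ∩ {ω | (fun m => Y m ω) ∈ cyl x n}) ∩ {ω | Y (n + 1) ω = Y n ω + vec e} := by
          ext ω
          simp only [Set.mem_inter_iff, Set.mem_ofPred_eq, mem_cyl_succ, and_assoc]
          refine and_congr Iff.rfl (and_congr_right fun h => ?_)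
          rw [he, ← h n le_rfl]
        rw [e1, step e B hB]
        refine lintegral_congr_ae (ae_restrict_of_ae ?_)
        filter_upwards [hne] with b hb
        rw [← walk_cyl_step q hb]
        simp only [π]
        congr 1
        ext u
        simp only [Set.mem_ofPred_eq, mem_cyl_succ]
        refine and_congr_right fun h => ?_
        rw [he, ← h n le_rfl]
      · have e2 : ∀ b, π x (n + 1) b = 0 := fun b => by
          simp only [π]
          convert measure_empty (μ := iid (drv q))
          refine Set.eq_empty_of_forall_notMem fun u hu => hx ⟨stp (E b) 0 u n, ?_⟩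
          rw [← hu (n + 1) le_rfl, ← hu n (by omega), walk_succ]
        simp only [e2, lintegral_zero]
        set C := {ω | (fun m => Y m ω) ∈ cyl x n} with hCdef
        have hU : P (C ∩ ⋃ e, {ω | Y (n + 1) ω = Y n ω + vec e}) = P C := by
          rw [Set.inter_iUnion, measure_iUnion (fun e e' hee => ?_) fun e =>
            (hC x n).inter (measurableSet_eq_fun (hY _) (by fun_prop)), tsum_fintype]
          · have h1 := fun e => step e Set.univ MeasurableSet.univ
            have h2 := ih x Set.univ MeasurableSet.univ
            simp only [Set.preimage_univ, Set.univ_inter, Measure.restrict_univ] at h1 h2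
            rw [h2, Finset.sum_congr rfl fun e _ => h1 e]
            rw [← lintegral_finsetSum _ fun e _ => by fun_prop]
            refine lintegral_congr_ae ?_
            filter_upwards [hne] with b hb
            rw [← Finset.mul_sum]
            rcases Set.eq_empty_or_nonempty {u | walk (E b) 0 u ∈ cyl x n} with h3 | ⟨u, hu⟩
            · simp [π, h3]
            · rw [← ENNReal.ofReal_sum_of_nonneg fun e _ => transProb_nonneg q _ _ _,
                sum_transProb q (hu n le_rfl ▸ allowed_walk_nonempty hb u n)]
              simp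
          · refine Set.disjoint_left.2 fun ω h1 h2 => hee (vec_injective ?_)
            exact add_left_cancel (h1.2.symm.trans h2.2)
        have hV := measure_inter_add_sdiff (μ := P) C (t := ⋃ e, {ω | Y (n + 1) ω = Y n ω + vec e})
          (MeasurableSet.iUnion fun e => measurableSet_eq_fun (hY _) (by fun_prop))
        rw [hU] at hV
        have h3 : P (C \ ⋃ e, {ω | Y (n + 1) ω = Y n ω + vec e}) = 0 :=
          (ENNReal.add_right_inj (measure_ne_top P C)).1 (by rw [hV, add_zero])
        refine measure_mono_null (fun ω hω => ?_) h3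
        obtain ⟨h4, h5⟩ := mem_cyl_succ.1 hω.2
        refine ⟨h4, fun h6 => ?_⟩
        obtain ⟨e, he⟩ := Set.mem_iUnion.1 h6
        exact hx ⟨e, by rw [← h5, ← h4 n le_rfl]; exact he⟩
  refine path_ext fun n x => ?_
  have h1 := key n x Set.univ MeasurableSet.univ
  simp only [Set.preimage_univ, Set.univ_inter, Measure.restrict_univ] at h1
  have : IsProbabilityMeasure (P.map W) := Measure.isProbabilityMeasure_map hW.aemeasurable
  change P.map _ (cyl x n) = Measure.map _ _ (cyl x n)
  rw [Measure.map_apply hYm (measurableSet_cyl x n),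
    Measure.map_apply (by fun_prop) (measurableSet_cyl x n)]
  exact h1.trans (Measure.prod_apply (hS x n)).symm

lemma measurableSet_past_cyl {Ω : Type} (X : ℕ → ℕ → Ω → V d) (i n : ℕ) (x : ℕ → V d) :
    MeasurableSet[past X i n] {ω | (fun m => X i m ω) ∈ cyl x n} := by
  have e : {ω | (fun m => X i m ω) ∈ cyl x n} = ⋂ m : ℕ, ⋂ _ : m ≤ n, X i m ⁻¹' {x m} := by
    ext ω; simp [cyl]
  rw [e]
  refine MeasurableSet.iInter fun m => MeasurableSet.iInter fun hm => ?_
  have : MeasurableSpace.comap (X i m) ⊤ ≤ past X i n :=
    le_sup_of_le_right (le_iSup₂_of_le m hm le_rfl)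
  exact this _ ⟨{x m}, trivial, rfl⟩

lemma IsIteratedWalk.law_zero {Ω : Type} [MeasurableSpace Ω] {P : Measure Ω}
    [IsProbabilityMeasure P] {p : ℕ → Dir d → ℝ} {X : ℕ → ℕ → Ω → V d}
    (h : IsIteratedWalk P p X) (q : Law d) (hq : p 0 = q.p) [NeZero d] :
    P.map (fun ω n => X 0 n ω) = (iid (drv q)).map (walk (latticeEdges d) 0) := by
  have := law_ext P q (W := fun _ => ()) measurable_const (h.meas 0) (h.start 0)
    (E := fun _ => latticeEdges d) measurable_const
    (ae_of_all _ fun _ => by rw [allowed_lattice]; exact univ_nonempty) fun n e B x _ => by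
      rw [← hq]
      refine h.markov 0 n e _ (MeasurableSet.inter ?_ (measurableSet_past_cyl X 0 n x))
      by_cases hB : () ∈ B <;> simp [Set.preimage_const_of_mem, Set.preimage_const_of_notMem, hB]
  have h2 : IsProbabilityMeasure (P.map fun _ => ()) :=
    Measure.isProbabilityMeasure_map measurable_const.aemeasurable
  rw [this]
  change Measure.map (walk (latticeEdges d) 0 ∘ Prod.snd) _ = _
  rw [← Measure.map_map (by fun_prop) measurable_snd, Measure.map_snd_prod]
  simp

lemma IsIteratedWalk.law_succ {Ω : Type} [MeasurableSpace Ω] {P : Measure Ω}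
    [IsProbabilityMeasure P] {p : ℕ → Dir d → ℝ} {X : ℕ → ℕ → Ω → V d}
    (h : IsIteratedWalk P p X) (i : ℕ) (q : Law d) (hq : p (i + 1) = q.p)
    (hne : ∀ᵐ y ∂P.map (fun ω n => X i n ω), (allowed (trace y) 0).Nonempty) :
    P.map (fun ω n => X (i + 1) n ω) =
      ((P.map fun ω n => X i n ω).prod (iid (drv q))).map fun z => walk (trace z.1) 0 z.2 := by
  refine law_ext P q (measurable_pi_iff.2 (h.meas i)) (h.meas _) (h.start _) measurable_trace hne
    fun n e B x hB => ?_
  rw [← hq]
  refine h.markov (i + 1) n e _ (MeasurableSet.inter ?_ (measurableSet_past_cyl X _ n x))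
  have : Measurable[past X (i + 1) n] fun ω m => X i m ω := by
    refine @measurable_pi_lambda _ _ _ (past X (i + 1) n) _ _ fun m => ?_
    have : MeasurableSpace.comap (X i m) ⊤ ≤ past X (i + 1) n :=
      le_sup_of_le_left (le_iSup₂_of_le i (Nat.lt_succ_self i) (le_iSup_of_le m le_rfl))
    exact fun S _ => this _ ⟨S, trivial, rfl⟩
  exact this hB

/-- The iterated walks built from independent instructions. -/
noncomputable def itw (ω : ℕ → ℕ → Ins d) : ℕ → ℕ → V d
  | 0 => walk (latticeEdges d) 0 (ω 0)
  | i + 1 => walk (trace (itw ω i)) 0 (ω (i + 1))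

lemma measurable_itw (i : ℕ) : Measurable fun ω : ℕ → ℕ → Ins d => itw ω i := by
  induction i with
  | zero => simp only [itw]; fun_prop
  | succ i ih => simp only [itw]; fun_prop

lemma itw_eq (ω : ℕ → ℕ → Ins d) (i : ℕ) :
    itw ω i = walk (env (fun i n ω => itw ω i n) i ω) 0 (ω i) := by
  cases i <;> rfl

lemma itw_congr {ω ω' : ℕ → ℕ → Ins d} {i : ℕ} (h : ∀ j ≤ i, ω j = ω' j) : itw ω i = itw ω' i := by
  induction i with
  | zero => simp only [itw, h 0 le_rfl]
  | succ i ih => simp only [itw, h _ le_rfl, ih fun j hj => h j (by omega)]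

lemma env_congr {ω ω' : ℕ → ℕ → Ins d} {i : ℕ} (h : ∀ j < i, ω j = ω' j) :
    env (fun i n ω => itw ω i n) i ω = env (fun i n ω => itw ω i n) i ω' := by
  cases i with
  | zero => rfl
  | succ i => exact congrArg trace (itw_congr fun j hj => h j (by omega))

lemma env_nonempty [NeZero d] (ω : ℕ → ℕ → Ins d) (i : ℕ) :
    (allowed (env (fun i n ω => itw ω i n) i ω) 0).Nonempty := by
  cases i with
  | zero => simp only [env, allowed_lattice]; exact univ_nonempty
  | succ i =>
    refine ⟨stp (env (fun i n ω => itw ω i n) i ω) 0 (ω i) 0, mem_allowed.2 ⟨0, ?_⟩⟩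
    simp only [itw_eq ω i]
    rfl

lemma exists_model [NeZero d] (q : ℕ → Law d) :
    IsIteratedWalk (Measure.infinitePi fun i => iid (drv (q i))) (fun i => (q i).p)
      (fun i n ω => itw ω i n) where
  meas i n := (measurable_pi_apply n).comp (measurable_itw i)
  start i ω := by rw [itw_eq]; rfl
  markov i n e A hA := by
    classical
    set X : ℕ → ℕ → (ℕ → ℕ → Ins d) → V d := fun i n ω => itw ω i n with hX
    set P := Measure.infinitePi fun i => iid (drv (q i)) with hP
    have hXm : ∀ i n, Measurable (X i n) := fun i n =>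
      (measurable_pi_apply n).comp (measurable_itw i)
    have hAm : MeasurableSet A := by
      have hc : ∀ j m, MeasurableSpace.comap (X j m) ⊤ ≤ MeasurableSpace.pi := by
        rintro j m _ ⟨S, -, rfl⟩
        exact hXm j m MeasurableSet.of_discrete
      have : past X i n ≤ MeasurableSpace.pi :=
        sup_le (iSup₂_le fun j _ => iSup_le fun m => hc j m) (iSup₂_le fun m _ => hc i m)
      exact this _ hA
    have hinv : ∀ ω ω' : ℕ → ℕ → Ins d, (∀ j < i, ω j = ω' j) → (∀ m < n, ω i m = ω' i m) →
        (ω ∈ A ↔ ω' ∈ A) := by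
      intro ω ω' h1 h2
      let M : MeasurableSpace (ℕ → ℕ → Ins d) :=
        { MeasurableSet' := fun S => ω ∈ S ↔ ω' ∈ S
          measurableSet_empty := Iff.rfl
          measurableSet_compl := fun S hS => not_congr hS
          measurableSet_iUnion := fun S hS => by
            simp only [Set.mem_iUnion]; exact exists_congr hS }
      have : past X i n ≤ M := by
        refine sup_le (iSup₂_le fun j hj => iSup_le fun m => ?_) (iSup₂_le fun m hm => ?_)
        · rintro _ ⟨S, -, rfl⟩
          change itw ω j m ∈ S ↔ itw ω' j m ∈ S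
          rw [itw_congr fun k hk => h1 k (by omega)]
        · rintro _ ⟨S, -, rfl⟩
          change itw ω i m ∈ S ↔ itw ω' i m ∈ S
          rw [itw_eq ω, itw_eq ω', env_congr h1,
            show walk _ 0 (ω i) m = walk _ 0 (ω' i) m from dep_walk _ 0 hm _ _ h2]
      exact this _ hA
    have hEm : Measurable (env X i) := by
      cases i with
      | zero => exact measurable_const
      | succ i => exact measurable_trace.comp (measurable_itw i)
    have hS : MeasurableSet {ω | X i (n + 1) ω = X i n ω + vec e} :=
      measurableSet_eq_fun (hXm _ _) (by fun_prop)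
    have ht : Measurable fun ω => ENNReal.ofReal (transProb (q i).p (env X i ω) (X i n ω) e) := by
      fun_prop
    rw [integral_eq_lintegral_of_nonneg_ae (ae_of_all _ fun ω => transProb_nonneg _ _ _ _)
      (Measurable.transProb' _ hEm (hXm i n) e).aestronglyMeasurable, measureReal_def,
      ← lintegral_indicator_one (hAm.inter hS), ← lintegral_indicator hAm]
    congr 1
    have hU := measurePreserving_update (fun i => iid (drv (q i))) i
    rw [← hU.lintegral_comp (measurable_one.indicator (hAm.inter hS)),
      ← hU.lintegral_comp (ht.indicator hAm),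
      lintegral_prod _ ((measurable_one.indicator (hAm.inter hS)).fun_comp hU.measurable).aemeasurable,
      lintegral_prod _ ((ht.indicator hAm).fun_comp hU.measurable).aemeasurable]
    refine lintegral_congr fun ω => ?_
    have e1 : ∀ u, env X i (Function.update ω i u) = env X i ω := fun u =>
      env_congr fun j hj => Function.update_of_ne hj.ne _ _
    have e2 : ∀ u m, X i m (Function.update ω i u) = walk (env X i ω) 0 u m := fun u m => by
      simp only [hX]
      rw [itw_eq, ← hX, e1, Function.update_self]
    have h1 := lintegral_step (q i) (env_nonempty ω i) n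
      (F := fun u => A.indicator 1 (Function.update ω i u)) (fun u u' huu => by
        have := hinv (Function.update ω i u) (Function.update ω i u')
          (fun j hj => by rw [Function.update_of_ne hj.ne, Function.update_of_ne hj.ne])
          (by simpa using huu)
        simp only [Set.indicator_apply, Pi.one_apply]
        exact if_congr this rfl rfl)
      ((measurable_one.indicator hAm).comp (measurable_update ω)) e
    refine Eq.trans (lintegral_congr fun u => ?_) (h1.trans (lintegral_congr fun u => ?_))
    · simp only [Set.indicator_apply, Set.mem_inter_iff, Set.mem_ofPred_eq, e2, Pi.one_apply, ← hX]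
      by_cases h2 : Function.update ω i u ∈ A <;> simp [h2]
    · simp only [Set.indicator_apply, e1, e2, Pi.one_apply, ← hX]
      by_cases h2 : Function.update ω i u ∈ A <;> simp [h2]

end Pool.Agent.Lib.MP_24597f_pr
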