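import Pool.Agent.Lib.MP_24597f_pr.Quenched
import Pool.Agent.Lib.MP_24597f_pr.Model

-- part Pool.Agent.Lib.MP_24597f_pr.Anneal
section

/-!
Moment estimates for functionals of the first walk.
-/

open MeasureTheory Filter Topology Finset
open scoped ENNReal

namespace Pool.Agent.Lib.MP_24597f_pr

variable {d : ℕ} [NeZero d]

lemma p16_le_Yf (s : ℕ → Dir d) : ∑' m, p16 (-ht s m) ≤ Yf s :=
  ENNReal.tsum_le_tsum fun m => by
    rw [prod_wY]; exact le_mul_of_one_le_right' (one_le_fY _)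

lemma fin_of_Yf {s : ℕ → Dir d} (hY : Yf s ≠ ⊤) (J : ℤ) : {n | ht s n < J}.Finite :=
  (ENNReal.finite_const_le_of_tsum_ne_top (ne_top_of_le_ne_top hY (p16_le_Yf s))
    (p16_ne_zero (-J))).subset fun n hn => p16_mono (by simp only [Set.mem_ofPred_eq] at hn; omega)

lemma Yf_le_Zf (t : ℝ≥0∞) (s : ℕ → Dir d) : Yf s ≤ Zf t s := by
  rw [Zf, geo_eq]; exact le_self_add

lemma le_Yf_of_not_pos {s : ℕ → Dir d} (h : ¬ Pos0 s) : 16 ≤ Yf s := by
  obtain ⟨m, hm⟩ := not_forall.1 h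
  refine le_trans ?_ ((ENNReal.le_tsum m).trans (p16_le_Yf s))
  rw [← p16_one]
  exact p16_mono (by omega)

lemma cuts_of_Zf {s : ℕ → Dir d} (hZ : Zf 1 s ≠ ⊤) (N : ℕ) : ∃ β, N < β ∧ IsCut s β := by
  classical
  have hfin := fin_of_Yf (ne_top_of_le_ne_top hZ (Yf_le_Zf 1 s))
  have hub := unbounded_of_fin hfin
  by_contra hc
  push Not at hc
  have hdown : ∀ k : ℤ, N < k → ∃ m, ht s m = k ∧ s m = dn := by
    intro k hk
    obtain ⟨σ, h1, h2⟩ := (steps_pth s).first_hit (k := k) (by simp; omega) (hub k)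
    have h3 := (steps_pth s).le_time σ
    simp only [pth_zero, lv_zero, zero_add] at h3
    have h4 : ∃ m, σ ≤ m ∧ lv (pth s m) < k := by
      by_contra h5
      push Not at h5
      exact hc σ (by omega) ⟨by omega, by rw [ht, h1]; exact ⟨h2, h5⟩⟩
    obtain ⟨m, h5, h6⟩ := h4
    obtain ⟨m', -, -, h7⟩ := (steps_pth s).ivt_down h5 h1.ge h6
    exact ⟨m', h7⟩
  have hT : ∀ K : ℕ, ∃ T, K ≤ T ∧ nU s T ≤ 2 * nD s T + N := by
    intro K
    obtain ⟨T, hT, hT2⟩ := Set.exists_max_image _ id (hfin (K + 1)) ⟨0, by simp⟩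
    simp only [Set.mem_ofPred_eq, id] at hT hT2
    have h1 : (K : ℤ) + 1 ≤ ht s (T + 1) := by
      by_contra h2
      have := hT2 (T + 1) (by omega); omega
    have h2 := (steps_pth s).le_time (T + 1)
    have h3 := ht_succ s T
    have h4 := lv_vec_le (s T)
    simp only [pth_zero, lv_zero, zero_add] at h2
    refine ⟨T + 1, by change ht s (T + 1) ≤ _ at h2; omega, ?_⟩
    have h5 : (Finset.Ioc (N : ℤ) (K + 1)).card ≤ nD s (T + 1) := by
      rw [nD_eq_card]
      refine (Finset.card_le_card fun k hk => ?_).trans (Finset.card_image_le (f := ht s))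
      obtain ⟨h6, h7⟩ := mem_Ioc.1 hk
      obtain ⟨m, h8, h9⟩ := hdown k h6
      refine mem_image.2 ⟨m, mem_filter.2 ⟨mem_range.2 ?_, h9⟩, h8⟩
      have h10 := ht_succ s m
      rw [h9, lv_dn] at h10
      have := hT2 (m + 1) (by omega)
      omega
    rw [Int.card_Ioc] at h5
    have := ht_eq s (T + 1)
    omega
  have hf := ENNReal.finite_const_le_of_tsum_ne_top hZ (ε := 16⁻¹ ^ N) (by simp)
  obtain ⟨b, hb⟩ := hf.bddAbove
  obtain ⟨T, h1, h2⟩ := hT (b + 1)
  have : T ≤ b := hb (by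
    simp only [Set.mem_ofPred_eq]
    refine le_trans ?_ (le_mul_of_one_le_right' (one_le_Yf _))
    rw [wZ, prod_cls]
    have h16 : (16⁻¹ : ℝ≥0∞) ≤ 1 := by simp
    calc (16⁻¹ : ℝ≥0∞) ^ N = 16⁻¹ ^ (2 * nD s T + N) * (2 ^ 8) ^ nD s T * 1 := by
          rw [pow_add, pow_mul, mul_right_comm _ (16⁻¹ ^ N), ← mul_pow,
            show (16⁻¹ : ℝ≥0∞) ^ 2 * 2 ^ 8 = (16⁻¹ * 16) ^ 2 by ring,
            ENNReal.inv_mul_cancel (by norm_num) (by norm_num)]
          simp
      _ ≤ _ := by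
          refine mul_le_mul' (mul_le_mul' (pow_le_pow_right_of_le_one' h16 h2) ?_)
            (one_le_pow₀ (by norm_num))
          gcongr <;> norm_num)
  omega

/-- Law of one step of the first walk. -/
noncomputable abbrev μ0 (p : Law d) : Measure (Dir d) := lawS p univ

omit [NeZero d] in
lemma lintegral_μ0 (p : Law d) (f : Dir d → ℝ≥0∞) :
    ∫⁻ e, f e ∂μ0 p = ∑ e, ENNReal.ofReal (p.p e) * f e := by
  rw [lintegral_lawS]
  refine Finset.sum_congr rfl fun e _ => ?_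
  simp [wS, p.sum]

/-- Total weight of the sideways steps. -/
noncomputable def gH (p : Law d) : ℝ≥0∞ :=
  ∑ e ∈ univ.filter (fun e : Dir d => e.1 ≠ 0), ENNReal.ofReal (p.p e)

lemma lintegral_cls (p : Law d) (x y z : ℝ≥0∞) : ∫⁻ e, cls x y z e ∂μ0 p =
    ENNReal.ofReal (p.p up) * x + ENNReal.ofReal (p.p dn) * y + gH p * z := by
  rw [lintegral_μ0, ← Finset.sum_filter_not_add_sum_filter univ (fun e : Dir d => e.1 ≠ 0), gH,
    Finset.sum_mul]
  congr 1
  · rw [show univ.filter (fun e : Dir d => ¬ e.1 ≠ 0) = {up, dn} by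
      ext ⟨j, b⟩; cases b <;> simp [up, dn], Finset.sum_pair up_ne_dn, cls_up, cls_dn]
  · exact Finset.sum_congr rfl fun e he => by rw [cls_hz _ _ _ (mem_filter.1 he).2]

lemma cls_map {M M' : Type} (f : M → M') (a b c : M) (e : Dir d) :
    f (cls a b c e) = cls (f a) (f b) (f c) e := by
  unfold cls; split_ifs <;> rfl

/-- Hypotheses on the law of the first walk. -/
structure H0 (p : Law d) : Prop where
  dn : ENNReal.ofReal (p.p dn) ≤ (2 ^ 60)⁻¹
  hz : gH p ≤ 128⁻¹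

omit [NeZero d] in
lemma Law.le_one (p : Law d) (e : Dir d) : p.p e ≤ 1 :=
  p.sum ▸ Finset.single_le_sum (fun e _ => (p.pos e).le) (mem_univ e)

lemma H0.cls_le {p : Law d} (h : H0 p) (x y z : ℝ≥0∞) :
    ∫⁻ e, cls x y z e ∂μ0 p ≤ x + (2 ^ 60)⁻¹ * y + 128⁻¹ * z := by
  rw [lintegral_cls]
  exact add_le_add (add_le_add (mul_le_of_le_one_left' (ENNReal.ofReal_le_one.2 (p.le_one _)))
    (mul_le_mul' h.dn le_rfl)) (mul_le_mul' h.hz le_rfl)

lemma le_of_toReal3 {x y z c : ℝ≥0∞} (hx : x ≠ ⊤) (hy : y ≠ ⊤) (hz : z ≠ ⊤) (hc : c ≠ ⊤)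
    (h : x.toReal + y.toReal + z.toReal ≤ c.toReal) : x + y + z ≤ c := by
  rw [← ENNReal.toReal_le_toReal (by finiteness) hc, ENNReal.toReal_add (by finiteness) hz,
    ENNReal.toReal_add hx hy]
  exact h

namespace H0

variable {p : Law d} (h : H0 p)
include h

lemma wY_le : ∫⁻ e, wY e ∂μ0 p ≤ 4⁻¹ :=
  (h.cls_le _ _ _).trans (le_of_toReal3 (by finiteness) (by finiteness) (by finiteness)
    (by finiteness) (by simp; norm_num))

lemma Yf_le : ∫⁻ s, Yf s ∂iid (μ0 p) ≤ 4 := by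
  refine (lintegral_geo_le _ (F := fun s => fY (s 0)) Measurable.of_discrete
    ((Measurable.of_discrete (f := fY)).comp (measurable_pi_apply 0))
    (h.wY_le.trans (ENNReal.inv_le_inv.2 (by norm_num)))).trans ?_
  rw [lintegral_eval (μ0 p) 0 (f := fY) Measurable.of_discrete,
    show (4 : ℝ≥0∞) = 2 * 2 by norm_num]
  refine mul_le_mul' le_rfl ((h.cls_le _ _ _).trans (le_of_toReal3 (by finiteness) (by finiteness)
    (by finiteness) (by finiteness) (by simp; norm_num)))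

lemma Zf_le {t : ℝ≥0∞} (ht : gH p * t ≤ 16⁻¹) : ∫⁻ s, Zf t s ∂iid (μ0 p) ≤ 8 := by
  refine (lintegral_geo_le _ Measurable.of_discrete measurable_Yf ?_).trans ?_
  · rw [wZ, lintegral_cls]
    calc _ ≤ 16⁻¹ + (2 ^ 60)⁻¹ * 2 ^ 26 + 4 * (16⁻¹ : ℝ≥0∞) := by
          refine add_le_add (add_le_add
            (mul_le_of_le_one_left' (ENNReal.ofReal_le_one.2 (p.le_one _)))
            (mul_le_mul' h.dn le_rfl)) ?_
          rw [mul_left_comm]; gcongr
      _ ≤ _ := le_of_toReal3 (by finiteness) (by finiteness) (by finiteness) (by finiteness)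
          (by simp; norm_num)
  · rw [show (8 : ℝ≥0∞) = 2 * 4 by norm_num]
    exact mul_le_mul' le_rfl h.Yf_le

lemma Zf_one_le : ∫⁻ s, Zf 1 s ∂iid (μ0 p) ≤ 8 :=
  h.Zf_le (by rw [mul_one]; exact h.hz.trans (ENNReal.inv_le_inv.2 (by norm_num)))

lemma Yf_sq : ∫⁻ s, Yf s ^ 2 ∂iid (μ0 p) ≠ ⊤ := by
  have h1 := lintegral_geo_le (μ0 p) (w := fun e => 2 * wY e ^ 2) (F := fun s => fY (s 0) ^ 2)
    Measurable.of_discrete
    ((Measurable.of_discrete (f := fun e => fY e ^ 2)).comp (measurable_pi_apply 0)) (by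
      simp only [wY, cls_map (fun x : ℝ≥0∞ => 2 * x ^ 2)]
      exact (h.cls_le _ _ _).trans (le_of_toReal3 (by finiteness) (by finiteness) (by finiteness)
        (by finiteness) (by simp; norm_num)))
  rw [lintegral_eval (μ0 p) 0 (f := fun e => fY e ^ 2) Measurable.of_discrete] at h1
  have h2 : ∫⁻ e, fY e ^ 2 ∂μ0 p ≠ ⊤ := by
    simp only [fY, cls_map (fun x : ℝ≥0∞ => x ^ 2)]
    exact ne_top_of_le_ne_top (by finiteness) (h.cls_le _ _ _)
  refine ne_top_of_le_ne_top ?_ (lintegral_mono fun s => geo_sq_le _ _ s)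
  rw [lintegral_const_mul' _ _ (by norm_num)]
  exact ENNReal.mul_ne_top (by norm_num)
    (ne_top_of_le_ne_top (ENNReal.mul_ne_top (by norm_num) h2) h1)

lemma Zf_sq : ∫⁻ s, Zf 1 s ^ 2 ∂iid (μ0 p) ≠ ⊤ := by
  have h1 := lintegral_geo_le (μ0 p) (w := fun e => 2 * wZ 1 e ^ 2) (F := fun s => Yf s ^ 2)
    Measurable.of_discrete (measurable_Yf.pow_const 2) (by
      simp only [wZ, cls_map (fun x : ℝ≥0∞ => 2 * x ^ 2)]
      exact (h.cls_le _ _ _).trans (le_of_toReal3 (by finiteness) (by finiteness) (by finiteness)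
        (by finiteness) (by simp; norm_num)))
  refine ne_top_of_le_ne_top ?_ (lintegral_mono fun s => geo_sq_le _ _ s)
  rw [lintegral_const_mul' _ _ (by norm_num)]
  exact ENNReal.mul_ne_top (by norm_num)
    (ne_top_of_le_ne_top (ENNReal.mul_ne_top (by norm_num) h.Yf_sq) h1)

lemma ae_Zf : ∀ᵐ s ∂iid (μ0 p), Zf 1 s ≠ ⊤ := by
  filter_upwards [ae_lt_top (measurable_Zf 1) (ne_top_of_le_ne_top (by norm_num) h.Zf_one_le)]
    with s hs using hs.ne

lemma prob_low (K α : ℕ) : ∫⁻ s, (if ht s α < K then 1 else 0) ∂iid (μ0 p) ≤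
    2⁻¹ ^ (α - 2 * K) * 2⁻¹ ^ (α - 2 * K) := by
  by_cases hα : α ≤ 2 * K
  · rw [Nat.sub_eq_zero_of_le hα]
    calc _ ≤ ∫⁻ _, 1 ∂iid (μ0 p) := lintegral_mono fun s => by split_ifs <;> simp
      _ = _ := by simp
  calc _ ≤ ∫⁻ s, 16 ^ K * ∏ m ∈ range α, wY (s m) ∂iid (μ0 p) := by
        refine lintegral_mono fun s => ?_
        split_ifs with h1
        · rw [prod_wY, ← p16_nat, ← p16_add, ← p16_zero]
          exact p16_mono (by omega)
        · exact zero_le
    _ = 16 ^ K * (∫⁻ e, wY e ∂μ0 p) ^ α := by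
        rw [lintegral_const_mul' _ _ (by finiteness), lintegral_prod_range _ Measurable.of_discrete]
    _ ≤ 16 ^ K * 4⁻¹ ^ α := by gcongr; exact h.wY_le
    _ = _ := by
        obtain ⟨c, rfl⟩ : ∃ c, α = 2 * K + c := ⟨α - 2 * K, by omega⟩
        have e : (4⁻¹ : ℝ≥0∞) = 2⁻¹ * 2⁻¹ := by
          rw [← ENNReal.mul_inv (by simp) (by simp)]; norm_num
        rw [Nat.add_sub_cancel_left, pow_add, pow_mul, ← mul_assoc, ← mul_pow,
          show (16 : ℝ≥0∞) * 4⁻¹ ^ 2 = (4⁻¹ * 4) ^ 2 by ring,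
          ENNReal.inv_mul_cancel (by norm_num) (by norm_num), e, mul_pow]
        simp

end H0

lemma tsum_trunc (M : ℕ) : ∑' α : ℕ, (2⁻¹ : ℝ≥0∞) ^ (α - M) ≤ M + 2 := by
  rw [← Summable.sum_add_tsum_nat_add' (k := M) ENNReal.summable]
  refine add_le_add ?_ ?_
  · rw [Finset.sum_congr rfl (g := fun _ => 1) fun α hα => by
      rw [Nat.sub_eq_zero_of_le (mem_range.1 hα).le, pow_zero]]
    simp
  · simp only [Nat.add_sub_cancel]
    exact tsum_pow_le_two le_rfl

lemma measurable_low (K : ℤ) (α : ℕ) :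
    Measurable fun s : ℕ → Dir d => if ht s α < K then (1 : ℝ≥0∞) else 0 :=
  Measurable.ite (measurableSet_lt (by fun_prop) measurable_const) measurable_const measurable_const

lemma lintegral_low_mul (p : Law d) (K : ℤ) (α : ℕ) {F : (ℕ → Dir d) → ℝ≥0∞} (hF : Measurable F) :
    ∫⁻ s, (if ht s α < K then F (sh α s) else 0) ∂iid (μ0 p) =
      (∫⁻ s, (if ht s α < K then 1 else 0) ∂iid (μ0 p)) * ∫⁻ s, F s ∂iid (μ0 p) := by
  rw [← lintegral_mul_sh _ (n := α) (fun s s' hs => by simp only [dep_ht le_rfl s s' hs])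
    (measurable_low K α) hF]
  exact lintegral_congr fun s => by split_ifs <;> simp

lemma H0.occS_le {p : Law d} (h : H0 p) (K : ℕ) {F : (ℕ → Dir d) → ℝ≥0∞} (hF : Measurable F) :
    ∫⁻ s, occS K F s ∂iid (μ0 p) ≤ (2 * K + 2) * ∫⁻ s, F s ∂iid (μ0 p) := by
  unfold occS
  rw [lintegral_tsum (f := fun α s => if ht s α < K then F (sh α s) else 0) fun α => (Measurable.ite (measurableSet_lt (by fun_prop) measurable_const)
    (hF.comp (measurable_sh α)) measurable_const).aemeasurable]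
  simp_rw [lintegral_low_mul p K _ hF]
  rw [ENNReal.tsum_mul_right]
  refine mul_le_mul' ((ENNReal.tsum_le_tsum fun α => (h.prob_low K α).trans
    (mul_le_of_le_one_right' (pow_le_one₀ zero_le (by simp)))).trans ?_) le_rfl
  exact_mod_cast tsum_trunc (2 * K)

lemma H0.occS_sq_le {p : Law d} (h : H0 p) (K : ℕ) {F : (ℕ → Dir d) → ℝ≥0∞} (hF : Measurable F) :
    ∫⁻ s, occS K F s ^ 2 ∂iid (μ0 p) ≤ (2 * K + 2) ^ 2 * ∫⁻ s, F s ^ 2 ∂iid (μ0 p) := by
  have h0 : ∑' α : ℕ, (2⁻¹ : ℝ≥0∞) ^ (α - 2 * K) ≤ 2 * K + 2 := by exact_mod_cast tsum_trunc (2 * K)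
  calc ∫⁻ s, occS K F s ^ 2 ∂iid (μ0 p)
      ≤ ∫⁻ s, (2 * K + 2) * ∑' α, 2 ^ (α - 2 * K) *
          (if ht s α < K then F (sh α s) ^ 2 else 0) ∂iid (μ0 p) := by
        refine lintegral_mono fun s => (tsum_sq_le _ (fun α => 2 ^ (α - 2 * K)) (fun _ => by simp)
          (fun _ => by simp)).trans (mul_le_mul' ?_ (le_of_eq (tsum_congr fun α => ?_)))
        · simpa only [ENNReal.inv_pow] using h0
        · split_ifs <;> simp
    _ = (2 * K + 2) * ∑' α, 2 ^ (α - 2 * K) *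
          ((∫⁻ s, (if ht s α < K then 1 else 0) ∂iid (μ0 p)) * ∫⁻ s, F s ^ 2 ∂iid (μ0 p)) := by
        have hm : ∀ α, Measurable fun s : ℕ → Dir d =>
            if ht s α < K then F (sh α s) ^ 2 else 0 := fun α =>
          Measurable.ite (measurableSet_lt (by fun_prop) measurable_const)
            ((hF.comp (measurable_sh α)).pow_const 2) measurable_const
        rw [lintegral_const_mul' _ _ (by finiteness),
          lintegral_tsum fun α => ((hm α).const_mul _).aemeasurable]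
        congr 1
        refine tsum_congr fun α => ?_
        rw [lintegral_const_mul _ (hm α),
          lintegral_low_mul p K α (F := fun s => F s ^ 2) (hF.pow_const 2)]
    _ ≤ (2 * K + 2) * ∑' α, 2⁻¹ ^ (α - 2 * K) * ∫⁻ s, F s ^ 2 ∂iid (μ0 p) := by
        refine mul_le_mul' le_rfl (ENNReal.tsum_le_tsum fun α => ?_)
        rw [← mul_assoc]
        refine mul_le_mul' ((mul_le_mul' le_rfl (h.prob_low K α)).trans (le_of_eq ?_)) le_rfl
        rw [← mul_assoc, ← mul_pow, ENNReal.mul_inv_cancel (by norm_num) (by norm_num)]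
        simp
    _ ≤ _ := by rw [ENNReal.tsum_mul_right, sq, mul_assoc]; gcongr

end Pool.Agent.Lib.MP_24597f_pr
end

-- part Pool.Agent.Lib.MP_24597f_pr.Gain
section

/-!
The annealed comparison between the expected occupation times of the two walks on traces.
-/

open MeasureTheory Filter Topology Finset
open scoped ENNReal

namespace Pool.Agent.Lib.MP_24597f_pr

variable {d : ℕ} [NeZero d]

omit [NeZero d] in
lemma lintegral_prod_range' {α : Type} [MeasurableSpace α] (ν : Measure α)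
    [IsProbabilityMeasure ν] {w : ℕ → α → ℝ≥0∞} (hw : ∀ m, Measurable (w m)) (T : ℕ) :
    ∫⁻ u, ∏ m ∈ range T, w m (u m) ∂iid ν = ∏ m ∈ range T, ∫⁻ a, w m a ∂ν := by
  induction T with
  | zero => simp
  | succ T ih =>
    have hd : Dep T (fun u : ℕ → α => ∏ m ∈ range T, w m (u m)) := fun u u' h =>
      Finset.prod_congr rfl fun m hm => by rw [h m (mem_range.1 hm)]
    have := lintegral_mul_sh ν (F := fun u => w T (u 0)) hd (by fun_prop) (by fun_prop)
    simp only [sh_apply, add_zero] at this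
    simp only [prod_range_succ]
    rw [this, ih, lintegral_eval ν 0 (hw T)]

/-- Records at levels in `[0, K)`. -/
def RW (K : ℤ) (s : ℕ → Dir d) (n : ℕ) : Prop := Rec s n ∧ 0 ≤ ht s n ∧ ht s n < K

open Classical in
/-- Indicator of records at levels in `[0, K)`. -/
noncomputable def iRW (K : ℤ) (n : ℕ) (s : ℕ → Dir d) : ℝ≥0∞ := if RW K s n then 1 else 0

open Classical in
/-- Indicator of the word. -/
noncomputable def iW (j : Fin d) (s : ℕ → Dir d) : ℝ≥0∞ := if Word j s then 1 else 0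

lemma measurable_iRW (K : ℤ) (n : ℕ) : Measurable (iRW K n : (ℕ → Dir d) → ℝ≥0∞) := by
  refine Measurable.ite ?_ measurable_const measurable_const
  simp only [RW, Rec, Set.ofPred_and, Set.ofPred_forall]
  exact (MeasurableSet.iInter fun m => MeasurableSet.iInter fun _ =>
    measurableSet_lt (by fun_prop) (by fun_prop)).inter
    ((measurableSet_le measurable_const (by fun_prop)).inter
      (measurableSet_lt (by fun_prop) measurable_const))

lemma dep_iRW (K : ℤ) (n : ℕ) : Dep n (iRW K n : (ℕ → Dir d) → ℝ≥0∞) := fun s s' hs => by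
  have h : ∀ m ≤ n, ht s m = ht s' m := fun m hm => dep_ht hm s s' hs
  have e : RW K s n ↔ RW K s' n := by
    unfold RW Rec
    rw [h n le_rfl]
    exact and_congr (forall₂_congr fun m hm => by rw [h m hm.le]) Iff.rfl
  unfold iRW
  rw [e]

/-- The letters of the word. -/
def letter (j : Fin d) : ℕ → Dir d
  | 0 => (j, true)
  | 2 => (j, false)
  | 3 => dn
  | _ => up

lemma iW_eq (j : Fin d) (s : ℕ → Dir d) :
    iW j s = ∏ m ∈ range 6, if s m = letter j m then 1 else 0 := by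
  simp only [iW, prod_range_succ, range_zero, prod_empty, letter, mul_ite, mul_one, mul_zero,
    ← ite_and]
  classical
  by_cases h : Word j s
  · rw [if_pos h, if_pos (by unfold Word at h; tauto)]
  · rw [if_neg h, if_neg (by unfold Word at h; tauto)]

lemma measurable_iW (j : Fin d) : Measurable (iW j : (ℕ → Dir d) → ℝ≥0∞) := by
  have : iW j = fun s : ℕ → Dir d => ∏ m ∈ range 6, if s m = letter j m then (1 : ℝ≥0∞) else 0 :=
    funext (iW_eq j)
  rw [this]
  exact Finset.measurable_prod _ fun m _ => Measurable.ite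
    (measurableSet_eq_fun (by fun_prop) measurable_const) measurable_const measurable_const

lemma dep_iW (j : Fin d) : Dep 6 (iW j : (ℕ → Dir d) → ℝ≥0∞) := fun s s' hs => by
  rw [iW_eq, iW_eq]
  exact Finset.prod_congr rfl fun m hm => by rw [hs m (mem_range.1 hm)]

/-- Probability of the word. -/
noncomputable def pW (p : Law d) (j : Fin d) : ℝ≥0∞ :=
  ENNReal.ofReal (p.p (j, true) * p.p (j, false) * p.p dn * p.p up ^ 3)

lemma lintegral_iW (p : Law d) (j : Fin d) : ∫⁻ s, iW j s ∂iid (μ0 p) = pW p j := by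
  simp_rw [iW_eq]
  rw [lintegral_prod_range' (μ0 p) (w := fun m e => if e = letter j m then 1 else 0)
    fun m => Measurable.of_discrete]
  simp only [lintegral_μ0, mul_ite, mul_one, mul_zero, Finset.sum_ite_eq', mem_univ, if_true]
  rw [← ENNReal.ofReal_prod_of_nonneg fun m _ => (p.pos _).le, pW]
  congr 1
  simp only [prod_range_succ, range_zero, prod_empty, letter]
  ring

/-- Sum over records followed by the word. -/
noncomputable def sumW (j : Fin d) (K : ℤ) (F : (ℕ → Dir d) → ℝ≥0∞) (s : ℕ → Dir d) : ℝ≥0∞ :=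
  ∑' n, iRW K n s * (iW j (sh n s) * F (sh 6 (sh n s)))

lemma measurable_sumW (j : Fin d) (K : ℤ) {F : (ℕ → Dir d) → ℝ≥0∞} (hF : Measurable F) :
    Measurable (sumW j K F) :=
  Measurable.tsum fun n => (measurable_iRW K n).mul (((measurable_iW j).comp (measurable_sh n)).mul
    (hF.comp ((measurable_sh 6).comp (measurable_sh n))))

/-- Expected number of records at levels in `[0, K)`. -/
noncomputable def nRec (p : Law d) (K : ℤ) : ℝ≥0∞ := ∑' n, ∫⁻ s, iRW K n s ∂iid (μ0 p)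

lemma lintegral_sumW (p : Law d) (j : Fin d) (K : ℤ) {F : (ℕ → Dir d) → ℝ≥0∞}
    (hF : Measurable F) :
    ∫⁻ s, sumW j K F s ∂iid (μ0 p) = nRec p K * (pW p j * ∫⁻ s, F s ∂iid (μ0 p)) := by
  unfold sumW nRec
  have hm : Measurable fun s : ℕ → Dir d => iW j s * F (sh 6 s) :=
    (measurable_iW j).mul (hF.comp (measurable_sh 6))
  rw [lintegral_tsum (f := fun n s => iRW K n s * (iW j (sh n s) * F (sh 6 (sh n s)))) fun n =>
    ((measurable_iRW K n).mul (hm.comp (measurable_sh n))).aemeasurable, ← ENNReal.tsum_mul_right]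
  refine tsum_congr fun n => ?_
  rw [lintegral_mul_sh _ (dep_iRW K n) (measurable_iRW K n) hm,
    lintegral_mul_sh _ (dep_iW j) (measurable_iW j) hF, lintegral_iW]

lemma H0.nRec_le {p : Law d} (h : H0 p) (K : ℕ) : nRec p K ≤ 2 * K + 2 := by
  have := h.occS_le K (F := fun _ => 1) measurable_const
  simp only [lintegral_const, measure_univ, mul_one] at this
  refine le_trans ?_ this
  rw [nRec, ← lintegral_tsum fun n => (measurable_iRW K n).aemeasurable]
  refine lintegral_mono fun s => ENNReal.tsum_le_tsum fun n => ?_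
  unfold iRW
  split_ifs with h1 h2
  · exact le_rfl
  · exact absurd h1.2.2 h2
  · exact zero_le
  · exact le_rfl

lemma H0.le_nRec {p : Law d} (h : H0 p) (K : ℕ) : (K : ℝ≥0∞) ≤ nRec p K := by
  classical
  rw [nRec, ← lintegral_tsum fun n => (measurable_iRW K n).aemeasurable]
  calc (K : ℝ≥0∞) = ∫⁻ _, K ∂iid (μ0 p) := by simp
    _ ≤ _ := lintegral_mono_ae ?_
  filter_upwards [h.ae_Zf] with s hs
  have hub := unbounded_of_fin (fin_of_Yf (ne_top_of_le_ne_top hs (Yf_le_Zf 1 s)))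
  choose σ h1 h2 using fun k : ℕ => (steps_pth s).first_hit (k := k) (by simp) (hub k)
  have hinj : Set.InjOn σ (range K) := fun a _ b _ hab => by
    have := h1 a
    rw [hab, h1 b] at this
    exact_mod_cast this.symm
  refine le_trans (le_of_eq ?_) (ENNReal.sum_le_tsum ((range K).image σ))
  rw [Finset.sum_image hinj, Finset.sum_congr rfl (g := fun _ => 1) fun k hk => ?_]
  · simp
  · have e : ht s (σ k) = k := h1 k
    have := mem_range.1 hk
    exact if_pos ⟨fun m hm => by rw [e]; exact h2 k m hm, by omega, by omega⟩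

/-- Total probability of failure in the pattern. -/
noncomputable def Dg (s : ℕ → Dir d) : ℝ≥0∞ := Df s + 16⁻¹ * Yf s

lemma measurable_Dg : Measurable (Dg : (ℕ → Dir d) → ℝ≥0∞) :=
  ((measurable_Yf.add_const _).const_mul _).add (measurable_Yf.const_mul _)

lemma H0.Dg_le {p : Law d} (h : H0 p) : ∫⁻ s, Dg s ∂iid (μ0 p) ≤ 2⁻¹ := by
  unfold Dg Df
  rw [lintegral_add_right _ (measurable_Yf.const_mul _),
    lintegral_const_mul _ (measurable_Yf.add_const _), lintegral_const_mul _ measurable_Yf,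
    lintegral_add_right _ measurable_const]
  simp only [lintegral_const, measure_univ, mul_one]
  calc _ ≤ 128⁻¹ * (4 + 24) + 16⁻¹ * (4 : ℝ≥0∞) := by gcongr <;> exact h.Yf_le
    _ ≤ _ := by
      rw [mul_add]
      exact le_of_toReal3 (by finiteness) (by finiteness) (by finiteness) (by finiteness)
        (by simp; norm_num)

lemma quenched {q : Law d} {r : ℝ} (h : Hq q r) {s : ℕ → Dir d} {j : Fin d} (hj : j ≠ 0)
    (hZ : Zf 1 s ≠ ⊤) {K : ℤ} (hK : 0 < K) {t : ℝ≥0∞} (ht1 : 1 ≤ t) (ht2 : t ≠ ⊤) :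
    ∫⁻ u, occ K (walk (trace (pth s)) 0 u) ∂iid (drv q) + kap q r * sumW j K (fun _ => 1) s ≤
      ∫⁻ u, ∫⁻ u', occ K (walk (trace (walk (trace (pth s)) 0 u)) 0 u') ∂iid (drv q) ∂iid (drv q) +
        (kap q r * sumW j K Dg s + Err (kap q r) t K s) := by
  classical
  have h1 := quenched_pat h j (fin_of_Yf (ne_top_of_le_ne_top hZ (Yf_le_Zf 1 s))) (cuts_of_Zf hZ)
    hK ht1 ht2
  have h2 : sumW j K (fun _ => 1) s ≤ ∑' n, (if Pat j s n ∧ ht s n < K then 1 else 0) +
      sumW j K (fun s => 16⁻¹ * Yf s) s := by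
    rw [sumW, sumW, ← ENNReal.tsum_add]
    refine ENNReal.tsum_le_tsum fun n => ?_
    unfold iRW iW
    by_cases h3 : RW K s n
    swap
    · simp [h3]
    by_cases h4 : Word j (sh n s)
    swap
    · simp [h4]
    simp only [if_pos h3, if_pos h4, one_mul, sh_sh]
    by_cases h5 : Pos0 (sh (n + 6) s)
    · rw [if_pos ⟨⟨hj, h3.1, h3.2.1, h4, h5⟩, h3.2.2⟩]; exact le_self_add
    · refine le_add_left ?_
      calc (1 : ℝ≥0∞) = 16⁻¹ * 16 := (ENNReal.inv_mul_cancel (by norm_num) (by norm_num)).symm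
        _ ≤ _ := mul_le_mul' le_rfl (le_Yf_of_not_pos h5)
  have h3 : ∑' n, (if Pat j s n ∧ ht s n < K then Df (sh (n + 6) s) else 0) +
      sumW j K (fun s => 16⁻¹ * Yf s) s ≤ sumW j K Dg s := by
    rw [sumW, sumW, ← ENNReal.tsum_add]
    refine ENNReal.tsum_le_tsum fun n => ?_
    rw [Dg, mul_add, mul_add]
    refine add_le_add ?_ le_rfl
    split_ifs with h4
    · rw [iRW, iW, if_pos ⟨h4.1.first, h4.1.lvl, h4.2⟩, if_pos h4.1.word, sh_sh]; simp
    · exact zero_le
  calc _ ≤ ∫⁻ u, occ K (walk (trace (pth s)) 0 u) ∂iid (drv q) + kap q r *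
        (∑' n, (if Pat j s n ∧ ht s n < K then 1 else 0) + sumW j K (fun s => 16⁻¹ * Yf s) s) := by
        gcongr
    _ = (∫⁻ u, occ K (walk (trace (pth s)) 0 u) ∂iid (drv q) + kap q r *
        ∑' n, (if Pat j s n ∧ ht s n < K then 1 else 0)) +
        kap q r * sumW j K (fun s => 16⁻¹ * Yf s) s := by ring
    _ ≤ _ := by
        refine (add_le_add h1 le_rfl).trans ?_
        rw [add_assoc, add_assoc]
        refine add_le_add le_rfl ?_
        rw [add_comm (Err _ _ _ _), ← add_assoc, ← mul_add]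
        gcongr

/-- Expected occupation time of the first walk on a trace. -/
noncomputable def A1 (p q : Law d) (K : ℤ) : ℝ≥0∞ :=
  ∫⁻ s, ∫⁻ u, occ K (walk (trace (pth s)) 0 u) ∂iid (drv q) ∂iid (μ0 p)

/-- Expected occupation time of the second walk on a trace. -/
noncomputable def A2 (p q : Law d) (K : ℤ) : ℝ≥0∞ :=
  ∫⁻ s, ∫⁻ u, ∫⁻ u', occ K (walk (trace (walk (trace (pth s)) 0 u)) 0 u')
    ∂iid (drv q) ∂iid (drv q) ∂iid (μ0 p)

lemma measurable_Err (κ t : ℝ≥0∞) (K : ℤ) : Measurable (Err κ t K : (ℕ → Dir d) → ℝ≥0∞) :=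
  (((measurable_occS K (measurable_Zf 1)).const_mul _).add ((measurable_Zf 1).const_mul _)).add
    ((measurable_occS K (measurable_Zf t)).const_mul _)

lemma H0.Err_le {p : Law d} (h : H0 p) (κ : ℝ≥0∞) {t : ℝ≥0∞} (ht : gH p * t ≤ 16⁻¹) (K : ℕ) :
    ∫⁻ s, Err κ t K s ∂iid (μ0 p) ≤
      98304 * (2 * K + 2) + 16384 * κ + 16384 * κ * t⁻¹ ^ 3 * (2 * K + 2) := by
  unfold Err
  rw [lintegral_add_right _ ((measurable_occS K (measurable_Zf t)).const_mul _),
    lintegral_add_right _ ((measurable_Zf 1).const_mul _),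
    lintegral_const_mul _ (measurable_occS K (measurable_Zf t)),
    lintegral_const_mul _ (measurable_occS K (measurable_Zf 1)),
    lintegral_const_mul _ (measurable_Zf 1)]
  have h1 := (h.occS_le K (measurable_Zf 1)).trans (mul_le_mul' le_rfl h.Zf_one_le)
  have h2 := (h.occS_le K (measurable_Zf t)).trans (mul_le_mul' le_rfl (h.Zf_le ht))
  calc _ ≤ 12288 * ((2 * K + 2) * 8) + 2048 * κ * 8 + 2048 * κ * t⁻¹ ^ 3 * ((2 * K + 2) * 8) := by
        gcongr
        exact h.Zf_one_le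
    _ = _ := by ring

lemma annealed {p q : Law d} {r : ℝ} (hp : H0 p) (h : Hq q r) {j : Fin d} (hj : j ≠ 0)
    {t : ℝ≥0∞} (ht1 : 1 ≤ t) (ht2 : t ≠ ⊤) (ht : gH p * t ≤ 16⁻¹) {K : ℕ} (hK : 0 < K) :
    A1 p q K + kap q r * pW p j * 2⁻¹ * K ≤ A2 p q K +
      (98304 * (2 * K + 2) + 16384 * kap q r + 16384 * kap q r * t⁻¹ ^ 3 * (2 * K + 2)) := by
  have h1 : A1 p q K + kap q r * (nRec p K * pW p j) ≤
      A2 p q K + (kap q r * (nRec p K * (pW p j * 2⁻¹)) + ∫⁻ s, Err (kap q r) t K s ∂iid (μ0 p)) := by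
    have e1 := lintegral_sumW p j K (F := fun _ => 1) measurable_const
    simp only [lintegral_const, measure_univ, mul_one] at e1
    have e2 := lintegral_sumW p j K measurable_Dg
    have m1 : Measurable fun s => kap q r * sumW j K Dg s + Err (kap q r) t K s :=
      ((measurable_sumW j K measurable_Dg).const_mul _).fun_add (measurable_Err _ _ _)
    rw [← e1, ← lintegral_const_mul _ (measurable_sumW j K measurable_const)]
    refine (le_lintegral_add _ _).trans ((lintegral_mono_ae ?_).trans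
      ((lintegral_add_right _ m1).le.trans (add_le_add le_rfl ?_)))
    · filter_upwards [hp.ae_Zf] with s hs
      exact quenched h hj hs (by exact_mod_cast hK) ht1 ht2
    · rw [lintegral_add_right _ (measurable_Err _ _ _),
        lintegral_const_mul _ (measurable_sumW j K measurable_Dg), e2]
      gcongr
      exact hp.Dg_le
  have hfin : kap q r * (nRec p K * (pW p j * 2⁻¹)) ≠ ⊤ :=
    ENNReal.mul_ne_top (kap_ne_top q r) (ENNReal.mul_ne_top
      (ne_top_of_le_ne_top (by finiteness) (hp.nRec_le K))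
      (ENNReal.mul_ne_top ENNReal.ofReal_ne_top (by simp)))
  have e : kap q r * (nRec p K * pW p j) = kap q r * (nRec p K * (pW p j * 2⁻¹)) +
      kap q r * (nRec p K * (pW p j * 2⁻¹)) := by
    rw [← mul_add, ← mul_add, ← mul_add, ENNReal.inv_two_add_inv_two, mul_one]
  rw [e, ← add_assoc, add_comm (kap q r * _) (∫⁻ _, _ ∂_), ← add_assoc,
    ENNReal.add_le_add_iff_right hfin] at h1
  refine le_trans (add_le_add le_rfl ?_) (h1.trans (add_le_add le_rfl (hp.Err_le _ ht K)))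
  calc kap q r * pW p j * 2⁻¹ * K = kap q r * (K * (pW p j * 2⁻¹)) := by ring
    _ ≤ _ := by gcongr; exact hp.le_nRec K

lemma A1_le {p q : Law d} {r : ℝ} (hp : H0 p) (h : Hq q r) {K : ℕ} (hK : 0 < K) :
    A1 p q K ≤ 16384 * kap q r * (2 * K + 2) := by
  calc A1 p q K ≤ ∫⁻ s, 2048 * kap q r * occS K (Zf 1) s ∂iid (μ0 p) := by
        refine lintegral_mono_ae ?_
        filter_upwards [hp.ae_Zf] with s hs
        have hfin := fin_of_Yf (ne_top_of_le_ne_top hs (Yf_le_Zf 1 s))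
        exact h.occ_le (by simpa using nice_pth hfin false) (ne_pth s) subset_rfl hfin
          (cuts_of_Zf hs) (by exact_mod_cast hK)
    _ ≤ 2048 * kap q r * ((2 * K + 2) * 8) := by
        rw [lintegral_const_mul _ (measurable_occS K (measurable_Zf 1))]
        exact mul_le_mul' le_rfl
          ((hp.occS_le K (measurable_Zf 1)).trans (mul_le_mul' le_rfl hp.Zf_one_le))
    _ = _ := by ring

lemma A2_sq_le {p q : Law d} {r : ℝ} (hp : H0 p) (h : Hq q r) :
    ∃ C : ℝ≥0∞, C ≠ ⊤ ∧ ∀ K : ℕ, 0 < K →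
      ∫⁻ s, ∫⁻ u, ∫⁻ u', occ K (walk (trace (walk (trace (pth s)) 0 u)) 0 u') ^ 2
        ∂iid (drv q) ∂iid (drv q) ∂iid (μ0 p) ≤ C * K ^ 2 := by
  refine ⟨2 * (2048 * kap q r) ^ 2 * (16 * ∫⁻ s, Zf 1 s ^ 2 ∂iid (μ0 p)), ?_, fun K hK => ?_⟩
  · have := kap_ne_top q r
    have := hp.Zf_sq
    finiteness
  calc _ ≤ ∫⁻ s, 2 * (2048 * kap q r) ^ 2 * occS K (Zf 1) s ^ 2 ∂iid (μ0 p) := by
        refine lintegral_mono_ae ?_
        filter_upwards [hp.ae_Zf] with s hs
        have hfin := fin_of_Yf (ne_top_of_le_ne_top hs (Yf_le_Zf 1 s))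
        have hN : Nice (trace (pth s)) := by simpa using nice_pth hfin false
        calc _ ≤ ∫⁻ _, 2 * (2048 * kap q r * occS K (Zf 1) s) ^ 2 ∂iid (drv q) := by
              refine lintegral_mono_ae ?_
              filter_upwards [ae_nice' h.rev hN] with u hu
              exact lintegral_occ_sq q (ne_walk _ u) K fun x hx => h.occ_le hu.1 hx
                (trace_walk_subset (ne_pth s) u) hfin (cuts_of_Zf hs) (by exact_mod_cast hK)
          _ = _ := by simp [mul_pow, mul_assoc]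
    _ ≤ 2 * (2048 * kap q r) ^ 2 * ((2 * K + 2) ^ 2 * ∫⁻ s, Zf 1 s ^ 2 ∂iid (μ0 p)) := by
        rw [lintegral_const_mul _ ((measurable_occS K (measurable_Zf 1)).pow_const 2)]
        exact mul_le_mul' le_rfl (hp.occS_sq_le K (measurable_Zf 1))
    _ ≤ 2 * (2048 * kap q r) ^ 2 * ((4 * K) ^ 2 * ∫⁻ s, Zf 1 s ^ 2 ∂iid (μ0 p)) := by
        gcongr
        exact_mod_cast (by omega : 2 * K + 2 ≤ 4 * K)
    _ = _ := by ring

end Pool.Agent.Lib.MP_24597f_pr
end

-- part Pool.Agent.Lib.MP_24597f_pr.Limit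
section

/-!
From expected occupation times to speeds, and the choice of the parameters.
-/

open MeasureTheory Filter Topology Finset
open scoped ENNReal

namespace Pool.Agent.Lib.MP_24597f_pr

variable {d : ℕ} [NeZero d]

lemma occ_lower {y : ℕ → V d} {v l : ℝ}
    (hy : Tendsto (fun n : ℕ => (lv (y n) : ℝ) / n) atTop (𝓝 v)) (hl : 0 < l) (hv : l * v < 1) :
    ∀ᶠ K : ℕ in atTop, ENNReal.ofReal l ≤ occ K y / K := by
  obtain ⟨c, hc1, hc2⟩ := exists_between (show max v 0 < l⁻¹ from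
    max_lt (by rw [← one_div, lt_div_iff₀ hl]; linarith) (inv_pos.2 hl))
  have hc0 : 0 < c := (le_max_right _ _).trans_lt hc1
  have hcl : c * l < 1 := by rwa [← one_div, lt_div_iff₀ hl] at hc2
  obtain ⟨n0, hn0⟩ := eventually_atTop.1
    ((hy.eventually (gt_mem_nhds ((le_max_left _ _).trans_lt hc1))).and (eventually_gt_atTop 0))
  have h1 : Tendsto (fun K : ℕ => (K : ℝ) * (1 - c * l)) atTop atTop :=
    tendsto_natCast_atTop_atTop.atTop_mul_const (by linarith)
  filter_upwards [h1.eventually_ge_atTop (c * (n0 + 1)), eventually_gt_atTop 0] with K hK hK0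
  rw [ENNReal.le_div_iff_mul_le (by simp [hK0.ne']) (by simp)]
  set M := ⌈l * K⌉₊ with hM
  have hM1 : (M : ℝ) < l * K + 1 := Nat.ceil_lt_add_one (by positivity)
  calc ENNReal.ofReal l * K = ENNReal.ofReal (l * K) := by
        rw [ENNReal.ofReal_mul hl.le, ENNReal.ofReal_natCast]
    _ ≤ (M : ℝ≥0∞) := by
        rw [← ENNReal.ofReal_natCast]; exact ENNReal.ofReal_le_ofReal (Nat.le_ceil _)
    _ = ∑ n ∈ Finset.Ico n0 (n0 + M), if lv (y n) < K then 1 else 0 := by
        rw [Finset.sum_congr rfl (g := fun _ => 1) fun n hn => if_pos ?_]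
        · simp
        obtain ⟨h2, h3⟩ := mem_Ico.1 hn
        obtain ⟨h4, h5⟩ := hn0 n h2
        rw [div_lt_iff₀ (by exact_mod_cast h5)] at h4
        have h6 : (n : ℝ) ≤ n0 + M := by exact_mod_cast h3.le
        have : (lv (y n) : ℝ) < K := by nlinarith
        exact_mod_cast this
    _ ≤ _ := ENNReal.sum_le_tsum _

lemma occ_upper {y : ℕ → V d} {v l : ℝ}
    (hy : Tendsto (fun n : ℕ => (lv (y n) : ℝ) / n) atTop (𝓝 v)) (hl : 0 < l) (hv : 1 < l * v) :
    ∀ᶠ K : ℕ in atTop, occ K y / K ≤ ENNReal.ofReal l := by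
  obtain ⟨c, hc1, hc2⟩ := exists_between (show l⁻¹ < v by rw [← one_div, div_lt_iff₀ hl]; linarith)
  have hc0 : 0 < c := (inv_pos.2 hl).trans hc1
  have hcl : 1 < c * l := by rwa [← one_div, div_lt_iff₀ hl] at hc1
  obtain ⟨n0, hn0⟩ := eventually_atTop.1
    ((hy.eventually (lt_mem_nhds hc2)).and (eventually_gt_atTop 0))
  have h1 : Tendsto (fun K : ℕ => (K : ℝ) * (c * l - 1)) atTop atTop :=
    tendsto_natCast_atTop_atTop.atTop_mul_const (by linarith)
  have h2 : Tendsto (fun K : ℕ => (K : ℝ) * l) atTop atTop :=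
    tendsto_natCast_atTop_atTop.atTop_mul_const hl
  filter_upwards [h1.eventually_ge_atTop c, h2.eventually_ge_atTop n0] with K hK hK'
  refine ENNReal.div_le_of_le_mul ?_
  set M := ⌊l * K⌋₊ with hM
  have hM1 : l * K < M + 1 := Nat.lt_floor_add_one _
  have hM2 : n0 ≤ M := Nat.le_floor (by linarith)
  calc occ K y = ∑ n ∈ range M, if lv (y n) < K then 1 else 0 := by
        refine tsum_eq_sum fun n hn => if_neg ?_
        have h3 : M ≤ n := not_lt.1 (mem_range.not.1 hn)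
        obtain ⟨h4, h5⟩ := hn0 n (hM2.trans h3)
        rw [lt_div_iff₀ (by exact_mod_cast h5)] at h4
        have h6 : (M : ℝ) ≤ n := by exact_mod_cast h3
        have : (K : ℝ) < lv (y n) := by nlinarith
        have : (K : ℤ) < lv (y n) := by exact_mod_cast this
        omega
    _ ≤ ∑ _n ∈ range M, (1 : ℝ≥0∞) := Finset.sum_le_sum fun n _ => by split_ifs <;> simp
    _ = ENNReal.ofReal M := by simp
    _ ≤ ENNReal.ofReal (l * K) := ENNReal.ofReal_le_ofReal (Nat.floor_le (by positivity))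
    _ = _ := by rw [ENNReal.ofReal_mul hl.le, ENNReal.ofReal_natCast]

lemma mean_lower {ν : Measure (ℕ → V d)} [IsProbabilityMeasure ν] {v l : ℝ}
    (hy : ∀ᵐ y ∂ν, Tendsto (fun n : ℕ => (lv (y n) : ℝ) / n) atTop (𝓝 v)) (hv : l * v < 1) :
    ∀ᶠ K : ℕ in atTop, ENNReal.ofReal l ≤ (∫⁻ y, occ K y ∂ν) / K := by
  rcases le_or_gt l 0 with hl | hl
  · simp [ENNReal.ofReal_of_nonpos hl]
  obtain ⟨l', h1, h2⟩ : ∃ l', l < l' ∧ l' * v < 1 := by
    have hc : ContinuousAt (fun x => x * v) l := by fun_prop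
    exact ((hc.eventually (gt_mem_nhds hv)).filter_mono nhdsWithin_le_nhds (f₁ := 𝓝[>] l)).and
      self_mem_nhdsWithin |>.exists.imp fun x hx => ⟨hx.2, hx.1⟩
  have h3 : ENNReal.ofReal l' ≤ liminf (fun K : ℕ => ∫⁻ y, occ K y / K ∂ν) atTop := by
    refine le_trans ?_ (lintegral_liminf_le fun K => (measurable_occ K).div_const _)
    calc ENNReal.ofReal l' = ∫⁻ _, ENNReal.ofReal l' ∂ν := by simp
      _ ≤ _ := by
        refine lintegral_mono_ae ?_
        filter_upwards [hy] with y hy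
        exact le_liminf_of_le (by isBoundedDefault) (occ_lower hy (hl.trans h1) h2)
  filter_upwards [eventually_lt_of_lt_liminf
    (((ENNReal.ofReal_lt_ofReal_iff (hl.trans h1)).2 h1).trans_le h3)] with K hK
  simp only [div_eq_mul_inv] at hK ⊢
  rw [lintegral_mul_const _ (measurable_occ K)] at hK
  exact hK.le

lemma le_trunc (x l ε : ℝ≥0∞) (h0 : ε ≠ 0) (h1 : ε ≠ ⊤) :
    x ≤ l + ε * x ^ 2 + (if l < x then ε⁻¹ else 0) := by
  split_ifs with h
  · rcases le_total x ε⁻¹ with h2 | h2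
    · exact le_add_left h2
    · refine le_add_right (le_add_left ?_)
      calc x = ε * ε⁻¹ * x := by rw [ENNReal.mul_inv_cancel h0 h1, one_mul]
        _ ≤ ε * x * x := by gcongr
        _ = _ := by ring
  · exact le_add_right (le_add_right (not_lt.1 h))

lemma mean_le {ν : Measure (ℕ → V d)} [IsProbabilityMeasure ν] {C : ℝ≥0∞} {K : ℕ} (hK : 0 < K)
    (hC : ∫⁻ y, occ K y ^ 2 ∂ν ≤ C * K ^ 2) (l ε : ℝ≥0∞) (h0 : ε ≠ 0) (h1 : ε ≠ ⊤) :
    (∫⁻ y, occ K y ∂ν) / K ≤ l + ε * C + ε⁻¹ * ν {y | l < occ K y / K} := by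
  have hm : Measurable fun y : ℕ → V d => occ K y / K := (measurable_occ K).div_const _
  have hS : MeasurableSet {y : ℕ → V d | l < occ K y / K} := measurableSet_lt measurable_const hm
  calc (∫⁻ y, occ K y ∂ν) / K = ∫⁻ y, occ K y / K ∂ν := by
        simp only [div_eq_mul_inv]
        rw [lintegral_mul_const _ (measurable_occ K)]
    _ ≤ ∫⁻ y, l + ε * (K : ℝ≥0∞)⁻¹ ^ 2 * occ K y ^ 2 +
          {y : ℕ → V d | l < occ K y / K}.indicator (fun _ => ε⁻¹) y ∂ν := by
        refine lintegral_mono fun y => (le_trunc _ l ε h0 h1).trans (le_of_eq ?_)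
        simp only [Set.indicator_apply, Set.mem_ofPred_eq, div_eq_mul_inv]
        ring
    _ = l + ε * (K : ℝ≥0∞)⁻¹ ^ 2 * ∫⁻ y, occ K y ^ 2 ∂ν + ε⁻¹ * ν {y | l < occ K y / K} := by
        rw [lintegral_add_right _ (measurable_const.indicator hS),
          lintegral_add_left measurable_const, lintegral_indicator_const hS,
          lintegral_const_mul _ ((measurable_occ K).pow_const 2)]
        simp
    _ ≤ l + ε * (K : ℝ≥0∞)⁻¹ ^ 2 * (C * K ^ 2) + ε⁻¹ * ν {y | l < occ K y / K} := by gcongr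
    _ = l + ε * C * ((K : ℝ≥0∞)⁻¹ * K) ^ 2 + ε⁻¹ * ν {y | l < occ K y / K} := by ring
    _ = _ := by rw [ENNReal.inv_mul_cancel (by simp [hK.ne']) (by simp)]; simp

lemma mean_upper {ν : Measure (ℕ → V d)} [IsProbabilityMeasure ν] {v l : ℝ}
    (hy : ∀ᵐ y ∂ν, Tendsto (fun n : ℕ => (lv (y n) : ℝ) / n) atTop (𝓝 v)) (hl : 0 < l)
    (hv : 1 < l * v) {C : ℝ≥0∞} (hC : C ≠ ⊤)
    (h2 : ∀ K : ℕ, 0 < K → ∫⁻ y, occ K y ^ 2 ∂ν ≤ C * K ^ 2) {δ : ℝ≥0∞} (hδ : δ ≠ 0)
    (hδ' : δ ≠ ⊤) :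
    ∀ᶠ K : ℕ in atTop, (∫⁻ y, occ K y ∂ν) / K ≤ ENNReal.ofReal l + δ + δ := by
  set ε := δ / (C + 1) with hε
  have h0 : ε ≠ 0 := ENNReal.div_ne_zero.2 ⟨hδ, by finiteness⟩
  have h1 : ε ≠ ⊤ := ENNReal.div_ne_top hδ' (by simp)
  have h3 : Tendsto (fun K : ℕ => ν {y | ENNReal.ofReal l < occ K y / K}) atTop (𝓝 (ν ∅)) := by
    refine tendsto_measure_of_ae_tendsto_indicator_of_isFiniteMeasure atTop MeasurableSet.empty
      (fun K => measurableSet_lt measurable_const ((measurable_occ K).div_const _)) ?_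
    filter_upwards [hy] with y hy
    filter_upwards [occ_upper hy hl hv] with K hK
    simpa using hK
  rw [measure_empty] at h3
  filter_upwards [h3.eventually (gt_mem_nhds (pos_iff_ne_zero.2 (mul_ne_zero h0 hδ))),
    eventually_gt_atTop 0] with K hK hK0
  refine (mean_le hK0 (h2 K hK0) (ENNReal.ofReal l) ε h0 h1).trans
    (add_le_add (add_le_add le_rfl ?_) ?_)
  · calc ε * C ≤ ε * (C + 1) := by gcongr; exact le_self_add
      _ = δ := ENNReal.div_mul_cancel (by simp) (by finiteness)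
  · calc _ ≤ ε⁻¹ * (ε * δ) := by gcongr
      _ = δ := by rw [← mul_assoc, ENNReal.inv_mul_cancel h0 h1, one_mul]

lemma speed_lt {ν₁ ν₂ : Measure (ℕ → V d)} [IsProbabilityMeasure ν₁] [IsProbabilityMeasure ν₂]
    {v₁ v₂ : ℝ} (h₁ : ∀ᵐ y ∂ν₁, Tendsto (fun n : ℕ => (lv (y n) : ℝ) / n) atTop (𝓝 v₁))
    (h₂ : ∀ᵐ y ∂ν₂, Tendsto (fun n : ℕ => (lv (y n) : ℝ) / n) atTop (𝓝 v₂))
    {C C0 : ℝ≥0∞} (hC : C ≠ ⊤) (hC0 : C0 ≠ ⊤)
    (h2 : ∀ K : ℕ, 0 < K → ∫⁻ y, occ K y ^ 2 ∂ν₂ ≤ C * K ^ 2)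
    (hgap : ∀ K : ℕ, 0 < K → ∫⁻ y, occ K y ∂ν₁ + K ≤ ∫⁻ y, occ K y ∂ν₂ + C0) :
    0 < v₂ ∧ v₂ < v₁ := by
  have hv : 0 < v₂ := by
    by_contra hc
    obtain ⟨K, h3, hK⟩ := ((mean_lower h₂ (l := C.toReal + 2) (by
      have := ENNReal.toReal_nonneg (a := C); nlinarith)).and (eventually_gt_atTop 0)).exists
    have h4 := h3.trans (mean_le hK (h2 K hK) 0 1 one_ne_zero ENNReal.one_ne_top)
    have h5 : ENNReal.ofReal (C.toReal + 2) ≤ C + 1 := h4.trans (by
      simp only [zero_add, one_mul, inv_one]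
      gcongr
      exact prob_le_one)
    rw [ENNReal.ofReal_le_iff_le_toReal (by finiteness), ENNReal.toReal_add hC (by simp)] at h5
    norm_num at h5
  refine ⟨hv, ?_⟩
  by_contra hc
  have e : v₂⁻¹ * v₂ = 1 := inv_mul_cancel₀ hv.ne'
  have hi := inv_pos.2 hv
  have h3 := mean_lower h₁ (l := max (v₂⁻¹ - 4⁻¹) 0) (by
    rcases le_total (v₂⁻¹ - 4⁻¹) 0 with h | h
    · rw [max_eq_right h]; simp
    · rw [max_eq_left h]; nlinarith)
  have h4 := mean_upper h₂ (l := v₂⁻¹ + 4⁻¹) (by positivity) (by nlinarith) hC h2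
    (δ := ENNReal.ofReal 8⁻¹) (by simp) (by simp)
  have h5 : Tendsto (fun K : ℕ => C0 / K) atTop (𝓝 0) := by
    have := ENNReal.Tendsto.const_mul (a := C0) ENNReal.tendsto_inv_nat_nhds_zero (Or.inr hC0)
    simpa [div_eq_mul_inv] using this
  obtain ⟨K, ⟨⟨h6, h7⟩, h8⟩, hK⟩ := (((h3.and h4).and (h5.eventually
    (gt_mem_nhds (show (0 : ℝ≥0∞) < ENNReal.ofReal 8⁻¹ by simp)))).and
    (eventually_gt_atTop 0)).exists
  have h9 := ENNReal.div_le_div_right (hgap K hK) K
  rw [ENNReal.add_div, ENNReal.add_div, ENNReal.div_self (by simp [hK.ne']) (by simp)] at h9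
  have h10 := (add_le_add h6 le_rfl).trans (h9.trans (add_le_add h7 h8.le))
  rw [← ENNReal.ofReal_one, ← ENNReal.ofReal_add (le_max_right _ _) zero_le_one,
    ← ENNReal.ofReal_add (by positivity) (by positivity),
    ← ENNReal.ofReal_add (by positivity) (by positivity),
    ← ENNReal.ofReal_add (by positivity) (by positivity),
    ENNReal.ofReal_le_ofReal_iff (by positivity)] at h10
  have := le_max_left (v₂⁻¹ - 4⁻¹) 0
  linarith

/-- Number of sideways directions. -/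
def nS (d : ℕ) [NeZero d] : ℕ := (univ.filter fun e : Dir d => e.1 ≠ 0).card

lemma sum_cls (a b c : ℝ) : ∑ e : Dir d, cls a b c e = a + b + nS d * c := by
  rw [← Finset.sum_filter_not_add_sum_filter univ (fun e : Dir d => e.1 ≠ 0)]
  congr 1
  · rw [show univ.filter (fun e : Dir d => ¬ e.1 ≠ 0) = {up, dn} by
      ext ⟨j, b⟩; cases b <;> simp [up, dn], Finset.sum_pair up_ne_dn, cls_up, cls_dn]
  · rw [Finset.sum_congr rfl fun e he => cls_hz a b c (mem_filter.1 he).2]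
    simp [nS]

/-- The law with given weights for up, down and each sideways direction. -/
def mkLaw (a b c : ℝ) (ha : 0 < a) (hb : 0 < b) (hc : 0 < c) (h : a + b + nS d * c = 1) :
    Law d where
  p := cls a b c
  pos e := by unfold cls; split_ifs <;> assumption
  sum := by rw [sum_cls, h]

lemma exists_gap {j : Fin d} (hj : j ≠ 0) : ∃ (p q : Law d) (r ρ : ℝ), H0 p ∧ Hq q r ∧
    (∀ e : Dir d, e.1 ≠ 0 → p.p e = ρ) ∧ p.p dn < p.p up ∧
    ∃ C0 : ℝ≥0∞, C0 ≠ ⊤ ∧ ∀ K : ℕ, 0 < K → A1 p q K + K ≤ A2 p q K + C0 := by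
  have hD : (1 : ℝ) ≤ nS d := by
    have : 0 < nS d := Finset.card_pos.2 ⟨(j, true), by simpa using hj⟩
    exact_mod_cast this
  set D : ℝ := (nS d : ℝ) with hDdef
  set b : ℝ := (2 ^ 60)⁻¹ with hb
  set ρ : ℝ := (2 ^ 92)⁻¹ / D ^ 3 with hρ
  have hρ0 : 0 < ρ := by positivity
  have hg : D * ρ ≤ (2 ^ 92)⁻¹ := by
    rw [hρ, mul_div_assoc', div_le_iff₀ (by positivity)]
    have : D ≤ D ^ 3 := le_self_pow₀ hD (by norm_num)
    nlinarith [show (0 : ℝ) < (2 ^ 92)⁻¹ by positivity]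
  have hg0 : 0 < D * ρ := by positivity
  set a : ℝ := 1 - b - D * ρ with ha
  have ha2 : 2⁻¹ ≤ a := by
    have h1 : b + (2 ^ 92)⁻¹ ≤ 2⁻¹ := by rw [hb]; norm_num
    have h2 : b + D * ρ ≤ 2⁻¹ := (add_le_add le_rfl hg).trans h1
    rw [ha]
    linarith only [h2]
  set κ : ℝ := 196609 * 32 / (ρ ^ 2 * b) + 1 with hκ
  have hκ1 : 1 ≤ κ := le_add_of_nonneg_left (by positivity)
  set η : ℝ := (17 + D * (16 * κ))⁻¹ with hη
  have hη0 : 0 < η := by positivity
  let p : Law d := mkLaw a b ρ (by linarith) (by positivity) hρ0 (by rw [ha]; ring)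
  let q : Law d := mkLaw (16 * η) η (16 * η * κ) (by positivity) hη0 (by positivity)
    (by rw [hη]; field_simp; ring)
  have hgH : gH p = ENNReal.ofReal (D * ρ) := by
    rw [gH, Finset.sum_congr rfl (g := fun _ => ENNReal.ofReal ρ) fun e he => by
      simp only [p, mkLaw, cls_hz _ _ _ (mem_filter.1 he).2], ENNReal.ofReal_mul (by positivity)]
    simp [hDdef, nS]
  have hp : H0 p := ⟨by
      simp only [p, mkLaw, cls_dn, hb]
      rw [ENNReal.ofReal_inv_of_pos (by positivity)]; simp,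
    by
      rw [hgH, show (128⁻¹ : ℝ≥0∞) = ENNReal.ofReal 128⁻¹ by
        rw [ENNReal.ofReal_inv_of_pos (by positivity)]; simp]
      exact ENNReal.ofReal_le_ofReal (hg.trans (by norm_num))⟩
  have hq : Hq q (16 * η * κ) := ⟨⟨by simp [q, mkLaw], fun i hi => by
      simp only [q, mkLaw]
      rw [cls_hz _ _ _ (e := (i, true)) hi, cls_hz _ _ _ (e := (i, false)) hi]⟩,
    fun e he => cls_hz _ _ _ he, by
      simp only [q, mkLaw, cls_up]; nlinarith⟩
  have hkap : kap q (16 * η * κ) = ENNReal.ofReal κ := by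
    simp only [kap, q, mkLaw, cls_up]
    rw [mul_div_cancel_left₀ _ (by positivity)]
  have hpW : pW p j = ENNReal.ofReal (ρ * ρ * b * a ^ 3) := by
    simp only [pW, p, mkLaw, cls_up, cls_dn]
    rw [cls_hz _ _ _ (e := (j, true)) hj, cls_hz _ _ _ (e := (j, false)) hj]
  refine ⟨p, q, 16 * η * κ, ρ, hp, hq, fun e he => cls_hz _ _ _ he, ?_,
    ENNReal.ofReal (2 * 98304 + 16384 * κ + 2 * (16384 * κ * (16 * (D * ρ)) ^ 3)), by simp,
    fun K hK => ?_⟩
  · simp only [p, mkLaw, cls_up, cls_dn]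
    exact lt_of_lt_of_le (by rw [hb]; norm_num) ha2
  have h1 := annealed hp hq hj (t := (ENNReal.ofReal (16 * (D * ρ)))⁻¹)
    (ENNReal.one_le_inv.2 (ENNReal.ofReal_le_one.2 (by linarith [show (2 ^ 92 : ℝ)⁻¹ ≤ 16⁻¹ by norm_num])))
    (ENNReal.inv_ne_top.2 (by simpa using hg0)) (by
      rw [hgH, ← ENNReal.ofReal_inv_of_pos (by positivity), ← ENNReal.ofReal_mul hg0.le,
        show D * ρ * (16 * (D * ρ))⁻¹ = 16⁻¹ by field_simp,
        ENNReal.ofReal_inv_of_pos (by positivity)]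
      simp) hK
  rw [inv_inv, hkap, hpW] at h1
  set c : ℝ := 2 * 98304 + 2 * (16384 * κ * (16 * (D * ρ)) ^ 3) with hc
  have hc0 : 0 ≤ c := by positivity
  have key : 1 + c ≤ κ * (ρ * ρ * b * a ^ 3) * 2⁻¹ := by
    have h2 : (8 : ℝ)⁻¹ ≤ a ^ 3 := le_trans (by norm_num) (pow_le_pow_left₀ (by norm_num) ha2 3)
    have h3 : (D * ρ) ^ 3 = (2 ^ 92)⁻¹ * ρ ^ 2 := by
      rw [mul_pow, pow_succ ρ 2]; nth_rewrite 2 [hρ]; field_simp
    have h4 : 196609 * 32 ≤ κ * (ρ ^ 2 * b) := by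
      rw [hκ, add_mul, div_mul_cancel₀ _ (by positivity)]
      exact le_add_of_nonneg_right (by positivity)
    have h5 : κ * (ρ * ρ * b * 8⁻¹) * 2⁻¹ ≤ κ * (ρ * ρ * b * a ^ 3) * 2⁻¹ := by gcongr
    refine le_trans ?_ h5
    rw [hc, mul_pow 16, h3]
    rw [hb] at h4 ⊢
    nlinarith
  refine (ENNReal.add_le_add_iff_right (a := ENNReal.ofReal c * K) (by finiteness)).1 ?_
  calc A1 p q K + K + ENNReal.ofReal c * K = A1 p q K + ENNReal.ofReal (1 + c) * K := by
        rw [ENNReal.ofReal_add zero_le_one hc0, ENNReal.ofReal_one]; ring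
    _ ≤ A1 p q K + ENNReal.ofReal (κ * (ρ * ρ * b * a ^ 3) * 2⁻¹) * K := by gcongr
    _ = A1 p q K + ENNReal.ofReal κ * ENNReal.ofReal (ρ * ρ * b * a ^ 3) * 2⁻¹ * K := by
        rw [ENNReal.ofReal_mul (by positivity), ENNReal.ofReal_mul (by positivity),
          ENNReal.ofReal_inv_of_pos (by positivity)]
        simp
    _ ≤ _ := h1.trans (le_of_eq ?_)
  rw [hc]
  simp (disch := positivity) only [ENNReal.ofReal_add, ENNReal.ofReal_mul, ENNReal.ofReal_pow,
    ENNReal.ofReal_ofNat]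
  ring

end Pool.Agent.Lib.MP_24597f_pr
end

-- part Pool.Agent.Lib.MP_24597f_pr.Laws
section

/-!
The laws of the first three walks and the comparison of the speeds.
-/

open MeasureTheory Filter Topology Finset
open scoped ENNReal

namespace Pool.Agent.Lib.MP_24597f_pr

variable {d : ℕ} [NeZero d]

omit [NeZero d] in
lemma walk_lattice (u : ℕ → Ins d) : walk (latticeEdges d) 0 u = pth fun m => u m univ := by
  funext n
  induction n with
  | zero => simp
  | succ n ih =>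
    rw [walk_succ, steps_pth _ n, ← ih, stp, allowed_lattice]
    simp [pick, pick']

omit [NeZero d] in
lemma map_walk_lattice (p : Law d) :
    (iid (drv p)).map (walk (latticeEdges d) 0) = (iid (μ0 p)).map pth := by
  have h1 : (iid (drv p)).map (fun u m => u m univ) = iid (μ0 p) := by
    have h2 := Measure.infinitePi_map_pi (fun _ : ℕ => drv p) (f := fun _ (ξ : Ins d) => ξ univ)
      fun _ => measurable_pi_apply _
    rw [h2]
    congr 1
    funext _
    exact (measurePreserving_eval (lawS p) univ).map_eq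
  rw [← h1, Measure.map_map measurable_pth (by fun_prop)]
  congr 1
  funext u
  exact walk_lattice u

/-- Law of the walk on the trace of a random path of law `ν`. -/
noncomputable def nxt (q : Law d) (ν : Measure (ℕ → V d)) : Measure (ℕ → V d) :=
  (ν.prod (iid (drv q))).map fun z => walk (trace z.1) 0 z.2

omit [NeZero d] in
instance (q : Law d) (ν : Measure (ℕ → V d)) [IsProbabilityMeasure ν] :
    IsProbabilityMeasure (nxt q ν) :=
  Measure.isProbabilityMeasure_map (Measurable.aemeasurable (by fun_prop))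

omit [NeZero d] in
lemma lintegral_nxt (q : Law d) (ν : Measure (ℕ → V d)) [IsProbabilityMeasure ν]
    {F : (ℕ → V d) → ℝ≥0∞} (hF : Measurable F) :
    ∫⁻ y, F y ∂nxt q ν = ∫⁻ y, ∫⁻ u, F (walk (trace y) 0 u) ∂iid (drv q) ∂ν := by
  rw [nxt, lintegral_map hF (by fun_prop), lintegral_prod _ (Measurable.aemeasurable (by fun_prop))]

/-- Law of the first walk. -/
noncomputable def ν0 (p : Law d) : Measure (ℕ → V d) := (iid (μ0 p)).map pth

omit [NeZero d] in
instance (p : Law d) : IsProbabilityMeasure (ν0 p) :=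
  Measure.isProbabilityMeasure_map measurable_pth.aemeasurable

omit [NeZero d] in
lemma lintegral_nxt1 (p q : Law d) {F : (ℕ → V d) → ℝ≥0∞} (hF : Measurable F) :
    ∫⁻ y, F y ∂nxt q (ν0 p) = ∫⁻ s, ∫⁻ u, F (walk (trace (pth s)) 0 u) ∂iid (drv q) ∂iid (μ0 p) := by
  rw [lintegral_nxt q _ hF, ν0, lintegral_map
    (Measurable.lintegral_prod_right (f := fun y u => F (walk (trace y) 0 u)) (by fun_prop))
    measurable_pth]

omit [NeZero d] in
lemma lintegral_nxt2 (p q : Law d) {F : (ℕ → V d) → ℝ≥0∞} (hF : Measurable F) :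
    ∫⁻ y, F y ∂nxt q (nxt q (ν0 p)) = ∫⁻ s, ∫⁻ u, ∫⁻ u',
      F (walk (trace (walk (trace (pth s)) 0 u)) 0 u') ∂iid (drv q) ∂iid (drv q) ∂iid (μ0 p) := by
  rw [lintegral_nxt q _ hF, lintegral_nxt1 p q
    (Measurable.lintegral_prod_right (f := fun y u => F (walk (trace y) 0 u)) (by fun_prop))]

omit [NeZero d] in
lemma measurableSet_ne : MeasurableSet {y : ℕ → V d | (allowed (trace y) 0).Nonempty} :=
  (by fun_prop : Measurable fun y : ℕ → V d => allowed (trace y) 0)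
    (MeasurableSet.of_discrete (s := {S : Finset (Dir d) | S.Nonempty}))

lemma IsIteratedWalk.laws {Ω : Type} [MeasurableSpace Ω] {P : Measure Ω}
    [IsProbabilityMeasure P] {X : ℕ → ℕ → Ω → V d} {p q : Law d} {pp : ℕ → Dir d → ℝ}
    (h : IsIteratedWalk P pp X) (h0 : pp 0 = p.p) (h1 : pp 1 = q.p) (h2 : pp 2 = q.p) :
    P.map (fun ω n => X 1 n ω) = nxt q (ν0 p) ∧
      P.map (fun ω n => X 2 n ω) = nxt q (nxt q (ν0 p)) := by
  have e0 : P.map (fun ω n => X 0 n ω) = ν0 p := (h.law_zero p h0).trans (map_walk_lattice p)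
  have e1 : P.map (fun ω n => X 1 n ω) = nxt q (ν0 p) := by
    rw [h.law_succ 0 q h1, e0, nxt]
    rw [e0, ν0, ae_map_iff measurable_pth.aemeasurable measurableSet_ne]
    exact ae_of_all _ ne_pth
  refine ⟨e1, ?_⟩
  rw [h.law_succ 1 q h2, e1]
  · rfl
  rw [e1, nxt, ae_map_iff (Measurable.aemeasurable (by fun_prop)) measurableSet_ne]
  exact ae_of_all _ fun z => ne_walk _ _

omit [NeZero d] in
lemma measurableSet_speed (v : Fin d → ℝ) : MeasurableSet
    {y : ℕ → V d | Tendsto (fun n : ℕ => fun j : Fin d => (y n j : ℝ) / n) atTop (𝓝 v)} := by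
  refine measurableSet_tendsto _ fun n => measurable_pi_iff.2 fun j => ?_
  exact ((Measurable.of_discrete (f := fun x : V d => (x j : ℝ))).comp
    (measurable_pi_apply n)).div_const _

omit [NeZero d] in
lemma hasSpeed_iff {Ω : Type} [MeasurableSpace Ω] {P : Measure Ω} {Y : ℕ → Ω → V d}
    (hY : ∀ n, Measurable (Y n)) (v : Fin d → ℝ) : HasSpeed P Y v ↔
      ∀ᵐ y ∂P.map (fun ω n => Y n ω),
        Tendsto (fun n : ℕ => fun j : Fin d => (y n j : ℝ) / n) atTop (𝓝 v) := by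
  rw [ae_map_iff (measurable_pi_iff.2 hY).aemeasurable (measurableSet_speed v)]
  rfl

lemma speeds_of_gap {p q : Law d} {r : ℝ} (hp : H0 p) (hq : Hq q r) {C0 : ℝ≥0∞} (hC0 : C0 ≠ ⊤)
    (hgap : ∀ K : ℕ, 0 < K → A1 p q K + K ≤ A2 p q K + C0) {v₁ v₂ : ℝ}
    (h₁ : ∀ᵐ y ∂nxt q (ν0 p), Tendsto (fun n : ℕ => (lv (y n) : ℝ) / n) atTop (𝓝 v₁))
    (h₂ : ∀ᵐ y ∂nxt q (nxt q (ν0 p)), Tendsto (fun n : ℕ => (lv (y n) : ℝ) / n) atTop (𝓝 v₂)) :
    0 < v₂ ∧ v₂ < v₁ := by
  obtain ⟨C, hC, h2⟩ := A2_sq_le hp hq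
  refine speed_lt h₁ h₂ hC hC0 (fun K hK => ?_) fun K hK => ?_
  · rw [lintegral_nxt2 p q ((measurable_occ K).pow_const 2)]
    exact h2 K hK
  · rw [lintegral_nxt1 p q (measurable_occ K), lintegral_nxt2 p q (measurable_occ K)]
    exact hgap K hK

end Pool.Agent.Lib.MP_24597f_pr
end

-- part Pool.Agent.Lib.MP_24597f_pr.Layer
section

/-!
Splitting of walks on traces at a level crossed only once.
-/

open MeasureTheory Filter Topology Finset
open scoped ENNReal

namespace Pool.Agent.Lib.MP_24597f_pr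

variable {d : ℕ} [NeZero d]

/-- Time `n` is the first time at which the path reaches level `k`. -/
def Hit (x : ℕ → V d) (k : ℤ) (n : ℕ) : Prop := (∀ m < n, lv (x m) < k) ∧ k ≤ lv (x n)

lemma Cut.hit {x : ℕ → V d} {k : ℤ} {n : ℕ} (h : Cut x k n) : Hit x k n := ⟨h.1, h.2 n le_rfl⟩

/-- The path `x` crosses level `k` once, at time `n`, and then follows `x'` translated by `z`. -/
structure Spl (k : ℤ) (z : V d) (x : ℕ → V d) (n : ℕ) (x' : ℕ → V d) : Prop where
  pos : 1 ≤ k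
  nn : ∃ s, Steps x s
  zero : x 0 = 0
  zero' : x' 0 = 0
  cut : Cut x k n
  add : ∀ m, x (n + m) = x' m + z

namespace Spl

variable {k : ℤ} {z : V d} {x x' : ℕ → V d} {n : ℕ} (h : Spl k z x n x')
include h

lemma eq_z : x n = z := by simpa [h.zero'] using h.add 0

lemma last : ∃ m, n = m + 1 ∧ x m = z + vec dn ∧ lv z = k := by
  obtain ⟨s, hs⟩ := h.nn
  have h0 : n ≠ 0 := by
    rintro rfl
    have := h.cut.2 0 le_rfl
    have := h.pos
    rw [h.zero] at *
    simp at *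
    omega
  obtain ⟨m, rfl⟩ := Nat.exists_eq_succ_of_ne_zero h0
  obtain ⟨h1, h2⟩ := hs.cut_lv h.cut
  refine ⟨m, rfl, ?_, by rw [← h.eq_z]; exact h1⟩
  rw [← h.eq_z, hs m, h2, vec_dn]; abel

lemma lv_z : lv z = k := h.last.choose_spec.2.2

lemma nonneg (m : ℕ) : 0 ≤ lv (x' m) := by
  have := h.cut.2 (n + m) (by omega)
  rw [h.add, lv_add, h.lv_z] at this
  omega

lemma allowed_above (β : Bool) {a : V d} (ha : 0 ≤ lv a) :
    allowed (envB β x) (a + z) = allowed (envB true x') a := by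
  obtain ⟨m0, hm0, h1, h2⟩ := h.last
  have hk := h.pos
  ext e
  simp only [mem_allowed_envB, mem_allowed_trace, true_and]
  constructor
  · rintro (⟨m, h3⟩ | ⟨-, ⟨h3, -⟩ | ⟨h3, -⟩⟩)
    · by_cases hm : n ≤ m
      · obtain ⟨c, rfl⟩ := Nat.exists_eq_add_of_le hm
        rw [add_assoc n, h.add, h.add, add_right_comm a z] at h3
        exact Or.inl ⟨c, by simpa only [add_left_inj] using h3⟩
      · have h4 := h.cut.1 m (by omega)
        rcases h3 with ⟨h3, -⟩ | ⟨h3, h5⟩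
        · rw [h3, lv_add] at h4; omega
        · have h6 : m + 1 = n := by
            by_contra hc
            have := h.cut.1 (m + 1) (by omega)
            rw [h5, lv_add] at this; omega
          rw [h6, h.eq_z] at h5
          have h7 : a = 0 := by simpa using h5.symm
          subst h7
          rw [show m = m0 by omega, h1, zero_add] at h3
          exact Or.inr (Or.inl ⟨rfl, (vec_injective (add_left_cancel h3)).symm⟩)
    · have := congrArg lv h3; rw [lv_add, lv_zero] at this; omega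
    · have := congrArg lv h3; rw [lv_add, lv_dn] at this; omega
  · rintro (⟨m, h3⟩ | ⟨rfl, rfl⟩ | ⟨h3, -⟩)
    · refine Or.inl ⟨n + m, ?_⟩
      rw [add_assoc n, h.add, h.add, add_right_comm a z]
      simpa only [add_left_inj] using h3
    · exact Or.inl ⟨m0, Or.inr ⟨by rw [h1, zero_add], by rw [← hm0, h.eq_z, zero_add]⟩⟩
    · rw [h3, lv_dn] at ha; omega

lemma ne (β : Bool) : (allowed (envB β x) 0).Nonempty := by
  obtain ⟨s, hs⟩ := h.nn
  exact h.zero ▸ hs.allowed_envB_nonempty β 0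

lemma walk_hit (β : Bool) {u : ℕ → Ins d} {n1 : ℕ} (hy : Hit (walk (envB β x) 0 u) k n1) :
    walk (envB β x) 0 u n1 = z := by
  have hk := h.pos
  obtain ⟨m, rfl⟩ : ∃ m, n1 = m + 1 := Nat.exists_eq_succ_of_ne_zero (by
    rintro rfl
    have := hy.2
    simp at this
    omega)
  have h1 := hy.1 m (by omega)
  have h2 := hy.2
  rw [walk_succ, lv_add] at h2
  have h3 := stp_mem (h.ne β) u m
  have h4 : stp (envB β x) 0 u m = up := by
    rcases lv_vec_cases (stp (envB β x) 0 u m) with h5 | h5 | h5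
    · exact h5.1
    · omega
    · omega
  rw [h4] at h2 h3
  rw [lv_up] at h2
  rw [walk_succ, h4, ← h.eq_z]
  rcases mem_allowed_envB.1 h3 with h5 | ⟨-, ⟨-, h5⟩ | ⟨h5, -⟩⟩
  · exact h.cut.cross (by omega) h5
  · exact absurd h5 up_ne_dn
  · rw [h5, lv_dn] at h2; omega

lemma walk_of_cut (β : Bool) {u : ℕ → Ins d} {n1 : ℕ} (hy : Cut (walk (envB β x) 0 u) k n1) :
    Spl k z (walk (envB β x) 0 u) n1 (walk (envB true x') 0 (sh n1 u)) where
  pos := h.pos
  nn := ⟨_, steps_walk _ _ _⟩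
  zero := rfl
  zero' := rfl
  cut := hy
  add m := by
    have e := h.walk_hit β hy.hit
    have := walk_translate (E := envB β x) (E' := envB true x') (a := z) (z := -z) (u := sh n1 u)
      (fun i => by
        have h1 := hy.2 (n1 + i) (by omega)
        rw [walk_add, e] at h1
        rw [← h.allowed_above β (by rw [lv_add, lv_neg, h.lv_z]; omega)]
        simp) m
    rw [add_neg_cancel] at this
    rw [this, walk_add, e]
    simp

end Spl

lemma allowed_below {x y : ℕ → V d} {k : ℤ} {n : ℕ} (hx : Cut x k n) (hy : Cut y k n)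
    (hxy : ∀ m ≤ n, y m = x m) (β : Bool) {a : V d} (ha : lv a < k) :
    allowed (envB β y) a = allowed (envB β x) a := by
  have key : ∀ {x y : ℕ → V d}, Cut x k n → (∀ m ≤ n, y m = x m) → ∀ e,
      e ∈ allowed (trace x) a → e ∈ allowed (trace y) a := by
    intro x y hx hxy e he
    obtain ⟨m, hm⟩ := mem_allowed_trace.1 he
    have : m < n := by
      by_contra hc
      have h1 := hx.2 m (by omega)
      have h2 := hx.2 (m + 1) (by omega)
      rcases hm with ⟨h3, -⟩ | ⟨-, h3⟩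
      · rw [h3] at h1; omega
      · rw [h3] at h2; omega
    exact mem_allowed_trace.2 ⟨m, by rwa [hxy m (by omega), hxy (m + 1) (by omega)]⟩
  ext e
  simp only [mem_allowed_envB]
  exact or_congr ⟨key hy (fun m hm => (hxy m hm).symm) e, key hx hxy e⟩ Iff.rfl

lemma Spl.walk_glue {k : ℤ} {z : V d} {x y y' : ℕ → V d} {n : ℕ} (h : Spl k z y n y')
    (hx : Cut x k n) (hxy : ∀ m ≤ n, y m = x m) (β : Bool) {u u' : ℕ → Ins d} {n1 : ℕ}
    (hu : Hit (walk (envB β x) 0 u) k n1) (hu' : ∀ m, 0 ≤ lv (walk (envB true y') 0 u' m)) :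
    Spl k z (walk (envB β y) 0 (glue n1 u u')) n1 (walk (envB true y') 0 u') ∧
      ∀ m ≤ n1, walk (envB β y) 0 (glue n1 u u') m = walk (envB β x) 0 u m := by
  have h1 : ∀ m ≤ n1, walk (envB β y) 0 (glue n1 u u') m = walk (envB β x) 0 u m :=
    walk_congr (fun m hm => allowed_below hx h.cut hxy β (hu.1 m hm)) fun m hm => glue_lt _ _ hm
  have h2 : walk (envB β y) 0 (glue n1 u u') n1 = z :=
    h.walk_hit β ⟨fun m hm => by rw [h1 m hm.le]; exact hu.1 m hm, by rw [h1 _ le_rfl]; exact hu.2⟩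
  have h3 : ∀ m, walk (envB β y) 0 (glue n1 u u') (n1 + m) = walk (envB true y') 0 u' m + z := by
    intro m
    rw [walk_add, h2, sh_glue, ← walk_translate (fun i => h.allowed_above β (hu' i)) m, zero_add]
  refine ⟨⟨h.pos, ⟨_, steps_walk _ _ _⟩, rfl, rfl, ⟨fun m hm => ?_, fun m hm => ?_⟩, h3⟩, h1⟩
  · rw [h1 m hm.le]; exact hu.1 m hm
  · obtain ⟨c, rfl⟩ := Nat.exists_eq_add_of_le hm
    have := hu' c
    rw [h3, lv_add, h.lv_z]; omega

lemma spl_pth {s : ℕ → Dir d} {k : ℤ} (hk : 1 ≤ k) {n : ℕ} (h : Cut (pth s) k n) :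
    Spl k (pth s n) (pth s) n (pth (sh n s)) :=
  ⟨hk, ⟨s, steps_pth s⟩, pth_zero _, pth_zero _, h, fun m => by rw [pth_add, add_comm]⟩

lemma spl_pth_glue {s s' : ℕ → Dir d} {k : ℤ} (hk : 1 ≤ k) {n : ℕ} (h : Hit (pth s) k n)
    (h' : ∀ m, 0 ≤ lv (pth s' m)) :
    Spl k (pth s n) (pth (glue n s s')) n (pth s') ∧ ∀ m ≤ n, pth (glue n s s') m = pth s m := by
  have h1 : ∀ m ≤ n, pth (glue n s s') m = pth s m := fun m hm => (dep_pth hm).glue s s'
  have h2 : Cut (pth (glue n s s')) k n := by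
    refine ⟨fun m hm => by rw [h1 m hm.le]; exact h.1 m hm, fun m hm => ?_⟩
    obtain ⟨c, rfl⟩ := Nat.exists_eq_add_of_le hm
    have := h' c
    have := h.2
    rw [pth_add, h1 n le_rfl, sh_glue, lv_add]; omega
  have := spl_pth hk h2
  rw [sh_glue, h1 n le_rfl] at this
  exact ⟨this, h1⟩

lemma Cut.transfer {x y : ℕ → V d} {k j : ℤ} {n n' : ℕ} (hx : Cut x k n) (hy : Cut y k n)
    (hxy : ∀ m ≤ n, y m = x m) (hj : j ≤ k) (h : Cut x j n') : Cut y j n' := by
  have h1 : n' ≤ n := by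
    by_contra hc
    have := h.1 n (by omega); have := hx.2 n le_rfl; omega
  refine ⟨fun m hm => by rw [hxy m (by omega)]; exact h.1 m hm, fun m hm => ?_⟩
  by_cases h2 : m ≤ n
  · rw [hxy m h2]; exact h.2 m hm
  · have := hy.2 m (by omega); omega

lemma Spl.cut_add {k j : ℤ} {z : V d} {x x' : ℕ → V d} {n n' : ℕ} (h : Spl k z x n x')
    (hj : 0 ≤ j) (h' : Cut x' j n') : Cut x (k + j) (n + n') := by
  refine ⟨fun m hm => ?_, fun m hm => ?_⟩
  · by_cases h1 : m < n
    · have := h.cut.1 m h1; omega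
    · obtain ⟨c, rfl⟩ := Nat.exists_eq_add_of_le (not_lt.1 h1)
      have := h'.1 c (by omega)
      rw [h.add, lv_add, h.lv_z]; omega
  · obtain ⟨c, rfl⟩ := Nat.exists_eq_add_of_le (le_trans (Nat.le_add_right n n') hm)
    have := h'.2 c (by omega)
    rw [h.add, lv_add, h.lv_z]; omega

lemma Spl.cut_sub {k j : ℤ} {z : V d} {x x' : ℕ → V d} {n n' : ℕ} (h : Spl k z x n x')
    (h' : Cut x (k + j) n') : Cut x' j (n' - n) := by
  refine ⟨fun m hm => ?_, fun m hm => ?_⟩
  · have := h'.1 (n + m) (by omega)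
    rw [h.add, lv_add, h.lv_z] at this; omega
  · have := h'.2 (n + m) (by omega)
    rw [h.add, lv_add, h.lv_z] at this; omega

lemma Spl.le {k : ℤ} {z : V d} {x x' : ℕ → V d} {n : ℕ} (h : Spl k z x n x') : k ≤ n := by
  obtain ⟨s, hs⟩ := h.nn
  have := hs.le_time n
  rw [h.zero, h.eq_z, h.lv_z] at this
  simpa using this

/-- The straight path. -/
def ray (d : ℕ) [NeZero d] : ℕ → V d := pth fun _ => up

lemma lv_ray (m : ℕ) : lv (ray d m) = m := by
  induction m with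
  | zero => simp [ray]
  | succ m ih => rw [ray, steps_pth _ m, lv_add, ← ray, ih, lv_up]; simp

lemma walk_ray : walk (envB true (ray d)) 0 (fun _ _ => up) = ray d := by
  funext m
  induction m with
  | zero => simp [ray]
  | succ m ih =>
    have : up ∈ allowed (envB true (ray d)) (ray d m) :=
      mem_allowed_envB.2 (Or.inl ((steps_pth fun _ => up).mem_allowed m))
    rw [walk_succ, stp, ih, pick, pick', if_pos this]
    exact (steps_pth (fun _ => up) m).symm

lemma Spl.nice {k : ℤ} {z : V d} {x : ℕ → V d} {n : ℕ} (h : Spl k z x n (ray d)) (β : Bool) :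
    Nice (envB β x) := by
  obtain ⟨s, hs⟩ := h.nn
  have hk := h.pos
  refine nice_envB hs h.zero β (fun J => ⟨n + J.toNat, ?_⟩) (finite_below_envB β fun J => ?_)
  · rw [h.add, lv_add, lv_ray, h.lv_z]; omega
  · refine (Set.finite_lt_nat (n + J.toNat)).subset fun m hm => ?_
    by_contra hc
    simp only [Set.mem_ofPred_eq, not_lt] at hc hm
    obtain ⟨c, rfl⟩ := Nat.exists_eq_add_of_le (le_trans (Nat.le_add_right n _) hc)
    rw [h.add, lv_add, lv_ray, h.lv_z] at hm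
    omega

lemma exists_hit {x : ℕ → V d} {k : ℤ} (h : ∃ n, k ≤ lv (x n)) : ∃ n, Hit x k n := by
  classical
  exact ⟨Nat.find h, fun m hm => not_le.1 (Nat.find_min h hm), Nat.find_spec h⟩

lemma Spl.ae_next {q : Law d} (hq : Rev q) {k : ℤ} {z : V d} {x : ℕ → V d} {n : ℕ}
    (h : Spl k z x n (ray d)) (β : Bool) : ∀ᵐ u ∂iid (drv q), ∃ n1,
      Spl k z (walk (envB β x) 0 (glue n1 u fun _ _ => up)) n1 (ray d) := by
  filter_upwards [(h.nice β).ae_hit hq (h.ne β)] with u hu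
  obtain ⟨n1, h1⟩ := exists_hit (hu k)
  have := (h.walk_glue h.cut (fun _ _ => rfl) β h1 (u' := fun _ _ => up)
    (fun m => by rw [walk_ray, lv_ray]; omega)).1
  rw [walk_ray] at this
  exact ⟨n1, this⟩

end Pool.Agent.Lib.MP_24597f_pr
end
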