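import Pool.Agent.Lib.MP_24597f_pr.Block

-- part Pool.Agent.Lib.MP_24597f_pr.Bounds
section

/-!
Upper bounds for voltages in subgraphs of the trace of the first walk.
-/

open MeasureTheory Filter Topology Finset
open scoped ENNReal

namespace Pool.Agent.Lib.MP_24597f_pr

variable {d : ℕ} [NeZero d]

/-- Hypotheses on the law of the later walks. -/
structure Hq (q : Law d) (r : ℝ) : Prop where
  rev : Rev q
  hz : ∀ e : Dir d, e.1 ≠ 0 → q.p e = r
  ur : q.p up ≤ r

/-- Ratio of sideways to upward weights. -/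
noncomputable def kap (q : Law d) (r : ℝ) : ℝ≥0∞ := ENNReal.ofReal (r / q.p up)

lemma Hq.one_le_kap {q : Law d} {r : ℝ} (h : Hq q r) : 1 ≤ kap q r :=
  ENNReal.one_le_ofReal.2 ((one_le_div (q.pos up)).2 h.ur)

lemma Hq.kap_ne_zero {q : Law d} {r : ℝ} (h : Hq q r) : kap q r ≠ 0 :=
  (zero_lt_one.trans_le h.one_le_kap).ne'

lemma kap_ne_top (q : Law d) (r : ℝ) : kap q r ≠ ⊤ := ENNReal.ofReal_ne_top

/-- Powers of sixteen. -/
noncomputable def p16 (z : ℤ) : ℝ≥0∞ := ENNReal.ofReal ((16 : ℝ) ^ z)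

omit [NeZero d] in
lemma p16_add (a b : ℤ) : p16 (a + b) = p16 a * p16 b := by
  rw [p16, zpow_add₀ (by norm_num), ENNReal.ofReal_mul (zpow_pos (by norm_num) _).le]; rfl

@[simp] lemma p16_zero : p16 0 = 1 := by simp [p16]

lemma p16_nat (n : ℕ) : p16 n = 16 ^ n := by
  rw [p16, zpow_natCast, ENNReal.ofReal_pow (by norm_num)]; simp

lemma p16_one : p16 1 = 16 := by simpa using p16_nat 1

lemma p16_neg_mul (a : ℤ) : p16 (-a) * p16 a = 1 := by rw [← p16_add]; simp

lemma p16_neg_one : p16 (-1) = 16⁻¹ := by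
  rw [p16, zpow_neg, zpow_one, ENNReal.ofReal_inv_of_pos (by norm_num)]; simp

lemma p16_mono {a b : ℤ} (h : a ≤ b) : p16 a ≤ p16 b :=
  ENNReal.ofReal_le_ofReal (zpow_le_zpow_right₀ (by norm_num) h)

lemma p16_ne_top (a : ℤ) : p16 a ≠ ⊤ := ENNReal.ofReal_ne_top

lemma p16_ne_zero (a : ℤ) : p16 a ≠ 0 := (ENNReal.ofReal_pos.2 (zpow_pos (by norm_num) _)).ne'

lemma cE_eq (q : Law d) (x : V d) (e : Dir d) :
    cE q x e = p16 (lv x) * ENNReal.ofReal (q.p e) := by
  rw [cE, cond, ENNReal.ofReal_mul (zpow_pos (by norm_num) _).le]; rfl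

lemma Hq.p_eq {q : Law d} {r : ℝ} (h : Hq q r) (e : Dir d) :
    ENNReal.ofReal (q.p e) = ENNReal.ofReal (q.p up) * cls 1 16⁻¹ (kap q r) e := by
  rcases dir_cases e with rfl | rfl | he
  · simp
  · rw [cls_dn, h.rev.ud, ENNReal.ofReal_mul (by norm_num), mul_comm, ← mul_assoc]
    simp [ENNReal.inv_mul_cancel]
  · rw [cls_hz _ _ _ he, kap, ← ENNReal.ofReal_mul (q.pos up).le, mul_div_cancel₀ _ (q.pos up).ne',
      h.hz e he]

lemma Hq.cE_cls {q : Law d} {r : ℝ} (h : Hq q r) (x y : V d) (e : Dir d) :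
    cE q y e = cE q x up * (p16 (lv y - lv x) * cls 1 16⁻¹ (kap q r) e) := by
  rw [cE_eq, cE_eq, h.p_eq e, show lv y = lv x + (lv y - lv x) by ring, p16_add]
  simp only [add_sub_cancel_left]
  ring

/-- Discount factor per step. -/
noncomputable def wY : Dir d → ℝ≥0∞ := cls 16⁻¹ 16 1

/-- Resistance factor of a step. -/
noncomputable def fY : Dir d → ℝ≥0∞ := cls 1 16 1

/-- Normalised total resistance of all the edges used by the path. -/
noncomputable def Yf : (ℕ → Dir d) → ℝ≥0∞ := geo wY fun s => fY (s 0)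

lemma measurable_Yf : Measurable (Yf : (ℕ → Dir d) → ℝ≥0∞) :=
  measurable_geo Measurable.of_discrete
    ((Measurable.of_discrete (f := fY)).comp (measurable_pi_apply 0))

lemma prod_wY (s : ℕ → Dir d) (m : ℕ) : ∏ i ∈ range m, wY (s i) = p16 (-ht s m) := by
  induction m with
  | zero => simp
  | succ m ih =>
    rw [prod_range_succ, ih, ht_succ, neg_add, p16_add]
    congr 1
    rcases lv_vec_cases (s m) with h | h | h
    · rw [h.2, h.1, wY, cls_up, p16_neg_one]
    · rw [h.2, h.1, wY, cls_dn, neg_neg, p16_one]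
    · rw [h.2, wY, cls_hz _ _ _ h.1, neg_zero, p16_zero]

omit [NeZero d] in
lemma geo_eq {α : Type} (w : α → ℝ≥0∞) (F : (ℕ → α) → ℝ≥0∞) (u : ℕ → α) :
    geo w F u = F u + w (u 0) * geo w F (sh 1 u) := by
  unfold geo
  rw [tsum_eq_zero_add' ENNReal.summable, ← ENNReal.tsum_mul_left]
  simp only [range_zero, prod_empty, one_mul, sh_zero]
  congr 1
  refine tsum_congr fun T => ?_
  rw [prod_range_succ', sh_sh, add_comm 1 T]
  simp only [sh_apply, add_comm 1]
  ring

lemma one_le_fY (e : Dir d) : 1 ≤ fY e := by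
  unfold fY cls; split_ifs <;> norm_num

lemma one_le_Yf (s : ℕ → Dir d) : 1 ≤ Yf s := by
  rw [Yf, geo_eq]; exact (one_le_fY _).trans le_self_add

lemma Yf_le_shift (s : ℕ → Dir d) (T : ℕ) : Yf s ≤ 2 ^ T * 16 ^ nD s T * Yf (sh T s) := by
  induction T with
  | zero => simp [nD]
  | succ T ih =>
    refine ih.trans ?_
    have h1 : Yf (sh T s) ≤ 2 * 16 ^ (cls 0 1 0 (s T) : ℕ) * Yf (sh (T + 1) s) := by
      have h2 : Yf (sh T s) = fY (s T) + wY (s T) * Yf (sh (T + 1) s) := by
        rw [Yf, geo_eq, sh_sh]; rfl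
      have h3 : fY (s T) ≤ 16 ^ (cls 0 1 0 (s T) : ℕ) := by
        unfold fY cls; split_ifs <;> norm_num
      have h4 : wY (s T) ≤ 16 ^ (cls 0 1 0 (s T) : ℕ) := by
        unfold wY cls; split_ifs <;> norm_num
      rw [h2, mul_assoc, two_mul]
      exact add_le_add (h3.trans (le_mul_of_one_le_right' (one_le_Yf _))) (by gcongr)
    calc 2 ^ T * 16 ^ nD s T * Yf (sh T s)
        ≤ 2 ^ T * 16 ^ nD s T * (2 * 16 ^ (cls 0 1 0 (s T) : ℕ) * Yf (sh (T + 1) s)) := by gcongr
      _ = _ := by simp only [nD, sum_range_succ, pow_add]; ring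

lemma Hq.inv_cE_le {q : Law d} {r : ℝ} (h : Hq q r) (s : ℕ → Dir d) (α m : ℕ) :
    cE q (pth s α) up * (cE q (pth s (α + m)) (s (α + m)))⁻¹ ≤
      (∏ i ∈ range m, wY (sh α s i)) * fY (sh m (sh α s) 0) := by
  have e1 : lv (pth s (α + m)) - lv (pth s α) = ht (sh α s) m := by
    have := ht_add s α m; simp only [ht] at this ⊢; omega
  rw [prod_wY, h.cE_cls (pth s α) (pth s (α + m)), e1, ← div_eq_mul_inv]
  simp only [sh_apply, add_zero]
  refine ENNReal.div_le_of_le_mul ?_
  have : 1 ≤ fY (s (α + m)) * cls 1 16⁻¹ (kap q r) (s (α + m)) := by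
    unfold fY cls
    split_ifs
    · simp
    · rw [ENNReal.mul_inv_cancel] <;> norm_num
    · simpa using h.one_le_kap
  calc cE q (pth s α) up = (p16 (-ht (sh α s) m) * p16 (ht (sh α s) m)) * cE q (pth s α) up * 1 := by
        rw [p16_neg_mul]; simp
    _ ≤ (p16 (-ht (sh α s) m) * p16 (ht (sh α s) m)) * cE q (pth s α) up *
          (fY (s (α + m)) * cls 1 16⁻¹ (kap q r) (s (α + m))) := by gcongr
    _ = _ := by ring

/-- The basic voltage bound above a cut. -/
lemma Hq.vI_le_Y {q : Law d} {r : ℝ} (h : Hq q r) {E' : Set (Sym2 (V d))} (hN : Nice E') {o : V d}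
    (ho : (allowed E' o).Nonempty) {β : Bool} {s : ℕ → Dir d} (hsub : E' ⊆ envB β (pth s))
    {α : ℕ} {h0 : ℤ} (hcut : Cut (pth s) h0 α) (hβ : β = true → h0 = 0 ∧ α = 0) {x : V d}
    (hx : (allowed E' x).Nonempty) (hx0 : h0 ≤ lv x) :
    cE q (pth s α) up * vI q E' o x ≤ Yf (sh α s) := by
  have h1 := hN.vI_le_cut h.rev ho h0 (pth s α) (fun w hw hup => ?_) hx hx0
    (R := ∑' m, (cE q (pth s (α + m)) (s (α + m)))⁻¹) fun F hF => ?_
  · refine (mul_le_mul' le_rfl h1).trans ?_
    rw [← ENNReal.tsum_mul_left]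
    exact ENNReal.tsum_le_tsum fun m => h.inv_cE_le s α m
  · rcases mem_allowed_envB.1 (allowed_mono hsub _ hup) with h2 | ⟨h2, ⟨-, h3⟩ | ⟨h3, -⟩⟩
    · exact hcut.cross hw h2
    · exact absurd h3 up_ne_dn
    · rw [h3, (hβ h2).2, vec_dn]; simp
  · refine sum_le_tsum_time (fun m => pth s (α + m)) F _ _ fun a ha => ?_
    obtain ⟨h2, h3⟩ := hF a ha
    rcases mem_allowed_envB.1 (allowed_mono hsub _ h2) with h4 | ⟨h4, ⟨-, h5⟩ | ⟨h5, -⟩⟩
    · obtain ⟨m, hm⟩ := mem_allowed.1 h4
      have h5 : α ≤ m := by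
        by_contra hc
        have h6 := hcut.1 m (by omega)
        have := lv_true_nonneg (d := d) a.2
        rcases Sym2.eq_iff.1 hm with ⟨h7, -⟩ | ⟨-, h7⟩
        · rw [← h7] at h6; omega
        · rw [← h7, lv_add] at h6; omega
      refine ⟨m - α, ?_, ?_⟩
      · simp only [← add_assoc, Nat.add_sub_cancel' h5]; exact hm
      · rw [Nat.add_sub_cancel' h5, edge_cE h.rev (steps_pth s) hm]
    · simp [dn] at h5
    · rw [h5, (hβ h4).1, lv_dn] at h3; omega

lemma Blk.exists_cut {s : ℕ → Dir d} {α T : ℕ} (h : Blk s α T)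
    (hfin : ∀ J : ℤ, {n | ht s n < J}.Finite) : ∃ h0, Cut (pth s) h0 α := by
  rcases h.left with h0 | h0
  · obtain ⟨b, hb⟩ := ((hfin 0).image (ht s)).bddBelow
    refine ⟨min b 0, fun m hm => by omega, fun m _ => ?_⟩
    by_cases h1 : ht s m < 0
    · exact (min_le_left _ _).trans (hb ⟨m, h1, rfl⟩)
    · exact (min_le_right _ _).trans (not_lt.1 h1)
  · exact ⟨_, h0.2⟩

/-- Size factor of a block. -/
noncomputable def Mb (s : ℕ → Dir d) (α T : ℕ) : ℝ≥0∞ := 16 ^ nU (sh α s) T * Yf (sh α s)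

lemma one_le_Mb (s : ℕ → Dir d) (α T : ℕ) : 1 ≤ Mb s α T :=
  one_le_mul (one_le_pow₀ (by norm_num)) (one_le_Yf _)

/-- Time spent on an edge of a block. -/
lemma Hq.edge_le_Mb {q : Law d} {r : ℝ} (h : Hq q r) {E' : Set (Sym2 (V d))} (hN : Nice E')
    {o : V d} (ho : (allowed E' o).Nonempty) {s : ℕ → Dir d} (hsub : E' ⊆ trace (pth s))
    (hfin : ∀ J : ℤ, {n | ht s n < J}.Finite) {α T n : ℕ} (hb : Blk s α T) (h1 : α ≤ n)
    (h2 : n < α + T) {a : V d × Fin d} (ha : (a.2, true) ∈ allowed E' a.1)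
    (he : s(a.1, a.1 + vec (a.2, true)) = s(pth s n, pth s (n + 1))) :
    cE q a.1 (a.2, true) * (vI q E' o a.1 + vI q E' o (a.1 + vec (a.2, true))) ≤
      2 * (if a.2 = 0 then 1 else kap q r) * Mb s α T := by
  obtain ⟨h0, hcut⟩ := hb.exists_cut hfin
  have hl : h0 ≤ lv a.1 := by
    rcases edge_cases (steps_pth s) he with h3 | h3 <;> rw [h3.1] <;> exact hcut.2 _ (by omega)
  have hs : E' ⊆ envB false (pth s) := by rwa [envB_false]
  have v1 := h.vI_le_Y hN ho hs hcut (by simp) ⟨_, ha⟩ hl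
  have v2 := h.vI_le_Y hN ho hs hcut (by simp) ⟨_, opp_mem_allowed.2 ha⟩
    (by have := lv_true_nonneg (d := d) a.2; rw [lv_add]; omega)
  have e1 : lv (pth s n) - lv (pth s α) ≤ nU (sh α s) T := by
    have := ht_add s α (n - α)
    rw [Nat.add_sub_cancel' h1, ht_eq (sh α s)] at this
    have := nU_mono (sh α s) (show n - α ≤ T by omega)
    simp only [ht] at *
    omega
  have e2 : cls 1 16⁻¹ (kap q r) (s n) ≤ (if a.2 = 0 then 1 else kap q r) := by
    have : (s n).1 = a.2 := by rcases edge_cases (steps_pth s) he with h3 | h3 <;> rw [h3.2]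
    rcases dir_cases (s n) with h3 | h3 | h3
    · rw [if_pos (by rw [← this, h3]; rfl), h3, cls_up]
    · rw [if_pos (by rw [← this, h3]; rfl), h3, cls_dn]; norm_num
    · rw [if_neg (by rwa [← this]), cls_hz _ _ _ h3]
  rw [edge_cE h.rev (steps_pth s) he, h.cE_cls (pth s α) (pth s n)]
  have e3 : p16 (lv (pth s n) - lv (pth s α)) ≤ 16 ^ nU (sh α s) T := by
    rw [← p16_nat]; exact p16_mono e1
  calc cE q (pth s α) up * (p16 (lv (pth s n) - lv (pth s α)) * cls 1 16⁻¹ (kap q r) (s n)) *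
        (vI q E' o a.1 + vI q E' o (a.1 + vec (a.2, true)))
      = (p16 (lv (pth s n) - lv (pth s α)) * cls 1 16⁻¹ (kap q r) (s n)) *
        (cE q (pth s α) up * vI q E' o a.1 +
          cE q (pth s α) up * vI q E' o (a.1 + vec (a.2, true))) := by ring
    _ ≤ (16 ^ nU (sh α s) T * (if a.2 = 0 then 1 else kap q r)) * (Yf (sh α s) + Yf (sh α s)) := by
        gcongr
    _ = _ := by rw [Mb]; ring

/-- Weights dominating the size of a block. -/
noncomputable def wZ (t : ℝ≥0∞) : Dir d → ℝ≥0∞ := cls 16⁻¹ (2 ^ 26) (4 * t)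

/-- The block functional. -/
noncomputable def Zf (t : ℝ≥0∞) : (ℕ → Dir d) → ℝ≥0∞ := geo (wZ t) Yf

lemma measurable_Zf (t : ℝ≥0∞) : Measurable (Zf t : (ℕ → Dir d) → ℝ≥0∞) :=
  measurable_geo Measurable.of_discrete measurable_Yf

lemma Blk.T_mul_Mb {s : ℕ → Dir d} {α T : ℕ} (h : Blk s α T) :
    T * Mb s α T ≤ 1024 * ((∏ m ∈ range T, wZ 1 (sh α s m)) * Yf (sh T (sh α s))) := by
  have hc := h.count
  have hs := count_sum (sh α s) T
  rw [wZ, prod_cls, Mb]
  set a := nU (sh α s) T
  set b := nD (sh α s) T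
  set c := nH (sh α s) T
  have hT : (T : ℝ≥0∞) ≤ 2 ^ T := by exact_mod_cast Nat.lt_two_pow_self.le
  have h16 : (16⁻¹ : ℝ≥0∞) ^ a * 16 ^ a = 1 := by
    rw [← mul_pow, ENNReal.inv_mul_cancel (by norm_num) (by norm_num), one_pow]
  have key : (2 : ℝ≥0∞) ^ T * 16 ^ a * (2 ^ T * 16 ^ b) * 16 ^ a ≤ 1024 * ((2 ^ 26) ^ b * 4 ^ c) := by
    rw [show (16 : ℝ≥0∞) = 2 ^ 4 by norm_num, show (1024 : ℝ≥0∞) = 2 ^ 10 by norm_num,
      show (4 : ℝ≥0∞) = 2 ^ 2 by norm_num]
    simp only [← pow_mul, ← pow_add]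
    exact pow_le_pow_right₀ one_le_two (by omega)
  calc (T : ℝ≥0∞) * (16 ^ a * Yf (sh α s))
      ≤ 2 ^ T * (16 ^ a * (2 ^ T * 16 ^ b * Yf (sh T (sh α s)))) := by
        gcongr; exact Yf_le_shift _ _
    _ = (16⁻¹ ^ a * 16 ^ a) * (2 ^ T * (16 ^ a * (2 ^ T * 16 ^ b * Yf (sh T (sh α s))))) := by
        rw [h16, one_mul]
    _ = 16⁻¹ ^ a * (2 ^ T * 16 ^ a * (2 ^ T * 16 ^ b) * 16 ^ a) * Yf (sh T (sh α s)) := by ring
    _ ≤ 16⁻¹ ^ a * (1024 * ((2 ^ 26) ^ b * 4 ^ c)) * Yf (sh T (sh α s)) := by gcongr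
    _ = _ := by ring

lemma prod_wZ_le {t : ℝ≥0∞} (ht1 : 1 ≤ t) (ht : t ≠ ⊤) (s : ℕ → Dir d) {T : ℕ} (h : 3 ≤ nH s T) :
    ∏ m ∈ range T, wZ 1 (s m) ≤ t⁻¹ ^ 3 * ∏ m ∈ range T, wZ t (s m) := by
  rw [wZ, wZ, prod_cls, prod_cls, mul_one, mul_pow 4 t]
  have h1 : 1 ≤ t⁻¹ ^ 3 * t ^ nH s T := by
    calc (1 : ℝ≥0∞) = t⁻¹ ^ 3 * t ^ 3 := by
          rw [← mul_pow, ENNReal.inv_mul_cancel (zero_lt_one.trans_le ht1).ne' ht, one_pow]
      _ ≤ _ := by gcongr
  calc _ = 16⁻¹ ^ nU s T * (2 ^ 26) ^ nD s T * 4 ^ nH s T * (1 : ℝ≥0∞) := (mul_one _).symm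
    _ ≤ 16⁻¹ ^ nU s T * (2 ^ 26) ^ nD s T * 4 ^ nH s T * (t⁻¹ ^ 3 * t ^ nH s T) := by gcongr
    _ = _ := by ring

/-- Sum of a functional over the times spent below level `K`. -/
noncomputable def occS (K : ℤ) (F : (ℕ → Dir d) → ℝ≥0∞) (s : ℕ → Dir d) : ℝ≥0∞ :=
  ∑' α, if ht s α < K then F (sh α s) else 0

lemma measurable_occS (K : ℤ) {F : (ℕ → Dir d) → ℝ≥0∞} (hF : Measurable F) :
    Measurable (occS K F) :=
  Measurable.tsum fun α => Measurable.ite (measurableSet_lt (by fun_prop) measurable_const)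
    (hF.comp (measurable_sh α)) measurable_const

/-- Summation over edges below `K`, organised by blocks. -/
lemma sum_blocks {s : ℕ → Dir d} (hc : ∀ N, ∃ β, N < β ∧ IsCut s β) {K : ℤ} (hK : 0 < K)
    (F : Finset (V d × Fin d)) (hF : ∀ a ∈ F, a ∈ below (trace (pth s)) K)
    (φ : V d × Fin d → ℝ≥0∞) (bd bd' : ℕ → ℕ → ℝ≥0∞)
    (h1 : ∀ a ∈ F, ∀ n α T, s(a.1, a.1 + vec (a.2, true)) = s(pth s n, pth s (n + 1)) → α ≤ n →
      n < α + T → Blk s α T → φ a ≤ bd α T)
    (h2 : ∀ α T, Blk s α T → T * bd α T ≤ bd' α T) :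
    ∑ a ∈ F, φ a ≤ ∑' α, if ht s α < K then ∑' T, bd' α T else 0 := by
  classical
  refine (sum_le_tsum_time (pth s) F φ (fun n => ∑' α, ∑' T,
    if α ≤ n ∧ n < α + T ∧ Blk s α T ∧ ht s α < K then bd α T else 0) fun a ha => ?_).trans ?_
  · obtain ⟨h3, h4⟩ := hF a ha
    obtain ⟨n, hn⟩ := mem_allowed.1 h3
    obtain ⟨α, T, h5, h6, hb⟩ := exists_blk hc n
    refine ⟨n, hn, le_trans ?_ (ENNReal.le_tsum α)⟩
    refine le_trans ?_ (ENNReal.le_tsum T)
    have h7 : ht s α < K := by
      rcases hb.left with h0 | h0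
      · rw [h0]; simpa using hK
      · rcases edge_cases (steps_pth s) hn with h8 | h8
        · have := h0.2.2 n h5; rw [h8.1] at h4; omega
        · have := h0.2.2 (n + 1) (by omega); rw [h8.1] at h4; omega
    rw [if_pos ⟨h5, h6, hb, h7⟩]
    exact h1 a ha n α T hn h5 h6 hb
  · rw [ENNReal.tsum_comm]
    refine ENNReal.tsum_le_tsum fun α => ?_
    rw [ENNReal.tsum_comm]
    split_ifs with h3
    · refine ENNReal.tsum_le_tsum fun T => ?_
      by_cases hb : Blk s α T
      · refine le_trans ?_ (h2 α T hb)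
        rw [tsum_eq_sum (s := Finset.Ico α (α + T))
          fun n hn => if_neg fun hh => hn (mem_Ico.2 ⟨hh.1, hh.2.1⟩)]
        refine (Finset.sum_le_card_nsmul _ _ (bd α T) fun n _ => ?_).trans (by simp)
        split_ifs <;> simp
      · simp [hb]
    · simp [h3]

/-- Bound for the expected occupation time, for any starting point and any subgraph. -/
lemma Hq.occ_le {q : Law d} {r : ℝ} (h : Hq q r) {E' : Set (Sym2 (V d))} (hN : Nice E')
    {o : V d} (ho : (allowed E' o).Nonempty) {s : ℕ → Dir d} (hsub : E' ⊆ trace (pth s))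
    (hfin : ∀ J : ℤ, {n | ht s n < J}.Finite) (hc : ∀ N, ∃ β, N < β ∧ IsCut s β) {K : ℤ}
    (hK : 0 < K) :
    ∫⁻ u, occ K (walk E' o u) ∂iid (drv q) ≤ 2048 * kap q r * occS K (Zf 1) s := by
  rw [hN.lintegral_occ h.rev ho]
  refine (sum_blocks hc hK _ (fun a ha => below_mono hsub K (hN.mem_DE.1 ha)) _
    (fun α T => 2 * kap q r * Mb s α T)
    (fun α T => 2048 * kap q r * ((∏ m ∈ range T, wZ 1 (sh α s m)) * Yf (sh T (sh α s))))
    (fun a ha n α T he h1 h2 hb => ?_) (fun α T hb => ?_)).trans (le_of_eq ?_)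
  · refine le_trans ?_ ((h.edge_le_Mb hN ho hsub hfin hb h1 h2 (hN.mem_DE.1 ha).1 he).trans ?_)
    · gcongr; split_ifs <;> simp
    · gcongr; split_ifs
      · exact h.one_le_kap
      · exact le_rfl
  · calc T * (2 * kap q r * Mb s α T) = 2 * kap q r * (T * Mb s α T) := by ring
      _ ≤ 2 * kap q r * (1024 * ((∏ m ∈ range T, wZ 1 (sh α s m)) * Yf (sh T (sh α s)))) :=
        mul_le_mul' le_rfl hb.T_mul_Mb
      _ = _ := by ring
  · rw [occS, ← ENNReal.tsum_mul_left]
    refine tsum_congr fun α => ?_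
    split_ifs
    · rw [ENNReal.tsum_mul_left]; rfl
    · simp

end Pool.Agent.Lib.MP_24597f_pr
end

-- part Pool.Agent.Lib.MP_24597f_pr.Compare
section

/-!
Comparison, edge by edge, of the time spent by the first and by the second walk on traces.
-/

open MeasureTheory Filter Topology Finset
open scoped ENNReal

namespace Pool.Agent.Lib.MP_24597f_pr

variable {d : ℕ} [NeZero d]

lemma unbounded_of_fin {s : ℕ → Dir d} (hfin : ∀ J : ℤ, {n | ht s n < J}.Finite) (J : ℤ) :
    ∃ n, J ≤ lv (pth s n) := by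
  by_contra hc
  push Not at hc
  exact Set.infinite_univ ((hfin J).subset fun n _ => hc n)

lemma nice_pth {s : ℕ → Dir d} (hfin : ∀ J : ℤ, {n | ht s n < J}.Finite) (β : Bool) :
    Nice (envB β (pth s)) :=
  nice_envB (steps_pth s) (pth_zero s) β (unbounded_of_fin hfin) (finite_below_envB β hfin)

omit [NeZero d] in
lemma ne_pth (s : ℕ → Dir d) : (allowed (trace (pth s)) 0).Nonempty :=
  ⟨s 0, by simpa using (steps_pth s).mem_allowed 0⟩

omit [NeZero d] in
lemma ne_walk (E : Set (Sym2 (V d))) (u : ℕ → Ins d) : (allowed (trace (walk E 0 u)) 0).Nonempty :=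
  ⟨_, (steps_walk E 0 u).mem_allowed 0⟩

lemma exists_exit {α : Type} {B : α → Prop} {x : ℕ → α} (h0 : B (x 0)) {M : ℕ} (hM : ¬ B (x M)) :
    ∃ m, B (x m) ∧ ¬ B (x (m + 1)) := by
  induction M with
  | zero => exact absurd h0 hM
  | succ M ih =>
    by_cases h : B (x M)
    · exact ⟨M, h, hM⟩
    · exact ih h

/-- Expected number of crossings of an edge. -/
noncomputable def Wt (q : Law d) (E : Set (Sym2 (V d))) (x : V d) (e : Dir d) : ℝ≥0∞ :=
  cE q x e * (vI q E 0 x + vI q E 0 (x + vec e))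

open Classical in
/-- Expected number of crossings of an edge, zero if the edge is absent. -/
noncomputable def Wi (q : Law d) (E : Set (Sym2 (V d))) (x : V d) (e : Dir d) : ℝ≥0∞ :=
  if e ∈ allowed E x then Wt q E x e else 0

section

variable {q : Law d} (hq : Rev q) {E : Set (Sym2 (V d))} (h : Nice E)
  (ho : (allowed E 0).Nonempty)
include hq h ho

lemma Nice.two_le_Wt {x z : V d} {e : Dir d} (he : e ∈ allowed E x) (hz : z = x ∨ z = x + vec e) :
    2 * (cE q x e * vI q E 0 z) ≤ Wt q E x e + 1 := by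
  rcases hz with rfl | rfl
  · rw [two_mul, Wt, mul_add, add_assoc]; gcongr; exact h.vI_edge hq ho he
  · rw [two_mul, Wt, mul_add, add_comm (cE q x e * vI q E 0 x), add_assoc]; gcongr
    exact h.vI_edge' hq ho he

lemma Nice.Wt_le_two {x z : V d} {e : Dir d} (he : e ∈ allowed E x) (hz : z = x ∨ z = x + vec e) :
    Wt q E x e ≤ 2 * (cE q x e * vI q E 0 z) + 1 := by
  rcases hz with rfl | rfl
  · rw [two_mul, Wt, mul_add, add_assoc]; gcongr; exact h.vI_edge' hq ho he
  · rw [two_mul, Wt, mul_add, add_comm (cE q x e * vI q E 0 x), add_assoc]; gcongr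
    exact h.vI_edge hq ho he

end

omit [NeZero d] in
lemma GoodI.boundary {s : ℕ → Dir d} {n : ℕ} (hg : GoodI s n) {w : V d} {e : Dir d}
    (he : e ∈ allowed (trace (pth s)) w) (h1 : ∃ m ≤ n, pth s m = w)
    (h2 : ¬ ∃ m ≤ n, pth s m = w + vec e) : w = pth s n ∧ w + vec e = pth s (n + 1) := by
  obtain ⟨m0, hm0, h1⟩ := h1
  obtain ⟨m, ⟨h3, h4⟩ | ⟨h3, h4⟩⟩ := mem_allowed_trace.1 he
  · rcases lt_trichotomy m n with h5 | rfl | h5
    · exact absurd ⟨m + 1, h5, h4⟩ h2
    · exact ⟨h3.symm, h4.symm⟩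
    · exact absurd (h1.trans h3.symm) (hg m0 hm0 m h5)
  · by_cases h5 : m ≤ n
    · exact absurd ⟨m, h5, h3⟩ h2
    · exact absurd (h1.trans h4.symm) (hg m0 hm0 (m + 1) (by omega))

lemma GoodII.vertex {s : ℕ → Dir d} {n : ℕ} (hg : GoodII s n) {w : V d}
    (hw : (allowed (trace (pth s)) w).Nonempty) (hl : lv w = ht s n) :
    w = pth s n ∨ w = pth s n + vec (s n) := by
  obtain ⟨e, he⟩ := hw
  obtain ⟨m, rfl⟩ := exists_time_of_allowed he
  rw [← steps_pth s n]
  exact hg.2 m hl

lemma GoodI.mem {s : ℕ → Dir d} {n : ℕ} (hg : GoodI s n) {u : ℕ → Ins d}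
    (hu : ∀ J : ℤ, ∃ m, J ≤ lv (walk (trace (pth s)) 0 u m)) :
    s n ∈ allowed (trace (walk (trace (pth s)) 0 u)) (pth s n) := by
  obtain ⟨M, hM⟩ := hu (n + 1)
  obtain ⟨m, h1, h2⟩ := exists_exit (B := fun w => ∃ m ≤ n, pth s m = w)
    (x := walk (trace (pth s)) 0 u) ⟨0, Nat.zero_le n, by simp⟩ (M := M) (by
      rintro ⟨m, h1, h2⟩
      have := (steps_pth s).le_time m
      rw [h2] at this
      simp at this
      omega)
  obtain ⟨h3, h4⟩ := hg.boundary (stp_mem (ne_pth s) u m) h1 h2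
  exact mem_allowed_trace.2 ⟨m, Or.inl ⟨h3, by rw [walk_succ, h4, steps_pth s n]⟩⟩

lemma good_compare {q : Law d} (hq : Rev q) {s : ℕ → Dir d} (hN : Nice (trace (pth s))) {n : ℕ}
    (hg : GoodI s n ∨ GoodII s n) {E' : Set (Sym2 (V d))} (hN' : Nice E')
    (hsub : E' ⊆ trace (pth s)) (ho' : (allowed E' 0).Nonempty) (he : s n ∈ allowed E' (pth s n)) :
    Wt q (trace (pth s)) (pth s n) (s n) ≤ Wt q E' (pth s n) (s n) + 2 := by
  rcases hg with hg | hg
  · refine hN.vI_compare_edge hq (ne_pth s) hN' hsub ho' (fun w => ∃ m ≤ n, pth s m = w)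
      ⟨0, Nat.zero_le n, by simp⟩ (n + 1) ?_ he fun w e h1 h2 h3 => Or.inl (hg.boundary h1 h2 h3).1
    rintro z ⟨m, h1, rfl⟩
    have := (steps_pth s).le_time m
    simp at this
    omega
  · refine hN.vI_compare_edge hq (ne_pth s) hN' hsub ho' (fun w => lv w ≤ ht s n) hg.1 (ht s n + 1)
      (fun z hz => by omega) he fun w e h1 h2 h3 => hg.vertex ⟨e, h1⟩ ?_
    have := lv_vec_le e
    rw [lv_add] at h3
    omega

lemma Hq.tp_le {q : Law d} {r : ℝ} (h : Hq q r) {E : Set (Sym2 (V d))} {z : V d} {e0 e : Dir d}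
    (h0 : e0 ∈ allowed E z) (h1 : e0.1 ≠ 0) (he : e = up ∨ e = dn) : tp q E z e ≤ (kap q r)⁻¹ := by
  have hr : 0 < r := (q.pos up).trans_le h.ur
  have h2 : r ≤ ∑ e' ∈ allowed E z, q.p e' :=
    (h.hz e0 h1).symm.le.trans (Finset.single_le_sum (fun e' _ => (q.pos e').le) h0)
  have h3 : q.p e ≤ q.p up := by
    rcases he with rfl | rfl
    · exact le_rfl
    · have := h.rev.ud; have := q.pos dn; linarith
  rw [kap, ← ENNReal.ofReal_inv_of_pos (div_pos hr (q.pos up)), inv_div, tp]
  exact ENNReal.ofReal_le_ofReal (div_le_div₀ (q.pos up).le h3 hr h2)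

lemma GoodII.prob {q : Law d} {r : ℝ} (h : Hq q r) {s : ℕ → Dir d} (hN : Nice (trace (pth s)))
    {n : ℕ} (hg : GoodII s n) (hn : (s n).1 ≠ 0) :
    iid (drv q) {u | s n ∉ allowed (trace (walk (trace (pth s)) 0 u)) (pth s n)} ≤
      2 * (kap q r)⁻¹ := by
  classical
  set E := trace (pth s) with hE
  set k := ht s n with hk
  let F : ℕ → (ℕ → Ins d) → ℝ≥0∞ := fun m u => if ∀ i < m, lv (walk E 0 u i) < k then 1 else 0
  let ψ : V d → Dir d → ℝ≥0∞ := fun z e => if lv z = k ∧ (e = up ∨ e = dn) then 1 else 0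
  have hFm : ∀ m, Measurable (F m) := fun m => by
    refine Measurable.ite ?_ measurable_const measurable_const
    simp only [Set.ofPred_forall]
    exact MeasurableSet.iInter fun i => MeasurableSet.iInter fun _ =>
      measurableSet_lt (by fun_prop) measurable_const
  have hFd : ∀ m, Dep m (F m) := fun m u u' huu => by
    have : ∀ i < m, walk E 0 u i = walk E 0 u' i := fun i hi => dep_walk E 0 hi.le u u' huu
    simp only [F]
    exact if_congr (forall₂_congr fun i hi => by rw [this i hi]) rfl rfl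
  have hψ : Measurable (fun p : V d × Dir d => ψ p.1 p.2) := Measurable.of_discrete
  have hx : s n ∈ allowed E (pth s n) := (steps_pth s).mem_allowed n
  calc iid (drv q) {u | s n ∉ allowed (trace (walk E 0 u)) (pth s n)}
      ≤ ∫⁻ u, ∑' m, F m u * ψ (walk E 0 u m) (stp E 0 u m) ∂iid (drv q) := by
        rw [← lintegral_indicator_one]
        · refine lintegral_mono_ae ?_
          filter_upwards [hN.ae_hit h.rev (ne_pth s)] with u hu
          by_cases hu2 : u ∈ {u | s n ∉ allowed (trace (walk E 0 u)) (pth s n)}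
          swap
          · rw [Set.indicator_of_notMem hu2]; exact zero_le
          rw [Set.indicator_of_mem hu2]
          obtain ⟨m, h1, h2⟩ := (steps_walk E 0 u).first_hit (k := k) hg.1 (hu k)
          refine le_trans ?_ (ENNReal.le_tsum m)
          have h3 : stp E 0 u m = up ∨ stp E 0 u m = dn := by
            by_contra hc
            have h4 : (stp E 0 u m).1 ≠ 0 := by
              rcases dir_cases (stp E 0 u m) with h5 | h5 | h5
              · exact absurd (Or.inl h5) hc
              · exact absurd (Or.inr h5) hc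
              · exact h5
            have h5 := hg.vertex (allowed_walk_nonempty (ne_pth s) u m) h1
            have h6 := hg.vertex (allowed_walk_nonempty (ne_pth s) u (m + 1))
              (by rw [walk_succ, lv_add, lv_hz h4, add_zero, h1])
            have h7 : walk E 0 u (m + 1) ≠ walk E 0 u m := by
              rw [walk_succ]; simpa using vec_ne_zero _
            refine hu2 (mem_allowed_trace.2 ⟨m, ?_⟩)
            rcases h5 with h5 | h5 <;> rcases h6 with h6 | h6
            · exact absurd (h6.trans h5.symm) h7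
            · exact Or.inl ⟨h5, h6⟩
            · exact Or.inr ⟨h5, h6⟩
            · exact absurd (h6.trans h5.symm) h7
          simp only [F, ψ, if_pos h2, if_pos (And.intro h1 h3), mul_one, Pi.one_apply, le_refl]
        · have hm : Measurable fun u => allowed (trace (walk E 0 u)) (pth s n) := by fun_prop
          exact hm (MeasurableSet.of_discrete (s := {S | s n ∉ S}))
    _ = ∑' m, ∫⁻ u, F m u * ψ (walk E 0 u m) (stp E 0 u m) ∂iid (drv q) :=
        lintegral_tsum fun m => ((hFm m).mul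
          (hψ.comp (f := fun u => (walk E 0 u m, stp E 0 u m)) (by fun_prop))).aemeasurable
    _ ≤ ∑' m, ∫⁻ u, (F m u * if lv (walk E 0 u m) = k then 1 else 0) * (2 * (kap q r)⁻¹)
          ∂iid (drv q) := by
        refine ENNReal.tsum_le_tsum fun m => ?_
        rw [lintegral_stp q (ne_pth s) m (hFd m) (hFm m) ψ]
        refine lintegral_mono fun u => ?_
        rw [mul_assoc]
        refine mul_le_mul' le_rfl ?_
        split_ifs with h1
        · obtain ⟨e0, h2, h3⟩ : ∃ e0 ∈ allowed E (walk E 0 u m), e0.1 ≠ 0 := by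
            rcases hg.vertex (allowed_walk_nonempty (ne_pth s) u m) h1 with h2 | h2
            · exact ⟨s n, h2 ▸ hx, hn⟩
            · exact ⟨opp (s n), h2 ▸ opp_mem_allowed.2 hx, hn⟩
          calc ∑ e ∈ allowed E (walk E 0 u m), tp q E (walk E 0 u m) e * ψ (walk E 0 u m) e
              ≤ ∑ e ∈ allowed E (walk E 0 u m),
                  if e ∈ ({up, dn} : Finset (Dir d)) then (kap q r)⁻¹ else 0 := by
                refine Finset.sum_le_sum fun e _ => ?_
                by_cases h4 : e = up ∨ e = dn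
                · rw [if_pos (by simpa using h4)]
                  simp only [ψ, if_pos (And.intro h1 h4), mul_one]
                  exact h.tp_le h2 h3 h4
                · simp only [ψ, if_neg (fun hh : _ ∧ _ => h4 hh.2), mul_zero, zero_le]
            _ ≤ ∑ e ∈ ({up, dn} : Finset (Dir d)), (kap q r)⁻¹ := by
                rw [Finset.sum_ite_mem]
                exact Finset.sum_le_sum_of_subset inter_subset_right
            _ = _ := by rw [Finset.sum_pair up_ne_dn, one_mul, two_mul]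
        · refine (Finset.sum_eq_zero fun e _ => ?_).trans_le zero_le
          simp only [ψ]
          rw [if_neg, mul_zero]
          exact fun hh => h1 hh.1
    _ = ∫⁻ u, (∑' m, F m u * if lv (walk E 0 u m) = k then 1 else 0) * (2 * (kap q r)⁻¹)
          ∂iid (drv q) := by
        simp_rw [← ENNReal.tsum_mul_right]
        refine (lintegral_tsum fun m => (((hFm m).mul (Measurable.ite ?_ measurable_const
          measurable_const)).mul_const _).aemeasurable).symm
        exact measurableSet_eq_fun (by fun_prop) measurable_const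
    _ ≤ ∫⁻ _, 1 * (2 * (kap q r)⁻¹) ∂iid (drv q) := by
        refine lintegral_mono fun u => mul_le_mul' ?_ le_rfl
        by_cases hc : ∃ m, (∀ i < m, lv (walk E 0 u i) < k) ∧ lv (walk E 0 u m) = k
        · obtain ⟨m, h1, h2⟩ := hc
          rw [tsum_eq_single m]
          · simp [F, h2, if_pos h1]
          · intro m' hm'
            rcases lt_or_gt_of_ne hm' with h3 | h3
            · rw [if_neg (h1 m' h3).ne, mul_zero]
            · have : ¬ ∀ i < m', lv (walk E 0 u i) < k := fun h4 => (h4 m h3).ne h2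
              simp [F, if_neg this]
        · push Not at hc
          rw [ENNReal.tsum_eq_zero.2]
          · exact zero_le
          · intro m
            by_cases h1 : ∀ i < m, lv (walk E 0 u i) < k
            · rw [if_neg (hc m h1), mul_zero]
            · simp [F, if_neg h1]
    _ = _ := by simp

lemma cE_up_eq (q : Law d) {x y : V d} (hxy : lv x = lv y) (e : Dir d) : cE q x e = cE q y e := by
  rw [cE_eq, cE_eq, hxy]

lemma cE_succ (q : Law d) (x : V d) (e : Dir d) : cE q (x + vec up) e = 16 * cE q x e := by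
  rw [cE_eq, cE_eq, lv_add, lv_up, p16_add, p16_one]; ring

lemma Hq.cE_hz {q : Law d} {r : ℝ} (h : Hq q r) (x : V d) {e : Dir d} (he : e.1 ≠ 0) :
    cE q x e = kap q r * cE q x up := by
  rw [h.cE_cls x x e, cls_hz _ _ _ he]; simp [mul_comm]

namespace Pat

variable {j : Fin d} {s : ℕ → Dir d} {n : ℕ} (hp : Pat j s n)
include hp

lemma top_mem : ((j, true) : Dir d) ∈ allowed (trace (pth s)) (pth s n + vec up) :=
  mem_allowed_trace.2 ⟨n + 2, Or.inr ⟨by rw [hp.p2]; abel, hp.p3⟩⟩

lemma vertex_top {w : V d} (hw : (allowed (trace (pth s)) w).Nonempty) (hl : lv w = ht s n + 1) :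
    w = pth s n + vec up ∨ w = pth s n + vec up + vec (j, true) := by
  obtain ⟨e, he⟩ := hw
  obtain ⟨m, rfl⟩ := exists_time_of_allowed he
  change ht s m = _ at hl
  rcases hp.cases m with h1 | h1 | h1 | h1
  · omega
  · omega
  · omega
  · exact h1.2

lemma prob_down {q : Law d} {r : ℝ} (h : Hq q r) (hN : Nice (trace (pth s))) :
    128 * iid (drv q) {u | ∃ m, lv (walk (trace (pth s)) 0 u m) = ht s n + 1 ∧
      stp (trace (pth s)) 0 u m = dn} ≤ Yf (sh (n + 6) s) + 24 := by
  classical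
  set E := trace (pth s) with hE
  set x := pth s n with hx
  set c := cE q x up with hc
  let ψ : V d → Dir d → ℝ≥0∞ := fun z e => if lv z = ht s n + 1 ∧ e = dn then 1 else 0
  have h1 : iid (drv q) {u | ∃ m, lv (walk E 0 u m) = ht s n + 1 ∧ stp E 0 u m = dn} ≤
      c * vI q E 0 (x + vec up) + c * vI q E 0 (x + vec up + vec (j, true)) := by
    calc _ ≤ ∫⁻ u, ∑' m, ψ (walk E 0 u m) (stp E 0 u m) ∂iid (drv q) := by
          rw [← lintegral_indicator_one]
          · refine lintegral_mono fun u => ?_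
            by_cases hu : u ∈ {u | ∃ m, lv (walk E 0 u m) = ht s n + 1 ∧ stp E 0 u m = dn}
            · rw [Set.indicator_of_mem hu]
              obtain ⟨m, hm⟩ := hu
              refine le_trans ?_ (ENNReal.le_tsum m)
              simp only [ψ, if_pos hm, Pi.one_apply, le_refl]
            · rw [Set.indicator_of_notMem hu]; exact zero_le
          · simp only [Set.ofPred_exists]
            exact MeasurableSet.iUnion fun m => (measurableSet_eq_fun (by fun_prop)
              measurable_const).inter (measurableSet_eq_fun (by fun_prop) measurable_const)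
      _ = ∑' z, ∑ e ∈ allowed E z, cE q z e * vI q E 0 z * ψ z e :=
          hN.lintegral_reward h.rev (ne_pth s) ψ
      _ ≤ ∑' z, ((if z = x + vec up then c * vI q E 0 z else 0) +
            if z = x + vec up + vec (j, true) then c * vI q E 0 z else 0) := by
          refine ENNReal.tsum_le_tsum fun z => ?_
          by_cases hz : lv z = ht s n + 1 ∧ dn ∈ allowed E z
          · rw [Finset.sum_eq_single dn (fun e _ he => by simp [ψ, he]) fun h2 => absurd hz.2 h2]
            have e1 : cE q z dn = c := by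
              rw [hc, ← cE_opp h.rev x up, opp_up]
              exact cE_up_eq q (by rw [hz.1, lv_add, lv_up]; rfl) dn
            simp only [ψ, hz.1, and_self, if_true, mul_one, e1]
            rcases hp.vertex_top ⟨_, hz.2⟩ hz.1 with h2 | h2
            · rw [if_pos h2]; exact le_self_add
            · rw [if_pos h2]; exact le_add_self
          · refine (Finset.sum_eq_zero fun e he => ?_).trans_le zero_le
            simp only [ψ]
            rw [if_neg, mul_zero]
            rintro ⟨h2, rfl⟩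
            exact hz ⟨h2, he⟩
      _ = _ := by rw [ENNReal.tsum_add, tsum_ite_eq, tsum_ite_eq]
  have hup : up ∈ allowed E (x + vec up) := mem_allowed_trace.2 ⟨n + 5, Or.inl ⟨hp.p5, hp.p6⟩⟩
  have h2 := h.vI_le_Y hN (ne_pth s) (β := false) (by rw [envB_false]) hp.isCut.2 (by simp)
    ⟨_, opp_mem_allowed.2 hup⟩ (by rw [← hp.p6]; exact le_rfl)
  rw [hp.p6, cE_succ, cE_succ] at h2
  have h3 := hN.vI_edge h.rev (ne_pth s) hup
  rw [cE_succ] at h3
  have h4 := hN.vI_edge' h.rev (ne_pth s) hp.top_mem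
  rw [cE_succ, h.cE_hz _ (e := (j, true)) hp.hj] at h4
  set a := c * vI q E 0 (x + vec up) with ha
  set b := c * vI q E 0 (x + vec up + vec (j, true)) with hb
  have h5 : 16 * b ≤ 16 * a + 1 := by
    refine (ENNReal.mul_le_mul_iff_right h.kap_ne_zero (kap_ne_top q r)).1 ?_
    calc kap q r * (16 * b) = 16 * (kap q r * c) * vI q E 0 (x + vec up + vec (j, true)) := by
          rw [hb]; ring
      _ ≤ 16 * (kap q r * c) * vI q E 0 (x + vec up) + 1 := h4
      _ ≤ 16 * (kap q r * c) * vI q E 0 (x + vec up) + kap q r := by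
          gcongr; exact h.one_le_kap
      _ = _ := by rw [ha]; ring
  have h6 : 256 * a ≤ Yf (sh (n + 6) s) + 16 := by
    calc 256 * a = 16 * (16 * c * vI q E 0 (x + vec up)) := by rw [ha]; ring
      _ ≤ 16 * (16 * c * vI q E 0 (x + vec up + vec up) + 1) := by gcongr
      _ = 16 * (16 * c) * vI q E 0 (x + vec up + vec up) + 16 := by ring
      _ ≤ _ := by gcongr
  calc 128 * _ ≤ 128 * (a + b) := by gcongr
    _ = 128 * a + 8 * (16 * b) := by ring
    _ ≤ 128 * a + 8 * (16 * a + 1) := by gcongr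
    _ = 256 * a + 8 := by ring
    _ ≤ Yf (sh (n + 6) s) + 16 + 8 := by gcongr
    _ = _ := by ring

lemma compare {q : Law d} {r : ℝ} (h : Hq q r) (hN : Nice (trace (pth s))) {u : ℕ → Ins d}
    (hN' : Nice (trace (walk (trace (pth s)) 0 u)))
    (hu : ∀ J : ℤ, ∃ m, J ≤ lv (walk (trace (pth s)) 0 u m))
    (h1 : s n ∈ allowed (trace (walk (trace (pth s)) 0 u)) (pth s n))
    (h2 : s (n + 2) ∈ allowed (trace (walk (trace (pth s)) 0 u)) (pth s (n + 2)))
    (h3 : ¬ ∃ m, lv (walk (trace (pth s)) 0 u m) = ht s n + 1 ∧ stp (trace (pth s)) 0 u m = dn) :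
    Wt q (trace (pth s)) (pth s n) (s n) + kap q r ≤
      Wt q (trace (walk (trace (pth s)) 0 u)) (pth s n) (s n) + 4 := by
  classical
  have hsub := trace_walk_subset (ne_pth s) u
  have ho' := ne_walk (trace (pth s)) u
  have htop := good_compare h.rev hN (Or.inr hp.goodII_top) hN' hsub ho' h2
  set E := trace (pth s) with hE
  set E' := trace (walk E 0 u) with hE'
  set x := pth s n with hx
  set c := cE q x up with hc
  have hs2 : s (n + 2) = opp (j, true) := hp.word.2.2.1
  have hl : lv x = ht s n := rfl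
  have hlj := hp.lvj
  have hk := hp.lvl
  rw [hp.s0] at h1 ⊢
  have h2' : ((j, true) : Dir d) ∈ allowed E' (x + vec up) := by
    rw [← opp_mem_allowed, ← hs2]
    convert h2 using 2
    rw [hp.p2]; abel
  have htop' : Wt q E (x + vec up) (j, true) ≤ Wt q E' (x + vec up) (j, true) + 2 := by
    have e1 : pth s (n + 2) = x + vec up + vec (j, true) := by rw [hp.p2]; abel
    simp only [Wt, hs2, e1, cE_opp h.rev, vec_opp, add_neg_cancel_right] at htop ⊢
    rwa [add_comm (vI q E 0 _), add_comm (vI q E' 0 _)]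
  have hxy : x ≠ x + vec (j, true) := by simpa using vec_ne_zero _
  have flux := hN.vI_flux h.rev (ne_pth s) (ht s n) hk {x, x + vec (j, true)} (fun w => by
    simp only [mem_insert, mem_singleton]
    constructor
    · rintro (rfl | rfl)
      · exact ⟨rfl, mem_allowed_trace.2 ⟨n + 4, Or.inl ⟨hp.p4, hp.p5⟩⟩⟩
      · exact ⟨by rw [lv_add, hlj, hl, add_zero],
          mem_allowed_trace.2 ⟨n + 1, Or.inl ⟨hp.p1, hp.p2⟩⟩⟩
    · rintro ⟨h4, h5⟩
      have := hp.goodII.vertex ⟨_, h5⟩ h4
      rwa [hp.s0] at this)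
  have ey : cE q (x + vec (j, true)) up = c := cE_up_eq q (by rw [lv_add, hlj, add_zero]) up
  rw [Finset.sum_pair hxy, Finset.sum_pair hxy, ey, ← hc] at flux
  obtain ⟨σ, h4, h5⟩ := (steps_walk E 0 u).first_hit (k := ht s n + 1) (by simp; omega) (hu _)
  have hcut : Cut (walk E 0 u) (ht s n + 1) σ := ⟨h5, fun m hm => by
    by_contra hc
    obtain ⟨m', -, -, h6⟩ := (steps_walk E 0 u).ivt_down hm h4.ge (not_le.1 hc)
    exact h3 ⟨m', h6⟩⟩
  obtain ⟨σ, rfl⟩ : ∃ σ', σ = σ' + 1 := Nat.exists_eq_succ_of_ne_zero (by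
    rintro rfl; simp at h4; omega)
  have h6 := ((steps_walk E 0 u).cut_lv hcut).2
  set z := walk E 0 u σ with hz
  have h7 : walk E 0 u (σ + 1) = z + vec up := by rw [walk_succ, h6]
  have hlz : lv z = ht s n := by rw [h7, lv_add, lv_up] at h4; omega
  have hzz : z = x ∨ z = x + vec (j, true) := by
    have := hp.goodII.vertex (allowed_walk_nonempty (ne_pth s) u σ) hlz
    rwa [hp.s0] at this
  have flux' := hN'.vI_flux h.rev ho' (ht s n) hk {z} (fun w => by
    simp only [mem_singleton]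
    constructor
    · rintro rfl
      exact ⟨hlz, mem_allowed_trace.2 ⟨σ, Or.inl ⟨rfl, h7⟩⟩⟩
    · rintro ⟨h8, h9⟩
      have := hcut.cross (w := w) (by omega) h9
      rw [h7] at this
      exact add_right_cancel this)
  have ez : cE q z up = c := cE_up_eq q hlz up
  rw [Finset.sum_singleton, Finset.sum_singleton, ez] at flux'
  have b1 := hN'.two_le_Wt h.rev ho' h1 hzz
  have b2 := hN'.Wt_le_two h.rev ho' h2' (z := z + vec up)
    (hzz.imp (fun h8 => by rw [h8]) fun h8 => by rw [h8]; abel)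
  have ec : cE q x (j, true) = kap q r * c := h.cE_hz x hp.hj
  have ec' : cE q (x + vec up) (j, true) = 16 * (kap q r * c) := by rw [cE_succ, ec]
  rw [ec] at b1
  rw [ec'] at b2
  have e2 : x + vec (j, true) + vec up = x + vec up + vec (j, true) := by abel
  rw [e2] at flux
  have b3 : kap q r * c * (vI q E 0 (x + vec up) + vI q E 0 (x + vec up + vec (j, true))) ≤
      2 * (kap q r * c * vI q E' 0 (z + vec up)) + 1 := by
    refine (ENNReal.mul_le_mul_iff_right (a := 16) (by norm_num) (by norm_num)).1 ?_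
    calc 16 * (kap q r * c * (vI q E 0 (x + vec up) + vI q E 0 (x + vec up + vec (j, true))))
        = Wt q E (x + vec up) (j, true) := by rw [Wt, ec']; ring
      _ ≤ 2 * (16 * (kap q r * c) * vI q E' 0 (z + vec up)) + 1 + 2 := htop'.trans (by gcongr)
      _ = 2 * (16 * (kap q r * c) * vI q E' 0 (z + vec up)) + 3 := by ring
      _ ≤ 2 * (16 * (kap q r * c) * vI q E' 0 (z + vec up)) + 16 := by gcongr; norm_num
      _ = _ := by ring
  calc Wt q E x (j, true) + kap q r
      = kap q r * (c * vI q E 0 x + c * vI q E 0 (x + vec (j, true))) + kap q r := by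
        rw [Wt, ec]; ring
    _ = 2 * kap q r +
          kap q r * c * (vI q E 0 (x + vec up) + vI q E 0 (x + vec up + vec (j, true))) := by
        rw [flux]; ring
    _ ≤ 2 * kap q r + (2 * (kap q r * c * vI q E' 0 (z + vec up)) + 1) := by gcongr
    _ = 2 * (kap q r * (1 + c * vI q E' 0 (z + vec up))) + 1 := by ring
    _ = 2 * (kap q r * c * vI q E' 0 z) + 1 := by rw [← flux']; ring
    _ ≤ Wt q E' x (j, true) + 1 + 1 := by gcongr
    _ ≤ _ := by rw [add_assoc]; gcongr; norm_num

end Pat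

end Pool.Agent.Lib.MP_24597f_pr
end

-- part Pool.Agent.Lib.MP_24597f_pr.Quenched
section

/-!
The quenched comparison inequality between the occupation times of the two walks on traces.
-/

open MeasureTheory Filter Topology Finset
open scoped ENNReal

namespace Pool.Agent.Lib.MP_24597f_pr

variable {d : ℕ} [NeZero d]

omit [NeZero d] in
lemma measurableSet_notMem_allowed (E : Set (Sym2 (V d))) (x : V d) (e : Dir d) :
    MeasurableSet {u | e ∉ allowed (trace (walk E 0 u)) x} := by
  have hm : Measurable fun u => allowed (trace (walk E 0 u)) x := by fun_prop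
  exact hm (MeasurableSet.of_discrete (s := {S | e ∉ S}))

lemma ae_nice' {q : Law d} (hq : Rev q) {s : ℕ → Dir d} (hN : Nice (trace (pth s))) :
    ∀ᵐ u ∂iid (drv q), Nice (trace (walk (trace (pth s)) 0 u)) ∧
      ∀ J : ℤ, ∃ n, J ≤ lv (walk (trace (pth s)) 0 u n) := by
  have := Nice.ae_nice hq (β := false) (steps_pth s) (pth_zero s) (by rwa [envB_false])
  simpa only [envB_false] using this

lemma good_int {q : Law d} {r : ℝ} (h : Hq q r) {s : ℕ → Dir d} (hN : Nice (trace (pth s)))
    {n : ℕ} (hg : GoodI s n ∨ GoodII s n) (hn : (s n).1 ≠ 0) :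
    Wt q (trace (pth s)) (pth s n) (s n) ≤
      ∫⁻ u, Wi q (trace (walk (trace (pth s)) 0 u)) (pth s n) (s n) ∂iid (drv q) +
        (2 + Wt q (trace (pth s)) (pth s n) (s n) * (2 * (kap q r)⁻¹)) := by
  set W := Wt q (trace (pth s)) (pth s n) (s n) with hW
  set B := {u | s n ∉ allowed (trace (walk (trace (pth s)) 0 u)) (pth s n)} with hB
  have hBm : MeasurableSet B := measurableSet_notMem_allowed _ _ _
  have hBp : iid (drv q) B ≤ 2 * (kap q r)⁻¹ := by
    rcases hg with hg | hg
    · refine le_trans (le_of_eq ?_) zero_le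
      refine measure_mono_null (fun u hu => ?_) (ae_iff.1 (hN.ae_hit h.rev (ne_pth s)))
      exact fun hc => hu (hg.mem hc)
    · exact hg.prob h hN hn
  calc W = ∫⁻ _, W ∂iid (drv q) := by simp
    _ ≤ ∫⁻ u, (Wi q (trace (walk (trace (pth s)) 0 u)) (pth s n) (s n) +
          (2 + B.indicator (fun _ => W) u)) ∂iid (drv q) := by
        refine lintegral_mono_ae ?_
        filter_upwards [ae_nice' h.rev hN] with u hu
        by_cases hb : u ∈ B
        · rw [Set.indicator_of_mem hb, ← add_assoc]; exact le_add_self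
        · have hb' := not_not.1 hb
          rw [Wi, if_pos hb', ← add_assoc]
          exact (good_compare h.rev hN hg hu.1 (trace_walk_subset (ne_pth s) u) (ne_walk _ u)
            hb').trans le_self_add
    _ = ∫⁻ u, Wi q (trace (walk (trace (pth s)) 0 u)) (pth s n) (s n) ∂iid (drv q) +
          (2 + W * iid (drv q) B) := by
        have m1 : Measurable fun u => 2 + B.indicator (fun _ => W) u :=
          Measurable.fun_add measurable_const (measurable_const.indicator hBm)
        rw [lintegral_add_right _ m1,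
          lintegral_add_left measurable_const, lintegral_indicator_const hBm]
        simp
    _ ≤ _ := by gcongr

/-- Bound for the probability of a downward step in the pattern. -/
noncomputable def Df (s : ℕ → Dir d) : ℝ≥0∞ := 128⁻¹ * (Yf s + 24)

lemma Pat.int {j : Fin d} {s : ℕ → Dir d} {n : ℕ} (hp : Pat j s n) {q : Law d} {r : ℝ}
    (h : Hq q r) (hN : Nice (trace (pth s))) :
    Wt q (trace (pth s)) (pth s n) (s n) + kap q r ≤
      ∫⁻ u, Wi q (trace (walk (trace (pth s)) 0 u)) (pth s n) (s n) ∂iid (drv q) +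
        kap q r * Df (sh (n + 6) s) +
        (8 + Wt q (trace (pth s)) (pth s n) (s n) * (2 * (kap q r)⁻¹)) := by
  set W := Wt q (trace (pth s)) (pth s n) (s n) with hW
  set B := {u | s n ∉ allowed (trace (walk (trace (pth s)) 0 u)) (pth s n)} with hB
  set B' := {u | s (n + 2) ∉ allowed (trace (walk (trace (pth s)) 0 u)) (pth s (n + 2))} with hB'
  set C := {u | ∃ m, lv (walk (trace (pth s)) 0 u m) = ht s n + 1 ∧
      stp (trace (pth s)) 0 u m = dn} with hC
  have hBm : MeasurableSet B := measurableSet_notMem_allowed _ _ _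
  have hBm' : MeasurableSet B' := measurableSet_notMem_allowed _ _ _
  have hCm : MeasurableSet C := by
    simp only [hC, Set.ofPred_exists]
    exact MeasurableSet.iUnion fun m => (measurableSet_eq_fun (by fun_prop)
      measurable_const).inter (measurableSet_eq_fun (by fun_prop) measurable_const)
  have hBp : iid (drv q) B ≤ 2 * (kap q r)⁻¹ := hp.goodII.prob h hN (by rw [hp.s0]; exact hp.hj)
  have hBp' : iid (drv q) B' ≤ 2 * (kap q r)⁻¹ := hp.goodII_top.prob h hN
    (by rw [show s (n + 2) = (j, false) from hp.word.2.2.1]; exact hp.hj)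
  have hCp : iid (drv q) C ≤ Df (sh (n + 6) s) := by
    calc iid (drv q) C = 128⁻¹ * (128 * iid (drv q) C) := by
          rw [← mul_assoc, ENNReal.inv_mul_cancel (by norm_num) (by norm_num), one_mul]
      _ ≤ _ := mul_le_mul' le_rfl (hp.prob_down h hN)
  have hk : kap q r * (2 * (kap q r)⁻¹) = 2 := by
    rw [mul_left_comm, ENNReal.mul_inv_cancel h.kap_ne_zero (kap_ne_top q r), mul_one]
  calc W + kap q r = ∫⁻ _, W + kap q r ∂iid (drv q) := by simp
    _ ≤ ∫⁻ u, (Wi q (trace (walk (trace (pth s)) 0 u)) (pth s n) (s n) +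
          (4 + B.indicator (fun _ => W + kap q r) u + B'.indicator (fun _ => kap q r) u +
            C.indicator (fun _ => kap q r) u)) ∂iid (drv q) := by
        refine lintegral_mono_ae ?_
        filter_upwards [ae_nice' h.rev hN] with u hu
        by_cases hb : u ∈ B
        · rw [Set.indicator_of_mem hb]
          exact le_add_left (le_add_right (le_add_right le_add_self))
        have hb' := not_not.1 hb
        have h1 := good_compare h.rev hN (Or.inr hp.goodII) hu.1 (trace_walk_subset (ne_pth s) u)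
          (ne_walk _ u) hb'
        have h2 : W ≤ Wt q (trace (walk (trace (pth s)) 0 u)) (pth s n) (s n) + 4 :=
          h1.trans (by gcongr; norm_num)
        rw [Wi, if_pos hb', Set.indicator_of_notMem hb, add_zero]
        by_cases hb2 : u ∈ B'
        · rw [Set.indicator_of_mem hb2, ← add_assoc, ← add_assoc]
          exact le_add_right (by gcongr)
        rw [Set.indicator_of_notMem hb2, add_zero]
        by_cases hc : u ∈ C
        · rw [Set.indicator_of_mem hc, ← add_assoc]
          gcongr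
        · rw [Set.indicator_of_notMem hc, add_zero]
          exact hp.compare h hN hu.1 hu.2 hb' (not_not.1 hb2) hc
    _ = ∫⁻ u, Wi q (trace (walk (trace (pth s)) 0 u)) (pth s n) (s n) ∂iid (drv q) +
          (4 + (W + kap q r) * iid (drv q) B + kap q r * iid (drv q) B' +
          kap q r * iid (drv q) C) := by
        have m1 : Measurable fun u => 4 + B.indicator (fun _ => W + kap q r) u +
            B'.indicator (fun _ => kap q r) u + C.indicator (fun _ => kap q r) u :=
          ((Measurable.fun_add measurable_const (measurable_const.indicator hBm)).fun_add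
            (measurable_const.indicator hBm')).fun_add (measurable_const.indicator hCm)
        rw [lintegral_add_right _ m1,
          lintegral_add_right _ (measurable_const.indicator hCm),
          lintegral_add_right _ (measurable_const.indicator hBm'),
          lintegral_add_left measurable_const, lintegral_indicator_const hBm,
          lintegral_indicator_const hBm', lintegral_indicator_const hCm]
        simp
    _ ≤ ∫⁻ u, Wi q (trace (walk (trace (pth s)) 0 u)) (pth s n) (s n) ∂iid (drv q) +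
          (4 + (W + kap q r) * (2 * (kap q r)⁻¹) + kap q r * (2 * (kap q r)⁻¹) +
          kap q r * Df (sh (n + 6) s)) := by gcongr
    _ = _ := by rw [add_mul, hk]; ring

lemma Wt_edge {q : Law d} (hq : Rev q) (E : Set (Sym2 (V d))) {s : ℕ → Dir d}
    {a : V d × Fin d} {n : ℕ} (he : s(a.1, a.1 + vec (a.2, true)) = s(pth s n, pth s (n + 1))) :
    Wt q E (pth s n) (s n) = Wt q E a.1 (a.2, true) := by
  rw [Wt, Wt, edge_cE hq (steps_pth s) he, ← steps_pth s n]
  rcases Sym2.eq_iff.1 he with ⟨h1, h2⟩ | ⟨h1, h2⟩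
  · rw [h2, h1]
  · rw [h2, h1, add_comm]

lemma Wi_edge {q : Law d} (hq : Rev q) (E : Set (Sym2 (V d))) {s : ℕ → Dir d}
    {a : V d × Fin d} {n : ℕ} (he : s(a.1, a.1 + vec (a.2, true)) = s(pth s n, pth s (n + 1))) :
    Wi q E (pth s n) (s n) = Wi q E a.1 (a.2, true) := by
  unfold Wi
  rw [Wt_edge hq E he]
  refine if_congr ?_ rfl rfl
  rw [mem_allowed, mem_allowed, he, steps_pth s n]

/-- Expected time spent on an edge below level `K`. -/
noncomputable def Lt (q : Law d) (E : Set (Sym2 (V d))) (K : ℤ) (a : V d × Fin d) : ℝ≥0∞ :=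
  cE q a.1 (a.2, true) * (vI q E 0 a.1 +
    if lv (a.1 + vec (a.2, true)) < K then vI q E 0 (a.1 + vec (a.2, true)) else 0)

lemma Lt_le (q : Law d) (E : Set (Sym2 (V d))) (K : ℤ) (a : V d × Fin d) :
    Lt q E K a ≤ Wt q E a.1 (a.2, true) := by
  unfold Lt Wt
  gcongr
  split_ifs <;> simp

lemma Lt_eq (q : Law d) (E : Set (Sym2 (V d))) {K : ℤ} {a : V d × Fin d} (h1 : a.2 ≠ 0)
    (h2 : lv a.1 < K) : Lt q E K a = Wt q E a.1 (a.2, true) := by
  rw [Lt, Wt, if_pos]
  rw [lv_add, lv_hz (e := (a.2, true)) h1]; omega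

lemma Rec.unique {s : ℕ → Dir d} {n n' : ℕ} (h : Rec s n) (h' : Rec s n') (he : ht s n = ht s n') :
    n = n' := by
  rcases lt_trichotomy n n' with h1 | h1 | h1
  · have := h' n h1; omega
  · exact h1
  · have := h n' h1; omega

open Classical in
/-- The error term. -/
noncomputable def Err (κ t : ℝ≥0∞) (K : ℤ) (s : ℕ → Dir d) : ℝ≥0∞ :=
  12288 * occS K (Zf 1) s + 2048 * κ * Zf 1 s + 2048 * κ * t⁻¹ ^ 3 * occS K (Zf t) s

open Classical in
lemma quenched_pat {q : Law d} {r : ℝ} (h : Hq q r) {s : ℕ → Dir d} (j : Fin d)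
    (hfin : ∀ J : ℤ, {n | ht s n < J}.Finite) (hc : ∀ N, ∃ β, N < β ∧ IsCut s β) {K : ℤ}
    (hK : 0 < K) {t : ℝ≥0∞} (ht1 : 1 ≤ t) (ht2 : t ≠ ⊤) :
    ∫⁻ u, occ K (walk (trace (pth s)) 0 u) ∂iid (drv q) +
        kap q r * ∑' n, (if Pat j s n ∧ ht s n < K then 1 else 0) ≤
      ∫⁻ u, ∫⁻ u', occ K (walk (trace (walk (trace (pth s)) 0 u)) 0 u') ∂iid (drv q) ∂iid (drv q) +
        kap q r * ∑' n, (if Pat j s n ∧ ht s n < K then Df (sh (n + 6) s) else 0) +
        Err (kap q r) t K s := by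
  have hN : Nice (trace (pth s)) := by simpa using nice_pth hfin false
  set E := trace (pth s) with hE
  set κ := kap q r with hκ
  let ℓ : (ℕ → ℝ≥0∞) → V d × Fin d → ℝ≥0∞ := fun f a =>
    ∑' n, if Pat j s n ∧ (pth s n, j) = a then f n else 0
  have hℓ : ∀ f : ℕ → ℝ≥0∞, ∑ a ∈ DE E K, ℓ f a = ∑' n, if Pat j s n ∧ ht s n < K then f n else 0 := by
    intro f
    rw [← Summable.tsum_finsetSum fun _ _ => ENNReal.summable]
    refine tsum_congr fun n => ?_
    by_cases hp : Pat j s n
    · simp only [hp, true_and, Finset.sum_ite_eq, hN.mem_DE]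
      refine if_congr (and_iff_right ?_) rfl rfl
      rw [← hp.s0]; exact (steps_pth s).mem_allowed n
    · simp [hp]
  let I : V d × Fin d → ℝ≥0∞ := fun a =>
    ∫⁻ u, (if (a.2, true) ∈ allowed (trace (walk E 0 u)) a.1 then Lt q (trace (walk E 0 u)) K a
      else 0) ∂iid (drv q)
  have hI : ∑ a ∈ DE E K, I a ≤
      ∫⁻ u, ∫⁻ u', occ K (walk (trace (walk E 0 u)) 0 u') ∂iid (drv q) ∂iid (drv q) := by
    have hsup : ∀ (F : Finset (V d × Fin d)) (f : V d × Fin d → (ℕ → Ins d) → ℝ≥0∞),
        ∑ a ∈ F, ∫⁻ u, f a u ∂iid (drv q) ≤ ∫⁻ u, ∑ a ∈ F, f a u ∂iid (drv q) := by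
      intro F f
      induction F using Finset.induction_on with
      | empty => simp
      | insert a F ha ih =>
        simp only [Finset.sum_insert ha]
        exact (add_le_add le_rfl ih).trans (le_lintegral_add _ _)
    refine (hsup _ _).trans (lintegral_mono_ae ?_)
    filter_upwards [ae_nice' h.rev hN] with u hu
    rw [hu.1.lintegral_occ h.rev (ne_walk E u), ← Finset.sum_filter]
    refine Finset.sum_le_sum_of_subset fun a ha => ?_
    obtain ⟨h1, h2⟩ := mem_filter.1 ha
    exact hu.1.mem_DE.2 ⟨h2, (hN.mem_DE.1 h1).2⟩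
  let φ : V d × Fin d → ℝ≥0∞ := fun a => (Lt q E K a + κ * ℓ (fun _ => 1) a) -
    (I a + κ * ℓ (fun n => Df (sh (n + 6) s)) a)
  have hφ : ∑ a ∈ DE E K, φ a ≤ Err κ t K s := by
    refine (sum_blocks hc hK _ (fun a ha => hN.mem_DE.1 ha) φ
      (fun α T => (12 + 2 * κ * if α = 0 ∨ 3 ≤ nH (sh α s) T then 1 else 0) * Mb s α T)
      (fun α T => 12288 * ((∏ m ∈ range T, wZ 1 (sh α s m)) * Yf (sh T (sh α s))) +
        (if α = 0 then 2048 * κ * ((∏ m ∈ range T, wZ 1 (s m)) * Yf (sh T s)) else 0) +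
        2048 * κ * t⁻¹ ^ 3 * ((∏ m ∈ range T, wZ t (sh α s m)) * Yf (sh T (sh α s))))
      (fun a ha n α T he h1 h2 hb => ?_) (fun α T hb => ?_)).trans ?_
    · obtain ⟨ha1, ha2⟩ := hN.mem_DE.1 ha
      have hW : Wt q E a.1 (a.2, true) ≤ 2 * (if a.2 = 0 then 1 else κ) * Mb s α T :=
        h.edge_le_Mb hN (ne_pth s) subset_rfl hfin hb h1 h2 ha1 he
      have hM := one_le_Mb s α T
      have hk : κ * κ⁻¹ = 1 := ENNReal.mul_inv_cancel h.kap_ne_zero (kap_ne_top q r)
      have hsn : (s n).1 = a.2 := by rcases edge_cases (steps_pth s) he with h3 | h3 <;> rw [h3.2]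
      have hIW : a.2 ≠ 0 → I a = ∫⁻ u, Wi q (trace (walk E 0 u)) a.1 (a.2, true) ∂iid (drv q) :=
        fun h3 => lintegral_congr fun u => by rw [Wi, Lt_eq q _ h3 ha2]
      have hW4 : a.2 ≠ 0 → Wt q E a.1 (a.2, true) * (2 * κ⁻¹) ≤ 4 * Mb s α T := fun h3 => by
        rw [if_neg h3] at hW
        calc _ ≤ 2 * κ * Mb s α T * (2 * κ⁻¹) := by gcongr
          _ = 4 * (κ * κ⁻¹) * Mb s α T := by ring
          _ = _ := by rw [hk, mul_one]
      refine tsub_le_iff_left.2 ?_
      by_cases hp : ∃ n0, Pat j s n0 ∧ (pth s n0, j) = a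
      · obtain ⟨n0, hp, rfl⟩ := hp
        have e1 : ∀ f : ℕ → ℝ≥0∞, ℓ f (pth s n0, j) = f n0 := fun f => by
          simp only [ℓ]
          rw [tsum_eq_single n0, if_pos ⟨hp, rfl⟩]
          intro n' hn'
          rw [if_neg]
          rintro ⟨h3, h4⟩
          exact hn' (h3.first.unique hp.first (congrArg lv (Prod.mk.inj h4).1))
        have h3 := hp.int h hN
        rw [hp.s0] at h3
        rw [e1, e1, mul_one, Lt_eq q E hp.hj ha2, hIW hp.hj]
        refine h3.trans (add_le_add le_rfl ?_)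
        calc 8 + Wt q E (pth s n0) (j, true) * (2 * κ⁻¹) ≤ 8 * Mb s α T + 4 * Mb s α T :=
              add_le_add (le_mul_of_one_le_right' hM) (hW4 hp.hj)
          _ = 12 * Mb s α T := by ring
          _ ≤ _ := by gcongr; exact le_self_add
      · have e1 : ℓ (fun _ => 1) a = 0 := ENNReal.tsum_eq_zero.2 fun n' => if_neg fun h3 => hp ⟨n', h3⟩
        rw [e1, mul_zero, add_zero]
        refine (Lt_le q E K a).trans ?_
        by_cases h3 : a.2 = 0
        · rw [if_pos h3] at hW
          refine hW.trans (le_add_left ?_)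
          gcongr
          exact le_add_right (by norm_num)
        by_cases h4 : α = 0 ∨ 3 ≤ nH (sh α s) T
        · rw [if_neg h3] at hW
          refine hW.trans (le_add_left ?_)
          rw [if_pos h4, mul_one]
          gcongr
          exact le_add_self
        · push Not at h4
          have h5 := good_int h hN (hb.good h4.1 h1 h2 (by rwa [hsn]) (by omega)) (by rwa [hsn])
          simp only [Wt_edge h.rev _ he, Wi_edge h.rev _ he] at h5
          rw [hIW h3]
          refine h5.trans (add_le_add le_self_add ?_)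
          calc 2 + Wt q E a.1 (a.2, true) * (2 * κ⁻¹) ≤ 2 * Mb s α T + 4 * Mb s α T :=
                add_le_add (le_mul_of_one_le_right' hM) (hW4 h3)
            _ = 6 * Mb s α T := by ring
            _ ≤ _ := by gcongr; exact le_add_right (by norm_num)
    · have h1 := hb.T_mul_Mb
      set P1 := (∏ m ∈ range T, wZ 1 (sh α s m)) * Yf (sh T (sh α s)) with hP1
      calc (T : ℝ≥0∞) * ((12 + 2 * κ * if α = 0 ∨ 3 ≤ nH (sh α s) T then 1 else 0) * Mb s α T)
          = (12 + 2 * κ * if α = 0 ∨ 3 ≤ nH (sh α s) T then 1 else 0) * (T * Mb s α T) := by ring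
        _ ≤ (12 + 2 * κ * if α = 0 ∨ 3 ≤ nH (sh α s) T then 1 else 0) * (1024 * P1) :=
            mul_le_mul' le_rfl h1
        _ = 12288 * P1 + 2048 * κ * ((if α = 0 ∨ 3 ≤ nH (sh α s) T then 1 else 0) * P1) := by ring
        _ ≤ _ := by
            rw [add_assoc]
            refine add_le_add le_rfl ?_
            by_cases h2 : α = 0
            · subst h2
              simp only [true_or, if_true, one_mul, hP1, sh_zero]
              exact le_self_add
            by_cases h3 : 3 ≤ nH (sh α s) T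
            · rw [if_pos (Or.inr h3), one_mul, mul_assoc (2048 * κ), ← mul_assoc (t⁻¹ ^ 3)]
              refine le_add_left (mul_le_mul' le_rfl (mul_le_mul' ?_ le_rfl))
              exact prod_wZ_le ht1 ht2 _ h3
            · rw [if_neg (by tauto)]; simp
    · rw [Err, occS, occS, ← ENNReal.tsum_mul_left, ← ENNReal.tsum_mul_left,
        ← tsum_ite_eq 0 (fun _ : ℕ => 2048 * κ * Zf 1 s), ← ENNReal.tsum_add, ← ENNReal.tsum_add]
      refine ENNReal.tsum_le_tsum fun α => ?_
      by_cases h1 : ht s α < K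
      · simp only [if_pos h1, ENNReal.tsum_add, ENNReal.tsum_mul_left]
        refine add_le_add (add_le_add le_rfl ?_) le_rfl
        split_ifs
        · rw [ENNReal.tsum_mul_left]; exact le_rfl
        · simp
      · simp only [if_neg h1]; exact zero_le
  calc ∫⁻ u, occ K (walk E 0 u) ∂iid (drv q) + κ * ∑' n, (if Pat j s n ∧ ht s n < K then 1 else 0)
      = ∑ a ∈ DE E K, (Lt q E K a + κ * ℓ (fun _ => 1) a) := by
        rw [Finset.sum_add_distrib, ← Finset.mul_sum, hℓ, hN.lintegral_occ h.rev (ne_pth s)]; rfl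
    _ ≤ ∑ a ∈ DE E K, (I a + κ * ℓ (fun n => Df (sh (n + 6) s)) a + φ a) :=
        Finset.sum_le_sum fun a _ => le_add_tsub
    _ ≤ _ := by
        rw [Finset.sum_add_distrib, Finset.sum_add_distrib, ← Finset.mul_sum, hℓ]
        gcongr

end Pool.Agent.Lib.MP_24597f_pr
end
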